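import Pool.Agent.H72.KB.ClB

/-!
# Row ClC: integration facts for the classes `Cl p q`

* `Cl_int`: continuous, bounded by `C bd p q` which is integrable (`bd_int`).
* `Cl_ibp`: `integral_mul_deriv_eq_deriv_mul_of_integrable`-type lemma (all products have class
  `Cl (p+p') (q+q')` by `Cl_mul`, `Cl_deriv`) .
* `Cl_sup`: `f(y)^2 = 2 ∫_{-∞}^y f f'` (`Cl_tendsto`, `integral_Iic_of_hasDerivAt_of_tendsto`), so
  `|f y|^2 ≤ 2 ∫ |f||f'| ≤ 2 (∫ f²)^{1/2} (∫ f'²)^{1/2}` (Cauchy-Schwarz, e.g. from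
  `0 ≤ ∫ (s|f| - |f'|)²` for all `s`, discriminant), then square.
-/

open MeasureTheory Filter Topology Set
open scoped ContDiff

namespace H72KB

open H98KB

theorem ClC_abs {p q : ℝ} {f : ℝ → ℝ} (hf : Cl p q f) :
    ∃ C : ℝ, 0 ≤ C ∧ ∀ y, |f y| ≤ C * bd p q y := by
  obtain ⟨C, hC⟩ := hf.2 0
  refine ⟨|C|, abs_nonneg C, fun y => ?_⟩
  have h1 := hC y
  rw [iteratedDeriv_zero] at h1
  exact h1.trans (mul_le_mul_of_nonneg_right (le_abs_self C) (bd_pos p q y).le)

theorem Cl_bdd {p q : ℝ} {f : ℝ → ℝ} (hp : 0 ≤ p) (hq : 0 ≤ q) (hf : Cl p q f) :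
    ∃ C : ℝ, ∀ y, |f y| ≤ C := by
  obtain ⟨C, hC0, hC⟩ := ClC_abs hf
  refine ⟨C, fun y => (hC y).trans ?_⟩
  have h := mul_le_mul_of_nonneg_left (bd_le_one hp hq y) hC0
  simpa using h

theorem Cl_int {p q : ℝ} {f : ℝ → ℝ} (hp : 0 < p) (hq : 0 < q) (hf : Cl p q f) :
    Integrable f := by
  obtain ⟨C, hC0, hC⟩ := ClC_abs hf
  refine Integrable.mono' ((bd_int hp hq).const_mul C) hf.1.continuous.aestronglyMeasurable
    (Eventually.of_forall fun y => ?_)
  rw [Real.norm_eq_abs]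
  exact hC y

/-- integrability of a product with a bounded continuous function -/
theorem Cl_int_mul {p q : ℝ} {f g : ℝ → ℝ} (hp : 0 < p) (hq : 0 < q) (hf : Cl p q f)
    (hg : Continuous g) (C : ℝ) (hC : ∀ y, |g y| ≤ C) : Integrable (fun y => f y * g y) := by
  obtain ⟨D, hD0, hD⟩ := ClC_abs hf
  refine Integrable.mono' (((bd_int hp hq).const_mul D).mul_const C)
    (hf.1.continuous.mul hg).aestronglyMeasurable (Eventually.of_forall fun y => ?_)
  rw [Real.norm_eq_abs, abs_mul]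
  exact mul_le_mul (hD y) (hC y) (abs_nonneg _) (mul_nonneg hD0 (bd_pos p q y).le)

theorem Cl_tendsto {p q : ℝ} {f : ℝ → ℝ} (hp : 0 < p) (hq : 0 < q) (hf : Cl p q f) :
    Tendsto f atTop (𝓝 0) ∧ Tendsto f atBot (𝓝 0) := by
  obtain ⟨C, hC0, hC⟩ := ClC_abs hf
  have hm : 0 < min p q := lt_min hp hq
  have hb : ∀ y, |f y| ≤ C * Real.exp (-(min p q) * |y|) := fun y =>
    (hC y).trans (mul_le_mul_of_nonneg_left (bd_le_exp y) hC0)
  have key : ∀ l : Filter ℝ, Tendsto (fun y : ℝ => |y|) l atTop → Tendsto f l (𝓝 0) := by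
    intro l hl
    have h1 : Tendsto (fun y : ℝ => -(min p q) * |y|) l atBot :=
      hl.const_mul_atTop_of_neg (by linarith)
    have h2 : Tendsto (fun y : ℝ => C * Real.exp (-(min p q) * |y|)) l (𝓝 0) := by
      have h3 := (Real.tendsto_exp_atBot.comp h1).const_mul C
      simpa using h3
    exact squeeze_zero_norm (fun y => by rw [Real.norm_eq_abs]; exact hb y) h2
  exact ⟨key _ tendsto_abs_atTop_atTop, key _ tendsto_abs_atBot_atTop⟩

/-- integration by parts: `∫ f' g = - ∫ f g'` -/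
theorem Cl_ibp {p q p' q' : ℝ} {f g : ℝ → ℝ} (hp : 0 < p + p') (hq : 0 < q + q') (hf : Cl p q f)
    (hg : Cl p' q' g) : ∫ y, deriv f y * g y = -∫ y, f y * deriv g y := by
  have hfd : ∀ x, HasDerivAt f (deriv f x) x := fun x =>
    ((hf.1.differentiable (by simp)) x).hasDerivAt
  have hgd : ∀ x, HasDerivAt g (deriv g x) x := fun x =>
    ((hg.1.differentiable (by simp)) x).hasDerivAt
  have h1 : Integrable (fun y => f y * deriv g y) := Cl_int hp hq (Cl_mul hf (Cl_deriv hg))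
  have h2 : Integrable (fun y => deriv f y * g y) := Cl_int hp hq (Cl_mul (Cl_deriv hf) hg)
  have h3 : Integrable (fun y => f y * g y) := Cl_int hp hq (Cl_mul hf hg)
  have h := integral_mul_deriv_eq_deriv_mul_of_integrable (fun x _ => hfd x) (fun x _ => hgd x)
    h1 h2 h3
  rw [h, neg_neg]

/-- `f(y)^4 ≤ 4 (∫ f²)(∫ f'²)` -/
theorem Cl_sup {p q : ℝ} {f : ℝ → ℝ} (hp : 0 < p) (hq : 0 < q) (hf : Cl p q f) (y : ℝ) :
    |f y| ^ 4 ≤ 4 * (∫ z, (f z) ^ 2) * ∫ z, (deriv f z) ^ 2 := by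
  have hd := Cl_deriv hf
  have hpp : 0 < p + p := by linarith
  have hqq : 0 < q + q := by linarith
  have hfd : ∀ x, HasDerivAt f (deriv f x) x := fun x =>
    ((hf.1.differentiable (by simp)) x).hasDerivAt
  have h1 : Integrable (fun z => f z * deriv f z) := Cl_int hpp hqq (Cl_mul hf hd)
  have h2 : Integrable (fun z => f z ^ 2) := by
    have h := Cl_int hpp hqq (Cl_mul hf hf)
    refine h.congr (Eventually.of_forall fun z => ?_)
    simp only [pow_two]
  have h3 : Integrable (fun z => deriv f z ^ 2) := by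
    have h := Cl_int hpp hqq (Cl_mul hd hd)
    refine h.congr (Eventually.of_forall fun z => ?_)
    simp only [pow_two]
  have h4 : Integrable (fun z => |f z| * |deriv f z|) := by
    have h := h1.abs
    refine h.congr (Eventually.of_forall fun z => ?_)
    simp only [abs_mul]
  -- the fundamental theorem of calculus
  have h5 : ∫ z in Iic y, 2 * (f z * deriv f z) = f y ^ 2 - 0 := by
    refine integral_Iic_of_hasDerivAt_of_tendsto' (f := fun z => f z ^ 2) (fun x _ => ?_)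
      (h1.const_mul 2).integrableOn ?_
    · have h := (hfd x).pow 2
      refine h.congr_deriv ?_
      push_cast
      ring
    · have h := (Cl_tendsto hp hq hf).2.pow 2
      simpa using h
  have h6 : f y ^ 2 ≤ 2 * ∫ z, |f z| * |deriv f z| := by
    have h7 : f y ^ 2 = ∫ z in Iic y, 2 * (f z * deriv f z) := by rw [h5, sub_zero]
    have h8 : ∫ z in Iic y, 2 * (f z * deriv f z) ≤ ∫ z in Iic y, 2 * (|f z| * |deriv f z|) := by
      refine integral_mono (h1.const_mul 2).integrableOn (h4.const_mul 2).integrableOn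
        (fun z => ?_)
      have h9 : f z * deriv f z ≤ |f z| * |deriv f z| := by
        rw [← abs_mul]
        exact le_abs_self _
      simpa using h9
    have h9 : ∫ z in Iic y, 2 * (|f z| * |deriv f z|) ≤ ∫ z, 2 * (|f z| * |deriv f z|) :=
      setIntegral_le_integral (h4.const_mul 2)
        (Eventually.of_forall fun z => by positivity)
    have h10 : ∫ z, 2 * (|f z| * |deriv f z|) = 2 * ∫ z, |f z| * |deriv f z| :=
      integral_const_mul _ _
    rw [h10] at h9
    rw [h7]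
    exact h8.trans h9
  -- Cauchy-Schwarz
  have h10 : (∫ z, |f z| * |deriv f z|) ^ 2 ≤ (∫ z, f z ^ 2) * ∫ z, deriv f z ^ 2 := by
    have h11 : ∀ s : ℝ, 0 ≤ (∫ z, f z ^ 2) * (s * s) + (-(2 * ∫ z, |f z| * |deriv f z|)) * s +
        ∫ z, deriv f z ^ 2 := by
      intro s
      have h12 : 0 ≤ ∫ z, (s * |f z| - |deriv f z|) ^ 2 :=
        integral_nonneg fun z => sq_nonneg _
      have h13 : ∀ z, (s * |f z| - |deriv f z|) ^ 2 =
          s ^ 2 * f z ^ 2 - 2 * s * (|f z| * |deriv f z|) + deriv f z ^ 2 := by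
        intro z
        have e1 := sq_abs (f z)
        have e2 := sq_abs (deriv f z)
        linear_combination s ^ 2 * e1 + e2
      have h14 : ∫ z, (s * |f z| - |deriv f z|) ^ 2 =
          s ^ 2 * (∫ z, f z ^ 2) - 2 * s * (∫ z, |f z| * |deriv f z|) + ∫ z, deriv f z ^ 2 := by
        have e1 : Integrable (fun z => s ^ 2 * f z ^ 2) := h2.const_mul _
        have e2 : Integrable (fun z => 2 * s * (|f z| * |deriv f z|)) := h4.const_mul _
        have e3 : Integrable (fun z => s ^ 2 * f z ^ 2 - 2 * s * (|f z| * |deriv f z|)) :=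
          e1.sub e2
        rw [integral_congr_ae (Eventually.of_forall h13), integral_add e3 h3,
          integral_sub e1 e2, integral_const_mul, integral_const_mul]
      rw [h14] at h12
      nlinarith [h12]
    have h15 := discrim_le_zero h11
    unfold discrim at h15
    nlinarith [h15]
  have h16 : 0 ≤ f y ^ 2 := sq_nonneg _
  have h17 : (f y ^ 2) ^ 2 ≤ (2 * ∫ z, |f z| * |deriv f z|) ^ 2 := pow_le_pow_left₀ h16 h6 2
  have h18 : |f y| ^ 4 = (f y ^ 2) ^ 2 := by
    rw [← sq_abs (f y)]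
    ring
  rw [h18]
  calc (f y ^ 2) ^ 2 ≤ (2 * ∫ z, |f z| * |deriv f z|) ^ 2 := h17
    _ = 4 * (∫ z, |f z| * |deriv f z|) ^ 2 := by ring
    _ ≤ 4 * ((∫ z, f z ^ 2) * ∫ z, deriv f z ^ 2) := by linarith
    _ = 4 * (∫ z, (f z) ^ 2) * ∫ z, (deriv f z) ^ 2 := by ring

end H72KB
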