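import Pool.Agent.H72.KB.Scal
import Pool.Agent.H72.KB.ClC

/-!
# Row Mass: almost conservation (decrease) of the mass

Proof.  `M(t) = ∫ U(t,x)² dx`.  `App.bound`: `|∂^j U|, |∂^j e| ≤ C bd (α/2) (1/16)` uniformly in `t ∈ [0,T]` (`α > 0`), so
`M` is continuous on `[0,T]` (dominated convergence, `App.cont 0`), and for `t ∈ (0,T)`
(`hasDerivAt_integral_of_dominated_loc_of_deriv_le`, `App.evol 0`; domination: `|∂_t U| ≤ C bd (α/2) (1/16)`: it is
`-U_xxx + U_xx - U^k U_x - e_x`)
 `M'(t) = 2 ∫ U (-U_xxx + U_xx - (fl k U)_x - e_x) = -2 ∫ U_x² + 2 ∫ U_x e ≤ ∫ e² ≤ nw α e ≤ ν`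
(`Cl_ibp`: `∫ U U_xxx = -∫ U_x U_xx = 0` as `∫ U_x U_xx = -∫ U_xx U_x`; `∫ U U_xx = -∫ U_x²`; `∫ U (fl U)_x = -∫ U_x fl(U)
= -∫ (Fl(U))_x = 0`; `-∫ U e_x = ∫ U_x e`; `2 U_x e ≤ 2U_x² + e²/2`; `∫ e² ≤ nw` by `sq_le_nw`).
Mean value inequality: `M(t) - M(0) ≤ ν t`.
-/

open MeasureTheory Filter Topology Set
open scoped ContDiff

namespace H72KB

open H98KB

theorem Mass_fl {k : ℕ} {p q : ℝ} {f : ℝ → ℝ} (hp : 0 ≤ p) (hq : 0 ≤ q) (hf : Cl p q f) :
    Cl p q (fun y => fl k (f y)) := by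
  have h := Cl_smul (1 / ((k : ℝ) + 1)) (Cl_pow hp hq hf (k + 1) (by omega))
  have e : (fun y => fl k (f y)) = fun y => 1 / ((k : ℝ) + 1) * f y ^ (k + 1) := by
    funext y
    unfold fl
    ring
  rw [e]
  exact h

theorem Mass_hd {p q : ℝ} {f : ℝ → ℝ} (hf : Cl p q f) (x : ℝ) : HasDerivAt f (deriv f x) x :=
  ((hf.1.differentiable (by simp)) x).hasDerivAt

theorem Mass_dfl {k : ℕ} {p q : ℝ} {f : ℝ → ℝ} (hf : Cl p q f) (x : ℝ) :
    deriv (fun y => fl k (f y)) x = f x ^ k * deriv f x := by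
  have h1 : HasDerivAt (fun y => fl k (f y)) (((k + 1 : ℕ) : ℝ) * f x ^ k * deriv f x / ((k : ℝ) + 1)) x := by
    have h2 := ((Mass_hd hf x).pow (k + 1)).div_const ((k : ℝ) + 1)
    refine h2.congr_deriv ?_
    simp
  rw [h1.deriv]
  have hk : (k : ℝ) + 1 ≠ 0 := by positivity
  push_cast
  field_simp

/-- the identity for the derivative of the mass -/
theorem Mass_id {k : ℕ} {p q : ℝ} {U e : ℝ → ℝ} (hp : 0 < p) (hq : 0 < q) (hU : Cl p q U)
    (he : Cl p q e) :
    ∫ x, 2 * U x * (-iteratedDeriv 3 U x + iteratedDeriv 2 U x - deriv (fun z => fl k (U z)) x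
      - deriv e x) = ∫ x, (-(2 * (deriv U x) ^ 2) + 2 * (deriv U x * e x)) := by
  have hpp : 0 < p + p := by linarith
  have hqq : 0 < q + q := by linarith
  have h1 := Cl_iter hU 1
  have h2 := Cl_iter hU 2
  have h3 := Cl_iter hU 3
  have e1 : iteratedDeriv 1 U = deriv U := iteratedDeriv_one
  have e2 : iteratedDeriv 2 U = deriv (deriv U) := by
    rw [iteratedDeriv_succ, iteratedDeriv_one]
  have e3 : iteratedDeriv 3 U = deriv (iteratedDeriv 2 U) := iteratedDeriv_succ
  rw [e1] at h1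
  have hF := Mass_fl (k := k) hp.le hq.le hU
  -- integrability
  have i3 : Integrable (fun x => iteratedDeriv 3 U x * U x) := Cl_int hpp hqq (Cl_mul h3 hU)
  have i2 : Integrable (fun x => iteratedDeriv 2 U x * U x) := Cl_int hpp hqq (Cl_mul h2 hU)
  have iF : Integrable (fun x => deriv (fun z => fl k (U z)) x * U x) :=
    Cl_int hpp hqq (Cl_mul (Cl_deriv hF) hU)
  have ie : Integrable (fun x => deriv e x * U x) := Cl_int hpp hqq (Cl_mul (Cl_deriv he) hU)
  have iU : Integrable (fun x => deriv U x * deriv U x) := Cl_int hpp hqq (Cl_mul h1 h1)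
  have ieU : Integrable (fun x => e x * deriv U x) := Cl_int hpp hqq (Cl_mul he h1)
  -- the integrals
  have a3 : ∫ x, iteratedDeriv 3 U x * U x = 0 := by
    have b1 := Cl_ibp hpp hqq h2 hU
    have b2 := Cl_ibp hpp hqq h1 h1
    rw [← e3] at b1
    rw [b1, e2]
    have b3 : ∫ x, deriv U x * deriv (deriv U) x = ∫ x, deriv (deriv U) x * deriv U x :=
      integral_congr_ae (Eventually.of_forall fun x => mul_comm _ _)
    rw [b3] at b2
    have b4 : ∫ x, deriv (deriv U) x * deriv U x = 0 := by linarith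
    rw [b4, neg_zero]
  have a2 : ∫ x, iteratedDeriv 2 U x * U x = -∫ x, deriv U x * deriv U x := by
    rw [e2]
    exact Cl_ibp hpp hqq h1 hU
  have aF : ∫ x, deriv (fun z => fl k (U z)) x * U x = 0 := by
    have b1 := Cl_ibp hpp hqq hF hU
    have b2 : ∫ x, deriv (fun z => fl k (U z)) x * U x =
        ((k : ℝ) + 1) * ∫ x, fl k (U x) * deriv U x := by
      rw [← integral_const_mul]
      refine integral_congr_ae (Eventually.of_forall fun x => ?_)
      simp only
      rw [Mass_dfl hU x]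
      unfold fl
      have hk : (k : ℝ) + 1 ≠ 0 := by positivity
      field_simp
      ring
    have b3 : ((k : ℝ) + 2) * ∫ x, fl k (U x) * deriv U x = 0 := by
      linarith
    have hk : (k : ℝ) + 2 ≠ 0 := by positivity
    have b4 : ∫ x, fl k (U x) * deriv U x = 0 := by
      rcases mul_eq_zero.1 b3 with h | h
      · exact absurd h hk
      · exact h
    rw [b1, b4, neg_zero]
  have ae : ∫ x, deriv e x * U x = -∫ x, e x * deriv U x := Cl_ibp hpp hqq he hU
  have l1 : ∫ x, 2 * U x * (-iteratedDeriv 3 U x + iteratedDeriv 2 U x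
      - deriv (fun z => fl k (U z)) x - deriv e x) =
      ∫ x, (2 * (iteratedDeriv 2 U x * U x) - 2 * (iteratedDeriv 3 U x * U x)
        - 2 * (deriv (fun z => fl k (U z)) x * U x) - 2 * (deriv e x * U x)) := by
    refine integral_congr_ae (Eventually.of_forall fun x => ?_)
    simp only
    ring
  have l2 : ∫ x, (-(2 * (deriv U x) ^ 2) + 2 * (deriv U x * e x)) =
      ∫ x, (2 * (e x * deriv U x) - 2 * (deriv U x * deriv U x)) := by
    refine integral_congr_ae (Eventually.of_forall fun x => ?_)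
    simp only
    ring
  have j1 : Integrable (fun x => 2 * (iteratedDeriv 2 U x * U x)
      - 2 * (iteratedDeriv 3 U x * U x)) := (i2.const_mul 2).sub (i3.const_mul 2)
  have j2 : Integrable (fun x => 2 * (iteratedDeriv 2 U x * U x)
      - 2 * (iteratedDeriv 3 U x * U x) - 2 * (deriv (fun z => fl k (U z)) x * U x)) :=
    j1.sub (iF.const_mul 2)
  rw [l1, l2, integral_sub j2 (ie.const_mul 2), integral_sub j1 (iF.const_mul 2),
    integral_sub (i2.const_mul 2) (i3.const_mul 2), integral_sub (ieU.const_mul 2)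
    (iU.const_mul 2), integral_const_mul, integral_const_mul, integral_const_mul,
    integral_const_mul, integral_const_mul, integral_const_mul, a3, a2, aF, ae]
  ring

theorem mass {k : ℕ} {T α ν : ℝ} {U e : ℝ → ℝ → ℝ} (hk : 1 ≤ k) (hT : 0 < T) (hα : 0 < α)
    (h : App k T α U e) (hν : ∀ t ∈ Icc 0 T, nw α (e t) ≤ ν)
    (hi : ∀ t ∈ Icc 0 T, Integrable (fun x => wt α x * ((e t x) ^ 2 + (deriv (e t) x) ^ 2))) :
    ∀ t ∈ Icc 0 T, ∫ x, (U t x) ^ 2 ≤ (∫ x, (U 0 x) ^ 2) + T * ν := by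
  have hp : 0 < α / 2 := by linarith
  have hq : (0 : ℝ) < 1 / 16 := by norm_num
  have hU : ∀ t ∈ Icc 0 T, Cl (α / 2) (1 / 16) (U t) := fun t ht =>
    ⟨h.smooth t ht, fun j => by
      obtain ⟨C, hC⟩ := h.bound j
      exact ⟨C, hC t ht⟩⟩
  have he : ∀ t ∈ Icc 0 T, Cl (α / 2) (1 / 16) (e t) := fun t ht =>
    ⟨h.smooth' t ht, fun j => by
      obtain ⟨C, hC⟩ := h.bound' j
      exact ⟨C, hC t ht⟩⟩
  have hbp : ∀ x, 0 < bd (α / 2) (1 / 16) x := fun x => bd_pos _ _ x
  have hb1 : ∀ x, bd (α / 2) (1 / 16) x ≤ 1 := fun x => bd_le_one hp.le hq.le x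
  have posC : ∀ j : ℕ, ∃ C : ℝ, 0 ≤ C ∧ ∀ t ∈ Icc 0 T, ∀ x,
      |iteratedDeriv j (U t) x| ≤ C * bd (α / 2) (1 / 16) x := by
    intro j
    obtain ⟨C, hC⟩ := h.bound j
    refine ⟨|C|, abs_nonneg C, fun t ht x => (hC t ht x).trans ?_⟩
    exact mul_le_mul_of_nonneg_right (le_abs_self C) (hbp x).le
  have posE : ∀ j : ℕ, ∃ C : ℝ, 0 ≤ C ∧ ∀ t ∈ Icc 0 T, ∀ x,
      |iteratedDeriv j (e t) x| ≤ C * bd (α / 2) (1 / 16) x := by
    intro j
    obtain ⟨C, hC⟩ := h.bound' j
    refine ⟨|C|, abs_nonneg C, fun t ht x => (hC t ht x).trans ?_⟩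
    exact mul_le_mul_of_nonneg_right (le_abs_self C) (hbp x).le
  obtain ⟨C0, hC0, hB0⟩ := posC 0
  obtain ⟨C1, hC1, hB1⟩ := posC 1
  obtain ⟨C2, hC2, hB2⟩ := posC 2
  obtain ⟨C3, hC3, hB3⟩ := posC 3
  obtain ⟨E1, hE1, hBE⟩ := posE 1
  simp only [iteratedDeriv_zero, iteratedDeriv_one] at hB0 hB1 hBE
  have hB0' : ∀ t ∈ Icc 0 T, ∀ x, |U t x| ≤ C0 := fun t ht x =>
    (hB0 t ht x).trans (mul_le_of_le_one_right hC0 (hb1 x))
  set V : ℝ → ℝ → ℝ := fun t x => -iteratedDeriv 3 (U t) x + iteratedDeriv 2 (U t) x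
    - deriv (fun z => fl k (U t z)) x - deriv (e t) x with hV
  have hVb : ∀ t ∈ Icc 0 T, ∀ x, |V t x| ≤
      (C3 + C2 + C0 ^ k * C1 + E1) * bd (α / 2) (1 / 16) x := by
    intro t ht x
    have b1 := hB3 t ht x
    have b2 := hB2 t ht x
    have b3 : |deriv (fun z => fl k (U t z)) x| ≤ C0 ^ k * C1 * bd (α / 2) (1 / 16) x := by
      rw [Mass_dfl (hU t ht) x, abs_mul, abs_pow, mul_assoc]
      exact mul_le_mul (pow_le_pow_left₀ (abs_nonneg _) (hB0' t ht x) k) (hB1 t ht x)
        (abs_nonneg _) (pow_nonneg hC0 k)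
    have b4 := hBE t ht x
    have b5 : |V t x| ≤ |iteratedDeriv 3 (U t) x| + |iteratedDeriv 2 (U t) x|
        + |deriv (fun z => fl k (U t z)) x| + |deriv (e t) x| := by
      rw [hV]
      simp only
      refine (abs_sub _ _).trans (add_le_add ((abs_sub _ _).trans (add_le_add
        ((abs_add_le _ _).trans (add_le_add (abs_neg _).le le_rfl)) le_rfl)) le_rfl)
    have b6 : (C3 + C2 + C0 ^ k * C1 + E1) * bd (α / 2) (1 / 16) x =
      C3 * bd (α / 2) (1 / 16) x + C2 * bd (α / 2) (1 / 16) x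
      + C0 ^ k * C1 * bd (α / 2) (1 / 16) x + E1 * bd (α / 2) (1 / 16) x := by ring
    rw [b6]
    linarith
  -- continuity of the mass
  have hcont : ContinuousOn (fun t => ∫ x, (U t x) ^ 2) (Icc 0 T) := by
    refine continuousOn_of_dominated (bound := fun x => C0 ^ 2 * bd (α / 2) (1 / 16) x) ?_ ?_
      ((bd_int hp hq).const_mul _) ?_
    · intro t ht
      exact ((h.smooth t ht).continuous.pow 2).aestronglyMeasurable
    · intro t ht
      refine Eventually.of_forall fun x => ?_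
      rw [Real.norm_eq_abs, abs_pow, pow_two, pow_two, mul_assoc]
      exact mul_le_mul (hB0' t ht x) (hB0 t ht x) (abs_nonneg _) hC0
    · refine Eventually.of_forall fun x => ?_
      have := h.cont 0 x
      simp only [iteratedDeriv_zero] at this
      exact this.pow 2
  -- the derivative
  have hder : ∀ t ∈ Ioo 0 T, HasDerivAt (fun t => ∫ x, (U t x) ^ 2)
      (∫ x, 2 * U t x * V t x) t := by
    intro t ht
    have hs : Ioo 0 T ∈ 𝓝 t := Ioo_mem_nhds ht.1 ht.2
    refine (hasDerivAt_integral_of_dominated_loc_of_deriv_le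
      (F' := fun t x => 2 * U t x * V t x)
      (bound := fun x => 2 * C0 * ((C3 + C2 + C0 ^ k * C1 + E1) * bd (α / 2) (1 / 16) x))
      hs ?_ ?_ ?_ ?_ (((bd_int hp hq).const_mul _).const_mul _) ?_).2
    · filter_upwards [hs] with s hs'
      exact ((h.smooth s (Ioo_subset_Icc_self hs')).continuous.pow 2).aestronglyMeasurable
    · have hc := Cl_int (by linarith) (by norm_num)
        (Cl_mul (hU t (Ioo_subset_Icc_self ht)) (hU t (Ioo_subset_Icc_self ht)))
      refine hc.congr (Eventually.of_forall fun x => ?_)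
      simp only [pow_two]
    · have ht' := Ioo_subset_Icc_self ht
      have c0 := (h.smooth t ht').continuous
      have c3 := (Cl_iter (hU t ht') 3).1.continuous
      have c2 := (Cl_iter (hU t ht') 2).1.continuous
      have cF := (Cl_deriv (Mass_fl (k := k) hp.le hq.le (hU t ht'))).1.continuous
      have ce := (Cl_deriv (he t ht')).1.continuous
      exact ((continuous_const.mul c0).mul (((c3.neg.add c2).sub cF).sub ce)).aestronglyMeasurable
    · refine Eventually.of_forall fun x s hs' => ?_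
      have hs'' := Ioo_subset_Icc_self hs'
      rw [Real.norm_eq_abs, abs_mul, abs_mul, abs_of_pos (zero_lt_two' ℝ)]
      exact mul_le_mul (mul_le_mul_of_nonneg_left (hB0' s hs'' x) zero_le_two) (hVb s hs'' x)
        (abs_nonneg _) (by positivity)
    · refine Eventually.of_forall fun x s hs' => ?_
      have hev := h.evol 0 s hs' x
      simp only [iteratedDeriv_zero] at hev
      have h2 := hev.pow 2
      refine h2.congr_deriv ?_
      rw [hV]
      simp only
      push_cast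
      ring
  have hderiv_le : ∀ t ∈ Ioo 0 T, ∫ x, 2 * U t x * V t x ≤ ν := by
    intro t ht
    have ht' := Ioo_subset_Icc_self ht
    have h1 := Mass_id (k := k) hp hq (hU t ht') (he t ht')
    have h2 : ∫ x, 2 * U t x * V t x =
        ∫ x, (-(2 * (deriv (U t) x) ^ 2) + 2 * (deriv (U t) x * e t x)) := h1
    have h3 := (sq_le_nw hα.le (h.smooth' t ht') (hi t ht')).1
    have iU : Integrable (fun x => (deriv (U t) x) ^ 2) := by
      have hc := Cl_int (by linarith) (by norm_num)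
        (Cl_mul (Cl_deriv (hU t ht')) (Cl_deriv (hU t ht')))
      refine hc.congr (Eventually.of_forall fun x => ?_)
      simp only [pow_two]
    have ie : Integrable (fun x => (e t x) ^ 2) := by
      have hc := Cl_int (by linarith) (by norm_num) (Cl_mul (he t ht') (he t ht'))
      refine hc.congr (Eventually.of_forall fun x => ?_)
      simp only [pow_two]
    have iUe : Integrable (fun x => deriv (U t) x * e t x) :=
      Cl_int (by linarith) (by norm_num) (Cl_mul (Cl_deriv (hU t ht')) (he t ht'))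
    have h4 : ∫ x, (-(2 * (deriv (U t) x) ^ 2) + 2 * (deriv (U t) x * e t x)) ≤
        ∫ x, (e t x) ^ 2 := by
      refine integral_mono ((iU.const_mul 2).neg.add (iUe.const_mul 2)) ie fun x => ?_
      nlinarith [sq_nonneg (2 * deriv (U t) x - e t x), sq_nonneg (e t x)]
    rw [h2]
    exact h4.trans (h3.trans (hν t ht'))
  have h0mem : (0 : ℝ) ∈ Icc 0 T := ⟨le_rfl, hT.le⟩
  have hν0 : 0 ≤ ν := (sq_le_nw hα.le (h.smooth' 0 h0mem) (hi 0 h0mem)).2.2.trans (hν 0 h0mem)
  intro t ht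
  have hmv := (convex_Icc 0 T).image_sub_le_mul_sub_of_deriv_le hcont
    (by
      rw [interior_Icc]
      intro s hs
      exact (hder s hs).differentiableAt.differentiableWithinAt)
    (C := ν)
    (by
      rw [interior_Icc]
      intro s hs
      rw [(hder s hs).deriv]
      exact hderiv_le s hs) 0 h0mem t ht ht.1
  have h5 : ν * (t - 0) ≤ T * ν := by
    rw [sub_zero, mul_comm]
    exact mul_le_mul_of_nonneg_right ht.2 hν0
  linarith

end H72KB
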