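import Pool.Agent.H98.KB.IfA
import Pool.Agent.H98.KB.IfG

/-!
# Part 2 of MP_95be7d (ODE for the modulation parameters, bootstrap, shooting): definitions

Owner helper72.  Mathematical plan: `/team-store/H98_95be7d.md` (sections 1 and 8) and
`/team-store/H72_95be7d.md`.
-/

open MeasureTheory Filter Topology Set
open scoped ContDiff

noncomputable section

namespace H72KB

open H98KB

/-- clipping to `[lo, hi]` -/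
def clp (lo hi s : ℝ) : ℝ := max lo (min s hi)

/-- rescaled function `W(y) = l^{2/k} U(l y + x)` -/
def Wf (k : ℕ) (U : ℝ → ℝ) (l x y : ℝ) : ℝ := l ^ (2 / (k : ℝ)) * U (l * y + x)

/-- rescaled forcing `l^{2/k+2} e(l y + x)` -/
def ef (k : ℕ) (e : ℝ → ℝ) (l x y : ℝ) : ℝ := l ^ 2 * Wf k e l x y

/-- `ε(y) = l^{2/k} U(l y + x) - Q(y)` -/
def epf (k : ℕ) (U : ℝ → ℝ) (l x y : ℝ) : ℝ := Wf k U l x y - Qf k y

/-! ## The modulation system, integrated by parts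

`(ζ, φ) = I1 - b IA - m IB` for `W = Q + ε`. -/

def I1 (k : ℕ) (l : ℝ) (W E φ : ℝ → ℝ) : ℝ :=
  ∫ y, (W y * (iteratedDeriv 3 φ y - deriv φ y + l * iteratedDeriv 2 φ y)
    + fl k (W y) * deriv φ y + E y * deriv φ y)

def IA (k : ℕ) (W φ : ℝ → ℝ) : ℝ := ∫ y, W y * ((2 / (k : ℝ) - 1) * φ y - y * deriv φ y)

def IB (W φ : ℝ → ℝ) : ℝ := ∫ y, W y * deriv φ y

/-- determinant of the modulation system -/
def Det (k : ℕ) (W : ℝ → ℝ) : ℝ :=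
  IA k W (Qf k) * IB W (deriv (Qf k)) - IA k W (deriv (Qf k)) * IB W (Qf k)

/-- half of `Det k Q` -/
def d0 (k : ℕ) : ℝ := sc k * (∫ y, (Qf k y) ^ 2) * (∫ y, (deriv (Qf k) y) ^ 2) / 2

/-- the parameter `b` (with clipped determinant) -/
def bfn (k : ℕ) (l : ℝ) (W E : ℝ → ℝ) : ℝ :=
  (I1 k l W E (Qf k) * IB W (deriv (Qf k)) - I1 k l W E (deriv (Qf k)) * IB W (Qf k))
    / max (Det k W) (d0 k)

/-- the parameter `m` (with clipped determinant) -/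
def mfn (k : ℕ) (l : ℝ) (W E : ℝ → ℝ) : ℝ :=
  (IA k W (Qf k) * I1 k l W E (deriv (Qf k)) - IA k W (deriv (Qf k)) * I1 k l W E (Qf k))
    / max (Det k W) (d0 k)

/-- clipped vector field for `(λ, x)` -/
def VF (k : ℕ) (lo hi X₀ : ℝ) (U e : ℝ → ℝ → ℝ) (t : ℝ) (P : ℝ × ℝ) : ℝ × ℝ :=
  (-(bfn k (clp lo hi P.1) (Wf k (U t) (clp lo hi P.1) (clp (-X₀) X₀ P.2))
        (ef k (e t) (clp lo hi P.1) (clp (-X₀) X₀ P.2))) / (clp lo hi P.1) ^ 2,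
    (1 + mfn k (clp lo hi P.1) (Wf k (U t) (clp lo hi P.1) (clp (-X₀) X₀ P.2))
        (ef k (e t) (clp lo hi P.1) (clp (-X₀) X₀ P.2))) / (clp lo hi P.1) ^ 2)

/-! ## Families of approximate solutions and trajectories -/

/-- output of Theorem A for a fixed `ν` -/
structure UF (k : ℕ) (T α a₁ : ℝ) (U e : ℝ → ℝ → ℝ → ℝ) : Prop where
  app : ∀ a ∈ Icc (-a₁) a₁, App k T α (U a) (e a)
  lip : ∀ j : ℕ, ∃ C : ℝ, ∀ a ∈ Icc (-a₁) a₁, ∀ a' ∈ Icc (-a₁) a₁, ∀ t ∈ Icc 0 T, ∀ x,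
    |iteratedDeriv j (U a t) x - iteratedDeriv j (U a' t) x| ≤ C * |a - a'| * bd (α / 2) (1 / 16) x ∧
    |iteratedDeriv j (e a t) x - iteratedDeriv j (e a' t) x| ≤ C * |a - a'| * bd (α / 2) (1 / 16) x

/-- the trajectories `P a t = (λ_a(t), x_a(t))` -/
structure Traj (k : ℕ) (T a₁ l₀ lo hi X₀ : ℝ) (U e : ℝ → ℝ → ℝ → ℝ) (P : ℝ → ℝ → ℝ × ℝ) :
    Prop where
  init : ∀ a ∈ Icc (-a₁) a₁, P a 0 = (l₀, 0)
  cont : ContinuousOn (fun z : ℝ × ℝ => P z.1 z.2) (Icc (-a₁) a₁ ×ˢ Icc 0 T)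
  ode : ∀ a ∈ Icc (-a₁) a₁, ∀ t ∈ Ioo 0 T,
    HasDerivAt (P a) (VF k lo hi X₀ (U a) (e a) t (P a t)) t

/-- clipped `λ` along a trajectory -/
def lb (lo hi : ℝ) (P : ℝ → ℝ → ℝ × ℝ) (a t : ℝ) : ℝ := clp lo hi (P a t).1

/-- clipped `x` along a trajectory -/
def xb (X₀ : ℝ) (P : ℝ → ℝ → ℝ × ℝ) (a t : ℝ) : ℝ := clp (-X₀) X₀ (P a t).2

/-- `ε` along a trajectory -/
def epa (k : ℕ) (lo hi X₀ : ℝ) (U : ℝ → ℝ → ℝ → ℝ) (P : ℝ → ℝ → ℝ × ℝ) (a t : ℝ) : ℝ → ℝ :=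
  epf k (U a t) (lb lo hi P a t) (xb X₀ P a t)

/-- rescaled forcing along a trajectory -/
def eaa (k : ℕ) (lo hi X₀ : ℝ) (e : ℝ → ℝ → ℝ → ℝ) (P : ℝ → ℝ → ℝ × ℝ) (a t : ℝ) : ℝ → ℝ :=
  ef k (e a t) (lb lo hi P a t) (xb X₀ P a t)

/-- `b` along a trajectory -/
def ba (k : ℕ) (lo hi X₀ : ℝ) (U e : ℝ → ℝ → ℝ → ℝ) (P : ℝ → ℝ → ℝ × ℝ) (a t : ℝ) : ℝ :=
  bfn k (lb lo hi P a t) (Wf k (U a t) (lb lo hi P a t) (xb X₀ P a t))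
    (eaa k lo hi X₀ e P a t)

/-- `m` along a trajectory -/
def ma (k : ℕ) (lo hi X₀ : ℝ) (U e : ℝ → ℝ → ℝ → ℝ) (P : ℝ → ℝ → ℝ × ℝ) (a t : ℝ) : ℝ :=
  mfn k (lb lo hi P a t) (Wf k (U a t) (lb lo hi P a t) (xb X₀ P a t))
    (eaa k lo hi X₀ e P a t)

/-! ## Abstract flows and families (the only input of the differentiation and continuity rows) -/

/-- a smooth solution of the rescaled equation on an open set `J` of times, with uniform exponential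
decay slightly faster than the weight `e^{R λ(t) y}` for `y > 0` -/
structure Flow (k : ℕ) (R θ : ℝ) (J : Set ℝ) (lam b m : ℝ → ℝ) (ε e : ℝ → ℝ → ℝ) : Prop where
  op : IsOpen J
  R0 : 0 ≤ R
  θ0 : 0 < θ
  lo : ∀ t ∈ J, θ ≤ lam t
  hi : ∀ t ∈ J, lam t ≤ 1
  hr : ∀ t ∈ J, R * lam t + θ ≤ 1 / 2
  dl : ∀ t ∈ J, HasDerivAt lam (-(b t) / (lam t) ^ 2) t
  bm : ∃ C : ℝ, ∀ t ∈ J, |b t| ≤ C ∧ |m t| ≤ C
  sm : ∀ t ∈ J, ContDiff ℝ ∞ (ε t)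
  se : ∀ t ∈ J, ContDiff ℝ ∞ (e t)
  bd : ∀ j : ℕ, ∃ C : ℝ, ∀ t ∈ J, ∀ y, |iteratedDeriv j (ε t) y| ≤ C * bd (R * lam t + θ) θ y
  be : ∀ j : ℕ, ∃ C : ℝ, ∀ t ∈ J, ∀ y, |iteratedDeriv j (e t) y| ≤ C * H98KB.bd (R * lam t + θ) θ y
  ev : ∀ j : ℕ, ∀ t ∈ J, ∀ y, HasDerivAt (fun τ => iteratedDeriv j (ε τ) y)
    (iteratedDeriv j (zeta k (b t) (m t) (lam t) (ε t) (e t)) y / (lam t) ^ 3) t

/-- a family of functions indexed by `z = (a, t)`, with uniform exponential decay, pointwise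
continuous in `z` -/
structure Fam (R θ : ℝ) (S : Set (ℝ × ℝ)) (lam : ℝ × ℝ → ℝ) (ε : ℝ × ℝ → ℝ → ℝ) : Prop where
  R0 : 0 ≤ R
  θ0 : 0 < θ
  lo : ∀ z ∈ S, θ ≤ lam z
  hi : ∀ z ∈ S, lam z ≤ 1
  hr : ∀ z ∈ S, R * lam z + θ ≤ 1 / 2
  cl : ContinuousOn lam S
  sm : ∀ z ∈ S, ContDiff ℝ ∞ (ε z)
  bd : ∀ j : ℕ, ∃ C : ℝ, ∀ z ∈ S, ∀ y, |iteratedDeriv j (ε z) y| ≤ C * bd (R * lam z + θ) θ y
  co : ∀ (j : ℕ) (y : ℝ), ContinuousOn (fun z => iteratedDeriv j (ε z) y) S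

end H72KB

end
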