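import Pool.Agent.H98.KB.Defs

/-!
# Row ClA: the weights `bd p q`

`bd p q y = exp(-(p * max y 0) - q * max (-y) 0)`: equals `e^{-p y}` for `y ≥ 0` and `e^{q y}` for `y ≤ 0`.
(`p`, `q` may be negative in `bd_pos bd_cont bd_anti bd_mul bd_le_exp bd_poly`.)

* `bd_le_exp`: `p max y 0 + q max (-y) 0 ≥ (min p q) (max y 0 + max (-y) 0) = (min p q) |y|`.
* `bd_int`: continuous and `≤ exp (-(min p q) * |y|)` which is integrable (on `Ioi 0`:
  `exp_neg_integrableOn_Ioi`, by symmetry on `Iic 0`; or `integrable_of_isBigO_exp_neg`-type lemmas).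
* `bd_poly`: with `s = min (p-p') (q-q') > 0`: `(1+|y|)^n e^{-s|y|}` is bounded
  (`Real.add_one_le_exp`: `1+|y| ≤ (n+1)/s' * exp (s'|y|/(n+1))`-type bound, or continuity + limit 0), and
  `bd p q y = bd (p-p') (q-q') y * bd p' q' y ≤ e^{-s|y|} bd p' q' y` (`bd_mul`, `bd_le_exp`).
* `bd_shift`: `max (ly+x) 0 ≥ max (ly) 0 - |x| = l max y 0 - |x|` and the same for the negative part.
-/

open MeasureTheory Filter Topology Set
open scoped ContDiff

namespace H72KB

open H98KB

theorem ClA_abs (y : ℝ) : max y 0 + max (-y) 0 = |y| := by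
  rcases le_total 0 y with h | h
  · rw [max_eq_left h, max_eq_right (by linarith : -y ≤ (0 : ℝ)), abs_of_nonneg h, add_zero]
  · rw [max_eq_right h, max_eq_left (by linarith : (0 : ℝ) ≤ -y), abs_of_nonpos h, zero_add]

theorem bd_pos (p q y : ℝ) : 0 < bd p q y := by
  exact Real.exp_pos _

theorem bd_cont (p q : ℝ) : Continuous (bd p q) := by
  unfold bd
  fun_prop

theorem bd_le_one {p q : ℝ} (hp : 0 ≤ p) (hq : 0 ≤ q) (y : ℝ) : bd p q y ≤ 1 := by
  unfold bd
  rw [Real.exp_le_one_iff]
  have h1 := mul_nonneg hp (le_max_right y 0)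
  have h2 := mul_nonneg hq (le_max_right (-y) 0)
  linarith

theorem bd_anti {p p' q q' : ℝ} (hp : p ≤ p') (hq : q ≤ q') (y : ℝ) : bd p' q' y ≤ bd p q y := by
  unfold bd
  rw [Real.exp_le_exp]
  have h1 := mul_le_mul_of_nonneg_right hp (le_max_right y 0)
  have h2 := mul_le_mul_of_nonneg_right hq (le_max_right (-y) 0)
  linarith

theorem bd_mul (p q p' q' y : ℝ) : bd p q y * bd p' q' y = bd (p + p') (q + q') y := by
  unfold bd
  rw [← Real.exp_add]
  congr 1
  ring

theorem bd_le_exp {p q : ℝ} (y : ℝ) : bd p q y ≤ Real.exp (-(min p q) * |y|) := by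
  unfold bd
  rw [Real.exp_le_exp]
  have h1 := mul_le_mul_of_nonneg_right (min_le_left p q) (le_max_right y 0)
  have h2 := mul_le_mul_of_nonneg_right (min_le_right p q) (le_max_right (-y) 0)
  have h3 := ClA_abs y
  rw [← h3]
  nlinarith

theorem bd_int {p q : ℝ} (hp : 0 < p) (hq : 0 < q) : Integrable (bd p q) := by
  rw [← integrableOn_univ, ← Set.Iic_union_Ioi (a := (0 : ℝ))]
  refine IntegrableOn.union ?_ ?_
  · refine (integrableOn_exp_mul_Iic hq 0).congr_fun ?_ measurableSet_Iic
    intro y hy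
    have hy' : y ≤ 0 := hy
    show Real.exp (q * y) = bd p q y
    unfold bd
    rw [max_eq_right hy', max_eq_left (by linarith : (0 : ℝ) ≤ -y)]
    congr 1
    ring
  · refine (exp_neg_integrableOn_Ioi 0 hp).congr_fun ?_ measurableSet_Ioi
    intro y hy
    have hy' : 0 < y := hy
    show Real.exp (-p * y) = bd p q y
    unfold bd
    rw [max_eq_left hy'.le, max_eq_right (by linarith : -y ≤ (0 : ℝ))]
    congr 1
    ring

theorem bd_poly (n : ℕ) {p p' q q' : ℝ} (hp : p' < p) (hq : q' < q) :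
    ∃ C : ℝ, 0 < C ∧ ∀ y, (1 + |y|) ^ n * bd p q y ≤ C * bd p' q' y := by
  have hs : 0 < min (p - p') (q - q') := lt_min (by linarith) (by linarith)
  set s := min (p - p') (q - q') with hsdef
  have ha : 0 < s / ((n : ℝ) + 1) := by positivity
  set a := s / ((n : ℝ) + 1) with hadef
  refine ⟨(1 + 1 / a) ^ n, by positivity, fun y => ?_⟩
  have h0 : 0 ≤ |y| := abs_nonneg y
  have h1 : 1 + |y| ≤ (1 + 1 / a) * Real.exp (a * |y|) := by
    have h2 : a * |y| + 1 ≤ Real.exp (a * |y|) := Real.add_one_le_exp _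
    have h3 : 0 < 1 + 1 / a := by positivity
    have h4 := mul_le_mul_of_nonneg_left h2 h3.le
    have h5 : (1 + 1 / a) * (a * |y| + 1) = a * |y| + 1 + |y| + 1 / a := by
      field_simp
      ring
    have h6 : 0 ≤ a * |y| := mul_nonneg ha.le h0
    have h7 : 0 < 1 / a := by positivity
    linarith
  have h2 : (1 + |y|) ^ n ≤ (1 + 1 / a) ^ n * Real.exp (s * |y|) := by
    calc (1 + |y|) ^ n ≤ ((1 + 1 / a) * Real.exp (a * |y|)) ^ n :=
          pow_le_pow_left₀ (by positivity) h1 n
      _ = (1 + 1 / a) ^ n * Real.exp (n * (a * |y|)) := by rw [mul_pow, ← Real.exp_nat_mul]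
      _ ≤ (1 + 1 / a) ^ n * Real.exp (s * |y|) := by
          refine mul_le_mul_of_nonneg_left ?_ (by positivity)
          rw [Real.exp_le_exp]
          have h3 : (n : ℝ) * a ≤ s := by
            rw [hadef, mul_div_assoc', div_le_iff₀ (by positivity)]
            nlinarith
          have h4 := mul_le_mul_of_nonneg_right h3 h0
          linarith
  have h3 : bd p q y = bd (p - p') (q - q') y * bd p' q' y := by
    rw [bd_mul, sub_add_cancel, sub_add_cancel]
  have h4 : bd (p - p') (q - q') y ≤ Real.exp (-s * |y|) := bd_le_exp y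
  have h5 : 0 < bd p' q' y := bd_pos p' q' y
  rw [h3, ← mul_assoc]
  refine mul_le_mul_of_nonneg_right ?_ h5.le
  calc (1 + |y|) ^ n * bd (p - p') (q - q') y
      ≤ ((1 + 1 / a) ^ n * Real.exp (s * |y|)) * Real.exp (-s * |y|) :=
        mul_le_mul h2 h4 (bd_pos _ _ _).le (by positivity)
    _ = (1 + 1 / a) ^ n := by
        rw [mul_assoc, ← Real.exp_add]
        have : s * |y| + -s * |y| = 0 := by ring
        rw [this, Real.exp_zero, mul_one]

theorem bd_shift {p q l : ℝ} (hp : 0 ≤ p) (hq : 0 ≤ q) (hl : 0 ≤ l) (x y : ℝ) :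
    bd p q (l * y + x) ≤ Real.exp ((p + q) * |x|) * bd (l * p) (l * q) y := by
  unfold bd
  rw [← Real.exp_add, Real.exp_le_exp]
  have h1 : l * max y 0 - |x| ≤ max (l * y + x) 0 := by
    have h3 := neg_abs_le x
    rcases le_total 0 y with h | h
    · rw [max_eq_left h]
      exact le_trans (by linarith) (le_max_left _ _)
    · rw [max_eq_right h]
      exact le_trans (by linarith [abs_nonneg x]) (le_max_right _ _)
  have h2 : l * max (-y) 0 - |x| ≤ max (-(l * y + x)) 0 := by
    have h3 := le_abs_self x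
    rcases le_total 0 (-y) with h | h
    · rw [max_eq_left h]
      exact le_trans (by linarith) (le_max_left _ _)
    · rw [max_eq_right h]
      exact le_trans (by linarith [abs_nonneg x]) (le_max_right _ _)
  have h3 := mul_le_mul_of_nonneg_left h1 hp
  have h4 := mul_le_mul_of_nonneg_left h2 hq
  nlinarith

end H72KB
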