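import Pool.Agent.H72.KB.Base
import Pool.Agent.H72.KB.ClA

/-!
# Row ConI: continuity of pairings and of `Xn` for a `Fam`

Proof.  `continuousWithinAt_of_dominated` at every `z₀ ∈ S`: the integrand `ε z y * φ y` is continuous in `z ∈ S` for
fixed `y` (`F.co 0`, `iteratedDeriv_zero`), measurable in `y` (`F.sm` gives continuity), and bounded by
`|C| C₀ bd (R*lam z+θ) θ y ≤ |C| C₀ bd θ θ y` (`R*lam z ≥ 0`, `bd_anti`), integrable (`bd_int`).
For `Xn`: integrand `(iteratedDeriv 1 (ε z) y)^2 ≤ C² bd θ θ y` (`bd² ≤ bd`).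
`con_Gn`: `ContinuousOn` of `z ↦ Gn B (R*lam z) (ε z)`: `om B ρ y ≤ e^{2ρy}` for `y ≥ 0`, `≤ 1` for `y ≤ 0` (`ρ ≥ 0`), and
`e^{2ρy} bd(ρ+θ,θ)² ≤ bd (2θ) (2θ)`; `om B ρ y` is continuous in `ρ`.
-/

open MeasureTheory Filter Topology Set
open scoped ContDiff

namespace H72KB

open H98KB

private theorem ConI_one : (1 : WithTop ℕ∞) ≤ ∞ := by
  norm_cast

private theorem ConI_le {R θ : ℝ} {S : Set (ℝ × ℝ)} {lam : ℝ × ℝ → ℝ} {ε : ℝ × ℝ → ℝ → ℝ}
    (F : Fam R θ S lam ε) {C : ℝ} {j : ℕ} {z : ℝ × ℝ} (hz : z ∈ S)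
    (h : ∀ y, |iteratedDeriv j (ε z) y| ≤ C * bd (R * lam z + θ) θ y) (y : ℝ) :
    0 ≤ C ∧ |iteratedDeriv j (ε z) y| ≤ C * bd θ θ y := by
  have h0 := h y
  have hp := bd_pos (R * lam z + θ) θ y
  have hC : 0 ≤ C := by
    by_contra hneg
    rw [not_le] at hneg
    have := mul_neg_of_neg_of_pos hneg hp
    linarith [abs_nonneg (iteratedDeriv j (ε z) y)]
  refine ⟨hC, h0.trans (mul_le_mul_of_nonneg_left (bd_anti ?_ le_rfl y) hC)⟩
  have h1 : 0 ≤ lam z := F.θ0.le.trans (F.lo z hz)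
  have := mul_nonneg F.R0 h1
  linarith

theorem con_I {R θ : ℝ} {S : Set (ℝ × ℝ)} {lam : ℝ × ℝ → ℝ} {ε : ℝ × ℝ → ℝ → ℝ}
    (F : Fam R θ S lam ε) (φ : ℝ → ℝ) (hφ : Continuous φ) (C : ℝ) (hC : ∀ y, |φ y| ≤ C) :
    ContinuousOn (fun z => ip (ε z) φ) S := by
  obtain ⟨C₀, hC₀⟩ := F.bd 0
  show ContinuousOn (fun z => ∫ y, ε z y * φ y) S
  apply continuousOn_of_dominated (bound := fun y => |C₀| * |C| * bd θ θ y)
  · intro z hz
    exact ((F.sm z hz).continuous.mul hφ).aestronglyMeasurable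
  · intro z hz
    refine Eventually.of_forall fun y => ?_
    obtain ⟨h0, h1⟩ := ConI_le F hz (fun y => hC₀ z hz y) y
    rw [iteratedDeriv_zero] at h1
    rw [Real.norm_eq_abs, abs_mul, abs_of_nonneg h0]
    have h2 : |φ y| ≤ |C| := (hC y).trans (le_abs_self C)
    calc |ε z y| * |φ y| ≤ (C₀ * bd θ θ y) * |C| :=
          mul_le_mul h1 h2 (abs_nonneg _) (mul_nonneg h0 (bd_pos _ _ _).le)
      _ = C₀ * |C| * bd θ θ y := by ring
  · exact (bd_int F.θ0 F.θ0).const_mul _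
  · refine Eventually.of_forall fun y => ?_
    have h1 := F.co 0 y
    simp only [iteratedDeriv_zero] at h1
    exact h1.mul continuousOn_const

theorem con_X {R θ : ℝ} {S : Set (ℝ × ℝ)} {lam : ℝ × ℝ → ℝ} {ε : ℝ × ℝ → ℝ → ℝ}
    (F : Fam R θ S lam ε) : ContinuousOn (fun z => Xn (ε z)) S := by
  obtain ⟨C₁, hC₁⟩ := F.bd 1
  show ContinuousOn (fun z => ∫ y, (deriv (ε z) y) ^ 2) S
  apply continuousOn_of_dominated (bound := fun y => C₁ ^ 2 * bd θ θ y)
  · intro z hz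
    exact (((F.sm z hz).continuous_deriv ConI_one).pow 2).aestronglyMeasurable
  · intro z hz
    refine Eventually.of_forall fun y => ?_
    obtain ⟨h0, h1⟩ := ConI_le F hz (fun y => hC₁ z hz y) y
    rw [iteratedDeriv_one] at h1
    rw [Real.norm_eq_abs, abs_of_nonneg (sq_nonneg _), ← sq_abs]
    have h2 := bd_pos θ θ y
    have h3 := bd_le_one F.θ0.le F.θ0.le y
    calc |deriv (ε z) y| ^ 2 ≤ (C₁ * bd θ θ y) ^ 2 :=
          pow_le_pow_left₀ (abs_nonneg _) h1 2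
      _ = C₁ ^ 2 * (bd θ θ y * bd θ θ y) := by ring
      _ ≤ C₁ ^ 2 * (bd θ θ y * 1) := by
          apply mul_le_mul_of_nonneg_left _ (sq_nonneg _)
          exact mul_le_mul_of_nonneg_left h3 h2.le
      _ = C₁ ^ 2 * bd θ θ y := by ring
  · exact (bd_int F.θ0 F.θ0).const_mul _
  · refine Eventually.of_forall fun y => ?_
    have h1 := F.co 1 y
    simp only [iteratedDeriv_one] at h1
    exact h1.pow 2

private theorem ConI_Th {B : ℝ} (y : ℝ) : 0 < Th B y ∧ Th B y ≤ 1 := by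
  unfold Th
  have h := Real.exp_pos (-y / B)
  constructor
  · positivity
  · rw [div_le_one (by positivity)]
    linarith

/-- the basic domination: `om * bd² ≤ bd (2θ) (2θ)` -/
theorem om_bd {B ρ θ : ℝ} (hB : 0 < B) (hρ : 0 ≤ ρ) (hθ : 0 ≤ θ) (y : ℝ) :
    0 < om B ρ y ∧ om B ρ y * (bd (ρ + θ) θ y) ^ 2 ≤ bd (2 * θ) (2 * θ) y := by
  obtain ⟨h1, h2⟩ := ConI_Th (B := B) y
  have h3 := Real.exp_pos (2 * ρ * y)
  refine ⟨mul_pos h1 h3, ?_⟩
  have h4 : Real.exp (2 * ρ * y) * (bd (ρ + θ) θ y) ^ 2 ≤ bd (2 * θ) (2 * θ) y := by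
    unfold bd
    rw [← Real.exp_nat_mul, ← Real.exp_add, Real.exp_le_exp]
    push_cast
    rcases le_total 0 y with h | h
    · rw [max_eq_left h, max_eq_right (by linarith : -y ≤ (0 : ℝ))]
      nlinarith
    · rw [max_eq_right h, max_eq_left (by linarith : (0 : ℝ) ≤ -y)]
      nlinarith [mul_nonneg hρ (neg_nonneg.2 h)]
  calc om B ρ y * (bd (ρ + θ) θ y) ^ 2
      = Th B y * (Real.exp (2 * ρ * y) * (bd (ρ + θ) θ y) ^ 2) := by
        unfold om
        ring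
    _ ≤ 1 * (Real.exp (2 * ρ * y) * (bd (ρ + θ) θ y) ^ 2) :=
        mul_le_mul_of_nonneg_right h2 (by positivity)
    _ ≤ bd (2 * θ) (2 * θ) y := by
        rw [one_mul]
        exact h4

private theorem ConI_omc {B : ℝ} (ρ : ℝ) : Continuous (om B ρ) := by
  unfold om Th
  apply Continuous.mul
  · apply Continuous.div continuous_const (by fun_prop)
    intro y
    have := Real.exp_pos (-y / B)
    positivity
  · fun_prop

theorem con_Gn {R θ : ℝ} {S : Set (ℝ × ℝ)} {lam : ℝ × ℝ → ℝ} {ε : ℝ × ℝ → ℝ → ℝ}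
    (F : Fam R θ S lam ε) {B : ℝ} (hB : 0 < B) :
    ContinuousOn (fun z => Gn B (R * lam z) (ε z)) S := by
  obtain ⟨C₀, hC₀⟩ := F.bd 0
  obtain ⟨C₁, hC₁⟩ := F.bd 1
  show ContinuousOn (fun z => ∫ y, om B (R * lam z) y * ((ε z y) ^ 2 + (deriv (ε z) y) ^ 2)) S
  apply continuousOn_of_dominated (bound := fun y => (C₀ ^ 2 + C₁ ^ 2) * bd (2 * θ) (2 * θ) y)
  · intro z hz
    exact ((ConI_omc _).mul (((F.sm z hz).continuous.pow 2).add
      (((F.sm z hz).continuous_deriv ConI_one).pow 2))).aestronglyMeasurable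
  · intro z hz
    refine Eventually.of_forall fun y => ?_
    have hl : 0 ≤ lam z := F.θ0.le.trans (F.lo z hz)
    obtain ⟨h1, h2⟩ := om_bd (θ := θ) hB (mul_nonneg F.R0 hl) F.θ0.le y
    have h3 := hC₀ z hz y
    have h4 := hC₁ z hz y
    rw [iteratedDeriv_zero] at h3
    rw [iteratedDeriv_one] at h4
    have h5 : (ε z y) ^ 2 ≤ (C₀ * bd (R * lam z + θ) θ y) ^ 2 := by
      rw [← sq_abs (ε z y)]
      exact pow_le_pow_left₀ (abs_nonneg _) h3 2
    have h6 : (deriv (ε z) y) ^ 2 ≤ (C₁ * bd (R * lam z + θ) θ y) ^ 2 := by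
      rw [← sq_abs (deriv (ε z) y)]
      exact pow_le_pow_left₀ (abs_nonneg _) h4 2
    rw [Real.norm_eq_abs, abs_of_nonneg (by positivity)]
    calc om B (R * lam z) y * ((ε z y) ^ 2 + (deriv (ε z) y) ^ 2)
        ≤ om B (R * lam z) y * ((C₀ * bd (R * lam z + θ) θ y) ^ 2 +
            (C₁ * bd (R * lam z + θ) θ y) ^ 2) :=
          mul_le_mul_of_nonneg_left (add_le_add h5 h6) h1.le
      _ = (C₀ ^ 2 + C₁ ^ 2) * (om B (R * lam z) y * (bd (R * lam z + θ) θ y) ^ 2) := by ring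
      _ ≤ (C₀ ^ 2 + C₁ ^ 2) * bd (2 * θ) (2 * θ) y :=
          mul_le_mul_of_nonneg_left h2 (by positivity)
  · have h := F.θ0
    exact (bd_int (by linarith) (by linarith)).const_mul _
  · refine Eventually.of_forall fun y => ?_
    have h1 := F.co 0 y
    have h2 := F.co 1 y
    simp only [iteratedDeriv_zero] at h1
    simp only [iteratedDeriv_one] at h2
    have h3 : ContinuousOn (fun z => om B (R * lam z) y) S := by
      unfold om
      exact continuousOn_const.mul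
        (((continuousOn_const.mul (continuousOn_const.mul F.cl)).mul continuousOn_const).rexp)
    exact h3.mul ((h1.pow 2).add (h2.pow 2))

end H72KB
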