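import Pool.Agent.H72.KB.FamR
import Pool.Agent.H72.KB.ClC
import Pool.Agent.H72.KB.ConI

/-!
# Row Scal: scaling of norms

`W = Wf k U l x`, `W(y) = l^{2/k} U(ly+x)`, `W'(y) = l^{2/k+1} U'(ly+x)` (`iter_Wf` with `j = 1`).  Change of variables
`z = ly+x` (`integral_comp_mul_add`-type lemma: `∫ f(l y + x) dy = l⁻¹ ∫ f` for `l > 0`):
* `∫ W² = l^{4/k} l^{-1} ∫ U²`;  `∫ W'² = l^{4/k+2} l^{-1} ∫ U'²`.
* `Gn`: for `ρ = R l`: `om B ρ y ≤ max 1 (e^{2ρy})`, `2 ρ y = 2R(z - x)`, so `om ≤ e^{2R|x|} max 1 (e^{2Rz}) ≤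
  e^{2R|x|} wt α z` (`2R ≤ α`; for `z ≥ 0`: `e^{2Rz} ≤ e^{αz}`, for `z ≤ 0`: `1 ≤ e^{-z/8}`).  `W² + W'² =
  l^{4/k}(U² + l² U'²)(z) ≤ l^{4/k} (U²+U'²)(z)` for `l ≤ 1`.
* for `ef = l² Wf k e l x` multiply by `l⁴`; `l^{4/k} l^{-1} l^4 ≤ 1`, `l^{4/k+1} l^4 ≤ 1` for `0 < l ≤ 1`.
* `wt ≥ 1`.
(all `rpow` identities: `0 < l`, `(l^{2/k})² = l^{4/k}`.)
-/

open MeasureTheory Filter Topology Set
open scoped ContDiff

namespace H72KB

open H98KB

theorem Scal_cv (f : ℝ → ℝ) {l : ℝ} (hl : 0 < l) (x : ℝ) :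
    ∫ y, f (l * y + x) = l⁻¹ * ∫ z, f z := by
  have h1 := MeasureTheory.Measure.integral_comp_mul_left (fun z => f (z + x)) l
  rw [h1, integral_add_right_eq_self (fun z => f z) x, abs_of_pos (inv_pos.2 hl), smul_eq_mul]

theorem Scal_int {f : ℝ → ℝ} (hf : Integrable f) {l : ℝ} (hl : 0 < l) (x : ℝ) :
    Integrable (fun y => f (l * y + x)) :=
  (hf.comp_add_right x).comp_mul_left' hl.ne'

theorem Scal_sq (k : ℕ) {l : ℝ} (hl : 0 < l) : (l ^ (2 / (k : ℝ))) ^ 2 = l ^ (4 / (k : ℝ)) := by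
  rw [← Real.rpow_natCast, ← Real.rpow_mul hl.le]
  congr 1
  push_cast
  ring

theorem Scal_der {k : ℕ} {U : ℝ → ℝ} (hU : ContDiff ℝ ∞ U) (l x y : ℝ) :
    deriv (Wf k U l x) y = l ^ (2 / (k : ℝ)) * l * deriv U (l * y + x) := by
  have h := iter_Wf (k := k) hU l x 1 y
  rw [iteratedDeriv_one, iteratedDeriv_one, pow_one] at h
  exact h

theorem Wf_cl {k : ℕ} {α l : ℝ} {U : ℝ → ℝ} (hα : 0 ≤ α) (hl : 0 ≤ l) (x : ℝ)
    (hU : Cl (α / 2) (1 / 16) U) : Cl (l * (α / 2)) (l * (1 / 16)) (Wf k U l x) := by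
  exact Cl_smul (l ^ (2 / (k : ℝ))) (Cl_comp (by linarith) (by norm_num) hl x hU)

theorem ef_cl {k : ℕ} {α l : ℝ} {U : ℝ → ℝ} (hα : 0 ≤ α) (hl : 0 ≤ l) (x : ℝ)
    (hU : Cl (α / 2) (1 / 16) U) : Cl (l * (α / 2)) (l * (1 / 16)) (ef k U l x) := by
  exact Cl_smul (l ^ 2) (Wf_cl hα hl x hU)

theorem Wf_sq {k : ℕ} {l : ℝ} (U : ℝ → ℝ) (hl : 0 < l) (x : ℝ) :
    ∫ y, (Wf k U l x y) ^ 2 = l ^ (4 / (k : ℝ) - 1) * ∫ z, (U z) ^ 2 := by
  have e : ∀ y, (Wf k U l x y) ^ 2 = l ^ (4 / (k : ℝ)) * (fun z => (U z) ^ 2) (l * y + x) := by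
    intro y
    unfold Wf
    rw [mul_pow, Scal_sq k hl]
  simp_rw [e]
  rw [integral_const_mul, Scal_cv (fun z => (U z) ^ 2) hl x, Real.rpow_sub_one hl.ne']
  ring

theorem Wf_X {k : ℕ} {l : ℝ} {U : ℝ → ℝ} (hU : ContDiff ℝ ∞ U) (hl : 0 < l) (x : ℝ) :
    Xn (Wf k U l x) = l ^ (4 / (k : ℝ) + 1) * ∫ z, (deriv U z) ^ 2 := by
  have e : ∀ y, (deriv (Wf k U l x) y) ^ 2 =
      (l ^ (4 / (k : ℝ)) * l ^ 2) * (fun z => (deriv U z) ^ 2) (l * y + x) := by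
    intro y
    rw [Scal_der hU, mul_pow, mul_pow, Scal_sq k hl]
  unfold Xn
  simp_rw [e]
  rw [integral_const_mul, Scal_cv (fun z => (deriv U z) ^ 2) hl x, Real.rpow_add_one hl.ne']
  field_simp

theorem one_le_wt {α : ℝ} (hα : 0 ≤ α) (x : ℝ) : 1 ≤ wt α x := by
  unfold wt
  rcases le_total 0 x with h | h
  · have h1 : 1 ≤ Real.exp (α * x) := Real.one_le_exp (mul_nonneg hα h)
    have h2 := Real.exp_pos (-x / 8)
    linarith
  · have h1 : 1 ≤ Real.exp (-x / 8) := Real.one_le_exp (by linarith)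
    have h2 := Real.exp_pos (α * x)
    linarith

theorem sq_le_nw {α : ℝ} {U : ℝ → ℝ} (hα : 0 ≤ α) (hU : ContDiff ℝ ∞ U)
    (hi : Integrable (fun x => wt α x * ((U x) ^ 2 + (deriv U x) ^ 2))) :
    ∫ x, (U x) ^ 2 ≤ nw α U ∧ ∫ x, (deriv U x) ^ 2 ≤ nw α U ∧ 0 ≤ nw α U := by
  have hw : ∀ x, 1 ≤ wt α x := one_le_wt hα
  unfold nw
  refine ⟨?_, ?_, ?_⟩
  · refine integral_mono_of_nonneg (Eventually.of_forall fun x => sq_nonneg _) hi
      (Eventually.of_forall fun x => ?_)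
    show (U x) ^ 2 ≤ wt α x * ((U x) ^ 2 + (deriv U x) ^ 2)
    nlinarith [hw x, sq_nonneg (U x), sq_nonneg (deriv U x),
      mul_nonneg (sub_nonneg.2 (hw x)) (add_nonneg (sq_nonneg (U x)) (sq_nonneg (deriv U x)))]
  · refine integral_mono_of_nonneg (Eventually.of_forall fun x => sq_nonneg _) hi
      (Eventually.of_forall fun x => ?_)
    show (deriv U x) ^ 2 ≤ wt α x * ((U x) ^ 2 + (deriv U x) ^ 2)
    nlinarith [hw x, sq_nonneg (U x), sq_nonneg (deriv U x),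
      mul_nonneg (sub_nonneg.2 (hw x)) (add_nonneg (sq_nonneg (U x)) (sq_nonneg (deriv U x)))]
  · refine integral_nonneg fun x => ?_
    exact mul_nonneg (by linarith [hw x]) (add_nonneg (sq_nonneg _) (sq_nonneg _))

theorem Scal_om {α l R B x : ℝ} (hα : 2 * R ≤ α) (hR : 0 ≤ R) (hl : 0 < l) (y : ℝ) :
    0 ≤ om B (R * l) y ∧
      om B (R * l) y ≤ Real.exp (2 * R * |x|) * wt α (l * y + x) := by
  have hα0 : 0 ≤ α := by linarith
  have hden : 1 ≤ 1 + Real.exp (-y / B) := by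
    have := Real.exp_pos (-y / B)
    linarith
  have hT0 : 0 ≤ Th B y := by
    unfold Th
    positivity
  have hT1 : Th B y ≤ 1 := by
    unfold Th
    rw [div_le_one (by linarith)]
    exact hden
  unfold om
  refine ⟨mul_nonneg hT0 (Real.exp_pos _).le, ?_⟩
  have h1 : Th B y * Real.exp (2 * (R * l) * y) ≤ Real.exp (2 * (R * l) * y) := by
    have := mul_le_mul_of_nonneg_right hT1 (Real.exp_pos (2 * (R * l) * y)).le
    rwa [one_mul] at this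
  refine h1.trans ?_
  have hRx : 0 ≤ 2 * R * |x| := by positivity
  have hE1 : 1 ≤ Real.exp (2 * R * |x|) := Real.one_le_exp hRx
  rcases le_total 0 (l * y + x) with hz | hz
  · have h2 : Real.exp (2 * (R * l) * y) ≤ Real.exp (2 * R * |x|) * Real.exp (α * (l * y + x)) := by
      rw [← Real.exp_add, Real.exp_le_exp]
      have h3 : 2 * R * (l * y + x) ≤ α * (l * y + x) := mul_le_mul_of_nonneg_right hα hz
      have h4 : -x ≤ |x| := neg_le_abs x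
      have h5 : 2 * R * (-x) ≤ 2 * R * |x| := mul_le_mul_of_nonneg_left h4 (by linarith)
      nlinarith [h3, h5]
    refine h2.trans (mul_le_mul_of_nonneg_left ?_ (Real.exp_pos _).le)
    unfold wt
    have := Real.exp_pos (-(l * y + x) / 8)
    linarith
  · have h2 : Real.exp (2 * (R * l) * y) ≤ Real.exp (2 * R * |x|) := by
      rw [Real.exp_le_exp]
      have h4 : -x ≤ |x| := neg_le_abs x
      have h5 : 2 * R * (-x) ≤ 2 * R * |x| := mul_le_mul_of_nonneg_left h4 (by linarith)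
      have h6 : 2 * R * (l * y + x) ≤ 0 := mul_nonpos_of_nonneg_of_nonpos (by linarith) hz
      nlinarith [h5, h6]
    have h7 := mul_le_mul_of_nonneg_left (one_le_wt hα0 (l * y + x)) (Real.exp_pos (2 * R * |x|)).le
    rw [mul_one] at h7
    exact h2.trans h7

theorem Wf_Gn {k : ℕ} {α l R B x : ℝ} {U : ℝ → ℝ} (hk : 1 ≤ k) (hα : 2 * R ≤ α) (hR : 0 ≤ R)
    (hB : 0 < B) (hl : 0 < l) (hl1 : l ≤ 1) (hU : ContDiff ℝ ∞ U)
    (hi : Integrable (fun x => wt α x * ((U x) ^ 2 + (deriv U x) ^ 2))) :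
    Gn B (R * l) (Wf k U l x) ≤ l⁻¹ * Real.exp (2 * R * |x|) * nw α U := by
  have hα0 : 0 ≤ α := by linarith
  let Φ : ℝ → ℝ := fun z => wt α z * ((U z) ^ 2 + (deriv U z) ^ 2)
  have hΦi : Integrable Φ := hi
  have h4 : l ^ (4 / (k : ℝ)) ≤ 1 := Real.rpow_le_one hl.le hl1 (by positivity)
  have h40 : 0 ≤ l ^ (4 / (k : ℝ)) := Real.rpow_nonneg hl.le _
  have h2 : l ^ 2 ≤ 1 := pow_le_one₀ hl.le hl1
  have hp : ∀ y, om B (R * l) y * ((Wf k U l x y) ^ 2 + (deriv (Wf k U l x) y) ^ 2) ≤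
      Real.exp (2 * R * |x|) * Φ (l * y + x) := by
    intro y
    obtain ⟨o0, o1⟩ := Scal_om (B := B) (x := x) hα hR hl y
    have e1 : (Wf k U l x y) ^ 2 + (deriv (Wf k U l x) y) ^ 2 ≤
        (U (l * y + x)) ^ 2 + (deriv U (l * y + x)) ^ 2 := by
      have a1 : (Wf k U l x y) ^ 2 = l ^ (4 / (k : ℝ)) * (U (l * y + x)) ^ 2 := by
        unfold Wf
        rw [mul_pow, Scal_sq k hl]
      have a2 : (deriv (Wf k U l x) y) ^ 2 =
          l ^ (4 / (k : ℝ)) * l ^ 2 * (deriv U (l * y + x)) ^ 2 := by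
        rw [Scal_der hU, mul_pow, mul_pow, Scal_sq k hl]
      rw [a1, a2]
      have b1 : l ^ (4 / (k : ℝ)) * (U (l * y + x)) ^ 2 ≤ 1 * (U (l * y + x)) ^ 2 :=
        mul_le_mul_of_nonneg_right h4 (sq_nonneg _)
      have b2 : l ^ (4 / (k : ℝ)) * l ^ 2 ≤ 1 := mul_le_one₀ h4 (sq_nonneg _) h2
      have b3 := mul_le_mul_of_nonneg_right b2 (sq_nonneg (deriv U (l * y + x)))
      linarith
    have e0 : 0 ≤ (Wf k U l x y) ^ 2 + (deriv (Wf k U l x) y) ^ 2 := by positivity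
    calc om B (R * l) y * ((Wf k U l x y) ^ 2 + (deriv (Wf k U l x) y) ^ 2)
        ≤ (Real.exp (2 * R * |x|) * wt α (l * y + x)) *
            ((U (l * y + x)) ^ 2 + (deriv U (l * y + x)) ^ 2) :=
          mul_le_mul o1 e1 e0 (o0.trans o1)
      _ = Real.exp (2 * R * |x|) * Φ (l * y + x) := by
          show _ = Real.exp (2 * R * |x|) * (wt α (l * y + x) *
            ((U (l * y + x)) ^ 2 + (deriv U (l * y + x)) ^ 2))
          ring
  have hmain : Gn B (R * l) (Wf k U l x) ≤ ∫ y, Real.exp (2 * R * |x|) * Φ (l * y + x) := by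
    unfold Gn
    refine integral_mono_of_nonneg (Eventually.of_forall fun y => ?_)
      ((Scal_int hΦi hl x).const_mul _) (Eventually.of_forall hp)
    exact mul_nonneg (Scal_om (B := B) (x := x) hα hR hl y).1 (by positivity)
  rw [integral_const_mul, Scal_cv Φ hl x] at hmain
  refine hmain.trans (le_of_eq ?_)
  unfold nw
  show Real.exp (2 * R * |x|) * (l⁻¹ * ∫ z, wt α z * ((U z) ^ 2 + (deriv U z) ^ 2)) = _
  ring

theorem Scal_ef {k : ℕ} (U : ℝ → ℝ) (l x y : ℝ) :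
    deriv (ef k U l x) y = l ^ 2 * deriv (Wf k U l x) y := by
  have e : ef k U l x = fun y => l ^ 2 * Wf k U l x y := rfl
  rw [e, deriv_const_mul_field]

theorem ef_Gn {k : ℕ} {α l R B x : ℝ} {U : ℝ → ℝ} (hk : 1 ≤ k) (hα : 2 * R ≤ α) (hR : 0 ≤ R)
    (hB : 0 < B) (hl : 0 < l) (hl1 : l ≤ 1) (hU : ContDiff ℝ ∞ U)
    (hi : Integrable (fun x => wt α x * ((U x) ^ 2 + (deriv U x) ^ 2))) :
    Gn B (R * l) (ef k U l x) ≤ Real.exp (2 * R * |x|) * nw α U ∧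
      Xn (ef k U l x) ≤ nw α U := by
  have hα0 : 0 ≤ α := by linarith
  obtain ⟨q1, q2, q3⟩ := sq_le_nw hα0 hU hi
  constructor
  · have e : Gn B (R * l) (ef k U l x) = l ^ 4 * Gn B (R * l) (Wf k U l x) := by
      unfold Gn
      rw [← integral_const_mul]
      refine integral_congr_ae (Eventually.of_forall fun y => ?_)
      show om B (R * l) y * ((ef k U l x y) ^ 2 + (deriv (ef k U l x) y) ^ 2) =
        l ^ 4 * (om B (R * l) y * ((Wf k U l x y) ^ 2 + (deriv (Wf k U l x) y) ^ 2))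
      rw [Scal_ef]
      unfold ef
      ring
    rw [e]
    have h := Wf_Gn (B := B) (x := x) hk hα hR hB hl hl1 hU hi
    have h3 : l ^ 3 ≤ 1 := pow_le_one₀ hl.le hl1
    have hE : 0 ≤ Real.exp (2 * R * |x|) * nw α U := mul_nonneg (Real.exp_pos _).le q3
    calc l ^ 4 * Gn B (R * l) (Wf k U l x)
        ≤ l ^ 4 * (l⁻¹ * Real.exp (2 * R * |x|) * nw α U) :=
          mul_le_mul_of_nonneg_left h (by positivity)
      _ = l ^ 3 * (Real.exp (2 * R * |x|) * nw α U) := by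
          field_simp
      _ ≤ 1 * (Real.exp (2 * R * |x|) * nw α U) := mul_le_mul_of_nonneg_right h3 hE
      _ = Real.exp (2 * R * |x|) * nw α U := one_mul _
  · have e : Xn (ef k U l x) = l ^ 4 * Xn (Wf k U l x) := by
      unfold Xn
      rw [← integral_const_mul]
      refine integral_congr_ae (Eventually.of_forall fun y => ?_)
      show (deriv (ef k U l x) y) ^ 2 = l ^ 4 * (deriv (Wf k U l x) y) ^ 2
      rw [Scal_ef]
      ring
    rw [e, Wf_X hU hl x]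
    have h4 : l ^ 4 ≤ 1 := pow_le_one₀ hl.le hl1
    have h5 : l ^ (4 / (k : ℝ) + 1) ≤ 1 := Real.rpow_le_one hl.le hl1 (by positivity)
    have h50 : 0 ≤ l ^ (4 / (k : ℝ) + 1) := Real.rpow_nonneg hl.le _
    have h6 : l ^ 4 * l ^ (4 / (k : ℝ) + 1) ≤ 1 := mul_le_one₀ h4 h50 h5
    have hd : 0 ≤ ∫ z, (deriv U z) ^ 2 := integral_nonneg fun z => sq_nonneg _
    calc l ^ 4 * (l ^ (4 / (k : ℝ) + 1) * ∫ z, (deriv U z) ^ 2)
        = (l ^ 4 * l ^ (4 / (k : ℝ) + 1)) * ∫ z, (deriv U z) ^ 2 := by ring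
      _ ≤ 1 * ∫ z, (deriv U z) ^ 2 := mul_le_mul_of_nonneg_right h6 hd
      _ ≤ nw α U := by rw [one_mul]; exact q2

end H72KB
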