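import Pool.Agent.H72.KB.QBas
import Pool.Agent.H72.KB.ClC
import Pool.Agent.H72.KB.Scal
import Pool.Agent.H72.KB.Base

/-!
# Row SupR: sup bound from mass and gradient; lower bound for the scale

`sup_small`.  `A = ∫ (Q+ε)²`, `q₀ = ∫ Q²`, `N = ∫ ε² ≤ 2A + 2q₀`, so `N^k ≤ 4^k (A^k + q₀^k)`, and
`N^k l^{k-4} ≤ 4^k (M₀^k l₀^{k-4} + q₀^k l^{k-4}) ≤ 4^k (M₀^k + q₀^k 2^{k-4}) l₀^{k-4}` (`l ≤ 2 l₀`).
`Cl_sup`: `|ε|⁴ ≤ 4 N X`, `X = Xn ε ≤ K8 l`.  So `|ε|^{4k} ≤ 4^k N^k X^k ≤ 4^k K8^k (N^k l^{k-4}) l^4 ≤ C₉ l₀^{k-4} l^4`,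
`C₉ = 16^k K8^k (M₀^k + q₀^k 2^{k-4})`.  (i) `≤ 16 C₉ l₀^k ≤ 16 C₉ l₀ ≤ c^{4k}` if `l₀ ≤ ls` small (`l₀ ≤ 1`), hence
`|ε| ≤ c` (`pow_le_pow_left` contrapositive: `abs_le_of_pow_le`/`lt_of_pow_lt_pow_left`).
(ii) `(|ε|^{4(k-1)} X⁵)^k = (|ε|^{4k})^{k-1} X^{5k} ≤ (C₉ l⁴)^{k-1} (K8 l)^{5k}` (`l₀ ≤ 1`) `= C₉^{k-1} K8^{5k} l^{2k-4} l^{7k} ≤ (l^7)^k`
when `C₉^{k-1} K8^{5k} l^{2k-4} ≤ 1`, true for `l ≤ 2 l₀ ≤ 2 ls` small (`l^{2k-4} ≤ l` for `l ≤ 1`, `k ≥ 5`); take `k`-th roots.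

`lam_low`.  `W = Wf k U l x = Q + ε`, `∫ Q'² ≤ 2∫W'² + 2∫ε'²` so `∫ W'² ≥ (∫Q'² - 2X)/2 ≥ ∫Q'²/4`; `∫ W'² = l^{4/k+1} ∫ U'² ≤ l K`
(`Wf_X`, `sq_le_nw`, `l ≤ 1`, `4/k ≥ 0`).  (`Q'`, `ε'`, `W'` square integrable: class `Cl` with positive exponents;
`hα : 0 < α`, `l > 0`, `Wf_cl`.)
-/

open MeasureTheory Filter Topology Set
open scoped ContDiff

namespace H72KB

open H98KB

theorem SupR_sq {p q : ℝ} {f : ℝ → ℝ} (hp : 0 < p) (hq : 0 < q) (hf : Cl p q f) :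
    Integrable (fun y => (f y) ^ 2) := by
  have h := Cl_int (by linarith : 0 < p + p) (by linarith : 0 < q + q) (Cl_mul hf hf)
  refine h.congr (Eventually.of_forall fun y => ?_)
  simp only [pow_two]

theorem SupR_le {k : ℕ} (hk : 5 ≤ k) {K8 M₀ q₀ l l₀ N A X e : ℝ} (h8 : 0 < K8)
    (hq₀ : 0 < q₀) (hl : 0 < l) (hl₀ : 0 < l₀) (hll : l ≤ 2 * l₀)
    (hN0 : 0 ≤ N) (hA : 0 ≤ A) (hX0 : 0 ≤ X) (he0 : 0 ≤ e) (hN : N ≤ 2 * A + 2 * q₀)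
    (hX : X ≤ K8 * l) (hA2 : A ^ k * l ^ (k - 4) ≤ M₀ ^ k * l₀ ^ (k - 4)) (he : e ^ 4 ≤ 4 * N * X) :
    e ^ (4 * k) ≤ 16 ^ k * K8 ^ k * (M₀ ^ k + q₀ ^ k * 2 ^ (k - 4)) * l₀ ^ (k - 4) * l ^ 4 := by
  have h1 : N ^ k ≤ 4 ^ k * (A ^ k + q₀ ^ k) := by
    have h2 := add_pow_le hA hq₀.le k
    have h3 : N ^ k ≤ (2 * (A + q₀)) ^ k := pow_le_pow_left₀ hN0 (by linarith) k
    have h4 : (2 : ℝ) ^ (k - 1) ≤ 2 ^ k := pow_le_pow_right₀ (by norm_num) (by omega)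
    have h5 : 0 ≤ A ^ k + q₀ ^ k := by positivity
    have h6 := mul_le_mul_of_nonneg_right h4 h5
    calc N ^ k ≤ (2 * (A + q₀)) ^ k := h3
      _ = 2 ^ k * (A + q₀) ^ k := by rw [mul_pow]
      _ ≤ 2 ^ k * (2 ^ k * (A ^ k + q₀ ^ k)) :=
          mul_le_mul_of_nonneg_left (h2.trans h6) (by positivity)
      _ = 4 ^ k * (A ^ k + q₀ ^ k) := by
          rw [← mul_assoc, ← mul_pow]
          norm_num
  have h2 : l ^ (k - 4) ≤ 2 ^ (k - 4) * l₀ ^ (k - 4) := by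
    rw [← mul_pow]
    exact pow_le_pow_left₀ hl.le hll _
  have h3 : N ^ k * l ^ (k - 4) ≤ 4 ^ k * (M₀ ^ k + q₀ ^ k * 2 ^ (k - 4)) * l₀ ^ (k - 4) := by
    have h4 : 0 ≤ l ^ (k - 4) := by positivity
    have h5 := mul_le_mul_of_nonneg_right h1 h4
    have h6 := mul_le_mul_of_nonneg_left h2 (by positivity : 0 ≤ q₀ ^ k)
    have h7 : (0 : ℝ) ≤ 4 ^ k := by positivity
    have h8 := mul_le_mul_of_nonneg_left (add_le_add hA2 h6) h7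
    calc N ^ k * l ^ (k - 4) ≤ 4 ^ k * (A ^ k + q₀ ^ k) * l ^ (k - 4) := h5
      _ = 4 ^ k * (A ^ k * l ^ (k - 4) + q₀ ^ k * l ^ (k - 4)) := by ring
      _ ≤ 4 ^ k * (M₀ ^ k * l₀ ^ (k - 4) + q₀ ^ k * (2 ^ (k - 4) * l₀ ^ (k - 4))) := h8
      _ = _ := by ring
  have h4 : e ^ (4 * k) ≤ 4 ^ k * N ^ k * X ^ k := by
    rw [pow_mul, ← mul_pow, ← mul_pow]
    exact pow_le_pow_left₀ (by positivity) he k
  have h5 : X ^ k ≤ K8 ^ k * (l ^ (k - 4) * l ^ 4) := by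
    rw [← pow_add, Nat.sub_add_cancel (by omega), ← mul_pow]
    exact pow_le_pow_left₀ hX0 hX k
  have h6 := mul_le_mul_of_nonneg_left h5 (by positivity : 0 ≤ 4 ^ k * N ^ k)
  have h7 := mul_le_mul_of_nonneg_left h3 (by positivity : 0 ≤ 4 ^ k * K8 ^ k * l ^ 4)
  have h8 : (16 : ℝ) ^ k = 4 ^ k * 4 ^ k := by
    rw [← mul_pow]
    norm_num
  calc e ^ (4 * k) ≤ 4 ^ k * N ^ k * X ^ k := h4
    _ ≤ 4 ^ k * N ^ k * (K8 ^ k * (l ^ (k - 4) * l ^ 4)) := h6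
    _ = 4 ^ k * K8 ^ k * l ^ 4 * (N ^ k * l ^ (k - 4)) := by ring
    _ ≤ 4 ^ k * K8 ^ k * l ^ 4 * (4 ^ k * (M₀ ^ k + q₀ ^ k * 2 ^ (k - 4)) * l₀ ^ (k - 4)) := h7
    _ = _ := by rw [h8]; ring

theorem sup_small {k : ℕ} (hk : 5 ≤ k) (K8 M₀ c : ℝ) (h8 : 0 < K8) (hM : 0 < M₀) (hc : 0 < c) :
    ∃ ls : ℝ, 0 < ls ∧ ∀ l₀, 0 < l₀ → l₀ ≤ ls → ∀ l, 0 < l → l ≤ 2 * l₀ →
      ∀ (p q : ℝ) (ε : ℝ → ℝ), 0 < p → 0 < q → p ≤ 1 → q ≤ 1 → Cl p q ε → Xn ε ≤ K8 * l →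
      (∫ y, (Qf k y + ε y) ^ 2) ^ k * l ^ (k - 4) ≤ M₀ ^ k * l₀ ^ (k - 4) →
      (∀ y, |ε y| ≤ c) ∧ ∀ y, |ε y| ^ (4 * (k - 1)) * (Xn ε) ^ 5 ≤ l ^ 7 := by
  have hk1 : 1 ≤ k := by omega
  have hq₀ : 0 < ∫ y, (Qf k y) ^ 2 := Qsq_pos hk1
  set q₀ : ℝ := ∫ y, (Qf k y) ^ 2 with hq₀def
  set C9 : ℝ := 16 ^ k * K8 ^ k * (M₀ ^ k + q₀ ^ k * 2 ^ (k - 4)) with hC9
  have hC9p : 0 < C9 := by positivity
  refine ⟨min (1 / 2) (min (c ^ (4 * k) / (16 * C9)) (1 / (2 * (C9 ^ (k - 1) * K8 ^ (5 * k))))),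
    by positivity, ?_⟩
  intro l₀ hl₀ hls l hl hll p q ε hp hq hp1 hq1 hε hX hmass
  have hl₀1 : l₀ ≤ 1 / 2 := hls.trans (min_le_left _ _)
  have hl₀2 : l₀ ≤ c ^ (4 * k) / (16 * C9) := hls.trans ((min_le_right _ _).trans (min_le_left _ _))
  have hl₀3 : l₀ ≤ 1 / (2 * (C9 ^ (k - 1) * K8 ^ (5 * k))) :=
    hls.trans ((min_le_right _ _).trans (min_le_right _ _))
  have hl1 : l ≤ 1 := by linarith
  have hQcl := Q_cl hk1
  have hiQ : Integrable (fun y => (Qf k y) ^ 2) := SupR_sq one_pos one_pos hQcl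
  have hiε : Integrable (fun y => (ε y) ^ 2) := SupR_sq hp hq hε
  have hiS : Integrable (fun y => (Qf k y + ε y) ^ 2) :=
    SupR_sq hp hq (Cl_add (Cl_mono hp1 hq1 hQcl) hε)
  have hA0 : 0 ≤ ∫ y, (Qf k y + ε y) ^ 2 := integral_nonneg fun y => sq_nonneg _
  have hN0 : 0 ≤ ∫ y, (ε y) ^ 2 := integral_nonneg fun y => sq_nonneg _
  have hX0 : 0 ≤ Xn ε := integral_nonneg fun y => sq_nonneg _
  have hN : ∫ y, (ε y) ^ 2 ≤ 2 * (∫ y, (Qf k y + ε y) ^ 2) + 2 * q₀ := by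
    rw [hq₀def, ← integral_const_mul, ← integral_const_mul,
      ← integral_add (hiS.const_mul 2) (hiQ.const_mul 2)]
    refine integral_mono hiε ((hiS.const_mul 2).add (hiQ.const_mul 2)) fun y => ?_
    change (ε y) ^ 2 ≤ 2 * (Qf k y + ε y) ^ 2 + 2 * (Qf k y) ^ 2
    nlinarith [sq_nonneg (2 * Qf k y + ε y)]
  have key : ∀ y, |ε y| ^ (4 * k) ≤ C9 * l₀ ^ (k - 4) * l ^ 4 := by
    intro y
    have h4 : |ε y| ^ 4 ≤ 4 * (∫ z, (ε z) ^ 2) * Xn ε := Cl_sup hp hq hε y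
    exact SupR_le hk h8 hq₀ hl hl₀ hll hN0 hA0 hX0 (abs_nonneg _) hN hX hmass h4
  constructor
  · intro y
    have h1 := key y
    have h2 : l ^ 4 ≤ 16 * l₀ ^ 4 := by
      calc l ^ 4 ≤ (2 * l₀) ^ 4 := pow_le_pow_left₀ hl.le hll 4
        _ = 16 * l₀ ^ 4 := by ring
    have h3 : l₀ ^ k ≤ l₀ := by
      calc l₀ ^ k ≤ l₀ ^ 1 := pow_le_pow_of_le_one hl₀.le (by linarith) (by omega)
        _ = l₀ := pow_one _
    have h4 : l₀ ^ (k - 4) * l₀ ^ 4 = l₀ ^ k := by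
      rw [← pow_add, Nat.sub_add_cancel (by omega)]
    rw [le_div_iff₀ (by positivity)] at hl₀2
    have h5 : |ε y| ^ (4 * k) ≤ c ^ (4 * k) := by
      calc |ε y| ^ (4 * k) ≤ C9 * l₀ ^ (k - 4) * l ^ 4 := h1
        _ ≤ C9 * l₀ ^ (k - 4) * (16 * l₀ ^ 4) := mul_le_mul_of_nonneg_left h2 (by positivity)
        _ = 16 * C9 * (l₀ ^ (k - 4) * l₀ ^ 4) := by ring
        _ = 16 * C9 * l₀ ^ k := by rw [h4]
        _ ≤ 16 * C9 * l₀ := mul_le_mul_of_nonneg_left h3 (by positivity)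
        _ = l₀ * (16 * C9) := by ring
        _ ≤ c ^ (4 * k) := hl₀2
    exact (pow_le_pow_iff_left₀ (abs_nonneg _) hc.le (by omega)).1 h5
  · intro y
    have h1 := key y
    have h2 : |ε y| ^ (4 * k) ≤ C9 * l ^ 4 := by
      have h3 : l₀ ^ (k - 4) ≤ 1 := pow_le_one₀ hl₀.le (by linarith)
      calc |ε y| ^ (4 * k) ≤ C9 * l₀ ^ (k - 4) * l ^ 4 := h1
        _ ≤ C9 * 1 * l ^ 4 :=
          mul_le_mul_of_nonneg_right (mul_le_mul_of_nonneg_left h3 hC9p.le) (by positivity)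
        _ = C9 * l ^ 4 := by ring
    have h3 : (|ε y| ^ (4 * (k - 1)) * (Xn ε) ^ 5) ^ k ≤ (l ^ 7) ^ k := by
      have e1 : (|ε y| ^ (4 * (k - 1)) * (Xn ε) ^ 5) ^ k =
          (|ε y| ^ (4 * k)) ^ (k - 1) * ((Xn ε) ^ 5) ^ k := by
        have e0 : 4 * (k - 1) * k = 4 * k * (k - 1) := by ring
        rw [mul_pow, ← pow_mul (|ε y|) (4 * (k - 1)) k, ← pow_mul (|ε y|) (4 * k) (k - 1), e0]
      have h4 : (|ε y| ^ (4 * k)) ^ (k - 1) ≤ (C9 * l ^ 4) ^ (k - 1) :=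
        pow_le_pow_left₀ (by positivity) h2 _
      have h5 : ((Xn ε) ^ 5) ^ k ≤ ((K8 * l) ^ 5) ^ k :=
        pow_le_pow_left₀ (by positivity) (pow_le_pow_left₀ hX0 hX 5) k
      have h6 : l ^ (2 * k - 4) ≤ l := by
        calc l ^ (2 * k - 4) ≤ l ^ 1 := pow_le_pow_of_le_one hl.le hl1 (by omega)
          _ = l := pow_one _
      have h7 : C9 ^ (k - 1) * K8 ^ (5 * k) * l ≤ 1 := by
        rw [le_div_iff₀ (by positivity)] at hl₀3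
        calc C9 ^ (k - 1) * K8 ^ (5 * k) * l ≤ C9 ^ (k - 1) * K8 ^ (5 * k) * (2 * l₀) :=
              mul_le_mul_of_nonneg_left hll (by positivity)
          _ = l₀ * (2 * (C9 ^ (k - 1) * K8 ^ (5 * k))) := by ring
          _ ≤ 1 := hl₀3
      have e2 : (C9 * l ^ 4) ^ (k - 1) * ((K8 * l) ^ 5) ^ k =
          C9 ^ (k - 1) * K8 ^ (5 * k) * l ^ (2 * k - 4) * (l ^ 7) ^ k := by
        have e3 : l ^ (4 * (k - 1)) * l ^ (5 * k) = l ^ (2 * k - 4) * l ^ (7 * k) := by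
          rw [← pow_add, ← pow_add]
          congr 1
          omega
        rw [mul_pow, mul_pow K8 l 5, mul_pow (K8 ^ 5), ← pow_mul, ← pow_mul, ← pow_mul, ← pow_mul]
        calc C9 ^ (k - 1) * l ^ (4 * (k - 1)) * (K8 ^ (5 * k) * l ^ (5 * k))
            = C9 ^ (k - 1) * K8 ^ (5 * k) * (l ^ (4 * (k - 1)) * l ^ (5 * k)) := by ring
          _ = _ := by rw [e3]; ring
      rw [e1]
      calc (|ε y| ^ (4 * k)) ^ (k - 1) * ((Xn ε) ^ 5) ^ k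
          ≤ (C9 * l ^ 4) ^ (k - 1) * ((K8 * l) ^ 5) ^ k :=
            mul_le_mul h4 h5 (by positivity) (by positivity)
        _ = C9 ^ (k - 1) * K8 ^ (5 * k) * l ^ (2 * k - 4) * (l ^ 7) ^ k := e2
        _ ≤ C9 ^ (k - 1) * K8 ^ (5 * k) * l * (l ^ 7) ^ k :=
            mul_le_mul_of_nonneg_right (mul_le_mul_of_nonneg_left h6 (by positivity))
              (by positivity)
        _ ≤ 1 * (l ^ 7) ^ k := mul_le_mul_of_nonneg_right h7 (by positivity)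
        _ = (l ^ 7) ^ k := one_mul _
    exact (pow_le_pow_iff_left₀ (by positivity) (by positivity) (by omega)).1 h3

theorem lam_low {k : ℕ} (hk : 5 ≤ k) {α l x K : ℝ} {U : ℝ → ℝ} (hα : 0 < α) (hl : 0 < l)
    (hl1 : l ≤ 1) (hK : 0 < K) (hU : Cl (α / 2) (1 / 16) U)
    (hi : Integrable (fun x => wt α x * ((U x) ^ 2 + (deriv U x) ^ 2))) (hn : nw α U ≤ K)
    (hX : Xn (epf k U l x) ≤ (∫ y, (deriv (Qf k) y) ^ 2) / 4) :
    (∫ y, (deriv (Qf k) y) ^ 2) / (4 * K) ≤ l := by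
  have hk1 : 1 ≤ k := by omega
  have hW := Wf_cl (k := k) hα.le hl.le x hU
  have hQ := Q_cl hk1
  have hp : 0 < l * (α / 2) := by positivity
  have hq : 0 < l * (1 / 16) := by positivity
  have hiW : Integrable (fun y => (deriv (Wf k U l x) y) ^ 2) := SupR_sq hp hq (Cl_deriv hW)
  have hiQ : Integrable (fun y => (deriv (Qf k) y) ^ 2) := SupR_sq one_pos one_pos (Cl_deriv hQ)
  have hder : ∀ y, deriv (epf k U l x) y = deriv (Wf k U l x) y - deriv (Qf k) y := by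
    intro y
    have e : epf k U l x = fun y => Wf k U l x y - Qf k y := rfl
    rw [e]
    exact deriv_fun_sub ((hW.1.differentiable (by simp)) y) ((hQ.1.differentiable (by simp)) y)
  have hp' : 0 < min (l * (α / 2)) 1 := lt_min hp one_pos
  have hq' : 0 < min (l * (1 / 16)) 1 := lt_min hq one_pos
  have hiE : Integrable (fun y => (deriv (epf k U l x) y) ^ 2) := by
    have h1 : Cl (min (l * (α / 2)) 1) (min (l * (1 / 16)) 1)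
        (fun y => deriv (Wf k U l x) y - deriv (Qf k) y) :=
      Cl_sub (Cl_mono (min_le_left _ _) (min_le_left _ _) (Cl_deriv hW))
        (Cl_mono (min_le_right _ _) (min_le_right _ _) (Cl_deriv hQ))
    refine (SupR_sq hp' hq' h1).congr (Eventually.of_forall fun y => ?_)
    simp only [hder]
  have h1 : ∫ y, (deriv (Qf k) y) ^ 2 ≤ 2 * Xn (Wf k U l x) + 2 * Xn (epf k U l x) := by
    unfold Xn
    rw [← integral_const_mul, ← integral_const_mul,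
      ← integral_add (hiW.const_mul 2) (hiE.const_mul 2)]
    refine integral_mono hiQ ((hiW.const_mul 2).add (hiE.const_mul 2)) fun y => ?_
    change (deriv (Qf k) y) ^ 2 ≤ 2 * (deriv (Wf k U l x) y) ^ 2 + 2 * (deriv (epf k U l x) y) ^ 2
    rw [hder]
    nlinarith [sq_nonneg (2 * deriv (Wf k U l x) y - deriv (Qf k) y)]
  have h2 := Wf_X (k := k) hU.1 hl x
  have h3 := (sq_le_nw hα.le hU.1 hi).2.1
  have hk0 : (0 : ℝ) < k := qbas_kpos hk1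
  have h4 : l ^ (4 / (k : ℝ) + 1) ≤ l := by
    have h5 : l ^ (4 / (k : ℝ) + 1) ≤ l ^ (1 : ℝ) :=
      Real.rpow_le_rpow_of_exponent_ge hl hl1 (by
        have : 0 < 4 / (k : ℝ) := by positivity
        linarith)
    rwa [Real.rpow_one] at h5
  have h5 : Xn (Wf k U l x) ≤ l * K := by
    rw [h2]
    exact mul_le_mul h4 (h3.trans hn) (integral_nonneg fun y => sq_nonneg _) hl.le
  rw [div_le_iff₀ (by positivity)]
  nlinarith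

/-- the mass condition in the form used by `sup_small` -/
theorem mass_pow {k : ℕ} (hk : 5 ≤ k) {A l l₀ M₀ : ℝ} (hA : 0 ≤ A) (hl : 0 < l) (hl₀ : 0 < l₀)
    (hM : 0 ≤ M₀) (h : A ≤ l ^ (4 / (k : ℝ) - 1) * (l₀ ^ (1 - 4 / (k : ℝ)) * M₀)) :
    A ^ k * l ^ (k - 4) ≤ M₀ ^ k * l₀ ^ (k - 4) := by
  -- raise to the power `k`: `(l^{4/k-1})^k = l^{4-k}`, `(l₀^{1-4/k})^k = l₀^{k-4}`
  have hk0 : (k : ℝ) ≠ 0 := qbas_k0 (by omega)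
  have hcast : ((k - 4 : ℕ) : ℝ) = (k : ℝ) - 4 := by
    rw [Nat.cast_sub (by omega)]
    norm_num
  have e1 : (l ^ (4 / (k : ℝ) - 1)) ^ k * l ^ (k - 4) = 1 := by
    rw [← Real.rpow_natCast (l ^ (4 / (k : ℝ) - 1)), ← Real.rpow_mul hl.le,
      ← Real.rpow_natCast l (k - 4), ← Real.rpow_add hl, hcast]
    have e : (4 / (k : ℝ) - 1) * (k : ℝ) + ((k : ℝ) - 4) = 0 := by
      field_simp
      ring
    rw [e, Real.rpow_zero]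
  have e2 : (l₀ ^ (1 - 4 / (k : ℝ))) ^ k = l₀ ^ (k - 4) := by
    rw [← Real.rpow_natCast (l₀ ^ (1 - 4 / (k : ℝ))), ← Real.rpow_mul hl₀.le,
      ← Real.rpow_natCast l₀ (k - 4), hcast]
    congr 1
    field_simp
  have h1 := pow_le_pow_left₀ hA h k
  have h2 := mul_le_mul_of_nonneg_right h1 (by positivity : 0 ≤ l ^ (k - 4))
  refine h2.trans (le_of_eq ?_)
  rw [mul_pow, mul_pow, e2]
  calc (l ^ (4 / (k : ℝ) - 1)) ^ k * (l₀ ^ (k - 4) * M₀ ^ k) * l ^ (k - 4)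
      = ((l ^ (4 / (k : ℝ) - 1)) ^ k * l ^ (k - 4)) * (M₀ ^ k * l₀ ^ (k - 4)) := by ring
    _ = _ := by rw [e1, one_mul]

end H72KB
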