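import Pool.Agent.H72.KB.ClB

/-!
# Row QBas: basic facts on the soliton `Q`

`Q = C0^{1/k} cosh(ky/2)^{-2/k}`, `C0 = (k+1)(k+2)/2`, `t = tanh(ky/2)`.
* `Q' = -t Q` (derivative of a real power of `cosh`), `t' = (k/2)(1 - t²)`.
* `Q^k = C0 cosh^{-2} = C0 (1 - t²)`.
* `Q'' = -t' Q + t² Q = Q (t² - (k/2)(1-t²)) = Q - (1-t²)(1+k/2) Q = Q - Q^{k+1}/(k+1)` as
  `(1+k/2)(1-t²) = ((k+2)/2)(1-t²) = Q^k/(k+1)`.
* `Cl 1 1 Q`: by induction `iteratedDeriv j Q = P_j(t) Q` with a real polynomial `P_j`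
  (`P_{j+1} = (k/2)(1-X²) P_j' - X P_j`), `|t| ≤ 1`, and `0 < Q ≤ C e^{-|y|}` because `cosh z ≥ e^{|z|}/2`.
* `Q`, `Q'` are not identically zero and continuous, so the integrals of the squares are positive.
* oddness of `Q'`, evenness of `Q`.
-/

open MeasureTheory Filter Topology Set
open scoped ContDiff

namespace H72KB

open H98KB

theorem qbas_k0 {k : ℕ} (hk : 1 ≤ k) : (k : ℝ) ≠ 0 := by
  have : k ≠ 0 := by omega
  exact_mod_cast this

theorem qbas_kpos {k : ℕ} (hk : 1 ≤ k) : (0 : ℝ) < (k : ℝ) := by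
  have : 0 < k := by omega
  exact_mod_cast this

theorem qbas_C0 (k : ℕ) : (0 : ℝ) < ((k : ℝ) + 1) * ((k : ℝ) + 2) / 2 := by
  positivity

theorem Q_pos {k : ℕ} (hk : 1 ≤ k) (y : ℝ) : 0 < Qf k y := by
  unfold Qf
  exact mul_pos (Real.rpow_pos_of_pos (qbas_C0 k) _)
    (Real.rpow_pos_of_pos (Real.cosh_pos _) _)

theorem qbas_lin (k : ℕ) (y : ℝ) :
    HasDerivAt (fun y : ℝ => (k : ℝ) * y / 2) ((k : ℝ) / 2) y := by
  have h := ((hasDerivAt_id y).const_mul (k : ℝ)).div_const 2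
  simpa using h

theorem qbas_cosh (k : ℕ) (y : ℝ) :
    HasDerivAt (fun y : ℝ => Real.cosh ((k : ℝ) * y / 2))
      (Real.sinh ((k : ℝ) * y / 2) * ((k : ℝ) / 2)) y :=
  (Real.hasDerivAt_cosh _).comp y (qbas_lin k y)

theorem qbas_sinh (k : ℕ) (y : ℝ) :
    HasDerivAt (fun y : ℝ => Real.sinh ((k : ℝ) * y / 2))
      (Real.cosh ((k : ℝ) * y / 2) * ((k : ℝ) / 2)) y :=
  (Real.hasDerivAt_sinh _).comp y (qbas_lin k y)

theorem qbas_th_eq (k : ℕ) (y : ℝ) :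
    th k y = Real.sinh ((k : ℝ) * y / 2) / Real.cosh ((k : ℝ) * y / 2) := by
  unfold th
  rw [Real.tanh_eq_sinh_div_cosh]

theorem qbas_one_sub (k : ℕ) (y : ℝ) :
    1 - (th k y) ^ 2 = 1 / (Real.cosh ((k : ℝ) * y / 2)) ^ 2 := by
  have hc : Real.cosh ((k : ℝ) * y / 2) ≠ 0 := (Real.cosh_pos _).ne'
  have h := Real.cosh_sq_sub_sinh_sq ((k : ℝ) * y / 2)
  rw [qbas_th_eq]
  field_simp
  linarith

theorem qbas_th_der (k : ℕ) (y : ℝ) :
    HasDerivAt (th k) ((k : ℝ) / 2 * (1 - (th k y) ^ 2)) y := by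
  have hc : Real.cosh ((k : ℝ) * y / 2) ≠ 0 := (Real.cosh_pos _).ne'
  have h := (qbas_sinh k y).div (qbas_cosh k y) hc
  have e : th k = fun y : ℝ => Real.sinh ((k : ℝ) * y / 2) / Real.cosh ((k : ℝ) * y / 2) := by
    funext z
    exact qbas_th_eq k z
  rw [e]
  refine h.congr_deriv ?_
  field_simp

theorem Q_der {k : ℕ} (hk : 1 ≤ k) (y : ℝ) : HasDerivAt (Qf k) (-(th k y) * Qf k y) y := by
  have hk0 := qbas_k0 hk
  have hc := Real.cosh_pos ((k : ℝ) * y / 2)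
  have h1 := (qbas_cosh k y).rpow_const (p := -(2 / (k : ℝ))) (Or.inl hc.ne')
  have h2 := h1.const_mul ((((k : ℝ) + 1) * ((k : ℝ) + 2) / 2) ^ (1 / (k : ℝ)))
  have e : Qf k = fun y : ℝ => (((k : ℝ) + 1) * ((k : ℝ) + 2) / 2) ^ (1 / (k : ℝ)) *
    (Real.cosh ((k : ℝ) * y / 2)) ^ (-(2 / (k : ℝ))) := by
    funext z
    rfl
  have e2 : Qf k y = (((k : ℝ) + 1) * ((k : ℝ) + 2) / 2) ^ (1 / (k : ℝ)) *
    (Real.cosh ((k : ℝ) * y / 2)) ^ (-(2 / (k : ℝ))) := rfl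
  rw [e2, qbas_th_eq, e]
  refine h2.congr_deriv ?_
  rw [Real.rpow_sub_one hc.ne']
  field_simp

theorem Q_pow {k : ℕ} (hk : 1 ≤ k) (y : ℝ) :
    (Qf k y) ^ k = ((k : ℝ) + 1) * ((k : ℝ) + 2) / 2 * (1 - (th k y) ^ 2) := by
  have hk0 := qbas_k0 hk
  have hc := Real.cosh_pos ((k : ℝ) * y / 2)
  unfold Qf
  rw [mul_pow, ← Real.rpow_natCast, ← Real.rpow_mul (qbas_C0 k).le,
    ← Real.rpow_natCast ((Real.cosh ((k : ℝ) * y / 2)) ^ (-(2 / (k : ℝ)))),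
    ← Real.rpow_mul hc.le, qbas_one_sub]
  have e1 : 1 / (k : ℝ) * (k : ℝ) = 1 := by field_simp
  have e2 : -(2 / (k : ℝ)) * (k : ℝ) = -2 := by field_simp
  rw [e1, e2, Real.rpow_one, Real.rpow_neg hc.le]
  norm_num

theorem qbas_deriv {k : ℕ} (hk : 1 ≤ k) : deriv (Qf k) = fun y => -(th k y) * Qf k y := by
  funext y
  exact (Q_der hk y).deriv

theorem Q_ode {k : ℕ} (hk : 1 ≤ k) (y : ℝ) :
    deriv (deriv (Qf k)) y = Qf k y - fl k (Qf k y) := by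
  rw [qbas_deriv hk]
  have h := ((qbas_th_der k y).neg).mul (Q_der hk y)
  have h1 : deriv (fun y => -(th k y) * Qf k y) y =
      -((k : ℝ) / 2 * (1 - (th k y) ^ 2)) * Qf k y + -(th k y) * (-(th k y) * Qf k y) :=
    h.deriv
  rw [h1]
  unfold fl
  rw [pow_succ (Qf k y) k, Q_pow hk]
  have : (k : ℝ) + 1 ≠ 0 := by positivity
  field_simp
  ring

theorem qbas_poly {k : ℕ} (hk : 1 ≤ k) (j : ℕ) :
    ∃ P : Polynomial ℝ, ∀ y, iteratedDeriv j (Qf k) y = P.eval (th k y) * Qf k y := by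
  induction j with
  | zero => exact ⟨1, fun y => by simp⟩
  | succ n ih =>
    obtain ⟨P, hP⟩ := ih
    refine ⟨Polynomial.C ((k : ℝ) / 2) * (1 - Polynomial.X ^ 2) * Polynomial.derivative P -
      Polynomial.X * P, fun y => ?_⟩
    rw [iteratedDeriv_succ]
    have e : iteratedDeriv n (Qf k) = fun y => P.eval (th k y) * Qf k y := funext hP
    rw [e]
    have h1 : HasDerivAt (fun y => P.eval (th k y))
        (P.derivative.eval (th k y) * ((k : ℝ) / 2 * (1 - (th k y) ^ 2))) y :=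
      (P.hasDerivAt (th k y)).comp y (qbas_th_der k y)
    have h2 := h1.mul (Q_der hk y)
    have h3 : deriv (fun y => P.eval (th k y) * Qf k y) y =
        P.derivative.eval (th k y) * ((k : ℝ) / 2 * (1 - (th k y) ^ 2)) * Qf k y +
          P.eval (th k y) * (-(th k y) * Qf k y) := h2.deriv
    rw [h3]
    simp only [Polynomial.eval_sub, Polynomial.eval_mul, Polynomial.eval_C,
      Polynomial.eval_one, Polynomial.eval_pow, Polynomial.eval_X]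
    ring

theorem qbas_th_abs (k : ℕ) (y : ℝ) : |th k y| ≤ 1 := by
  unfold th
  exact (Real.abs_tanh_lt_one _).le

theorem qbas_poly_bd (P : Polynomial ℝ) : ∃ C : ℝ, 0 ≤ C ∧ ∀ t : ℝ, |t| ≤ 1 → |P.eval t| ≤ C := by
  obtain ⟨C, hC⟩ := (isCompact_Icc (a := (-1 : ℝ)) (b := 1)).exists_bound_of_continuousOn
    (f := fun t => P.eval t) P.continuous.continuousOn
  refine ⟨|C|, abs_nonneg _, fun t ht => ?_⟩
  have h1 := hC t ⟨(abs_le.1 ht).1, (abs_le.1 ht).2⟩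
  rw [Real.norm_eq_abs] at h1
  exact h1.trans (le_abs_self C)

theorem qbas_bd (y : ℝ) : bd 1 1 y = Real.exp (-|y|) := by
  unfold bd
  congr 1
  rcases le_total 0 y with h | h
  · rw [max_eq_left h, max_eq_right (by linarith), abs_of_nonneg h]
    ring
  · rw [max_eq_right h, max_eq_left (by linarith), abs_of_nonpos h]
    ring

theorem qbas_decay {k : ℕ} (hk : 1 ≤ k) : ∃ C : ℝ, 0 ≤ C ∧ ∀ y, Qf k y ≤ C * bd 1 1 y := by
  have hk0 := qbas_kpos hk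
  refine ⟨(((k : ℝ) + 1) * ((k : ℝ) + 2) / 2) ^ (1 / (k : ℝ)) * (1 / 2 : ℝ) ^ (-(2 / (k : ℝ))),
    by positivity, fun y => ?_⟩
  unfold Qf
  rw [mul_assoc, qbas_bd]
  refine mul_le_mul_of_nonneg_left ?_ (Real.rpow_nonneg (qbas_C0 k).le _)
  have h1 : 1 / 2 * Real.exp ((k : ℝ) * |y| / 2) ≤ Real.cosh ((k : ℝ) * y / 2) := by
    rw [← Real.cosh_abs, Real.cosh_eq]
    have e : |(k : ℝ) * y / 2| = (k : ℝ) * |y| / 2 := by
      rw [abs_div, abs_mul, abs_of_pos hk0, abs_of_pos (by norm_num : (0 : ℝ) < 2)]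
    rw [e]
    have := Real.exp_pos (-((k : ℝ) * |y| / 2))
    linarith
  have h2 : (0 : ℝ) < 1 / 2 * Real.exp ((k : ℝ) * |y| / 2) := by positivity
  have h3 := Real.rpow_le_rpow_of_nonpos h2 h1 (z := -(2 / (k : ℝ)))
    (by
      have : 0 < 2 / (k : ℝ) := by positivity
      linarith)
  refine h3.trans (le_of_eq ?_)
  rw [Real.mul_rpow (by norm_num) (Real.exp_pos _).le, ← Real.exp_mul]
  congr 2
  field_simp

theorem qbas_smooth {k : ℕ} (hk : 1 ≤ k) : ContDiff ℝ ∞ (Qf k) := by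
  have h1 : ContDiff ℝ ∞ (fun y : ℝ => Real.cosh ((k : ℝ) * y / 2)) :=
    Real.contDiff_cosh.comp ((contDiff_const.mul contDiff_id).div_const 2)
  have h2 : ContDiff ℝ ∞ (fun y : ℝ => (Real.cosh ((k : ℝ) * y / 2)) ^ (-(2 / (k : ℝ)))) :=
    h1.rpow_const_of_ne (fun y => (Real.cosh_pos _).ne')
  exact contDiff_const.mul h2

theorem Q_cl {k : ℕ} (hk : 1 ≤ k) : Cl 1 1 (Qf k) := by
  refine ⟨qbas_smooth hk, fun j => ?_⟩
  obtain ⟨P, hP⟩ := qbas_poly hk j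
  obtain ⟨C, hC0, hC⟩ := qbas_poly_bd P
  obtain ⟨D, hD0, hD⟩ := qbas_decay hk
  refine ⟨C * D, fun y => ?_⟩
  rw [hP, abs_mul, abs_of_pos (Q_pos hk y), mul_assoc]
  exact mul_le_mul (hC _ (qbas_th_abs k y)) (hD y) (Q_pos hk y).le hC0

theorem Q_even (k : ℕ) (y : ℝ) : Qf k (-y) = Qf k y := by
  unfold Qf
  have e : (k : ℝ) * -y / 2 = -((k : ℝ) * y / 2) := by ring
  rw [e, Real.cosh_neg]

theorem qbas_sq_int {f : ℝ → ℝ} (hf : Cl 1 1 f) : Integrable (fun y => (f y) ^ 2) := by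
  obtain ⟨C, hC⟩ := hf.2 0
  have h2 : Integrable (fun y => C ^ 2 * bd 2 2 y) :=
    (bd_int (by norm_num) (by norm_num)).const_mul _
  refine h2.mono' ((hf.1.continuous.pow 2).aestronglyMeasurable) (Eventually.of_forall ?_)
  intro y
  have h3 := hC y
  rw [iteratedDeriv_zero] at h3
  have h4 : bd 1 1 y * bd 1 1 y = bd 2 2 y := by
    rw [bd_mul]
    norm_num
  rw [Real.norm_eq_abs, abs_of_nonneg (sq_nonneg _), ← sq_abs, ← h4]
  calc |f y| ^ 2 ≤ (C * bd 1 1 y) ^ 2 := pow_le_pow_left₀ (abs_nonneg _) h3 2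
    _ = C ^ 2 * (bd 1 1 y * bd 1 1 y) := by ring

theorem Qsq_pos {k : ℕ} (hk : 1 ≤ k) : 0 < ∫ y, (Qf k y) ^ 2 := by
  have h0 : (0 : ℝ → ℝ) ≤ fun y => (Qf k y) ^ 2 := fun y => sq_nonneg _
  rw [integral_pos_iff_support_of_nonneg h0 (qbas_sq_int (Q_cl hk))]
  have hs : Function.support (fun y => (Qf k y) ^ 2) = univ := by
    ext y
    simp only [Function.mem_support, mem_univ, iff_true]
    exact (pow_pos (Q_pos hk y) 2).ne'
  rw [hs]
  simp

theorem Q'sq_pos {k : ℕ} (hk : 1 ≤ k) : 0 < ∫ y, (deriv (Qf k) y) ^ 2 := by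
  have h0 : (0 : ℝ → ℝ) ≤ fun y => (deriv (Qf k) y) ^ 2 := fun y => sq_nonneg _
  rw [integral_pos_iff_support_of_nonneg h0 (qbas_sq_int (Cl_deriv (Q_cl hk)))]
  have hs : Ioi (0 : ℝ) ⊆ Function.support (fun y => (deriv (Qf k) y) ^ 2) := by
    intro y hy
    rw [Function.mem_support, qbas_deriv hk]
    have hy0 : (0 : ℝ) < y := hy
    have h1 : 0 < th k y := by
      rw [qbas_th_eq]
      have hk0 := qbas_kpos hk
      exact div_pos (Real.sinh_pos_iff.2 (by positivity)) (Real.cosh_pos _)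
    have h2 := Q_pos hk y
    have h3 : -(th k y) * Qf k y ≠ 0 := by
      intro h
      rcases mul_eq_zero.1 h with h | h
      · linarith
      · linarith
    exact pow_ne_zero 2 h3
  refine lt_of_lt_of_le ?_ (measure_mono hs)
  simp

theorem sc_pos {k : ℕ} (hk : 5 ≤ k) : 0 < sc k ∧ sc k < 1 / 2 := by
  have h5 : (5 : ℝ) ≤ (k : ℝ) := by exact_mod_cast hk
  unfold sc
  have h1 : 2 / (k : ℝ) ≤ 2 / 5 := div_le_div_of_nonneg_left (by norm_num) (by norm_num) h5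
  have h2 : 0 < 2 / (k : ℝ) := by positivity
  constructor
  · linarith
  · linarith

theorem kap_pos {k : ℕ} (hk : 5 ≤ k) : 0 < kap k := by
  unfold kap
  have h1 : 1 ≤ k := by omega
  exact div_pos (Q'sq_pos h1) (mul_pos (sc_pos hk).1 (Qsq_pos h1))

end H72KB
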