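import Pool.Agent.H72.KB.Scal
import Pool.Agent.H72.KB.QBas
import Pool.Agent.H72.KB.ClC

/-!
# Row IniB: the initial data in the physical variable

`Q, n ∈ Cl (1/2) (1/2)` (`Q_cl`, `Cl_mono`; `ThmN`), so `dat k l₀ a = l₀^{-2/k} (Q + a n)(x/l₀) ∈ Cl (1/(2l₀)) (1/(2l₀))`
(`Cl_comp` with `l = 1/l₀`, shift 0).
* `dat_H1`: `dat` and its derivative are continuous, bounded by `C bd`, hence in `L²` (`MemLp ... 2`), and
  `dat y - dat x = ∫ deriv` (`intervalIntegral.integral_deriv_eq_sub`).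
* `dat_int`: `wt α ≤ 2 e^{α|x|}`-type bound (`e^{-x/8} ≤ e^{α|x|}` as `α ≥ 1`), `dat² + dat'² ≤ C e^{-|x|/l₀}`, `1/l₀ ≥ 8α > α`.
* `dat_resc`: `Wf k (dat k l₀ a) l₀ 0 y = Q y + a n y` (`l₀^{2/k} l₀^{-2/k} = 1`, `l₀ y / l₀ = y`), so
  `epf k U l₀ 0 y - a n y = Wf k (U - dat) l₀ 0 y`.
* `ini_diff`: `Wf_Gn`, `Wf_sq`, `Wf_X` with `x = 0` for `U - dat` (smooth; `wt ((U-dat)² + ..)` integrable by
  `(a-b)² ≤ 2a²+2b²`, `hi`, `dat_int`), `sq_le_nw`, and `l₀^{4/k-1} ≤ l₀⁻¹`, `l₀^{4/k+1} ≤ 1 ≤ l₀⁻¹` for `l₀ ≤ 1`.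
* `mass_ini`: `∫U² ≤ 2∫dat² + 2∫(U-dat)²`, `∫(U-dat)² ≤ ν` (`sq_le_nw`), `∫ dat² = l₀^{1-4/k} ∫(Q+an)²` (from `Wf_sq`),
  `(Q+an)² ≤ 2Q² + 2n²` (`|a| ≤ 1`).
-/

open MeasureTheory Filter Topology Set
open scoped ContDiff

namespace H72KB

open H98KB

theorem inib_f {k : ℕ} (hk : 5 ≤ k) (hN : ThmN) (a : ℝ) :
    Cl (1 / 2) (1 / 2) (fun y => Qf k y + a * nf k y) :=
  Cl_add (Cl_mono (by norm_num) (by norm_num) (Q_cl (by omega))) (Cl_smul a (hN k hk).1)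

theorem inib_eq (k : ℕ) (l₀ a : ℝ) : dat k l₀ a = fun x => l₀ ^ (-(2 / (k : ℝ))) *
    (fun y => Qf k y + a * nf k y) (1 / l₀ * x + 0) := by
  funext x
  unfold dat
  have e : 1 / l₀ * x + 0 = x / l₀ := by ring
  simp only [e]

theorem dat_cl {k : ℕ} (hk : 5 ≤ k) (hN : ThmN) {l₀ : ℝ} (hl : 0 < l₀) (a : ℝ) :
    Cl (1 / (2 * l₀)) (1 / (2 * l₀)) (dat k l₀ a) := by
  have h1 := Cl_comp (l := 1 / l₀) (by norm_num) (by norm_num) (by positivity) 0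
    (inib_f hk hN a)
  have h2 := Cl_smul (l₀ ^ (-(2 / (k : ℝ)))) h1
  have e : 1 / (2 * l₀) = 1 / l₀ * (1 / 2) := by
    field_simp
  rw [e, inib_eq]
  exact h2

theorem inib_sq {p q : ℝ} {f : ℝ → ℝ} (hp : 0 < p) (hq : 0 < q) (hf : Cl p q f) :
    Integrable (fun x => (f x) ^ 2) :=
  Cl_int hp hq (Cl_pow hp.le hq.le hf 2 (by norm_num))

theorem inib_mem {p q : ℝ} {f : ℝ → ℝ} (hp : 0 < p) (hq : 0 < q) (hf : Cl p q f) :
    MemLp f 2 volume :=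
  (memLp_two_iff_integrable_sq hf.1.continuous.aestronglyMeasurable).2 (inib_sq hp hq hf)

theorem dat_H1 {k : ℕ} (hk : 5 ≤ k) (hN : ThmN) {l₀ : ℝ} (hl : 0 < l₀) (a : ℝ) :
    IsH1 (dat k l₀ a) (deriv (dat k l₀ a)) := by
  have hc := dat_cl hk hN hl a
  have hp : 0 < 1 / (2 * l₀) := by positivity
  refine ⟨inib_mem hp hp hc, inib_mem hp hp (Cl_deriv hc), fun x y => ?_⟩
  rw [intervalIntegral.integral_deriv_eq_sub]
  · intro z _
    exact (hc.1.differentiable (by simp)) z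
  · exact ((Cl_deriv hc).1.continuous).intervalIntegrable x y

theorem inib_wt {α : ℝ} (hα : 1 ≤ α) (x : ℝ) : wt α x ≤ 2 * bd (-α) (-α) x := by
  have e : bd (-α) (-α) x = Real.exp (α * |x|) := by
    unfold bd
    congr 1
    rcases le_total 0 x with h | h
    · rw [max_eq_left h, max_eq_right (by linarith), abs_of_nonneg h]
      ring
    · rw [max_eq_right h, max_eq_left (by linarith), abs_of_nonpos h]
      ring
  rw [e]
  unfold wt
  have h1 : Real.exp (α * x) ≤ Real.exp (α * |x|) :=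
    Real.exp_le_exp.2 (mul_le_mul_of_nonneg_left (le_abs_self x) (by linarith))
  have h2 : Real.exp (-x / 8) ≤ Real.exp (α * |x|) := by
    refine Real.exp_le_exp.2 ?_
    have h3 := neg_le_abs x
    have h4 := abs_nonneg x
    nlinarith
  linarith

theorem dat_int {k : ℕ} (hk : 5 ≤ k) (hN : ThmN) {l₀ α : ℝ} (hl : 0 < l₀) (hα : 1 ≤ α)
    (hαl : 8 * α * l₀ ≤ 1) (a : ℝ) :
    Integrable (fun x => wt α x * ((dat k l₀ a x) ^ 2 + (deriv (dat k l₀ a) x) ^ 2)) := by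
  have hc := dat_cl hk hN hl a
  have hd := Cl_deriv hc
  have hg := Cl_add (Cl_mul hc hc) (Cl_mul hd hd)
  obtain ⟨C, hC0, hC⟩ := ClC_abs hg
  have hs : 1 / (2 * l₀) + 1 / (2 * l₀) = 1 / l₀ := by
    field_simp
    norm_num
  rw [hs] at hC
  have hα8 : 8 * α ≤ 1 / l₀ := by
    rw [le_div_iff₀ hl]
    exact hαl
  have hbi : Integrable (bd (1 / l₀ + -α) (1 / l₀ + -α)) :=
    bd_int (by linarith) (by linarith)
  have hwc : Continuous (wt α) := by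
    unfold wt
    fun_prop
  refine Integrable.mono' ((hbi.const_mul C).const_mul 2) ?_ (Eventually.of_forall fun x => ?_)
  · exact (hwc.mul ((hc.1.continuous.pow 2).add (hd.1.continuous.pow 2))).aestronglyMeasurable
  · have hw0 : 0 ≤ wt α x := by
      unfold wt
      positivity
    have h0 : 0 ≤ (dat k l₀ a x) ^ 2 + (deriv (dat k l₀ a) x) ^ 2 := by positivity
    rw [Real.norm_eq_abs, abs_of_nonneg (mul_nonneg hw0 h0)]
    have h1 : (dat k l₀ a x) ^ 2 + (deriv (dat k l₀ a) x) ^ 2 ≤ C * bd (1 / l₀) (1 / l₀) x := by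
      refine le_trans (le_of_eq ?_) ((le_abs_self _).trans (hC x))
      ring
    have h2 := mul_le_mul (inib_wt hα x) h1 h0 (by
      have := bd_pos (-α) (-α) x
      linarith)
    refine h2.trans (le_of_eq ?_)
    rw [← bd_mul]
    ring

theorem dat_resc {k : ℕ} (hk : 5 ≤ k) {l₀ : ℝ} (hl : 0 < l₀) (a : ℝ) (U : ℝ → ℝ) (y : ℝ) :
    epf k U l₀ 0 y - a * nf k y = Wf k (fun x => U x - dat k l₀ a x) l₀ 0 y := by
  unfold epf Wf dat
  have e : (l₀ * y + 0) / l₀ = y := by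
    field_simp
    ring
  have e2 : l₀ ^ (2 / (k : ℝ)) * l₀ ^ (-(2 / (k : ℝ))) = 1 := by
    rw [← Real.rpow_add hl, add_neg_cancel, Real.rpow_zero]
  simp only [e]
  rw [mul_sub, ← mul_assoc, e2]
  ring

theorem inib_V {k : ℕ} (hk : 5 ≤ k) (hN : ThmN) {l₀ α a : ℝ} {U : ℝ → ℝ} (hl : 0 < l₀)
    (hα1 : 1 ≤ α) (hαl : 8 * α * l₀ ≤ 1) (hU : ContDiff ℝ ∞ U)
    (hi : Integrable (fun x => wt α x * ((U x) ^ 2 + (deriv U x) ^ 2))) :
    ContDiff ℝ ∞ (fun x => U x - dat k l₀ a x) ∧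
    Integrable (fun x => wt α x * ((U x - dat k l₀ a x) ^ 2 +
      (deriv (fun x => U x - dat k l₀ a x) x) ^ 2)) := by
  have hc := dat_cl hk hN hl a
  have hV : ContDiff ℝ ∞ (fun x => U x - dat k l₀ a x) := hU.sub hc.1
  refine ⟨hV, ?_⟩
  have hwc : Continuous (wt α) := by
    unfold wt
    fun_prop
  have hb := (hi.const_mul 2).add ((dat_int hk hN hl hα1 hαl a).const_mul 2)
  refine Integrable.mono' hb ?_ (Eventually.of_forall fun x => ?_)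
  · exact (hwc.mul ((hV.continuous.pow 2).add
      ((hV.continuous_deriv (by simp)).pow 2))).aestronglyMeasurable
  · have hw0 : 0 ≤ wt α x := by
      unfold wt
      positivity
    have hder : deriv (fun x => U x - dat k l₀ a x) x = deriv U x - deriv (dat k l₀ a) x :=
      deriv_fun_sub ((hU.differentiable (by simp)) x) ((hc.1.differentiable (by simp)) x)
    rw [hder, Real.norm_eq_abs, abs_of_nonneg (mul_nonneg hw0 (by positivity))]
    change wt α x * _ ≤ 2 * (wt α x * ((U x) ^ 2 + (deriv U x) ^ 2)) +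
      2 * (wt α x * ((dat k l₀ a x) ^ 2 + (deriv (dat k l₀ a) x) ^ 2))
    have h1 : (U x - dat k l₀ a x) ^ 2 + (deriv U x - deriv (dat k l₀ a) x) ^ 2 ≤
        2 * ((U x) ^ 2 + (deriv U x) ^ 2) +
          2 * ((dat k l₀ a x) ^ 2 + (deriv (dat k l₀ a) x) ^ 2) := by
      nlinarith [sq_nonneg (U x + dat k l₀ a x), sq_nonneg (deriv U x + deriv (dat k l₀ a) x)]
    have h2 := mul_le_mul_of_nonneg_left h1 hw0
    linarith

theorem ini_diff {k : ℕ} (hk : 5 ≤ k) (hN : ThmN) {l₀ α R B ν a : ℝ} {U : ℝ → ℝ} (hl : 0 < l₀)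
    (hl1 : l₀ ≤ 1) (hR : 0 ≤ R) (hα1 : 1 ≤ α) (hα : 2 * R ≤ α) (hαl : 8 * α * l₀ ≤ 1) (hB : 0 < B)
    (hU : ContDiff ℝ ∞ U)
    (hi : Integrable (fun x => wt α x * ((U x) ^ 2 + (deriv U x) ^ 2)))
    (hn : nw α (fun x => U x - dat k l₀ a x) ≤ ν) :
    Gn B (R * l₀) (fun y => epf k U l₀ 0 y - a * nf k y) ≤ l₀⁻¹ * ν ∧
      ∫ y, (epf k U l₀ 0 y - a * nf k y) ^ 2 ≤ l₀⁻¹ * ν ∧
      Xn (fun y => epf k U l₀ 0 y - a * nf k y) ≤ l₀⁻¹ * ν := by
  obtain ⟨hV, hiV⟩ := inib_V (a := a) hk hN hl hα1 hαl hU hi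
  have e : (fun y => epf k U l₀ 0 y - a * nf k y) =
      Wf k (fun x => U x - dat k l₀ a x) l₀ 0 := by
    funext y
    exact dat_resc hk hl a U y
  obtain ⟨q1, q2, q3⟩ := sq_le_nw (by linarith) hV hiV
  have hl' : 0 < l₀⁻¹ := inv_pos.2 hl
  have hν : 0 ≤ ν := q3.trans hn
  refine ⟨?_, ?_, ?_⟩
  · rw [e]
    have h := Wf_Gn (k := k) (B := B) (x := 0) (by omega) hα hR hB hl hl1 hV hiV
    rw [abs_zero, mul_zero, Real.exp_zero, mul_one] at h
    exact h.trans (mul_le_mul_of_nonneg_left hn hl'.le)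
  · have e' : (fun y => (epf k U l₀ 0 y - a * nf k y) ^ 2) =
        fun y => (Wf k (fun x => U x - dat k l₀ a x) l₀ 0 y) ^ 2 := by
      funext y
      rw [dat_resc hk hl a U y]
    rw [e', Wf_sq _ hl 0, Real.rpow_sub_one hl.ne', div_eq_mul_inv]
    have h1 : l₀ ^ (4 / (k : ℝ)) ≤ 1 := Real.rpow_le_one hl.le hl1 (by positivity)
    have h2 : l₀ ^ (4 / (k : ℝ)) * l₀⁻¹ ≤ l₀⁻¹ := by
      have := mul_le_mul_of_nonneg_right h1 hl'.le
      rwa [one_mul] at this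
    exact mul_le_mul h2 (q1.trans hn) (integral_nonneg fun z => sq_nonneg _) hl'.le
  · rw [e, Wf_X hV hl 0]
    have h1 : l₀ ^ (4 / (k : ℝ) + 1) ≤ 1 := Real.rpow_le_one hl.le hl1 (by positivity)
    have h2 : (1 : ℝ) ≤ l₀⁻¹ := (one_le_inv₀ hl).2 hl1
    exact mul_le_mul (h1.trans h2) (q2.trans hn) (integral_nonneg fun z => sq_nonneg _) hl'.le

theorem mass_ini {k : ℕ} (hk : 5 ≤ k) (hN : ThmN) {l₀ α ν a : ℝ} {U : ℝ → ℝ} (hl : 0 < l₀)
    (hα1 : 1 ≤ α) (hαl : 8 * α * l₀ ≤ 1) (ha : |a| ≤ 1) (hU : ContDiff ℝ ∞ U)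
    (hi : Integrable (fun x => wt α x * ((U x) ^ 2 + (deriv U x) ^ 2)))
    (hn : nw α (fun x => U x - dat k l₀ a x) ≤ ν) :
    ∫ x, (U x) ^ 2 ≤ l₀ ^ (1 - 4 / (k : ℝ)) *
      (4 * ((∫ y, (Qf k y) ^ 2) + ∫ y, (nf k y) ^ 2)) + 2 * ν := by
  obtain ⟨hV, hiV⟩ := inib_V (a := a) hk hN hl hα1 hαl hU hi
  obtain ⟨q1, q2, q3⟩ := sq_le_nw (by linarith) hV hiV
  have hc := dat_cl hk hN hl a
  have hp : 0 < 1 / (2 * l₀) := by positivity
  have hdi : Integrable (fun x => (dat k l₀ a x) ^ 2) := inib_sq hp hp hc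
  have hVi : Integrable (fun x => (U x - dat k l₀ a x) ^ 2) := by
    refine Integrable.mono' hiV ((hV.continuous.pow 2).aestronglyMeasurable)
      (Eventually.of_forall fun x => ?_)
    rw [Real.norm_eq_abs, abs_of_nonneg (sq_nonneg _)]
    have hw := one_le_wt (α := α) (by linarith) x
    have h0 : 0 ≤ (U x - dat k l₀ a x) ^ 2 + (deriv (fun x => U x - dat k l₀ a x) x) ^ 2 := by
      positivity
    have h1 := mul_le_mul_of_nonneg_right hw h0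
    have h2 := sq_nonneg (deriv (fun x => U x - dat k l₀ a x) x)
    linarith
  have h1 : ∫ x, (U x) ^ 2 ≤ ∫ x, (2 * (dat k l₀ a x) ^ 2 + 2 * (U x - dat k l₀ a x) ^ 2) := by
    refine integral_mono_of_nonneg (Eventually.of_forall fun x => sq_nonneg _)
      ((hdi.const_mul 2).add (hVi.const_mul 2)) (Eventually.of_forall fun x => ?_)
    show (U x) ^ 2 ≤ 2 * (dat k l₀ a x) ^ 2 + 2 * (U x - dat k l₀ a x) ^ 2
    nlinarith [sq_nonneg (U x - 2 * dat k l₀ a x)]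
  rw [integral_add (hdi.const_mul 2) (hVi.const_mul 2), integral_const_mul,
    integral_const_mul] at h1
  -- the integral of `dat²`
  have hQi : Integrable (fun y => (Qf k y) ^ 2) :=
    inib_sq (by norm_num) (by norm_num) (Q_cl (k := k) (by omega))
  have hni : Integrable (fun y => (nf k y) ^ 2) :=
    inib_sq (by norm_num) (by norm_num) (hN k hk).1
  have e : ∀ y, Wf k (dat k l₀ a) l₀ 0 y = Qf k y + a * nf k y := by
    intro y
    have h := dat_resc hk hl a (fun _ => 0) y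
    unfold epf Wf at h
    unfold Wf
    simp only [mul_zero, zero_sub, mul_neg] at h
    linarith
  have h2 := Wf_sq (k := k) (dat k l₀ a) hl 0
  simp_rw [e] at h2
  have h3 : ∫ x, (dat k l₀ a x) ^ 2 =
      l₀ ^ (1 - 4 / (k : ℝ)) * ∫ y, (Qf k y + a * nf k y) ^ 2 := by
    rw [h2, ← mul_assoc, ← Real.rpow_add hl]
    have e3 : 1 - 4 / (k : ℝ) + (4 / (k : ℝ) - 1) = 0 := by ring
    rw [e3, Real.rpow_zero, one_mul]
  have h4 : ∫ y, (Qf k y + a * nf k y) ^ 2 ≤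
      ∫ y, (2 * (Qf k y) ^ 2 + 2 * (nf k y) ^ 2) := by
    refine integral_mono_of_nonneg (Eventually.of_forall fun x => sq_nonneg _)
      ((hQi.const_mul 2).add (hni.const_mul 2)) (Eventually.of_forall fun x => ?_)
    show (Qf k x + a * nf k x) ^ 2 ≤ 2 * (Qf k x) ^ 2 + 2 * (nf k x) ^ 2
    have ha2 : a ^ 2 ≤ 1 := by
      have := pow_le_pow_left₀ (abs_nonneg a) ha 2
      rwa [sq_abs, one_pow] at this
    have h5 : a ^ 2 * (nf k x) ^ 2 ≤ 1 * (nf k x) ^ 2 :=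
      mul_le_mul_of_nonneg_right ha2 (sq_nonneg _)
    nlinarith [sq_nonneg (Qf k x - a * nf k x)]
  rw [integral_add (hQi.const_mul 2) (hni.const_mul 2), integral_const_mul,
    integral_const_mul] at h4
  have hr : 0 ≤ l₀ ^ (1 - 4 / (k : ℝ)) := Real.rpow_nonneg hl.le _
  have h5 := mul_le_mul_of_nonneg_left h4 hr
  rw [← h3] at h5
  have h6 : l₀ ^ (1 - 4 / (k : ℝ)) * (4 * ((∫ y, (Qf k y) ^ 2) + ∫ y, (nf k y) ^ 2)) =
      2 * (l₀ ^ (1 - 4 / (k : ℝ)) *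
        (2 * (∫ y, (Qf k y) ^ 2) + 2 * ∫ y, (nf k y) ^ 2)) := by ring
  rw [h6]
  linarith

end H72KB
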