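import Pool.Agent.H72.KB.QBas
import Pool.Agent.H72.KB.ClC
import Pool.Agent.H72.KB.Base

/-!
# Row DetR: the determinant is close to `Det k Q = 2 d0 > 0`

`Det_Q`: `IA k Q Q = (2/k-1)|Q|² - ∫ y Q Q' = (2/k - 1)|Q|² + |Q|²/2 = -s_c |Q|²` (`∫ y Q Q' = -|Q|²/2` by parts),
`IB Q Q = ∫ Q Q' = 0`, `IA k Q Q' = (2/k-1)∫QQ' - ∫ y Q Q'' = 0` (odd integrand; or by parts), `IB Q Q' = ∫ Q Q'' = -|Q'|²`.
For `Det_Q` only `IA(Q)(Q)`, `IB(Q)(Q')`, `IB(Q)(Q)=0` are needed (the last kills the second product).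
`Det_low`: `Det` is a polynomial in the four linear functionals `W ↦ IA k W φ, IB W φ` (`φ = Q, Q'`), of the form
`∫ W ψ`, `|ψ y| ≤ C exp(-(3/4)|y|)` (`Q_cl`, `Cl_deriv`, `Cl_ymul`, `bd_le_exp`).  Cauchy-Schwarz:
`|∫ ε ψ| ≤ (∫ om ε²)^{1/2} (∫ ψ²/om)^{1/2} ≤ C √(Gn B ρ ε)`, because `om B ρ y ≥ 1/2` for `y ≥ 0` and, for `y ≤ 0`,
`Th ≥ (1/2) e^{y/B}`, `e^{2ρy} ≥ e^{y/(2B)}` (`4ρB ≤ 1`), so `om ≥ (1/2) e^{-|y|/8}` (`B ≥ 16`).
(`om ε²` is integrable since `ε ∈ Cl p q`, `p > ρ`, `q > 0`: `om ≤ e^{2ρy}` for `y ≥ 0`, `≤ 1` for `y ≤ 0`; and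
`∫ om ε² ≤ Gn`.)  So `|Det(Q+ε) - Det(Q)| ≤ C (√G + G)`, small if `G ≤ g`.
-/

open MeasureTheory Filter Topology Set
open scoped ContDiff

namespace H72KB

open H98KB

theorem DetR_cd {p q : ℝ} {f : ℝ → ℝ} (hf : Cl p q f) (y : ℝ) : HasDerivAt f (deriv f y) y :=
  ((hf.1.differentiable (by simp)) y).hasDerivAt

theorem Det_Q {k : ℕ} (hk : 5 ≤ k) : Det k (Qf k) = 2 * d0 k := by
  have hQ : Cl 1 1 (Qf k) := Q_cl (by omega)
  have hQ' : Cl 1 1 (deriv (Qf k)) := Cl_deriv hQ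
  have hyQ : Cl (1 / 2) (1 / 2) (fun y => y * Qf k y) := Cl_ymul (by norm_num) (by norm_num) hQ
  have hyQ' : Cl (1 / 2) (1 / 2) (fun y => y * deriv (Qf k) y) :=
    Cl_ymul (by norm_num) (by norm_num) hQ'
  have hB1 : IB (Qf k) (Qf k) = 0 := by
    have h := Cl_ibp (by norm_num) (by norm_num) hQ hQ
    have e : ∫ y, deriv (Qf k) y * Qf k y = ∫ y, Qf k y * deriv (Qf k) y :=
      integral_congr_ae (Eventually.of_forall fun y => mul_comm _ _)
    unfold IB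
    rw [e] at h
    linarith
  have hB2 : IB (Qf k) (deriv (Qf k)) = -∫ y, (deriv (Qf k) y) ^ 2 := by
    have h := Cl_ibp (by norm_num) (by norm_num) hQ' hQ
    have e : ∫ y, deriv (deriv (Qf k)) y * Qf k y = ∫ y, Qf k y * deriv (deriv (Qf k)) y :=
      integral_congr_ae (Eventually.of_forall fun y => mul_comm _ _)
    have e2 : ∫ y, deriv (Qf k) y * deriv (Qf k) y = ∫ y, (deriv (Qf k) y) ^ 2 :=
      integral_congr_ae (Eventually.of_forall fun y => (pow_two _).symm)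
    unfold IB
    rw [← e, h, e2]
  have i1 : Integrable (fun y => (Qf k y) ^ 2) := by
    have h := Cl_int (by norm_num) (by norm_num) (Cl_mul hQ hQ)
    refine h.congr (Eventually.of_forall fun y => ?_)
    exact (pow_two _).symm
  have i2 : Integrable (fun y => Qf k y * (y * deriv (Qf k) y)) :=
    Cl_int (by norm_num) (by norm_num) (Cl_mul hQ hyQ')
  have hy : 2 * ∫ y, Qf k y * (y * deriv (Qf k) y) = -∫ y, (Qf k y) ^ 2 := by
    have h := Cl_ibp (by norm_num) (by norm_num) hQ hyQ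
    have e1 : ∫ y, deriv (Qf k) y * (y * Qf k y) = ∫ y, Qf k y * (y * deriv (Qf k) y) :=
      integral_congr_ae (Eventually.of_forall fun y => by
        show deriv (Qf k) y * (y * Qf k y) = Qf k y * (y * deriv (Qf k) y)
        ring)
    have e2 : ∫ y, Qf k y * deriv (fun y => y * Qf k y) y =
        (∫ y, (Qf k y) ^ 2) + ∫ y, Qf k y * (y * deriv (Qf k) y) := by
      rw [← integral_add i1 i2]
      refine integral_congr_ae (Eventually.of_forall fun y => ?_)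
      have hd : deriv (fun y => y * Qf k y) y = Qf k y + y * deriv (Qf k) y := by
        have := ((hasDerivAt_id y).mul (DetR_cd hQ y)).deriv
        have e3 : (fun y => y * Qf k y) = id * Qf k := rfl
        rw [e3, this]
        simp
      show Qf k y * deriv (fun y => y * Qf k y) y = (Qf k y) ^ 2 + Qf k y * (y * deriv (Qf k) y)
      rw [hd]
      ring
    rw [e1, e2] at h
    linarith
  have hA : IA k (Qf k) (Qf k) = -(sc k * ∫ y, (Qf k y) ^ 2) := by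
    have e : IA k (Qf k) (Qf k) = (2 / (k : ℝ) - 1) * (∫ y, (Qf k y) ^ 2) -
        ∫ y, Qf k y * (y * deriv (Qf k) y) := by
      unfold IA
      rw [← integral_const_mul, ← integral_sub (i1.const_mul _) i2]
      refine integral_congr_ae (Eventually.of_forall fun y => ?_)
      show Qf k y * ((2 / (k : ℝ) - 1) * Qf k y - y * deriv (Qf k) y) =
        (2 / (k : ℝ) - 1) * (Qf k y) ^ 2 - Qf k y * (y * deriv (Qf k) y)
      ring
    rw [e]
    unfold sc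
    linarith
  unfold Det d0
  rw [hB1, hB2, hA]
  ring

theorem DetR_om {B ρ : ℝ} (h : Slow B ρ) (y : ℝ) :
    1 / 2 * Real.exp (-(1 / 8) * |y|) ≤ om B ρ y ∧ om B ρ y ≤ bd (-(2 * ρ)) 0 y := by
  obtain ⟨hB, hρ, hρB⟩ := h
  have hB0 : 0 < B := by linarith
  have hE := Real.exp_pos (-y / B)
  have hE2 := Real.exp_pos (2 * ρ * y)
  unfold om Th
  have e0 : 1 / (1 + Real.exp (-y / B)) * Real.exp (2 * ρ * y) =
      Real.exp (2 * ρ * y) / (1 + Real.exp (-y / B)) := one_div_mul_eq_div _ _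
  rw [e0]
  constructor
  · rw [le_div_iff₀ (by linarith)]
    rcases le_total 0 y with hy | hy
    · have h1 : Real.exp (-y / B) ≤ 1 := by
        rw [Real.exp_le_one_iff]
        exact div_nonpos_of_nonpos_of_nonneg (by linarith) hB0.le
      have h2 : 1 ≤ Real.exp (2 * ρ * y) := Real.one_le_exp (by positivity)
      have h3 : Real.exp (-(1 / 8) * |y|) ≤ 1 := by
        rw [Real.exp_le_one_iff]
        have := abs_nonneg y
        linarith
      have h4 : 1 / 2 * Real.exp (-(1 / 8) * |y|) * (1 + Real.exp (-y / B)) ≤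
          1 / 2 * 1 * (1 + 1) := by
        refine mul_le_mul ?_ (by linarith) (by linarith) (by norm_num)
        exact mul_le_mul_of_nonneg_left h3 (by norm_num)
      linarith
    · have h1 : 1 ≤ Real.exp (-y / B) := Real.one_le_exp (div_nonneg (by linarith) hB0.le)
      have h2 : 1 / 2 * Real.exp (-(1 / 8) * |y|) * (1 + Real.exp (-y / B)) ≤
          Real.exp (-(1 / 8) * |y|) * Real.exp (-y / B) := by
        have h3 := Real.exp_pos (-(1 / 8) * |y|)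
        nlinarith
      refine h2.trans ?_
      rw [← Real.exp_add, Real.exp_le_exp, abs_of_nonpos hy]
      have h5 : 1 / B ≤ 1 / 16 := one_div_le_one_div_of_le (by norm_num) hB
      have h6 : ρ ≤ 1 / 64 := by nlinarith
      have h7 : -y / B ≤ (-y) * (1 / 16) := by
        rw [div_eq_mul_one_div]
        exact mul_le_mul_of_nonneg_left h5 (by linarith)
      nlinarith
  · have h0 : Real.exp (2 * ρ * y) / (1 + Real.exp (-y / B)) ≤ Real.exp (2 * ρ * y) :=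
      div_le_self hE2.le (by linarith)
    refine h0.trans ?_
    unfold bd
    rw [Real.exp_le_exp]
    have h8 : y ≤ max y 0 := le_max_left _ _
    have h9 : 2 * ρ * y ≤ 2 * ρ * max y 0 := mul_le_mul_of_nonneg_left h8 (by linarith)
    linarith

theorem DetR_omc (B ρ : ℝ) : Continuous (om B ρ) := by
  unfold om Th
  refine Continuous.mul (continuous_const.div (by fun_prop) fun y => ?_) (by fun_prop)
  have := Real.exp_pos (-y / B)
  linarith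

theorem DetR_int {B ρ p q : ℝ} {ε : ℝ → ℝ} (h : Slow B ρ) (ha : Adm ρ p q ε) :
    Integrable (fun y => om B ρ y * ((ε y) ^ 2 + (deriv ε y) ^ 2)) := by
  obtain ⟨h1, h2, h3, h4, h5⟩ := ha
  obtain ⟨C, hC0, hC⟩ := ClC_abs h5
  obtain ⟨D, hD0, hD⟩ := ClC_abs (Cl_deriv h5)
  have hi : Integrable (fun y => (C ^ 2 + D ^ 2) * bd (2 * p - 2 * ρ) (2 * q) y) :=
    (bd_int (by linarith) (by linarith)).const_mul _
  refine hi.mono' ?_ (Eventually.of_forall fun y => ?_)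
  · exact ((DetR_omc B ρ).mul ((h5.1.continuous.pow 2).add
      ((Cl_deriv h5).1.continuous.pow 2))).aestronglyMeasurable
  · have ho : 0 ≤ om B ρ y := by
      have := (DetR_om h y).1
      have := Real.exp_pos (-(1 / 8) * |y|)
      linarith
    rw [Real.norm_eq_abs, abs_of_nonneg (mul_nonneg ho (by positivity))]
    have e1 : (ε y) ^ 2 ≤ C ^ 2 * bd (p + p) (q + q) y := by
      rw [← bd_mul, ← sq_abs]
      calc |ε y| ^ 2 ≤ (C * bd p q y) ^ 2 := pow_le_pow_left₀ (abs_nonneg _) (hC y) 2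
        _ = C ^ 2 * (bd p q y * bd p q y) := by ring
    have e2 : (deriv ε y) ^ 2 ≤ D ^ 2 * bd (p + p) (q + q) y := by
      rw [← bd_mul, ← sq_abs]
      calc |deriv ε y| ^ 2 ≤ (D * bd p q y) ^ 2 := pow_le_pow_left₀ (abs_nonneg _) (hD y) 2
        _ = D ^ 2 * (bd p q y * bd p q y) := by ring
    have e3 : bd (-(2 * ρ)) 0 y * bd (p + p) (q + q) y = bd (2 * p - 2 * ρ) (2 * q) y := by
      rw [bd_mul]
      congr 1 <;> ring
    calc om B ρ y * ((ε y) ^ 2 + (deriv ε y) ^ 2)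
        ≤ bd (-(2 * ρ)) 0 y * (C ^ 2 * bd (p + p) (q + q) y + D ^ 2 * bd (p + p) (q + q) y) :=
          mul_le_mul (DetR_om h y).2 (add_le_add e1 e2) (by positivity) (bd_pos _ _ _).le
      _ = (C ^ 2 + D ^ 2) * (bd (-(2 * ρ)) 0 y * bd (p + p) (q + q) y) := by ring
      _ = (C ^ 2 + D ^ 2) * bd (2 * p - 2 * ρ) (2 * q) y := by rw [e3]

theorem DetR_bd (a y : ℝ) : bd a a y = Real.exp (-a * |y|) := by
  unfold bd
  rw [← ClA_abs y]
  congr 1
  ring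

/-- pairing with a rapidly decreasing function is controlled by `Gn` -/
theorem ip_Gn (C : ℝ) : ∃ C₁ : ℝ, 0 ≤ C₁ ∧ ∀ (B ρ p q : ℝ) (ε ψ : ℝ → ℝ), Slow B ρ →
    Adm ρ p q ε → Continuous ψ → (∀ y, |ψ y| ≤ C * Real.exp (-(1 / 4) * |y|)) →
    |∫ y, ε y * ψ y| ≤ C₁ * √(Gn B ρ ε) := by
  refine ⟨√(∫ y, 2 * C ^ 2 * bd (3 / 8) (3 / 8) y), Real.sqrt_nonneg _, ?_⟩
  intro B ρ p q ε ψ hS hA hψ hb
  have hA' := hA
  obtain ⟨h1, h2, h3, h4, h5⟩ := hA'
  have hρ : 0 < ρ := hS.2.1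
  have hbd : ∀ y, |ψ y| ≤ |C| := by
    intro y
    refine (hb y).trans ?_
    have hE : Real.exp (-(1 / 4) * |y|) ≤ 1 := by
      rw [Real.exp_le_one_iff]
      have := abs_nonneg y
      linarith
    have hE0 := Real.exp_pos (-(1 / 4) * |y|)
    calc C * Real.exp (-(1 / 4) * |y|) ≤ |C| * Real.exp (-(1 / 4) * |y|) :=
          mul_le_mul_of_nonneg_right (le_abs_self C) hE0.le
      _ ≤ |C| * 1 := mul_le_mul_of_nonneg_left hE (abs_nonneg C)
      _ = |C| := mul_one _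
  have iεψ : Integrable (fun y => ε y * ψ y) :=
    Cl_int_mul (by linarith) h3 h5 hψ |C| hbd
  have iG := DetR_int hS hA
  have iK : Integrable (fun y => 2 * C ^ 2 * bd (3 / 8) (3 / 8) y) :=
    (bd_int (by norm_num) (by norm_num)).const_mul _
  have hpt : ∀ (s y : ℝ), 2 * s * (ε y * ψ y) ≤
      s * s * (om B ρ y * ((ε y) ^ 2 + (deriv ε y) ^ 2)) + 2 * C ^ 2 * bd (3 / 8) (3 / 8) y := by
    intro s y
    have ho := (DetR_om hS y).1
    have hE := Real.exp_pos (-(1 / 8) * |y|)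
    have ho0 : 0 < om B ρ y := by linarith
    have hψ2 : (ψ y) ^ 2 ≤ 2 * C ^ 2 * bd (3 / 8) (3 / 8) y * om B ρ y := by
      have a1 : (ψ y) ^ 2 ≤ C ^ 2 * Real.exp (-(1 / 2) * |y|) := by
        rw [← sq_abs (ψ y)]
        calc |ψ y| ^ 2 ≤ (C * Real.exp (-(1 / 4) * |y|)) ^ 2 :=
              pow_le_pow_left₀ (abs_nonneg _) (hb y) 2
          _ = C ^ 2 * (Real.exp (-(1 / 4) * |y|) * Real.exp (-(1 / 4) * |y|)) := by ring
          _ = C ^ 2 * Real.exp (-(1 / 2) * |y|) := by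
              rw [← Real.exp_add]
              congr 2
              ring
      have a2 : Real.exp (-(1 / 2) * |y|) = bd (3 / 8) (3 / 8) y * Real.exp (-(1 / 8) * |y|) := by
        rw [DetR_bd, ← Real.exp_add]
        congr 1
        ring
      rw [a2] at a1
      have a3 : 0 ≤ 2 * C ^ 2 * bd (3 / 8) (3 / 8) y := by
        have := bd_pos (3 / 8) (3 / 8) y
        positivity
      have a4 := mul_le_mul_of_nonneg_left ho a3
      linarith
    have hsq : 0 ≤ (s * om B ρ y * ε y - ψ y) ^ 2 := sq_nonneg _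
    have hd2 : 0 ≤ s * s * om B ρ y * (om B ρ y * (deriv ε y) ^ 2) := by
      have : 0 ≤ s * s := mul_self_nonneg s
      positivity
    have hmul : 0 ≤ om B ρ y * (s * s * (om B ρ y * ((ε y) ^ 2 + (deriv ε y) ^ 2)) +
        2 * C ^ 2 * bd (3 / 8) (3 / 8) y - 2 * s * (ε y * ψ y)) := by
      nlinarith [hsq, hd2, hψ2]
    have := (mul_nonneg_iff_of_pos_left ho0).1 hmul
    linarith
  have hall : ∀ s : ℝ, 0 ≤ Gn B ρ ε * (s * s) + (-(2 * ∫ y, ε y * ψ y)) * s +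
      ∫ y, 2 * C ^ 2 * bd (3 / 8) (3 / 8) y := by
    intro s
    have h6 : ∫ y, 2 * s * (ε y * ψ y) ≤ ∫ y, (s * s * (om B ρ y * ((ε y) ^ 2 + (deriv ε y) ^ 2)) +
        2 * C ^ 2 * bd (3 / 8) (3 / 8) y) :=
      integral_mono (iεψ.const_mul _) ((iG.const_mul _).add iK) (hpt s)
    rw [integral_add (iG.const_mul _) iK, integral_const_mul, integral_const_mul] at h6
    unfold Gn
    linarith
  have hdis := discrim_le_zero hall
  unfold discrim at hdis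
  have hfin : (∫ y, ε y * ψ y) ^ 2 ≤ (∫ y, 2 * C ^ 2 * bd (3 / 8) (3 / 8) y) * Gn B ρ ε := by
    nlinarith [hdis]
  have hK0 : 0 ≤ ∫ y, 2 * C ^ 2 * bd (3 / 8) (3 / 8) y := integral_nonneg fun y => by
    have := bd_pos (3 / 8) (3 / 8) y
    show 0 ≤ 2 * C ^ 2 * bd (3 / 8) (3 / 8) y
    positivity
  rw [← Real.sqrt_mul hK0]
  exact Real.abs_le_sqrt hfin

theorem DetR_psi {ψ : ℝ → ℝ} (hψ : Cl (1 / 2) (1 / 2) ψ) : ∃ C₁ : ℝ, 0 ≤ C₁ ∧
    ∀ (B ρ p q : ℝ) (ε : ℝ → ℝ), Slow B ρ → Adm ρ p q ε →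
      |∫ y, ε y * ψ y| ≤ C₁ * √(Gn B ρ ε) := by
  obtain ⟨C, hC0, hC⟩ := ClC_abs hψ
  obtain ⟨C₁, h0, h⟩ := ip_Gn C
  refine ⟨C₁, h0, fun B ρ p q ε hS hA => h B ρ p q ε ψ hS hA hψ.1.continuous fun y => ?_⟩
  refine (hC y).trans (mul_le_mul_of_nonneg_left ?_ hC0)
  rw [DetR_bd, Real.exp_le_exp]
  have := abs_nonneg y
  linarith

theorem DetR_wA {k : ℕ} {φ : ℝ → ℝ} (hφ : Cl 1 1 φ) :
    Cl (1 / 2) (1 / 2) (fun y => (2 / (k : ℝ) - 1) * φ y - y * deriv φ y) :=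
  Cl_sub (Cl_smul _ (Cl_mono (by norm_num) (by norm_num) hφ))
    (Cl_ymul (by norm_num) (by norm_num) (Cl_deriv hφ))

theorem DetR_add {p q p' q' : ℝ} {f g ψ : ℝ → ℝ} (hp : 0 < p) (hq : 0 < q) (hp' : 0 < p')
    (hq' : 0 < q') (hf : Cl p q f) (hg : Cl p' q' g) (hψ : Cl (1 / 2) (1 / 2) ψ) :
    ∫ y, (f y + g y) * ψ y = (∫ y, f y * ψ y) + ∫ y, g y * ψ y := by
  obtain ⟨C, hC⟩ := Cl_bdd (by norm_num) (by norm_num) hψ
  rw [← integral_add (Cl_int_mul hp hq hf hψ.1.continuous C hC)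
    (Cl_int_mul hp' hq' hg hψ.1.continuous C hC)]
  refine integral_congr_ae (Eventually.of_forall fun y => ?_)
  exact add_mul _ _ _

theorem DetR_d0 {k : ℕ} (hk : 5 ≤ k) : 0 < d0 k := by
  unfold d0
  have h1 := (sc_pos hk).1
  have h2 := Qsq_pos (k := k) (by omega)
  have h3 := Q'sq_pos (k := k) (by omega)
  positivity

theorem DetR_alg {d M c r a1 a2 b1 b2 e1 e2 f1 f2 : ℝ} (hM : 0 ≤ M) (hc : 0 ≤ c) (hr : 0 ≤ r)
    (hr1 : r ≤ 1) (hS : (4 * M * c + 2 * c ^ 2) * r < d)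
    (ha1 : |a1| ≤ M) (ha2 : |a2| ≤ M) (hb1 : |b1| ≤ M) (hb2 : |b2| ≤ M)
    (he1 : |e1| ≤ c * r) (he2 : |e2| ≤ c * r) (hf1 : |f1| ≤ c * r) (hf2 : |f2| ≤ c * r)
    (hD : a1 * b2 - a2 * b1 = 2 * d) :
    d < (a1 + e1) * (b2 + f2) - (a2 + e2) * (b1 + f1) := by
  have key : ∀ x y X Y : ℝ, |x| ≤ X → |y| ≤ Y → |x * y| ≤ X * Y := by
    intro x y X Y hx hy
    rw [abs_mul]
    exact mul_le_mul hx hy (abs_nonneg _) ((abs_nonneg _).trans hx)
  have k1 := abs_le.1 (key _ _ _ _ ha1 hf2)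
  have k2 := abs_le.1 (key _ _ _ _ he1 hb2)
  have k3 := abs_le.1 (key _ _ _ _ he1 hf2)
  have k4 := abs_le.1 (key _ _ _ _ ha2 hf1)
  have k5 := abs_le.1 (key _ _ _ _ he2 hb1)
  have k6 := abs_le.1 (key _ _ _ _ he2 hf1)
  have hrr : (c * r) * (c * r) ≤ c ^ 2 * r := by
    have : r * r ≤ r * 1 := mul_le_mul_of_nonneg_left hr1 hr
    nlinarith [sq_nonneg c]
  have e : (a1 + e1) * (b2 + f2) - (a2 + e2) * (b1 + f1) = 2 * d + a1 * f2 + e1 * b2 + e1 * f2 -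
      a2 * f1 - e2 * b1 - e2 * f1 := by
    rw [← hD]
    ring
  rw [e]
  nlinarith [k1.1, k2.1, k3.1, k4.2, k5.2, k6.2, hrr, hS]

theorem Det_low {k : ℕ} (hk : 5 ≤ k) : ∃ g : ℝ, 0 < g ∧ ∀ (B ρ p q : ℝ) (ε : ℝ → ℝ),
    Slow B ρ → Adm ρ p q ε → Gn B ρ ε ≤ g → d0 k < Det k (fun y => Qf k y + ε y) := by
  have hQ : Cl 1 1 (Qf k) := Q_cl (by omega)
  have hQ' : Cl 1 1 (deriv (Qf k)) := Cl_deriv hQ
  have w1 := DetR_wA (k := k) hQ
  have w2 := DetR_wA (k := k) hQ'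
  have w3 : Cl (1 / 2) (1 / 2) (deriv (Qf k)) := Cl_mono (by norm_num) (by norm_num) hQ'
  have w4 : Cl (1 / 2) (1 / 2) (deriv (deriv (Qf k))) :=
    Cl_mono (by norm_num) (by norm_num) (Cl_deriv hQ')
  obtain ⟨c1, c10, hc1⟩ := DetR_psi w1
  obtain ⟨c2, c20, hc2⟩ := DetR_psi w2
  obtain ⟨c3, c30, hc3⟩ := DetR_psi w3
  obtain ⟨c4, c40, hc4⟩ := DetR_psi w4
  have hd := DetR_d0 hk
  let c : ℝ := c1 + c2 + c3 + c4
  let M : ℝ := |IA k (Qf k) (Qf k)| + |IA k (Qf k) (deriv (Qf k))| + |IB (Qf k) (Qf k)| +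
    |IB (Qf k) (deriv (Qf k))|
  have hc0 : 0 ≤ c := by positivity
  have hM0 : 0 ≤ M := by positivity
  let S : ℝ := 4 * M * c + 2 * c ^ 2 + 1
  have hS0 : 0 < S := by positivity
  let r0 : ℝ := min 1 (d0 k / (2 * S))
  have hr0 : 0 < r0 := lt_min one_pos (by positivity)
  refine ⟨r0 ^ 2, by positivity, ?_⟩
  intro B ρ p q ε hSl hA hG
  have hr : √(Gn B ρ ε) ≤ r0 := by
    rw [← Real.sqrt_sq hr0.le]
    exact Real.sqrt_le_sqrt hG
  have hrn : 0 ≤ √(Gn B ρ ε) := Real.sqrt_nonneg _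
  have hr1 : √(Gn B ρ ε) ≤ 1 := hr.trans (min_le_left _ _)
  have hr2 : √(Gn B ρ ε) ≤ d0 k / (2 * S) := hr.trans (min_le_right _ _)
  have hA' := hA
  obtain ⟨g1, g2, g3, g4, g5⟩ := hA'
  have hp : 0 < p := by
    have := hSl.2.1
    linarith
  have hsmall : (4 * M * c + 2 * c ^ 2) * √(Gn B ρ ε) < d0 k := by
    have h1 : (4 * M * c + 2 * c ^ 2) * √(Gn B ρ ε) ≤ S * √(Gn B ρ ε) := by
      refine mul_le_mul_of_nonneg_right ?_ hrn
      show 4 * M * c + 2 * c ^ 2 ≤ 4 * M * c + 2 * c ^ 2 + 1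
      linarith
    have h2 : S * √(Gn B ρ ε) ≤ S * (d0 k / (2 * S)) := mul_le_mul_of_nonneg_left hr2 hS0.le
    have h3 : S * (d0 k / (2 * S)) = d0 k / 2 := by
      field_simp
    linarith
  have hcc : ∀ ci : ℝ, 0 ≤ ci → ci ≤ c → ∀ z : ℝ, |z| ≤ ci * √(Gn B ρ ε) →
      |z| ≤ c * √(Gn B ρ ε) := by
    intro ci _ hle z hz
    exact hz.trans (mul_le_mul_of_nonneg_right hle hrn)
  have a1 : IA k (fun y => Qf k y + ε y) (Qf k) = IA k (Qf k) (Qf k) + IA k ε (Qf k) :=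
    DetR_add one_pos one_pos hp g3 hQ g5 w1
  have a2 : IA k (fun y => Qf k y + ε y) (deriv (Qf k)) =
      IA k (Qf k) (deriv (Qf k)) + IA k ε (deriv (Qf k)) :=
    DetR_add one_pos one_pos hp g3 hQ g5 w2
  have a3 : IB (fun y => Qf k y + ε y) (Qf k) = IB (Qf k) (Qf k) + IB ε (Qf k) :=
    DetR_add one_pos one_pos hp g3 hQ g5 w3
  have a4 : IB (fun y => Qf k y + ε y) (deriv (Qf k)) =
      IB (Qf k) (deriv (Qf k)) + IB ε (deriv (Qf k)) :=
    DetR_add one_pos one_pos hp g3 hQ g5 w4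
  have hDQ := Det_Q hk
  unfold Det at hDQ ⊢
  rw [a1, a2, a3, a4]
  have n1 := abs_nonneg (IA k (Qf k) (Qf k))
  have n2 := abs_nonneg (IA k (Qf k) (deriv (Qf k)))
  have n3 := abs_nonneg (IB (Qf k) (Qf k))
  have n4 := abs_nonneg (IB (Qf k) (deriv (Qf k)))
  refine DetR_alg (M := M) (c := c) (r := √(Gn B ρ ε)) hM0 hc0 hrn hr1 hsmall ?_ ?_ ?_ ?_
    (hcc c1 c10 ?_ _ (hc1 B ρ p q ε hSl hA)) (hcc c2 c20 ?_ _ (hc2 B ρ p q ε hSl hA))
    (hcc c3 c30 ?_ _ (hc3 B ρ p q ε hSl hA)) (hcc c4 c40 ?_ _ (hc4 B ρ p q ε hSl hA)) hDQ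
  · show |IA k (Qf k) (Qf k)| ≤ |IA k (Qf k) (Qf k)| + |IA k (Qf k) (deriv (Qf k))| +
      |IB (Qf k) (Qf k)| + |IB (Qf k) (deriv (Qf k))|
    linarith
  · show |IA k (Qf k) (deriv (Qf k))| ≤ |IA k (Qf k) (Qf k)| + |IA k (Qf k) (deriv (Qf k))| +
      |IB (Qf k) (Qf k)| + |IB (Qf k) (deriv (Qf k))|
    linarith
  · show |IB (Qf k) (Qf k)| ≤ |IA k (Qf k) (Qf k)| + |IA k (Qf k) (deriv (Qf k))| +
      |IB (Qf k) (Qf k)| + |IB (Qf k) (deriv (Qf k))|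
    linarith
  · show |IB (Qf k) (deriv (Qf k))| ≤ |IA k (Qf k) (Qf k)| + |IA k (Qf k) (deriv (Qf k))| +
      |IB (Qf k) (Qf k)| + |IB (Qf k) (deriv (Qf k))|
    linarith
  · show c1 ≤ c1 + c2 + c3 + c4
    linarith
  · show c2 ≤ c1 + c2 + c3 + c4
    linarith
  · show c3 ≤ c1 + c2 + c3 + c4
    linarith
  · show c4 ≤ c1 + c2 + c3 + c4
    linarith

end H72KB
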