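import Pool.Agent.H72.KB.QBas
import Pool.Agent.H72.KB.ClC
import Pool.Agent.H72.KB.Base

/-!
# Row PairR: the pairing formula `(ζ, φ) = I1 - b IA - m IB` and solution of the modulation system

Proof of `zeta_ip`.  Put `W = Q + ε ∈ Cl p q` (`Q_cl`, `Cl_mono`).  `gf k ε = -ε'' + ε - (fl k W - fl k Q) = -W'' + W - fl k W`
because `Q'' = Q - fl k Q` (`Q_ode`).  So
 `zeta = -W''' + W' - (fl k W)' - b ((2/k) W + y W') + m W' + l W'' - e'`.
Pair with `φ ∈ Cl 1 1` and integrate by parts (`Cl_ibp`; all functions are in `Cl p' q'` with positive exponents: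
`fl k W ∈ Cl p q` (`Cl_pow`, `Cl_smul`), `y φ ∈ Cl (1/2) (1/2)` (`Cl_ymul`)):
 `-∫ W''' φ = ∫ W φ'''`, `∫ W' φ = -∫ W φ'`, `-∫ (fl W)' φ = ∫ fl W φ'`, `∫ W'' φ = ∫ W φ''`, `-∫ e' φ = ∫ e φ'`,
 `∫ y W' φ = -∫ W (φ + y φ')`.
All separate integrals exist (`Cl_int`, `Cl_mul`), so the integrals may be split and recombined
(`integral_add`, `integral_sub`, `integral_const_mul`).  `iteratedDeriv 2 f = deriv (deriv f)` etc.

`orth_of_det`: with `φ = Q` and `φ = Q'` (`Cl_deriv`) the two equations of `Orth` read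
`b IA(Q) + m IB(Q) = I1(Q)`, `b IA(Q') + m IB(Q') = I1(Q')`; since `Det > d0`, `max Det d0 = Det > 0` and
`bfn`, `mfn` are the Cramer solutions (`field_simp; ring`).
-/

open MeasureTheory Filter Topology Set
open scoped ContDiff

namespace H72KB

open H98KB

/-- integrable with integral `I` -/
def PairR_HI (f : ℝ → ℝ) (I : ℝ) : Prop := Integrable f ∧ ∫ y, f y = I

theorem PairR_add {f g : ℝ → ℝ} {I J : ℝ} (hf : PairR_HI f I) (hg : PairR_HI g J) :
    PairR_HI (fun y => f y + g y) (I + J) :=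
  ⟨hf.1.add hg.1, by rw [integral_add hf.1 hg.1, hf.2, hg.2]⟩

theorem PairR_sub {f g : ℝ → ℝ} {I J : ℝ} (hf : PairR_HI f I) (hg : PairR_HI g J) :
    PairR_HI (fun y => f y - g y) (I - J) :=
  ⟨hf.1.sub hg.1, by rw [integral_sub hf.1 hg.1, hf.2, hg.2]⟩

theorem PairR_smul {f : ℝ → ℝ} {I : ℝ} (c : ℝ) (hf : PairR_HI f I) :
    PairR_HI (fun y => c * f y) (c * I) :=
  ⟨hf.1.const_mul c, by rw [integral_const_mul, hf.2]⟩

theorem PairR_congr {f g : ℝ → ℝ} {I : ℝ} (hf : PairR_HI f I) (h : ∀ y, g y = f y) :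
    PairR_HI g I := by
  have e : g = f := funext h
  rw [e]
  exact hf

theorem PairR_of {p q p' q' : ℝ} {f g : ℝ → ℝ} (hp : 0 < p + p') (hq : 0 < q + q')
    (hf : Cl p q f) (hg : Cl p' q' g) : PairR_HI (fun y => f y * g y) (∫ y, f y * g y) :=
  ⟨Cl_int hp hq (Cl_mul hf hg), rfl⟩

theorem PairR_ibp {p q p' q' : ℝ} {f g : ℝ → ℝ} (hp : 0 < p + p') (hq : 0 < q + q')
    (hf : Cl p q f) (hg : Cl p' q' g) :
    PairR_HI (fun y => deriv f y * g y) (-∫ y, f y * deriv g y) :=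
  ⟨Cl_int hp hq (Cl_mul (Cl_deriv hf) hg), Cl_ibp hp hq hf hg⟩

theorem PairR_der {p q : ℝ} {f : ℝ → ℝ} (hf : Cl p q f) (y : ℝ) : HasDerivAt f (deriv f y) y :=
  ((hf.1.differentiable (by simp)) y).hasDerivAt

theorem PairR_W {p q : ℝ} {f g : ℝ → ℝ} (hf : Cl p q f) (hg : Cl p q g) :
    deriv (fun y => f y + g y) = fun y => deriv f y + deriv g y := by
  funext y
  exact ((PairR_der hf y).add (PairR_der hg y)).deriv

theorem PairR_y {p q : ℝ} {f : ℝ → ℝ} (hf : Cl p q f) :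
    deriv (fun y => y * f y) = fun y => f y + y * deriv f y := by
  funext y
  have h := ((hasDerivAt_id y).mul (PairR_der hf y)).deriv
  have e : (fun y => y * f y) = id * f := rfl
  rw [e, h]
  simp

theorem PairR_fl {k : ℕ} {p q : ℝ} {f : ℝ → ℝ} (hp : 0 ≤ p) (hq : 0 ≤ q) (hf : Cl p q f) :
    Cl p q (fun y => fl k (f y)) := by
  have h := Cl_smul (1 / ((k : ℝ) + 1)) (Cl_pow hp hq hf (k + 1) (by omega))
  have e : (fun y => fl k (f y)) = fun y => 1 / ((k : ℝ) + 1) * f y ^ (k + 1) := by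
    funext y
    unfold fl
    ring
  rw [e]
  exact h

/-- the formula for `zeta` in terms of `W = Q + ε` -/
theorem PairR_zeta {k : ℕ} (hk : 1 ≤ k) {p q : ℝ} (hp : 0 < p) (hq : 0 < q) (hp1 : p ≤ 1)
    (hq1 : q ≤ 1) {ε e : ℝ → ℝ} (hε : Cl p q ε) (b m l : ℝ) (y : ℝ) :
    zeta k b m l ε e y =
      -deriv (deriv (deriv (fun y => Qf k y + ε y))) y + deriv (fun y => Qf k y + ε y) y
      - deriv (fun y => fl k (Qf k y + ε y)) y
      - b * (2 / (k : ℝ) * (Qf k y + ε y) + y * deriv (fun y => Qf k y + ε y) y)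
      + m * deriv (fun y => Qf k y + ε y) y + l * deriv (deriv (fun y => Qf k y + ε y)) y
      - deriv e y := by
  have hQ : Cl p q (Qf k) := Cl_mono hp1 hq1 (Q_cl hk)
  have hQ1 := Cl_deriv hQ
  have hQ2 := Cl_deriv hQ1
  have hε1 := Cl_deriv hε
  have hε2 := Cl_deriv hε1
  have hW : Cl p q (fun y => Qf k y + ε y) := Cl_add hQ hε
  have d1 : deriv (fun y => Qf k y + ε y) = fun y => deriv (Qf k) y + deriv ε y := PairR_W hQ hε
  have d2 : deriv (deriv (fun y => Qf k y + ε y)) =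
      fun y => deriv (deriv (Qf k)) y + deriv (deriv ε) y := by
    rw [d1]
    exact PairR_W hQ1 hε1
  have hW1 := Cl_deriv hW
  have hW2 := Cl_deriv hW1
  have hF : Cl p q (fun y => fl k (Qf k y + ε y)) := PairR_fl hp.le hq.le hW
  have hg : gf k ε = fun y => -deriv (deriv (fun y => Qf k y + ε y)) y + (Qf k y + ε y) -
      fl k (Qf k y + ε y) := by
    funext z
    have h1 := Q_ode hk z
    have h2 := congrFun d2 z
    rw [h2]
    unfold gf Df
    rw [h1]
    ring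
  have hgd : deriv (gf k ε) y = -deriv (deriv (deriv (fun y => Qf k y + ε y))) y +
      deriv (fun y => Qf k y + ε y) y - deriv (fun y => fl k (Qf k y + ε y)) y := by
    rw [hg]
    exact ((((PairR_der hW2 y).neg).add (PairR_der hW y)).sub (PairR_der hF y)).deriv
  unfold zeta
  rw [hgd]
  have h3 := congrFun d1 y
  have h4 := congrFun d2 y
  have hN : Nf k b m l ε y =
      -(b * (2 / (k : ℝ) * (Qf k y + ε y) + y * deriv (fun y => Qf k y + ε y) y))
      + m * deriv (fun y => Qf k y + ε y) y + l * deriv (deriv (fun y => Qf k y + ε y)) y := by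
    rw [h3, h4]
    unfold Nf Lam
    ring
  rw [hN]
  ring

theorem zeta_ip {k : ℕ} (hk : 1 ≤ k) {p q : ℝ} (hp : 0 < p) (hq : 0 < q) (hp1 : p ≤ 1)
    (hq1 : q ≤ 1) {ε e : ℝ → ℝ} (hε : Cl p q ε) (he : Cl p q e) (b m l : ℝ) {φ : ℝ → ℝ}
    (hφ : Cl 1 1 φ) :
    ip (zeta k b m l ε e) φ = I1 k l (fun y => Qf k y + ε y) e φ
      - b * IA k (fun y => Qf k y + ε y) φ - m * IB (fun y => Qf k y + ε y) φ := by
  have hQ : Cl p q (Qf k) := Cl_mono hp1 hq1 (Q_cl hk)
  obtain ⟨W, hWd⟩ : ∃ W : ℝ → ℝ, W = fun y => Qf k y + ε y := ⟨_, rfl⟩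
  obtain ⟨F, hFd⟩ : ∃ F : ℝ → ℝ, F = fun y => fl k (Qf k y + ε y) := ⟨_, rfl⟩
  have hW : Cl p q W := by
    rw [hWd]
    exact Cl_add hQ hε
  have hF : Cl p q F := by
    rw [hFd]
    exact PairR_fl hp.le hq.le (Cl_add hQ hε)
  have hz : ∀ y, zeta k b m l ε e y = -deriv (deriv (deriv W)) y + deriv W y - deriv F y
      - b * (2 / (k : ℝ) * W y + y * deriv W y) + m * deriv W y + l * deriv (deriv W) y
      - deriv e y := by
    intro y
    have h := PairR_zeta hk hp hq hp1 hq1 (e := e) hε b m l y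
    rw [h, hWd, hFd]
  have hFW : ∀ y, F y = fl k (W y) := fun y => by rw [hFd, hWd]
  have hyφ : Cl (1 / 2) (1 / 2) (fun y => y * φ y) := Cl_ymul (by norm_num) (by norm_num) hφ
  have hφ1 := Cl_deriv hφ
  have hφ2 := Cl_deriv hφ1
  have hφ3 := Cl_deriv hφ2
  have hyφ1 : Cl (1 / 2) (1 / 2) (fun y => y * deriv φ y) :=
    Cl_ymul (by norm_num) (by norm_num) hφ1
  have hW1 := Cl_deriv hW
  have hW2 := Cl_deriv hW1
  have q1 : 0 < p + 1 := by linarith
  have q2 : 0 < q + 1 := by linarith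
  have q3 : 0 < p + 1 / 2 := by linarith
  have q4 : 0 < q + 1 / 2 := by linarith
  -- integrals
  have jA : PairR_HI (fun y => W y * φ y) (∫ y, W y * φ y) := PairR_of q1 q2 hW hφ
  have jB : PairR_HI (fun y => W y * deriv φ y) (∫ y, W y * deriv φ y) := PairR_of q1 q2 hW hφ1
  have jC : PairR_HI (fun y => W y * deriv (deriv φ) y) (∫ y, W y * deriv (deriv φ) y) :=
    PairR_of q1 q2 hW hφ2
  have jD : PairR_HI (fun y => W y * deriv (deriv (deriv φ)) y)
      (∫ y, W y * deriv (deriv (deriv φ)) y) := PairR_of q1 q2 hW hφ3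
  have jE : PairR_HI (fun y => W y * (y * deriv φ y)) (∫ y, W y * (y * deriv φ y)) :=
    PairR_of q3 q4 hW hyφ1
  have jF : PairR_HI (fun y => F y * deriv φ y) (∫ y, F y * deriv φ y) := PairR_of q1 q2 hF hφ1
  have je : PairR_HI (fun y => e y * deriv φ y) (∫ y, e y * deriv φ y) := PairR_of q1 q2 he hφ1
  -- integrations by parts
  have k1 : PairR_HI (fun y => deriv W y * φ y) (-∫ y, W y * deriv φ y) := PairR_ibp q1 q2 hW hφ
  have k2 : PairR_HI (fun y => deriv (deriv W) y * φ y) (∫ y, W y * deriv (deriv φ) y) := by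
    have h1 := PairR_ibp q1 q2 hW1 hφ
    have h2 := PairR_ibp q1 q2 hW hφ1
    rw [h2.2, neg_neg] at h1
    exact h1
  have k3 : PairR_HI (fun y => deriv (deriv (deriv W)) y * φ y)
      (-∫ y, W y * deriv (deriv (deriv φ)) y) := by
    have h1 := PairR_ibp q1 q2 hW2 hφ
    have h2 := PairR_ibp q1 q2 hW1 hφ1
    have h3 := PairR_ibp q1 q2 hW hφ2
    rw [h2.2, neg_neg, h3.2] at h1
    exact h1
  have kF : PairR_HI (fun y => deriv F y * φ y) (-∫ y, F y * deriv φ y) := PairR_ibp q1 q2 hF hφ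
  have ke : PairR_HI (fun y => deriv e y * φ y) (-∫ y, e y * deriv φ y) := PairR_ibp q1 q2 he hφ
  have kY : PairR_HI (fun y => deriv W y * (y * φ y))
      (-((∫ y, W y * φ y) + ∫ y, W y * (y * deriv φ y))) := by
    have h1 := PairR_ibp q3 q4 hW hyφ
    have h2 : ∫ y, W y * deriv (fun y => y * φ y) y =
        (∫ y, W y * φ y) + ∫ y, W y * (y * deriv φ y) := by
      have h3 := PairR_add jA jE
      rw [← h3.2]
      refine integral_congr_ae (Eventually.of_forall fun y => ?_)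
      have h4 := congrFun (PairR_y hφ) y
      show W y * deriv (fun y => y * φ y) y = W y * φ y + W y * (y * deriv φ y)
      rw [h4]
      ring
    rw [h2] at h1
    exact h1
  -- the left side
  have hL : PairR_HI (fun y => zeta k b m l ε e y * φ y)
      (-1 * (-∫ y, W y * deriv (deriv (deriv φ)) y) + (-∫ y, W y * deriv φ y)
        - (-∫ y, F y * deriv φ y)
        - (b * (2 / (k : ℝ)) * (∫ y, W y * φ y)
          + b * (-((∫ y, W y * φ y) + ∫ y, W y * (y * deriv φ y))))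
        + m * (-∫ y, W y * deriv φ y) + l * (∫ y, W y * deriv (deriv φ) y)
        - (-∫ y, e y * deriv φ y)) := by
    refine PairR_congr (PairR_sub (PairR_add (PairR_add (PairR_sub (PairR_sub (PairR_add
      (PairR_smul (-1) k3) k1) kF) (PairR_add (PairR_smul (b * (2 / (k : ℝ))) jA)
        (PairR_smul b kY))) (PairR_smul m k1)) (PairR_smul l k2)) ke) fun y => ?_
    rw [hz]
    ring
  have i2 : iteratedDeriv 2 φ = deriv (deriv φ) := by
    simp only [iteratedDeriv_succ, iteratedDeriv_zero]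
  have i3 : iteratedDeriv 3 φ = deriv (deriv (deriv φ)) := by
    simp only [iteratedDeriv_succ, iteratedDeriv_zero]
  have hI1 : PairR_HI (fun y => W y * (iteratedDeriv 3 φ y - deriv φ y + l * iteratedDeriv 2 φ y)
      + fl k (W y) * deriv φ y + e y * deriv φ y)
      ((∫ y, W y * deriv (deriv (deriv φ)) y) - (∫ y, W y * deriv φ y)
        + l * (∫ y, W y * deriv (deriv φ) y) + (∫ y, F y * deriv φ y)
        + ∫ y, e y * deriv φ y) := by
    refine PairR_congr (PairR_add (PairR_add (PairR_add (PairR_sub jD jB) (PairR_smul l jC)) jF)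
      je) fun y => ?_
    rw [i2, i3, hFW]
    ring
  have hIA : PairR_HI (fun y => W y * ((2 / (k : ℝ) - 1) * φ y - y * deriv φ y))
      ((2 / (k : ℝ) - 1) * (∫ y, W y * φ y) - ∫ y, W y * (y * deriv φ y)) := by
    refine PairR_congr (PairR_sub (PairR_smul (2 / (k : ℝ) - 1) jA) jE) fun y => ?_
    ring
  have e1 : I1 k l W e φ = (∫ y, W y * deriv (deriv (deriv φ)) y) - (∫ y, W y * deriv φ y)
        + l * (∫ y, W y * deriv (deriv φ) y) + (∫ y, F y * deriv φ y)
        + ∫ y, e y * deriv φ y := hI1.2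
  have e2 : IA k W φ = (2 / (k : ℝ) - 1) * (∫ y, W y * φ y) - ∫ y, W y * (y * deriv φ y) := hIA.2
  have e3 : IB W φ = ∫ y, W y * deriv φ y := rfl
  rw [← hWd, e1, e2, e3]
  unfold ip
  rw [hL.2]
  ring

theorem orth_of_det {k : ℕ} (hk : 5 ≤ k) {p q : ℝ} (hp : 0 < p) (hq : 0 < q) (hp1 : p ≤ 1)
    (hq1 : q ≤ 1) {ε e : ℝ → ℝ} (hε : Cl p q ε) (he : Cl p q e) (l : ℝ)
    (hd : d0 k < Det k (fun y => Qf k y + ε y)) (hd0 : 0 < d0 k) :
    Orth k (bfn k l (fun y => Qf k y + ε y) e) (mfn k l (fun y => Qf k y + ε y) e) l ε e := by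
  have hk1 : 1 ≤ k := by omega
  have hQ : Cl 1 1 (Qf k) := Q_cl hk1
  have hmax : max (Det k (fun y => Qf k y + ε y)) (d0 k) = Det k (fun y => Qf k y + ε y) :=
    max_eq_left hd.le
  have hD : Det k (fun y => Qf k y + ε y) ≠ 0 := by
    have : 0 < Det k (fun y => Qf k y + ε y) := by linarith
    exact this.ne'
  unfold Orth
  rw [zeta_ip hk1 hp hq hp1 hq1 hε he _ _ _ hQ, zeta_ip hk1 hp hq hp1 hq1 hε he _ _ _ (Cl_deriv hQ)]
  unfold bfn mfn
  rw [hmax]
  have hDe : Det k (fun y => Qf k y + ε y) =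
      IA k (fun y => Qf k y + ε y) (Qf k) * IB (fun y => Qf k y + ε y) (deriv (Qf k)) -
        IA k (fun y => Qf k y + ε y) (deriv (Qf k)) * IB (fun y => Qf k y + ε y) (Qf k) := rfl
  constructor
  · field_simp
    rw [hDe]
    ring
  · field_simp
    rw [hDe]
    ring

end H72KB
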