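import Pool.Agent.H72.KB.ClA

/-!
# Row ClB: algebra of the classes `Cl p q`

* `Cl_mul`: Leibniz formula for `iteratedDeriv` of a product (`iteratedDeriv_mul`/`iteratedDeriv_fun_mul` if
  present, or induction on `j` for the statement for all pairs `f,g`: `deriv (f g) = f' g + f g'`, both again
  products of functions of class `Cl`; `iteratedDeriv_succ'`).  Weights multiply by `bd_mul`.
* `Cl_pow`: induction, `Cl (p+p) (q+q) ⊆ Cl p q` for `p,q ≥ 0`.
* `Cl_ymul`: `iteratedDeriv j (y f) = y f^{(j)} + j f^{(j-1)}` by induction, then `bd_poly` with `n = 1`.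
* `iter_comp`: induction (or `iteratedDeriv_comp_const_mul`-type lemmas).
* `Cl_comp`: `iter_comp`, then `bd_shift`.
-/

open MeasureTheory Filter Topology Set
open scoped ContDiff

namespace H72KB

open H98KB

theorem ClB_at {f : ℝ → ℝ} (h : ContDiff ℝ ∞ f) (j : ℕ) (y : ℝ) : ContDiffAt ℝ j f y :=
  (contDiff_infty.1 h j).contDiffAt

theorem ClB_pos {p q : ℝ} {f : ℝ → ℝ} (h : Cl p q f) (j : ℕ) :
    ∃ C : ℝ, 0 ≤ C ∧ ∀ y, |iteratedDeriv j f y| ≤ C * bd p q y := by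
  obtain ⟨C, hC⟩ := h.2 j
  refine ⟨|C|, abs_nonneg C, fun y => (hC y).trans ?_⟩
  exact mul_le_mul_of_nonneg_right (le_abs_self C) (bd_pos p q y).le

theorem Cl_mono {p p' q q' : ℝ} {f : ℝ → ℝ} (hp : p' ≤ p) (hq : q' ≤ q) (h : Cl p q f) :
    Cl p' q' f := by
  refine ⟨h.1, fun j => ?_⟩
  obtain ⟨C, hC0, hC⟩ := ClB_pos h j
  refine ⟨C, fun y => (hC y).trans ?_⟩
  exact mul_le_mul_of_nonneg_left (bd_anti hp hq y) hC0

theorem Cl_add {p q : ℝ} {f g : ℝ → ℝ} (hf : Cl p q f) (hg : Cl p q g) :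
    Cl p q (fun y => f y + g y) := by
  refine ⟨hf.1.add hg.1, fun j => ?_⟩
  obtain ⟨A, hA⟩ := hf.2 j
  obtain ⟨B, hB⟩ := hg.2 j
  refine ⟨A + B, fun y => ?_⟩
  rw [iteratedDeriv_fun_add (ClB_at hf.1 j y) (ClB_at hg.1 j y), add_mul]
  exact (abs_add_le _ _).trans (add_le_add (hA y) (hB y))

theorem Cl_smul {p q : ℝ} {f : ℝ → ℝ} (c : ℝ) (hf : Cl p q f) : Cl p q (fun y => c * f y) := by
  refine ⟨contDiff_const.mul hf.1, fun j => ?_⟩
  obtain ⟨A, hA⟩ := hf.2 j
  refine ⟨|c| * A, fun y => ?_⟩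
  rw [iteratedDeriv_const_mul_field, abs_mul, mul_assoc]
  exact mul_le_mul_of_nonneg_left (hA y) (abs_nonneg c)

theorem Cl_sub {p q : ℝ} {f g : ℝ → ℝ} (hf : Cl p q f) (hg : Cl p q g) :
    Cl p q (fun y => f y - g y) := by
  have h := Cl_add hf (Cl_smul (-1) hg)
  have e : (fun y => f y - g y) = fun y => f y + -1 * g y := by
    funext y
    ring
  rw [e]
  exact h

theorem Cl_mul {p q p' q' : ℝ} {f g : ℝ → ℝ} (hf : Cl p q f) (hg : Cl p' q' g) :
    Cl (p + p') (q + q') (fun y => f y * g y) := by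
  refine ⟨hf.1.mul hg.1, fun j => ?_⟩
  choose A hA0 hA using ClB_pos hf
  choose B hB0 hB using ClB_pos hg
  refine ⟨∑ i ∈ Finset.range (j + 1), (j.choose i : ℝ) * A i * B (j - i), fun y => ?_⟩
  rw [iteratedDeriv_fun_mul (ClB_at hf.1 j y) (ClB_at hg.1 j y), Finset.sum_mul]
  refine (Finset.abs_sum_le_sum_abs _ _).trans (Finset.sum_le_sum fun i _ => ?_)
  rw [abs_mul, abs_mul, Nat.abs_cast, ← bd_mul, mul_assoc]
  have h1 : |iteratedDeriv i f y| * |iteratedDeriv (j - i) g y|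
      ≤ (A i * bd p q y) * (B (j - i) * bd p' q' y) :=
    mul_le_mul (hA i y) (hB (j - i) y) (abs_nonneg _)
      (mul_nonneg (hA0 i) (bd_pos p q y).le)
  calc (j.choose i : ℝ) * (|iteratedDeriv i f y| * |iteratedDeriv (j - i) g y|)
      ≤ (j.choose i : ℝ) * ((A i * bd p q y) * (B (j - i) * bd p' q' y)) :=
        mul_le_mul_of_nonneg_left h1 (Nat.cast_nonneg _)
    _ = (j.choose i : ℝ) * A i * B (j - i) * (bd p q y * bd p' q' y) := by ring

theorem Cl_pow {p q : ℝ} {f : ℝ → ℝ} (hp : 0 ≤ p) (hq : 0 ≤ q) (hf : Cl p q f) (n : ℕ)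
    (hn : 1 ≤ n) : Cl p q (fun y => f y ^ n) := by
  induction n, hn using Nat.le_induction with
  | base =>
    have e : (fun y => f y ^ 1) = f := by
      funext y
      rw [pow_one]
    rw [e]
    exact hf
  | succ n hn ih =>
    have e : (fun y => f y ^ (n + 1)) = fun y => f y ^ n * f y := by
      funext y
      rw [pow_succ]
    rw [e]
    exact Cl_mono (by linarith) (by linarith) (Cl_mul ih hf)

theorem Cl_deriv {p q : ℝ} {f : ℝ → ℝ} (hf : Cl p q f) : Cl p q (deriv f) := by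
  refine ⟨(contDiff_infty_iff_deriv.1 hf.1).2, fun j => ?_⟩
  obtain ⟨C, hC⟩ := hf.2 (j + 1)
  refine ⟨C, fun y => ?_⟩
  rw [← iteratedDeriv_succ']
  exact hC y

theorem Cl_iter {p q : ℝ} {f : ℝ → ℝ} (hf : Cl p q f) (j : ℕ) : Cl p q (iteratedDeriv j f) := by
  induction j with
  | zero =>
    rw [iteratedDeriv_zero]
    exact hf
  | succ j ih =>
    rw [iteratedDeriv_succ]
    exact Cl_deriv ih

theorem Cl_ymul {p q p' q' : ℝ} {f : ℝ → ℝ} (hp : p' < p) (hq : q' < q) (hf : Cl p q f) :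
    Cl p' q' (fun y => y * f y) := by
  have hid : ContDiff ℝ ∞ (fun y : ℝ => y) := contDiff_fun_id
  refine ⟨hid.mul hf.1, fun j => ?_⟩
  choose A hA0 hA using ClB_pos hf
  obtain ⟨C, hC0, hC⟩ := bd_poly 1 hp hq
  refine ⟨(∑ i ∈ Finset.range (j + 1), (j.choose i : ℝ) * A (j - i)) * C, fun y => ?_⟩
  rw [iteratedDeriv_fun_mul (ClB_at hid j y) (ClB_at hf.1 j y)]
  have hw : ∀ i : ℕ, |iteratedDeriv i (fun y : ℝ => y) y| ≤ 1 + |y| := by
    intro i
    rw [iteratedDeriv_fun_id]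
    have := abs_nonneg y
    split_ifs
    · linarith
    · rw [abs_one]
      linarith
    · rw [abs_zero]
      linarith
  have h1 : |∑ i ∈ Finset.range (j + 1), (j.choose i : ℝ) * iteratedDeriv i (fun y : ℝ => y) y *
      iteratedDeriv (j - i) f y| ≤
      (∑ i ∈ Finset.range (j + 1), (j.choose i : ℝ) * A (j - i)) * ((1 + |y|) * bd p q y) := by
    rw [Finset.sum_mul]
    refine (Finset.abs_sum_le_sum_abs _ _).trans (Finset.sum_le_sum fun i _ => ?_)
    rw [abs_mul, abs_mul, Nat.abs_cast, mul_assoc]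
    have h2 : |iteratedDeriv i (fun y : ℝ => y) y| * |iteratedDeriv (j - i) f y|
        ≤ (1 + |y|) * (A (j - i) * bd p q y) :=
      mul_le_mul (hw i) (hA (j - i) y) (abs_nonneg _) (by positivity)
    calc (j.choose i : ℝ) * (|iteratedDeriv i (fun y : ℝ => y) y| * |iteratedDeriv (j - i) f y|)
        ≤ (j.choose i : ℝ) * ((1 + |y|) * (A (j - i) * bd p q y)) :=
          mul_le_mul_of_nonneg_left h2 (Nat.cast_nonneg _)
      _ = (j.choose i : ℝ) * A (j - i) * ((1 + |y|) * bd p q y) := by ring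
  refine h1.trans ?_
  rw [mul_assoc]
  have h3 := hC y
  rw [pow_one] at h3
  exact mul_le_mul_of_nonneg_left h3
    (Finset.sum_nonneg fun i _ => mul_nonneg (Nat.cast_nonneg _) (hA0 _))

theorem iter_comp {f : ℝ → ℝ} (hf : ContDiff ℝ ∞ f) (l x : ℝ) (j : ℕ) (y : ℝ) :
    iteratedDeriv j (fun z => f (l * z + x)) y = l ^ j * iteratedDeriv j f (l * y + x) := by
  have hid : ContDiff ℝ ∞ (fun z : ℝ => z + x) := contDiff_fun_id.add contDiff_const
  have hg : ContDiff ℝ j (fun z => f (z + x)) := contDiff_infty.1 (hf.comp hid) j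
  have h1 := congrFun (iteratedDeriv_comp_const_mul hg l) y
  have h2 := congrFun (iteratedDeriv_comp_add_const j f x) (l * y)
  refine h1.trans ?_
  rw [h2]

theorem Cl_comp {p q l : ℝ} {f : ℝ → ℝ} (hp : 0 ≤ p) (hq : 0 ≤ q) (hl : 0 ≤ l) (x : ℝ)
    (hf : Cl p q f) : Cl (l * p) (l * q) (fun y => f (l * y + x)) := by
  have hid : ContDiff ℝ ∞ (fun z : ℝ => l * z + x) :=
    (contDiff_const.mul contDiff_fun_id).add contDiff_const
  refine ⟨hf.1.comp hid, fun j => ?_⟩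
  obtain ⟨C, hC0, hC⟩ := ClB_pos hf j
  refine ⟨l ^ j * (C * Real.exp ((p + q) * |x|)), fun y => ?_⟩
  rw [iter_comp hf.1, abs_mul, abs_of_nonneg (pow_nonneg hl j), mul_assoc]
  refine mul_le_mul_of_nonneg_left ?_ (pow_nonneg hl j)
  refine (hC _).trans ?_
  rw [mul_assoc]
  exact mul_le_mul_of_nonneg_left (bd_shift hp hq hl x y) hC0

end H72KB
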