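import Pool.Agent.H72.KB.ConI
import Pool.Agent.H72.KB.QBas

/-!
# Row ConE: continuity of the energy functional for a `Fam`

Proof.  `continuousWithinAt_of_dominated`: for fixed `y` the integrand
`om B (R lam z) y * ((ε')² + ε² - 2 bF)` is continuous in `z` (`F.cl`, `F.co 0`, `F.co 1`; `bF` is a polynomial in `ε z y`
and `Q y`).  Domination: `|bF k ε y| ≤ C₁ (ε y)²` when `|ε y| ≤ C₀` (and `|Q| ≤ C`): Taylor
`F(Q+ε)-F(Q)-f(Q)ε = ε² ∫_0^1 (1-s)(Q+sε)^k ds`, or expand `(Q+ε)^{k+2}` binomially (every term from `ε²` on has a factor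
`ε²`); so `|(ε')²+ε²-2bF| ≤ C₂ (bd (ρ+θ) θ y)²`, and `om * bd² ≤ bd (2θ) (2θ)` (`om_bd`), integrable (`bd_int`).
-/

open MeasureTheory Filter Topology Set
open scoped ContDiff

namespace H72KB

open H98KB

theorem ConE_bin (M : ℝ) (hM : 0 ≤ M) (n : ℕ) : ∃ K : ℝ, 0 ≤ K ∧ ∀ a e : ℝ, |a| ≤ M →
    |a + e| ≤ M → |(a + e) ^ (n + 1) - a ^ (n + 1) - ((n : ℝ) + 1) * a ^ n * e| ≤ K * e ^ 2 := by
  induction n with
  | zero =>
    refine ⟨0, le_refl 0, fun a e _ _ => ?_⟩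
    have h : (a + e) ^ (0 + 1) - a ^ (0 + 1) - (((0 : ℕ) : ℝ) + 1) * a ^ 0 * e = 0 := by
      push_cast
      ring
    rw [h]
    simp
  | succ n ih =>
    obtain ⟨K, hK, h⟩ := ih
    refine ⟨M * K + ((n : ℝ) + 1) * M ^ n, by positivity, fun a e ha hae => ?_⟩
    have h1 := h a e ha hae
    have h2 : (a + e) ^ (n + 1 + 1) - a ^ (n + 1 + 1) - (((n + 1 : ℕ) : ℝ) + 1) * a ^ (n + 1) * e =
        (a + e) * ((a + e) ^ (n + 1) - a ^ (n + 1) - ((n : ℝ) + 1) * a ^ n * e) +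
          ((n : ℝ) + 1) * a ^ n * e ^ 2 := by
      push_cast
      ring
    rw [h2]
    refine (abs_add_le _ _).trans ?_
    have h3 : |(a + e) * ((a + e) ^ (n + 1) - a ^ (n + 1) - ((n : ℝ) + 1) * a ^ n * e)| ≤
        M * (K * e ^ 2) := by
      rw [abs_mul]
      exact mul_le_mul hae h1 (abs_nonneg _) hM
    have h4 : |((n : ℝ) + 1) * a ^ n * e ^ 2| ≤ ((n : ℝ) + 1) * M ^ n * e ^ 2 := by
      have h5 : (0 : ℝ) ≤ (n : ℝ) + 1 := by positivity
      rw [abs_mul, abs_mul, abs_pow, abs_of_nonneg h5, abs_of_nonneg (sq_nonneg e)]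
      refine mul_le_mul_of_nonneg_right (mul_le_mul_of_nonneg_left ?_ h5) (sq_nonneg e)
      exact pow_le_pow_left₀ (abs_nonneg a) ha n
    calc _ ≤ M * (K * e ^ 2) + ((n : ℝ) + 1) * M ^ n * e ^ 2 := add_le_add h3 h4
      _ = _ := by ring

/-- quadratic bound for `bF` -/
theorem bF_bound {k : ℕ} (hk : 1 ≤ k) (C₀ : ℝ) : ∃ C₁ : ℝ, 0 ≤ C₁ ∧ ∀ (ε : ℝ → ℝ) (y : ℝ),
    |ε y| ≤ C₀ → |bF k ε y| ≤ C₁ * (ε y) ^ 2 := by
  obtain ⟨C, hC⟩ := (Q_cl hk).2 0
  obtain ⟨K, hK, h⟩ := ConE_bin (|C| + |C₀|) (by positivity) (k + 1)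
  refine ⟨K, hK, fun ε y hy => ?_⟩
  have hQ : |Qf k y| ≤ |C| := by
    have h1 := hC y
    rw [iteratedDeriv_zero] at h1
    have h2 : bd 1 1 y ≤ 1 := bd_le_one zero_le_one zero_le_one y
    have h3 := bd_pos 1 1 y
    have h4 : C * bd 1 1 y ≤ |C| * bd 1 1 y := mul_le_mul_of_nonneg_right (le_abs_self C) h3.le
    have h5 : |C| * bd 1 1 y ≤ |C| * 1 := mul_le_mul_of_nonneg_left h2 (abs_nonneg C)
    linarith
  have h6 : |Qf k y| ≤ |C| + |C₀| := by
    have := abs_nonneg C₀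
    linarith
  have h7 : |Qf k y + ε y| ≤ |C| + |C₀| := by
    refine (abs_add_le _ _).trans ?_
    have := le_abs_self C₀
    linarith
  have h8 := h (Qf k y) (ε y) h6 h7
  have h9 : (0 : ℝ) < ((k : ℝ) + 1) * ((k : ℝ) + 2) := by positivity
  have h10 : (1 : ℝ) ≤ ((k : ℝ) + 1) * ((k : ℝ) + 2) := by
    have : (0 : ℝ) ≤ (k : ℝ) := Nat.cast_nonneg k
    nlinarith
  have h11 : bF k ε y = ((Qf k y + ε y) ^ (k + 1 + 1) - (Qf k y) ^ (k + 1 + 1) -
      (((k + 1 : ℕ) : ℝ) + 1) * (Qf k y) ^ (k + 1) * ε y) / (((k : ℝ) + 1) * ((k : ℝ) + 2)) := by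
    unfold bF Fl fl
    have e1 : (k : ℝ) + 1 ≠ 0 := by positivity
    have e2 : (k : ℝ) + 2 ≠ 0 := by positivity
    push_cast
    field_simp
    ring
  rw [h11, abs_div, abs_of_pos h9]
  exact (div_le_self (abs_nonneg _) h10).trans h8

theorem con_E {k : ℕ} {R θ : ℝ} {S : Set (ℝ × ℝ)} {lam : ℝ × ℝ → ℝ} {ε : ℝ × ℝ → ℝ → ℝ}
    (hk : 1 ≤ k) (F : Fam R θ S lam ε) {B : ℝ} (hB : 0 < B) :
    ContinuousOn (fun z => Ef k B (R * lam z) (ε z)) S := by
  have hθ := F.θ0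
  obtain ⟨C0, hC0⟩ := F.bd 0
  obtain ⟨C1, hC1⟩ := F.bd 1
  obtain ⟨C2, hC2, hbF⟩ := bF_bound hk |C0|
  have hQ : Continuous (Qf k) := (Q_cl hk).1.continuous
  have hρ : ∀ z ∈ S, 0 ≤ R * lam z := fun z hz =>
    mul_nonneg F.R0 (hθ.le.trans (F.lo z hz))
  have hf0 : ∀ z ∈ S, ∀ y, |ε z y| ≤ |C0| * bd (R * lam z + θ) θ y := by
    intro z hz y
    have h1 := hC0 z hz y
    rw [iteratedDeriv_zero] at h1
    exact h1.trans (mul_le_mul_of_nonneg_right (le_abs_self C0) (bd_pos _ _ y).le)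
  have hf1 : ∀ z ∈ S, ∀ y, |deriv (ε z) y| ≤ |C1| * bd (R * lam z + θ) θ y := by
    intro z hz y
    have h1 := hC1 z hz y
    rw [iteratedDeriv_one] at h1
    exact h1.trans (mul_le_mul_of_nonneg_right (le_abs_self C1) (bd_pos _ _ y).le)
  have hbd1 : ∀ z ∈ S, ∀ y, bd (R * lam z + θ) θ y ≤ 1 := fun z hz y =>
    bd_le_one (by linarith [hρ z hz]) hθ.le y
  have hf2 : ∀ z ∈ S, ∀ y, |bF k (ε z) y| ≤ C2 * (ε z y) ^ 2 := by
    intro z hz y
    refine hbF (ε z) y ((hf0 z hz y).trans ?_)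
    have h := mul_le_mul_of_nonneg_left (hbd1 z hz y) (abs_nonneg C0)
    linarith
  intro z₀ hz₀
  have key : ContinuousWithinAt (fun z => ∫ y, om B (R * lam z) y *
      ((deriv (ε z) y) ^ 2 + (ε z y) ^ 2 - 2 * bF k (ε z) y)) S z₀ := by
    refine continuousWithinAt_of_dominated
      (bound := fun y => (C1 ^ 2 + C0 ^ 2 + 2 * (C2 * C0 ^ 2)) * bd (2 * θ) (2 * θ) y) ?_ ?_ ?_ ?_
    · filter_upwards [self_mem_nhdsWithin] with z hz
      have c0 : Continuous (ε z) := (F.sm z hz).continuous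
      have c1 : Continuous (deriv (ε z)) := (F.sm z hz).continuous_deriv (by simp)
      have c2 : Continuous (fun y => om B (R * lam z) y) := by
        unfold om Th
        refine Continuous.mul (Continuous.div continuous_const ?_ ?_) ?_
        · fun_prop
        · intro y
          have := Real.exp_pos (-y / B)
          positivity
        · fun_prop
      have c3 : Continuous (fun y => bF k (ε z) y) := by
        unfold bF Fl fl
        fun_prop
      exact (c2.mul (((c1.pow 2).add (c0.pow 2)).sub (c3.const_mul 2))).aestronglyMeasurable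
    · filter_upwards [self_mem_nhdsWithin] with z hz
      refine Eventually.of_forall fun y => ?_
      obtain ⟨o1, o2⟩ := om_bd (θ := θ) hB (hρ z hz) hθ.le y
      have b0 := bd_pos (R * lam z + θ) θ y
      have e0 : (ε z y) ^ 2 ≤ C0 ^ 2 * (bd (R * lam z + θ) θ y) ^ 2 := by
        rw [← sq_abs (ε z y), ← sq_abs C0, ← mul_pow]
        exact pow_le_pow_left₀ (abs_nonneg _) (hf0 z hz y) 2
      have e1 : (deriv (ε z) y) ^ 2 ≤ C1 ^ 2 * (bd (R * lam z + θ) θ y) ^ 2 := by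
        rw [← sq_abs (deriv (ε z) y), ← sq_abs C1, ← mul_pow]
        exact pow_le_pow_left₀ (abs_nonneg _) (hf1 z hz y) 2
      have e2 := hf2 z hz y
      have e3 : C2 * (ε z y) ^ 2 ≤ C2 * (C0 ^ 2 * (bd (R * lam z + θ) θ y) ^ 2) :=
        mul_le_mul_of_nonneg_left e0 hC2
      have e4 : |(deriv (ε z) y) ^ 2 + (ε z y) ^ 2 - 2 * bF k (ε z) y| ≤
          (C1 ^ 2 + C0 ^ 2 + 2 * (C2 * C0 ^ 2)) * (bd (R * lam z + θ) θ y) ^ 2 := by
        have e5 := abs_le.1 e2
        rw [abs_le]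
        constructor
        · nlinarith [sq_nonneg (deriv (ε z) y), sq_nonneg (ε z y), e5.1, e5.2]
        · nlinarith [sq_nonneg (deriv (ε z) y), sq_nonneg (ε z y), e5.1, e5.2]
      rw [Real.norm_eq_abs, abs_mul, abs_of_pos o1]
      calc om B (R * lam z) y * |(deriv (ε z) y) ^ 2 + (ε z y) ^ 2 - 2 * bF k (ε z) y|
          ≤ om B (R * lam z) y * ((C1 ^ 2 + C0 ^ 2 + 2 * (C2 * C0 ^ 2)) *
            (bd (R * lam z + θ) θ y) ^ 2) := mul_le_mul_of_nonneg_left e4 o1.le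
        _ = (C1 ^ 2 + C0 ^ 2 + 2 * (C2 * C0 ^ 2)) *
            (om B (R * lam z) y * (bd (R * lam z + θ) θ y) ^ 2) := by ring
        _ ≤ (C1 ^ 2 + C0 ^ 2 + 2 * (C2 * C0 ^ 2)) * bd (2 * θ) (2 * θ) y :=
          mul_le_mul_of_nonneg_left o2 (by positivity)
    · exact (bd_int (by linarith) (by linarith)).const_mul _
    · refine Eventually.of_forall fun y => ?_
      have d0 : ContinuousWithinAt (fun z => ε z y) S z₀ := by
        have h := F.co 0 y z₀ hz₀
        simpa [iteratedDeriv_zero] using h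
      have d1 : ContinuousWithinAt (fun z => deriv (ε z) y) S z₀ := by
        have h := F.co 1 y z₀ hz₀
        simpa [iteratedDeriv_one] using h
      have dl : ContinuousWithinAt lam S z₀ := F.cl z₀ hz₀
      have d2 : ContinuousWithinAt (fun z => om B (R * lam z) y) S z₀ := by
        unfold om
        refine continuousWithinAt_const.mul ?_
        refine Real.continuous_exp.continuousAt.comp_continuousWithinAt ?_
        exact (continuousWithinAt_const.mul (continuousWithinAt_const.mul dl)).mul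
          continuousWithinAt_const
      have d3 : ContinuousWithinAt (fun z => bF k (ε z) y) S z₀ := by
        unfold bF Fl fl
        refine ContinuousWithinAt.sub (ContinuousWithinAt.sub ?_ continuousWithinAt_const) ?_
        · exact ((continuousWithinAt_const.add d0).pow _).div_const _
        · exact continuousWithinAt_const.mul d0
      exact d2.mul (((d1.pow 2).add (d0.pow 2)).sub (continuousWithinAt_const.mul d3))
  have h := key.const_mul (1 / 2 : ℝ)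
  exact h

end H72KB
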