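import Pool.Agent.H72.KB.ConI
import Pool.Agent.H72.KB.QBas

/-!
# Row ConV: continuity of the virial functional for a `Fam`

Proof.  `vf k δ (ε z) y = ∫ w, κ(w) Lop k (ε z) (y - w)`, `κ(w) = exp(-|w|/√δ)/(2√δ)` integrable, `|Lop k (ε z)| ≤ C`
uniformly in `z ∈ S` (`F.bd 0`, `F.bd 2`, `bd ≤ 1`, `|Q|^k ≤ C`), continuous in `z` for fixed argument (`F.co 0`, `F.co 2`;
`iteratedDeriv 2 f = deriv (deriv f)`).  So for fixed `y`, `z ↦ vf k δ (ε z) y` is continuous on `S` and
`|vf| ≤ C'` (dominated convergence).  It is also continuous in `y` (needed for measurability; or use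
`AEStronglyMeasurable` of a convolution / parametric integral, `StronglyMeasurable.integral_prod_right`).
Then `Vf = 1/2 ∫ Psi * vf²` with `|Psi k η γ B y| ≤ (1+|η|) ch B y`, `ch B y = sech²(y/B) ≤ 4 exp(-2|y|/B)` integrable:
dominated convergence again.
-/

open MeasureTheory Filter Topology Set
open scoped ContDiff

namespace H72KB

open H98KB

theorem ConV_bd (p y : ℝ) : bd p p y = Real.exp (-(p * |y|)) := by
  unfold bd
  congr 1
  have h := ClA_abs y
  rw [← h]
  ring

theorem ConV_exp_int {p : ℝ} (hp : 0 < p) : Integrable (fun y : ℝ => Real.exp (-(p * |y|))) := by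
  have h := bd_int hp hp
  refine h.congr (Eventually.of_forall fun y => ?_)
  exact ConV_bd p y

/-- the smoothing kernel -/
noncomputable def ConVker (δ w : ℝ) : ℝ := Real.exp (-|w| / √δ) / (2 * √δ)

theorem ConV_ker_nonneg (δ w : ℝ) : 0 ≤ ConVker δ w := by
  unfold ConVker
  positivity

theorem ConV_ker_cont (δ : ℝ) : Continuous (ConVker δ) := by
  unfold ConVker
  fun_prop

theorem ConV_ker_int {δ : ℝ} (hδ : 0 < δ) : Integrable (ConVker δ) := by
  have hs : 0 < √δ := Real.sqrt_pos.2 hδ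
  have h := (ConV_exp_int (p := 1 / √δ) (by positivity)).div_const (2 * √δ)
  refine h.congr (Eventually.of_forall fun w => ?_)
  unfold ConVker
  show Real.exp (-(1 / √δ * |w|)) / (2 * √δ) = Real.exp (-|w| / √δ) / (2 * √δ)
  congr 2
  ring

theorem ConV_Sm (δ : ℝ) (h : ℝ → ℝ) (y : ℝ) : Sm δ h y = ∫ w, ConVker δ w * h (y - w) := rfl

theorem ConV_Sm_bound {δ : ℝ} (hδ : 0 < δ) {h : ℝ → ℝ} (hc : Continuous h) {M : ℝ}
    (hM : ∀ y, |h y| ≤ M) :
    Continuous (Sm δ h) ∧ ∀ y, |Sm δ h y| ≤ (∫ w, ConVker δ w) * M := by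
  have hI : Integrable (fun w => ConVker δ w * M) := (ConV_ker_int hδ).mul_const M
  have hb : ∀ y w, ‖ConVker δ w * h (y - w)‖ ≤ ConVker δ w * M := by
    intro y w
    rw [Real.norm_eq_abs, abs_mul, abs_of_nonneg (ConV_ker_nonneg δ w)]
    exact mul_le_mul_of_nonneg_left (hM _) (ConV_ker_nonneg δ w)
  constructor
  · have h1 : Continuous (fun y => ∫ w, ConVker δ w * h (y - w)) := by
      refine continuous_of_dominated (bound := fun w => ConVker δ w * M) ?_ ?_ hI ?_
      · intro y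
        exact ((ConV_ker_cont δ).mul (hc.comp (continuous_const.sub continuous_id))).aestronglyMeasurable
      · intro y
        exact Eventually.of_forall (hb y)
      · refine Eventually.of_forall fun w => ?_
        exact continuous_const.mul (hc.comp (continuous_id.sub continuous_const))
    exact h1
  · intro y
    rw [ConV_Sm, ← Real.norm_eq_abs]
    refine (norm_integral_le_of_norm_le hI (Eventually.of_forall (hb y))).trans ?_
    rw [integral_mul_const]

theorem ConV_it2 (f : ℝ → ℝ) : iteratedDeriv 2 f = deriv (deriv f) := by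
  rw [iteratedDeriv_succ, iteratedDeriv_one]

theorem ConV_Qpow {k : ℕ} (hk : 1 ≤ k) (y : ℝ) :
    |(Qf k y) ^ k| ≤ ((k : ℝ) + 1) * ((k : ℝ) + 2) / 2 := by
  rw [Q_pow hk, abs_mul, abs_of_pos (qbas_C0 k)]
  have h1 := qbas_th_abs k y
  have h2 : (th k y) ^ 2 ≤ 1 := by
    rw [← sq_abs]
    exact pow_le_one₀ (abs_nonneg _) h1
  have h3 : |1 - (th k y) ^ 2| ≤ 1 := by
    rw [abs_le]
    constructor
    · linarith
    · linarith [sq_nonneg (th k y)]
  calc ((k : ℝ) + 1) * ((k : ℝ) + 2) / 2 * |1 - (th k y) ^ 2|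
      ≤ ((k : ℝ) + 1) * ((k : ℝ) + 2) / 2 * 1 := mul_le_mul_of_nonneg_left h3 (qbas_C0 k).le
    _ = _ := mul_one _

theorem ConV_Lop_bound {k : ℕ} (hk : 1 ≤ k) {C : ℝ} {ε : ℝ → ℝ} (h0 : ∀ y, |ε y| ≤ C)
    (h2 : ∀ y, |iteratedDeriv 2 ε y| ≤ C) (y : ℝ) :
    |Lop k ε y| ≤ (2 + ((k : ℝ) + 1) * ((k : ℝ) + 2) / 2) * C := by
  have hC : 0 ≤ C := (abs_nonneg _).trans (h0 0)
  unfold Lop
  have e2 : |deriv (deriv ε) y| ≤ C := by
    rw [← ConV_it2]
    exact h2 y
  have e3 : |(Qf k y) ^ k * ε y| ≤ ((k : ℝ) + 1) * ((k : ℝ) + 2) / 2 * C := by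
    rw [abs_mul]
    exact mul_le_mul (ConV_Qpow hk y) (h0 y) (abs_nonneg _) (qbas_C0 k).le
  have e4 := h0 y
  rw [abs_le] at e2 e3 e4 ⊢
  constructor
  · linarith [e2.1, e2.2, e3.1, e3.2, e4.1, e4.2]
  · linarith [e2.1, e2.2, e3.1, e3.2, e4.1, e4.2]

theorem ConV_Lop_cont {k : ℕ} (hk : 1 ≤ k) {ε : ℝ → ℝ} (h : ContDiff ℝ ∞ ε) :
    Continuous (Lop k ε) := by
  have h2 : Continuous (deriv (deriv ε)) := by
    rw [← ConV_it2]
    exact (contDiff_infty.1 h 2).continuous_iteratedDeriv 2 le_rfl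
  unfold Lop
  exact (h2.neg.add h.continuous).sub (((qbas_smooth hk).continuous.pow k).mul h.continuous)

/-- uniform bound and continuity in `y` of `vf` -/
theorem vf_bound {k : ℕ} {δ : ℝ} (hk : 1 ≤ k) (hδ : 0 < δ) : ∃ C₁ : ℝ, 0 ≤ C₁ ∧
    ∀ (C : ℝ) (ε : ℝ → ℝ), ContDiff ℝ ∞ ε → (∀ y, |ε y| ≤ C) → (∀ y, |iteratedDeriv 2 ε y| ≤ C) →
      Continuous (vf k δ ε) ∧ ∀ y, |vf k δ ε y| ≤ C₁ * C := by
  refine ⟨(∫ w, ConVker δ w) * (2 + ((k : ℝ) + 1) * ((k : ℝ) + 2) / 2), ?_, ?_⟩
  · refine mul_nonneg (integral_nonneg (ConV_ker_nonneg δ)) ?_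
    have := qbas_C0 k
    linarith
  · intro C ε hs h0 h2
    obtain ⟨h3, h4⟩ := ConV_Sm_bound hδ (ConV_Lop_cont hk hs) (ConV_Lop_bound hk h0 h2)
    refine ⟨h3, fun y => ?_⟩
    rw [mul_assoc]
    exact h4 y

theorem ConV_ch (B y : ℝ) : |ch B y| ≤ 4 * Real.exp (-(2 / B) * |y|) ∨ B ≤ 0 := by
  rcases le_or_gt B 0 with hB | hB
  · exact Or.inr hB
  left
  unfold ch
  have hc := Real.cosh_pos (y / B)
  have h1 : Real.exp (|y| / B) / 2 ≤ Real.cosh (y / B) := by
    rw [← Real.cosh_abs, Real.cosh_eq, abs_div, abs_of_pos hB]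
    have := Real.exp_pos (-(|y| / B))
    linarith
  have h2 : 0 < Real.exp (|y| / B) / 2 := by positivity
  have h3 : 1 / Real.cosh (y / B) ≤ 2 * Real.exp (-(|y| / B)) := by
    calc 1 / Real.cosh (y / B) ≤ 1 / (Real.exp (|y| / B) / 2) := one_div_le_one_div_of_le h2 h1
      _ = 2 * Real.exp (-(|y| / B)) := by
        rw [Real.exp_neg]
        field_simp
  rw [abs_of_nonneg (sq_nonneg _)]
  calc (1 / Real.cosh (y / B)) ^ 2 ≤ (2 * Real.exp (-(|y| / B))) ^ 2 :=
        pow_le_pow_left₀ (by positivity) h3 2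
    _ = 4 * Real.exp (-(2 / B) * |y|) := by
        rw [mul_pow, ← Real.exp_nat_mul]
        norm_num
        ring

/-- the weight `Psi` -/
theorem Psi_bound (k : ℕ) (η γ : ℝ) {B : ℝ} (hB : 0 < B) :
    Continuous (Psi k η γ B) ∧ Integrable (Psi k η γ B) ∧
      (∀ y, |Psi k η γ B y| ≤ (1 + |η|) * 4 * Real.exp (-(2 / B) * |y|)) := by
  have hth : Continuous (fun y : ℝ => Real.tanh y) := by
    have e : (fun y : ℝ => Real.tanh y) = fun y => Real.sinh y / Real.cosh y := by
      funext y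
      exact Real.tanh_eq_sinh_div_cosh y
    rw [e]
    exact Real.continuous_sinh.div Real.continuous_cosh (fun y => (Real.cosh_pos y).ne')
  have hcont : Continuous (Psi k η γ B) := by
    have h1 : Continuous (fun y : ℝ => Real.tanh ((k : ℝ) * y / 2)) :=
      hth.comp ((continuous_const.mul continuous_id).div_const 2)
    have h2 : Continuous (fun y : ℝ => Real.tanh (γ * y)) := hth.comp (continuous_const.mul continuous_id)
    have h3 : Continuous (fun y : ℝ => (1 / Real.cosh (y / B)) ^ 2) :=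
      (continuous_const.div (Real.continuous_cosh.comp (continuous_id.div_const B))
        (fun y => (Real.cosh_pos _).ne')).pow 2
    exact (h1.add (continuous_const.mul h2)).mul h3
  have hbd : ∀ y, |Psi k η γ B y| ≤ (1 + |η|) * 4 * Real.exp (-(2 / B) * |y|) := by
    intro y
    unfold Psi
    rw [abs_mul, mul_assoc]
    have h1 : |psi k η γ y| ≤ 1 + |η| := by
      unfold psi
      have e1 := qbas_th_abs k y
      have e2 : |η * Real.tanh (γ * y)| ≤ |η| := by
        rw [abs_mul]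
        exact mul_le_of_le_one_right (abs_nonneg _) (Real.abs_tanh_lt_one _).le
      exact (abs_add_le _ _).trans (add_le_add e1 e2)
    have h2 : |ch B y| ≤ 4 * Real.exp (-(2 / B) * |y|) := by
      rcases ConV_ch B y with h | h
      · exact h
      · exact absurd hB (not_lt.2 h)
    exact mul_le_mul h1 h2 (abs_nonneg _) (by positivity)
  refine ⟨hcont, ?_, hbd⟩
  have h4 : Integrable (fun y : ℝ => (1 + |η|) * 4 * Real.exp (-(2 / B * |y|))) :=
    (ConV_exp_int (p := 2 / B) (by positivity)).const_mul _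
  refine h4.mono' hcont.aestronglyMeasurable (Eventually.of_forall fun y => ?_)
  rw [Real.norm_eq_abs]
  refine (hbd y).trans (le_of_eq ?_)
  rw [neg_mul]

theorem con_V {k : ℕ} {R θ : ℝ} {S : Set (ℝ × ℝ)} {lam : ℝ × ℝ → ℝ} {ε : ℝ × ℝ → ℝ → ℝ}
    (hk : 1 ≤ k) (F : Fam R θ S lam ε) {B δ : ℝ} (hB : 0 < B) (hδ : 0 < δ) (η γ : ℝ) :
    ContinuousOn (fun z => Vf k η γ B δ (ε z)) S := by
  obtain ⟨C0, hC0⟩ := F.bd 0
  obtain ⟨C2, hC2⟩ := F.bd 2
  have hle : ∀ (C : ℝ), ∀ z ∈ S, ∀ y, C * bd (R * lam z + θ) θ y ≤ max |C0| |C2| ∨ |C| > max |C0| |C2| := by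
    intro C z hz y
    rcases le_or_gt |C| (max |C0| |C2|) with h | h
    · left
      have h0 : 0 ≤ R * lam z + θ :=
        add_nonneg (mul_nonneg F.R0 (F.θ0.le.trans (F.lo z hz))) F.θ0.le
      have h1 := bd_le_one h0 F.θ0.le y
      have h2 := bd_pos (R * lam z + θ) θ y
      calc C * bd (R * lam z + θ) θ y ≤ |C| * 1 :=
            mul_le_mul (le_abs_self C) h1 h2.le (abs_nonneg C)
        _ ≤ max |C0| |C2| := by rw [mul_one]; exact h
    · exact Or.inr h
  set C := max |C0| |C2| with hC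
  have hb0 : ∀ z ∈ S, ∀ y, |ε z y| ≤ C := by
    intro z hz y
    have h1 := hC0 z hz y
    rw [iteratedDeriv_zero] at h1
    rcases hle C0 z hz y with h | h
    · exact h1.trans h
    · exact absurd h (not_lt.2 (le_max_left _ _))
  have hb2 : ∀ z ∈ S, ∀ y, |iteratedDeriv 2 (ε z) y| ≤ C := by
    intro z hz y
    rcases hle C2 z hz y with h | h
    · exact (hC2 z hz y).trans h
    · exact absurd h (not_lt.2 (le_max_right _ _))
  obtain ⟨C₁, hC1, hvf⟩ := vf_bound (k := k) (δ := δ) hk hδ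
  obtain ⟨hP1, hP2, -⟩ := Psi_bound k η γ hB
  have hvc : ∀ y, ContinuousOn (fun z => vf k δ (ε z) y) S := by
    intro y
    have hI : Integrable (fun w => ConVker δ w * ((2 + ((k : ℝ) + 1) * ((k : ℝ) + 2) / 2) * C)) :=
      (ConV_ker_int hδ).mul_const _
    have h1 : ContinuousOn (fun z => ∫ w, ConVker δ w * Lop k (ε z) (y - w)) S := by
      refine continuousOn_of_dominated
        (bound := fun w => ConVker δ w * ((2 + ((k : ℝ) + 1) * ((k : ℝ) + 2) / 2) * C)) ?_ ?_ hI ?_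
      · intro z hz
        exact ((ConV_ker_cont δ).mul ((ConV_Lop_cont hk (F.sm z hz)).comp
          (continuous_const.sub continuous_id))).aestronglyMeasurable
      · intro z hz
        refine Eventually.of_forall fun w => ?_
        rw [Real.norm_eq_abs, abs_mul, abs_of_nonneg (ConV_ker_nonneg δ w)]
        exact mul_le_mul_of_nonneg_left (ConV_Lop_bound hk (hb0 z hz) (hb2 z hz) _)
          (ConV_ker_nonneg δ w)
      · refine Eventually.of_forall fun w => ?_
        refine ContinuousOn.mul continuousOn_const ?_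
        have e0 := F.co 0 (y - w)
        have e2 := F.co 2 (y - w)
        have e3 : (fun z => Lop k (ε z) (y - w)) = fun z => -iteratedDeriv 2 (ε z) (y - w) +
            iteratedDeriv 0 (ε z) (y - w) - (Qf k (y - w)) ^ k * iteratedDeriv 0 (ε z) (y - w) := by
          funext z
          rw [ConV_it2, iteratedDeriv_zero]
          rfl
        rw [e3]
        exact (e2.neg.add e0).sub (continuousOn_const.mul e0)
    exact h1
  unfold Vf
  refine ContinuousOn.mul continuousOn_const ?_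
  refine continuousOn_of_dominated (bound := fun y => |Psi k η γ B y| * (C₁ * C) ^ 2) ?_ ?_
    (hP2.abs.mul_const _) ?_
  · intro z hz
    exact (hP1.mul ((hvf C (ε z) (F.sm z hz) (hb0 z hz) (hb2 z hz)).1.pow 2)).aestronglyMeasurable
  · intro z hz
    refine Eventually.of_forall fun y => ?_
    rw [Real.norm_eq_abs, abs_mul]
    refine mul_le_mul_of_nonneg_left ?_ (abs_nonneg _)
    rw [abs_of_nonneg (sq_nonneg _), ← sq_abs]
    exact pow_le_pow_left₀ (abs_nonneg _) ((hvf C (ε z) (F.sm z hz) (hb0 z hz) (hb2 z hz)).2 y) 2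
  · refine Eventually.of_forall fun y => ?_
    exact continuousOn_const.mul ((hvc y).pow 2)

end H72KB
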