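import Pool.Agent.H72.KB.ZB
import Pool.Agent.H72.KB.ConE

/-!
# Row DerE: time derivative of the energy functional along a `Flow`

Proof.  `hasDerivAt_integral_of_dominated_loc_of_deriv_le`.  Integrand
`I(τ,y) = om B (R lam τ) y * ((ε')² + ε² - 2 bF k (ε τ) y)`, `om B ρ y = Th B y * exp(2ρy)`.  With `l = lam τ`, `ρ = R l`,
`ζ = zeta..`:
 `∂_τ om = 2 R lam' y om = -2 b ρ y om / l³`   (`lam' = -b/l²`, `F.dl`),
 `∂_τ ε = ζ/l³`, `∂_τ ε' = ζ'/l³` (`F.ev 0`, `F.ev 1`), `∂_τ bF = (fl(Q+ε) - fl(Q)) ∂_τ ε = Df k ε ζ / l³`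
 (`Fl' = fl`: derivative of `u^{k+2}/((k+1)(k+2))` is `u^{k+1}/(k+1)`).
So `l³ ∂_τ (I/2) = -b ρ y om ((ε')²+ε²-2bF) + om (ε' ζ' + (ε - Df) ζ)`, which integrates to `DE`.
DOMINATION for `τ ∈ J` (`C` independent of `τ`): `|ε|,|ε'| ≤ C bd (ρ+θ) θ ≤ C bd (ρ+θ/2) (θ/2)`,
`|ζ|,|ζ'| ≤ C bd (ρ+θ/2) (θ/2)` (`zeta_bound`), `|bF| ≤ C ε²` (`bF_bound`), `|Df| ≤ C |ε|`, `|b| ≤ C`, `ρ ≤ 1/2`,
`om * bd(ρ+θ/2,θ/2)² ≤ bd θ θ` (`om_bd` with `θ/2`), and `|y| bd θ θ y ≤ C bd (θ/2) (θ/2) y` (`bd_poly`).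
-/

open MeasureTheory Filter Topology Set
open scoped ContDiff

namespace H72KB

open H98KB

theorem DerE_Df {k : ℕ} (hk : 1 ≤ k) (C₀ : ℝ) : ∃ C : ℝ, 0 ≤ C ∧ ∀ (ε : ℝ → ℝ) (y : ℝ),
    |ε y| ≤ C₀ → |Df k ε y| ≤ C * |ε y| := by
  obtain ⟨CQ, hCQ, hQ⟩ := qbas_decay hk
  refine ⟨(CQ + |C₀|) ^ k, by positivity, fun ε y hε => ?_⟩
  have hQ0 := Q_pos hk y
  have hQ1 : Qf k y ≤ CQ := by
    have h1 := bd_le_one (p := 1) (q := 1) zero_le_one zero_le_one y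
    have h2 := hQ y
    nlinarith
  have hε' : |ε y| ≤ |C₀| := hε.trans (le_abs_self _)
  have h1 : Df k ε y = ((Qf k y + ε y) ^ (k + 1) - (Qf k y) ^ (k + 1)) / ((k : ℝ) + 1) := by
    unfold Df fl
    rw [sub_div]
  have h2 := abs_pow_sub_pow_le (Qf k y + ε y) (Qf k y) (k + 1)
  rw [add_sub_cancel_left, Nat.add_sub_cancel] at h2
  have h3 : max |Qf k y + ε y| |Qf k y| ≤ CQ + |C₀| := by
    refine max_le ?_ ?_
    · have := abs_add_le (Qf k y) (ε y)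
      rw [abs_of_pos hQ0] at this
      linarith
    · rw [abs_of_pos hQ0]
      linarith [abs_nonneg C₀]
  have h4 : max |Qf k y + ε y| |Qf k y| ^ k ≤ (CQ + |C₀|) ^ k :=
    pow_le_pow_left₀ ((abs_nonneg _).trans (le_max_left _ _)) h3 k
  have hk0 : (0 : ℝ) < (k : ℝ) + 1 := by positivity
  rw [h1, abs_div, abs_of_pos hk0, div_le_iff₀ hk0]
  refine h2.trans ?_
  push_cast
  calc |ε y| * ((k : ℝ) + 1) * max |Qf k y + ε y| |Qf k y| ^ k
      ≤ |ε y| * ((k : ℝ) + 1) * (CQ + |C₀|) ^ k :=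
        mul_le_mul_of_nonneg_left h4 (by positivity)
    _ = (CQ + |C₀|) ^ k * |ε y| * ((k : ℝ) + 1) := by ring

theorem DerE_ptA {o β w e0 e1 z0 z1 df C0 C1 Z0 Z1 Cd : ℝ} (ho : 0 ≤ o) (hC0 : 0 ≤ C0)
    (hC1 : 0 ≤ C1) (hZ0 : 0 ≤ Z0) (hZ1 : 0 ≤ Z1) (hCd : 0 ≤ Cd) (h0 : |e0| ≤ C0 * β)
    (h1 : |e1| ≤ C1 * β) (hz0 : |z0| ≤ Z0 * β) (hz1 : |z1| ≤ Z1 * β) (hdf : |df| ≤ Cd * |e0|)
    (hw : o * β ^ 2 ≤ w) :
    |o * (e1 * z1 + (e0 - df) * z0)| ≤ (C1 * Z1 + (C0 + Cd * C0) * Z0) * w := by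
  have h2 : |e1 * z1| ≤ C1 * Z1 * β ^ 2 := by
    rw [abs_mul]
    calc |e1| * |z1| ≤ (C1 * β) * (Z1 * β) :=
          mul_le_mul h1 hz1 (abs_nonneg _) ((abs_nonneg _).trans h1)
      _ = C1 * Z1 * β ^ 2 := by ring
  have h3 : |e0 - df| ≤ (C0 + Cd * C0) * β := by
    have h4 := abs_sub e0 df
    have h5 := mul_le_mul_of_nonneg_left h0 hCd
    nlinarith
  have h4 : |(e0 - df) * z0| ≤ (C0 + Cd * C0) * Z0 * β ^ 2 := by
    rw [abs_mul]
    calc |e0 - df| * |z0| ≤ ((C0 + Cd * C0) * β) * (Z0 * β) :=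
          mul_le_mul h3 hz0 (abs_nonneg _) ((abs_nonneg _).trans h3)
      _ = (C0 + Cd * C0) * Z0 * β ^ 2 := by ring
  rw [abs_mul, abs_of_nonneg ho]
  have h5 := abs_add_le (e1 * z1) ((e0 - df) * z0)
  have h6 : |e1 * z1 + (e0 - df) * z0| ≤ (C1 * Z1 + (C0 + Cd * C0) * Z0) * β ^ 2 := by
    nlinarith
  have hK : 0 ≤ C1 * Z1 + (C0 + Cd * C0) * Z0 := by positivity
  calc o * |e1 * z1 + (e0 - df) * z0| ≤ o * ((C1 * Z1 + (C0 + Cd * C0) * Z0) * β ^ 2) :=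
        mul_le_mul_of_nonneg_left h6 ho
    _ = (C1 * Z1 + (C0 + Cd * C0) * Z0) * (o * β ^ 2) := by ring
    _ ≤ _ := mul_le_mul_of_nonneg_left hw hK

theorem DerE_ptG {o β w e0 e1 bf C0 C1 Cb : ℝ} (ho : 0 ≤ o) (_hC0 : 0 ≤ C0)
    (_hC1 : 0 ≤ C1) (hCb : 0 ≤ Cb) (h0 : |e0| ≤ C0 * β)
    (h1 : |e1| ≤ C1 * β) (hbf : |bf| ≤ Cb * e0 ^ 2) (hw : o * β ^ 2 ≤ w) :
    |o * (e1 ^ 2 + e0 ^ 2 - 2 * bf)| ≤ (C1 ^ 2 + C0 ^ 2 + 2 * Cb * C0 ^ 2) * w := by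
  have h2 : e1 ^ 2 ≤ C1 ^ 2 * β ^ 2 := by
    rw [← sq_abs e1, ← mul_pow]
    exact pow_le_pow_left₀ (abs_nonneg _) h1 2
  have h3 : e0 ^ 2 ≤ C0 ^ 2 * β ^ 2 := by
    rw [← sq_abs e0, ← mul_pow]
    exact pow_le_pow_left₀ (abs_nonneg _) h0 2
  have h6 : |e1 ^ 2 + e0 ^ 2 - 2 * bf| ≤ (C1 ^ 2 + C0 ^ 2 + 2 * Cb * C0 ^ 2) * β ^ 2 := by
    have h7 := abs_le.1 hbf
    have h8 := mul_le_mul_of_nonneg_left h3 hCb
    rw [abs_le]
    constructor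
    · nlinarith [sq_nonneg e1, sq_nonneg e0]
    · nlinarith [sq_nonneg e1, sq_nonneg e0]
  have hK : 0 ≤ C1 ^ 2 + C0 ^ 2 + 2 * Cb * C0 ^ 2 := by positivity
  rw [abs_mul, abs_of_nonneg ho]
  calc o * |e1 ^ 2 + e0 ^ 2 - 2 * bf| ≤ o * ((C1 ^ 2 + C0 ^ 2 + 2 * Cb * C0 ^ 2) * β ^ 2) :=
        mul_le_mul_of_nonneg_left h6 ho
    _ = (C1 ^ 2 + C0 ^ 2 + 2 * Cb * C0 ^ 2) * (o * β ^ 2) := by ring
    _ ≤ _ := mul_le_mul_of_nonneg_left hw hK

/-- first part of the derivative of the integrand -/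
noncomputable def DerE_A (k : ℕ) (B R : ℝ) (lam b m : ℝ → ℝ) (ε e : ℝ → ℝ → ℝ) (τ y : ℝ) : ℝ :=
  om B (R * lam τ) y * (deriv (ε τ) y * deriv (zeta k (b τ) (m τ) (lam τ) (ε τ) (e τ)) y +
    (ε τ y - Df k (ε τ) y) * zeta k (b τ) (m τ) (lam τ) (ε τ) (e τ) y)

/-- the integrand -/
noncomputable def DerE_G (k : ℕ) (B R : ℝ) (lam : ℝ → ℝ) (ε : ℝ → ℝ → ℝ) (τ y : ℝ) : ℝ :=
  om B (R * lam τ) y * ((deriv (ε τ) y) ^ 2 + (ε τ y) ^ 2 - 2 * bF k (ε τ) y)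

theorem DerE_bounds {k : ℕ} {R θ : ℝ} {J : Set ℝ} {lam b m : ℝ → ℝ} {ε e : ℝ → ℝ → ℝ}
    (hk : 1 ≤ k) (F : Flow k R θ J lam b m ε e) {B : ℝ} (hB : 0 < B) :
    ∃ K : ℝ, 0 ≤ K ∧ ∀ τ ∈ J, ∀ y, |DerE_A k B R lam b m ε e τ y| ≤ K * bd θ θ y ∧
      |DerE_G k B R lam ε τ y| ≤ K * bd θ θ y := by
  obtain ⟨C0, hC0⟩ := F.bd 0
  obtain ⟨C1, hC1⟩ := F.bd 1
  obtain ⟨Z0, hZ0n, hZ0⟩ := zeta_bound hk F 0
  obtain ⟨Z1, hZ1n, hZ1⟩ := zeta_bound hk F 1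
  obtain ⟨Cb, hCbn, hCb⟩ := bF_bound hk |C0|
  obtain ⟨Cd, hCdn, hCd⟩ := DerE_Df hk |C0|
  refine ⟨(|C1| * Z1 + (|C0| + Cd * |C0|) * Z0) + (|C1| ^ 2 + |C0| ^ 2 + 2 * Cb * |C0| ^ 2),
    by positivity, fun τ hτ y => ?_⟩
  have hθ := F.θ0
  have hρ : 0 ≤ R * lam τ := mul_nonneg F.R0 (hθ.le.trans (F.lo τ hτ))
  obtain ⟨ho, hw⟩ := om_bd (B := B) (ρ := R * lam τ) (θ := θ / 2) hB hρ (by linarith) y
  have e2 : (2 : ℝ) * (θ / 2) = θ := by ring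
  rw [e2] at hw
  have hbp : 0 < bd (R * lam τ + θ / 2) (θ / 2) y := bd_pos _ _ _
  have hb2 : bd (R * lam τ + θ) θ y ≤ bd (R * lam τ + θ / 2) (θ / 2) y :=
    bd_anti (by linarith) (by linarith) y
  have hb1 : bd (R * lam τ + θ) θ y ≤ 1 := bd_le_one (by linarith) hθ.le y
  have h00 : |ε τ y| ≤ |C0| * bd (R * lam τ + θ) θ y := by
    have := hC0 τ hτ y
    rw [iteratedDeriv_zero] at this
    exact this.trans (mul_le_mul_of_nonneg_right (le_abs_self _) (bd_pos _ _ _).le)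
  have h0 : |ε τ y| ≤ |C0| * bd (R * lam τ + θ / 2) (θ / 2) y :=
    h00.trans (mul_le_mul_of_nonneg_left hb2 (abs_nonneg _))
  have h1 : |deriv (ε τ) y| ≤ |C1| * bd (R * lam τ + θ / 2) (θ / 2) y := by
    have := hC1 τ hτ y
    rw [iteratedDeriv_one] at this
    exact (this.trans (mul_le_mul_of_nonneg_right (le_abs_self _) (bd_pos _ _ _).le)).trans
      (mul_le_mul_of_nonneg_left hb2 (abs_nonneg _))
  have hz0 : |zeta k (b τ) (m τ) (lam τ) (ε τ) (e τ) y| ≤ Z0 * bd (R * lam τ + θ / 2) (θ / 2) y := by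
    have := hZ0 τ hτ y
    rwa [iteratedDeriv_zero] at this
  have hz1 : |deriv (zeta k (b τ) (m τ) (lam τ) (ε τ) (e τ)) y| ≤
      Z1 * bd (R * lam τ + θ / 2) (θ / 2) y := by
    have := hZ1 τ hτ y
    rwa [iteratedDeriv_one] at this
  have hle : |ε τ y| ≤ |C0| := by
    have := mul_le_mul_of_nonneg_left hb1 (abs_nonneg C0)
    linarith
  have hA := DerE_ptA ho.le (abs_nonneg C0) (abs_nonneg C1) hZ0n hZ1n hCdn h0 h1 hz0 hz1
    (hCd (ε τ) y hle) hw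
  have hG := DerE_ptG ho.le (abs_nonneg C0) (abs_nonneg C1) hCbn h0 h1 (hCb (ε τ) y hle) hw
  have hbθ : 0 < bd θ θ y := bd_pos _ _ _
  constructor
  · refine hA.trans (mul_le_mul_of_nonneg_right ?_ hbθ.le)
    have : 0 ≤ |C1| ^ 2 + |C0| ^ 2 + 2 * Cb * |C0| ^ 2 := by positivity
    linarith
  · refine hG.trans (mul_le_mul_of_nonneg_right ?_ hbθ.le)
    have : 0 ≤ |C1| * Z1 + (|C0| + Cd * |C0|) * Z0 := by positivity
    linarith

theorem DerE_om_cont (B ρ : ℝ) : Continuous (om B ρ) := by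
  unfold om Th
  have h : ∀ y : ℝ, 1 + Real.exp (-y / B) ≠ 0 := fun y => by positivity
  fun_prop (disch := exact h _)

theorem DerE_Qcont {k : ℕ} (hk : 1 ≤ k) : Continuous (Qf k) := (qbas_smooth hk).continuous

theorem DerE_contG {k : ℕ} (hk : 1 ≤ k) (B R : ℝ) (lam : ℝ → ℝ) (ε : ℝ → ℝ → ℝ) (τ : ℝ)
    (hε : ContDiff ℝ ∞ (ε τ)) : Continuous (DerE_G k B R lam ε τ) := by
  have h1 := DerE_om_cont B (R * lam τ)
  have h2 : Continuous (ε τ) := hε.continuous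
  have h3 : Continuous (deriv (ε τ)) := hε.continuous_deriv (by simp)
  have h4 := DerE_Qcont hk
  have h5 : Continuous fun y => bF k (ε τ) y := by
    unfold bF Fl fl
    fun_prop
  unfold DerE_G
  fun_prop

theorem DerE_contA {k : ℕ} (hk : 1 ≤ k) (B R : ℝ) (lam b m : ℝ → ℝ) (ε e : ℝ → ℝ → ℝ) (τ : ℝ)
    (hε : ContDiff ℝ ∞ (ε τ)) (he : ContDiff ℝ ∞ (e τ)) :
    Continuous (DerE_A k B R lam b m ε e τ) := by
  have h1 := DerE_om_cont B (R * lam τ)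
  have h2 : Continuous (ε τ) := hε.continuous
  have h3 : Continuous (deriv (ε τ)) := hε.continuous_deriv (by simp)
  have h4 := DerE_Qcont hk
  have h5 : Continuous fun y => Df k (ε τ) y := by
    unfold Df fl
    fun_prop
  have hz := zeta_smooth hk (b τ) (m τ) (lam τ) hε he
  have h6 : Continuous (zeta k (b τ) (m τ) (lam τ) (ε τ) (e τ)) := hz.continuous
  have h7 : Continuous (deriv (zeta k (b τ) (m τ) (lam τ) (ε τ) (e τ))) :=
    hz.continuous_deriv (by simp)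
  unfold DerE_A
  fun_prop

theorem DerE_diff {k : ℕ} {R θ : ℝ} {J : Set ℝ} {lam b m : ℝ → ℝ} {ε e : ℝ → ℝ → ℝ}
    (hk : 1 ≤ k) (F : Flow k R θ J lam b m ε e) (B : ℝ) (y τ : ℝ) (hτ : τ ∈ J) :
    HasDerivAt (fun τ => DerE_G k B R lam ε τ y)
      (2 / (lam τ) ^ 3 * (DerE_A k B R lam b m ε e τ y -
        b τ * (R * lam τ) * (y * DerE_G k B R lam ε τ y))) τ := by
  have hl : lam τ ≠ 0 := (F.θ0.trans_le (F.lo τ hτ)).ne'
  have h0 := F.ev 0 τ hτ y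
  have h1 := F.ev 1 τ hτ y
  simp only [iteratedDeriv_zero] at h0
  simp only [iteratedDeriv_one] at h1
  have hlam := F.dl τ hτ
  have hom : HasDerivAt (fun τ => om B (R * lam τ) y)
      (Th B y * (Real.exp (2 * (R * lam τ) * y) * (2 * (R * (-(b τ) / (lam τ) ^ 2)) * y))) τ :=
    ((((hlam.const_mul R).const_mul 2).mul_const y).exp).const_mul (Th B y)
  have hk1 : (k : ℝ) + 1 ≠ 0 := by positivity
  have hk2 : (k : ℝ) + 2 ≠ 0 := by positivity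
  have hbF : HasDerivAt (fun τ => bF k (ε τ) y)
      (Df k (ε τ) y * (zeta k (b τ) (m τ) (lam τ) (ε τ) (e τ) y / (lam τ) ^ 3)) τ := by
    have h2 := (((h0.const_add (Qf k y)).pow (k + 2)).div_const (((k : ℝ) + 1) * ((k : ℝ) + 2)))
    have h3 := (h2.sub_const (Fl k (Qf k y))).sub (h0.const_mul (fl k (Qf k y)))
    refine h3.congr_deriv ?_
    unfold Df fl
    have e1 : k + 2 - 1 = k + 1 := by omega
    rw [e1]
    push_cast
    field_simp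
  have hG := ((h1.pow 2).add (h0.pow 2)).sub (hbF.const_mul 2)
  have h := hom.mul hG
  refine h.congr_deriv ?_
  simp only [Pi.add_apply, Pi.sub_apply, Pi.pow_apply]
  unfold DerE_A DerE_G om
  field_simp
  ring

theorem der_E {k : ℕ} {R θ : ℝ} {J : Set ℝ} {lam b m : ℝ → ℝ} {ε e : ℝ → ℝ → ℝ}
    (hk : 1 ≤ k) (F : Flow k R θ J lam b m ε e) {B : ℝ} (hB : 0 < B) {t : ℝ} (ht : t ∈ J) :
    HasDerivAt (fun τ => Ef k B (R * lam τ) (ε τ))
      (DE k B (R * lam t) (b t) (ε t) (zeta k (b t) (m t) (lam t) (ε t) (e t)) / (lam t) ^ 3) t := by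
  obtain ⟨K, hK, hKb⟩ := DerE_bounds hk F hB
  obtain ⟨Cbm, hCbm⟩ := F.bm
  have hθ := F.θ0
  obtain ⟨Cp, hCp, hpoly⟩ := bd_poly 1 (p := θ) (p' := θ / 2) (q := θ) (q' := θ / 2)
    (by linarith) (by linarith)
  have hKint : Integrable (fun y => K * bd θ θ y) := (bd_int hθ hθ).const_mul K
  have hpoly' : ∀ y, |y| * bd θ θ y ≤ Cp * bd (θ / 2) (θ / 2) y := by
    intro y
    have h1 := hpoly y
    have h2 := bd_pos θ θ y
    rw [pow_one] at h1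
    nlinarith
  have hcG : ∀ τ ∈ J, Continuous (DerE_G k B R lam ε τ) := fun τ hτ =>
    DerE_contG hk B R lam ε τ (F.sm τ hτ)
  have hcA : ∀ τ ∈ J, Continuous (DerE_A k B R lam b m ε e τ) := fun τ hτ =>
    DerE_contA hk B R lam b m ε e τ (F.sm τ hτ) (F.se τ hτ)
  have hiG : Integrable (DerE_G k B R lam ε t) := by
    refine hKint.mono' (hcG t ht).aestronglyMeasurable (Eventually.of_forall fun y => ?_)
    exact (hKb t ht y).2
  have hiA : Integrable (DerE_A k B R lam b m ε e t) := by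
    refine hKint.mono' (hcA t ht).aestronglyMeasurable (Eventually.of_forall fun y => ?_)
    exact (hKb t ht y).1
  have hyG : ∀ τ ∈ J, ∀ y, |y * DerE_G k B R lam ε τ y| ≤ K * Cp * bd (θ / 2) (θ / 2) y := by
    intro τ hτ y
    rw [abs_mul]
    have h1 := mul_le_mul_of_nonneg_left (hKb τ hτ y).2 (abs_nonneg y)
    have h2 := mul_le_mul_of_nonneg_left (hpoly' y) hK
    nlinarith
  have hint2 : Integrable (bd (θ / 2) (θ / 2)) := bd_int (by linarith) (by linarith)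
  have hiyG : Integrable (fun y => y * DerE_G k B R lam ε t y) := by
    refine (hint2.const_mul (K * Cp)).mono'
      (continuous_id.mul (hcG t ht)).aestronglyMeasurable (Eventually.of_forall fun y => ?_)
    exact hyG t ht y
  have main := hasDerivAt_integral_of_dominated_loc_of_deriv_le (μ := volume) (x₀ := t) (s := J)
    (F := fun τ y => DerE_G k B R lam ε τ y)
    (F' := fun τ y => 2 / (lam τ) ^ 3 * (DerE_A k B R lam b m ε e τ y -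
        b τ * (R * lam τ) * (y * DerE_G k B R lam ε τ y)))
    (bound := fun y => 2 / θ ^ 3 * (K + |Cbm| * (1 / 2) * (K * Cp)) * bd (θ / 2) (θ / 2) y)
    (F.op.mem_nhds ht) ?_ hiG ?_ ?_ ?_ ?_
  · have h2 := main.2.const_mul (1 / 2)
    have e1 : (fun τ => Ef k B (R * lam τ) (ε τ)) =
        fun τ => 1 / 2 * ∫ y, DerE_G k B R lam ε τ y := rfl
    rw [e1]
    refine h2.congr_deriv ?_
    rw [integral_const_mul, integral_sub hiA (hiyG.const_mul _), integral_const_mul]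
    unfold DE
    have e2 : (∫ y, y * om B (R * lam t) y * ((deriv (ε t) y) ^ 2 + (ε t y) ^ 2 -
        2 * bF k (ε t) y)) = ∫ y, y * DerE_G k B R lam ε t y := by
      refine integral_congr_ae (Eventually.of_forall fun y => ?_)
      simp only [DerE_G]
      ring
    rw [e2]
    have e3 : (∫ y, om B (R * lam t) y * (deriv (ε t) y *
        deriv (zeta k (b t) (m t) (lam t) (ε t) (e t)) y +
        (ε t y - Df k (ε t) y) * zeta k (b t) (m t) (lam t) (ε t) (e t) y)) =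
        ∫ y, DerE_A k B R lam b m ε e t y := rfl
    rw [e3]
    ring
  · filter_upwards [F.op.mem_nhds ht] with τ hτ
    exact (hcG τ hτ).aestronglyMeasurable
  · have h1 := hcA t ht
    have h2 := hcG t ht
    have h3 : Continuous (fun y => 2 / (lam t) ^ 3 * (DerE_A k B R lam b m ε e t y -
        b t * (R * lam t) * (y * DerE_G k B R lam ε t y))) := by fun_prop
    exact h3.aestronglyMeasurable
  · refine Eventually.of_forall fun y τ hτ => ?_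
    have hl := F.lo τ hτ
    have hl0 : 0 < lam τ := hθ.trans_le hl
    have hl3 : 2 / (lam τ) ^ 3 ≤ 2 / θ ^ 3 := by
      refine div_le_div_of_nonneg_left (by norm_num) (by positivity) ?_
      exact pow_le_pow_left₀ hθ.le hl 3
    have hρ0 : 0 ≤ R * lam τ := mul_nonneg F.R0 hl0.le
    have hρ1 : R * lam τ ≤ 1 / 2 := by linarith [F.hr τ hτ]
    have hb := (hCbm τ hτ).1.trans (le_abs_self Cbm)
    have hbd1 : bd θ θ y ≤ bd (θ / 2) (θ / 2) y := bd_anti (by linarith) (by linarith) y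
    have hA := (hKb τ hτ y).1.trans (mul_le_mul_of_nonneg_left hbd1 hK)
    have hG := hyG τ hτ y
    have hbr : |b τ * (R * lam τ)| ≤ |Cbm| * (1 / 2) := by
      rw [abs_mul, abs_of_nonneg hρ0]
      exact mul_le_mul hb hρ1 hρ0 (abs_nonneg _)
    have h5 : |b τ * (R * lam τ) * (y * DerE_G k B R lam ε τ y)| ≤
        |Cbm| * (1 / 2) * (K * Cp * bd (θ / 2) (θ / 2) y) := by
      rw [abs_mul]
      exact mul_le_mul hbr hG (abs_nonneg _) (by positivity)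
    have h6 := abs_sub (DerE_A k B R lam b m ε e τ y)
      (b τ * (R * lam τ) * (y * DerE_G k B R lam ε τ y))
    rw [Real.norm_eq_abs, abs_mul, abs_of_pos (by positivity : (0 : ℝ) < 2 / (lam τ) ^ 3)]
    have h7 : |DerE_A k B R lam b m ε e τ y - b τ * (R * lam τ) * (y * DerE_G k B R lam ε τ y)| ≤
        (K + |Cbm| * (1 / 2) * (K * Cp)) * bd (θ / 2) (θ / 2) y := by
      linarith
    calc 2 / (lam τ) ^ 3 * |DerE_A k B R lam b m ε e τ y -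
          b τ * (R * lam τ) * (y * DerE_G k B R lam ε τ y)|
        ≤ 2 / θ ^ 3 * ((K + |Cbm| * (1 / 2) * (K * Cp)) * bd (θ / 2) (θ / 2) y) :=
          mul_le_mul hl3 h7 (abs_nonneg _) (by positivity)
      _ = _ := by ring
  · exact hint2.const_mul _
  · exact Eventually.of_forall fun y τ hτ => DerE_diff hk F B y τ hτ

end H72KB
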