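import Pool.Agent.H72.KB.ZB

/-!
# Row DerI: time derivatives of pairings and of `Xn` along a `Flow`

Proof.  `hasDerivAt_integral_of_dominated_loc_of_deriv_le` at `t ∈ J` on a ball contained in the open set `J`:
derivative of the integrand `ε τ y * φ y` in `τ` is `zeta y / lam³ * φ y` (`F.ev 0`), bounded by
`C C' θ^{-3} bd (θ/2) (θ/2) y` for all `τ ∈ J` (`zeta_bound 0`, `lam ≥ θ`, `R lam ≥ 0`), integrable (`bd_int`).
For `Xn`: integrand `(iteratedDeriv 1 (ε τ) y)²`, derivative `2 ε' ζ' / lam³` (`F.ev 1`, `zeta_bound 1`).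
(`iteratedDeriv 0 f = f`, `iteratedDeriv 1 f = deriv f`.)
-/

open MeasureTheory Filter Topology Set
open scoped ContDiff

namespace H72KB

open H98KB

theorem deri_z {k : ℕ} {R θ : ℝ} {J : Set ℝ} {lam b m : ℝ → ℝ} {ε e : ℝ → ℝ → ℝ}
    (hk : 1 ≤ k) (F : Flow k R θ J lam b m ε e) (j : ℕ) : ∃ Z : ℝ, 0 ≤ Z ∧ ∀ t ∈ J, ∀ y,
      |iteratedDeriv j (zeta k (b t) (m t) (lam t) (ε t) (e t)) y / (lam t) ^ 3| ≤
        Z * bd (θ / 2) (θ / 2) y := by
  obtain ⟨Z, hZ0, hZ⟩ := zeta_bound hk F j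
  have hθ := F.θ0
  refine ⟨Z / θ ^ 3, by positivity, fun t ht y => ?_⟩
  have h1 := hZ t ht y
  have hl := F.lo t ht
  have hR := F.R0
  have hRl : 0 ≤ R * lam t := mul_nonneg hR (by linarith)
  have h2 : bd (R * lam t + θ / 2) (θ / 2) y ≤ bd (θ / 2) (θ / 2) y :=
    bd_anti (by linarith) le_rfl y
  have h3 : |iteratedDeriv j (zeta k (b t) (m t) (lam t) (ε t) (e t)) y| ≤
      Z * bd (θ / 2) (θ / 2) y := h1.trans (mul_le_mul_of_nonneg_left h2 hZ0)
  have hl0 : 0 < lam t := by linarith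
  have h4 : θ ^ 3 ≤ (lam t) ^ 3 := pow_le_pow_left₀ hθ.le hl 3
  rw [abs_div, abs_of_pos (pow_pos hl0 3)]
  have h5 : Z / θ ^ 3 * bd (θ / 2) (θ / 2) y = (Z * bd (θ / 2) (θ / 2) y) / θ ^ 3 := by ring
  rw [h5]
  exact div_le_div₀ (mul_nonneg hZ0 (bd_pos _ _ y).le) h3 (pow_pos hθ 3) h4

theorem deri_e {k : ℕ} {R θ : ℝ} {J : Set ℝ} {lam b m : ℝ → ℝ} {ε e : ℝ → ℝ → ℝ}
    (F : Flow k R θ J lam b m ε e) (j : ℕ) : ∃ D : ℝ, 0 ≤ D ∧ ∀ t ∈ J, ∀ y,
      |iteratedDeriv j (ε t) y| ≤ D * bd (θ / 2) (θ / 2) y ∧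
      |iteratedDeriv j (ε t) y| ≤ D := by
  obtain ⟨D, hD⟩ := F.bd j
  have hθ := F.θ0
  refine ⟨|D|, abs_nonneg D, fun t ht y => ?_⟩
  have hl := F.lo t ht
  have hRl : 0 ≤ R * lam t := mul_nonneg F.R0 (by linarith)
  have h1 := hD t ht y
  have h2 : |iteratedDeriv j (ε t) y| ≤ |D| * bd (R * lam t + θ) θ y :=
    h1.trans (mul_le_mul_of_nonneg_right (le_abs_self D) (bd_pos _ _ y).le)
  refine ⟨h2.trans (mul_le_mul_of_nonneg_left (bd_anti (by linarith) (by linarith) y)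
    (abs_nonneg D)), h2.trans ?_⟩
  have h3 := mul_le_mul_of_nonneg_left
    (bd_le_one (p := R * lam t + θ) (q := θ) (by linarith) hθ.le y) (abs_nonneg D)
  simpa using h3

theorem der_I {k : ℕ} {R θ : ℝ} {J : Set ℝ} {lam b m : ℝ → ℝ} {ε e : ℝ → ℝ → ℝ}
    (hk : 1 ≤ k) (F : Flow k R θ J lam b m ε e) (φ : ℝ → ℝ) (hφ : Continuous φ) (C : ℝ)
    (hC : ∀ y, |φ y| ≤ C) {t : ℝ} (ht : t ∈ J) :
    HasDerivAt (fun τ => ip (ε τ) φ)
      (ip (zeta k (b t) (m t) (lam t) (ε t) (e t)) φ / (lam t) ^ 3) t := by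
  have hJ : J ∈ 𝓝 t := F.op.mem_nhds ht
  obtain ⟨Z, hZ0, hZ⟩ := deri_z hk F 0
  obtain ⟨D, hD0, hD⟩ := deri_e F 0
  simp only [iteratedDeriv_zero] at hZ hD
  have hC0 : 0 ≤ C := (abs_nonneg _).trans (hC 0)
  have hθ := F.θ0
  have hbi : Integrable (bd (θ / 2) (θ / 2)) := bd_int (by linarith) (by linarith)
  have hmeas : ∀ τ ∈ J, AEStronglyMeasurable (fun y => ε τ y * φ y) volume := fun τ hτ =>
    ((F.sm τ hτ).continuous.mul hφ).aestronglyMeasurable
  have hzc : ∀ τ ∈ J, Continuous (zeta k (b τ) (m τ) (lam τ) (ε τ) (e τ)) := fun τ hτ =>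
    (zeta_smooth hk (b τ) (m τ) (lam τ) (F.sm τ hτ) (F.se τ hτ)).continuous
  have key := hasDerivAt_integral_of_dominated_loc_of_deriv_le (μ := volume) (x₀ := t) (s := J)
    (F := fun τ y => ε τ y * φ y)
    (F' := fun τ y => zeta k (b τ) (m τ) (lam τ) (ε τ) (e τ) y / (lam τ) ^ 3 * φ y)
    (bound := fun y => Z * bd (θ / 2) (θ / 2) y * C) hJ
    (Filter.eventually_of_mem hJ hmeas)
    (Integrable.mono' (g := fun y => D * bd (θ / 2) (θ / 2) y * C)
      ((hbi.const_mul D).mul_const C) (hmeas t ht) (Eventually.of_forall fun y => by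
        rw [Real.norm_eq_abs, abs_mul]
        exact mul_le_mul (hD t ht y).1 (hC y) (abs_nonneg _)
          (mul_nonneg hD0 (bd_pos _ _ y).le)))
    ((((hzc t ht).div_const _).mul hφ).aestronglyMeasurable)
    (Eventually.of_forall fun y τ hτ => by
      rw [Real.norm_eq_abs, abs_mul]
      exact mul_le_mul (hZ τ hτ y) (hC y) (abs_nonneg _) (mul_nonneg hZ0 (bd_pos _ _ y).le))
    ((hbi.const_mul Z).mul_const C)
    (Eventually.of_forall fun y τ hτ => by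
      have h := (F.ev 0 τ hτ y).mul_const (φ y)
      simp only [iteratedDeriv_zero] at h
      exact h)
  have h2 := key.2
  have e1 : (∫ y, zeta k (b t) (m t) (lam t) (ε t) (e t) y / (lam t) ^ 3 * φ y) =
      ip (zeta k (b t) (m t) (lam t) (ε t) (e t)) φ / (lam t) ^ 3 := by
    unfold ip
    rw [← integral_div]
    congr 1
    funext y
    ring
  rw [e1] at h2
  exact h2

theorem der_X {k : ℕ} {R θ : ℝ} {J : Set ℝ} {lam b m : ℝ → ℝ} {ε e : ℝ → ℝ → ℝ}
    (hk : 1 ≤ k) (F : Flow k R θ J lam b m ε e) {t : ℝ} (ht : t ∈ J) :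
    HasDerivAt (fun τ => Xn (ε τ))
      (2 * ip (deriv (ε t)) (deriv (zeta k (b t) (m t) (lam t) (ε t) (e t))) / (lam t) ^ 3) t := by
  have hJ : J ∈ 𝓝 t := F.op.mem_nhds ht
  obtain ⟨Z, hZ0, hZ⟩ := deri_z hk F 1
  obtain ⟨D, hD0, hD⟩ := deri_e F 1
  simp only [iteratedDeriv_one] at hZ hD
  have hθ := F.θ0
  have hbi : Integrable (bd (θ / 2) (θ / 2)) := bd_int (by linarith) (by linarith)
  have hdc : ∀ τ ∈ J, Continuous (deriv (ε τ)) := fun τ hτ => (F.sm τ hτ).continuous_deriv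
    (by simp)
  have hmeas : ∀ τ ∈ J, AEStronglyMeasurable (fun y => (deriv (ε τ) y) ^ 2) volume :=
    fun τ hτ => ((hdc τ hτ).pow 2).aestronglyMeasurable
  have hzc : ∀ τ ∈ J, Continuous (deriv (zeta k (b τ) (m τ) (lam τ) (ε τ) (e τ))) :=
    fun τ hτ => (zeta_smooth hk (b τ) (m τ) (lam τ) (F.sm τ hτ) (F.se τ hτ)).continuous_deriv
      (by simp)
  have key := hasDerivAt_integral_of_dominated_loc_of_deriv_le (μ := volume) (x₀ := t) (s := J)
    (F := fun τ y => (deriv (ε τ) y) ^ 2)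
    (F' := fun τ y => 2 * deriv (ε τ) y *
      (deriv (zeta k (b τ) (m τ) (lam τ) (ε τ) (e τ)) y / (lam τ) ^ 3))
    (bound := fun y => 2 * D * (Z * bd (θ / 2) (θ / 2) y)) hJ
    (Filter.eventually_of_mem hJ hmeas)
    (Integrable.mono' (g := fun y => D * (D * bd (θ / 2) (θ / 2) y))
      ((hbi.const_mul D).const_mul D) (hmeas t ht) (Eventually.of_forall fun y => by
        rw [Real.norm_eq_abs, abs_pow, sq]
        exact mul_le_mul (hD t ht y).2 (hD t ht y).1 (abs_nonneg _) hD0))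
    ((((hdc t ht).const_mul 2).mul ((hzc t ht).div_const _)).aestronglyMeasurable)
    (Eventually.of_forall fun y τ hτ => by
      rw [Real.norm_eq_abs, abs_mul, abs_mul, abs_two]
      exact mul_le_mul (mul_le_mul_of_nonneg_left (hD τ hτ y).2 (by norm_num))
        (hZ τ hτ y) (abs_nonneg _) (by positivity))
    ((hbi.const_mul Z).const_mul (2 * D))
    (Eventually.of_forall fun y τ hτ => by
      have h := (F.ev 1 τ hτ y).pow 2
      simp only [iteratedDeriv_one] at h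
      refine h.congr_deriv ?_
      norm_num)
  have h2 := key.2
  have e1 : (∫ y, 2 * deriv (ε t) y *
      (deriv (zeta k (b t) (m t) (lam t) (ε t) (e t)) y / (lam t) ^ 3)) =
      2 * ip (deriv (ε t)) (deriv (zeta k (b t) (m t) (lam t) (ε t) (e t))) / (lam t) ^ 3 := by
    unfold ip
    rw [← integral_const_mul, ← integral_div]
    congr 1
    funext y
    ring
  rw [e1] at h2
  exact h2

end H72KB
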