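import Pool.Agent.H72.KB.ZB
import Pool.Agent.H72.KB.ConV

/-!
# Row DerV: time derivative of the virial functional along a `Flow`

Proof.  First for fixed `y`: `vf k δ (ε τ) y = ∫ w, κ(w) Lop k (ε τ) (y-w)`; `∂_τ Lop k (ε τ) x = Lop k ζ x / lam³`
(`F.ev 0`, `F.ev 2`, `Lop k f x = -iteratedDeriv 2 f x + f x - Q^k f x`), bounded uniformly for `τ ∈ J` and `κ`
integrable, so `∂_τ vf k δ (ε τ) y = vf k δ ζ y / lam³` (dominated differentiation).
Then `Vf = 1/2 ∫ Psi vf²`: derivative of the integrand `Psi vf(ε) vf(ζ)/lam³`, bounded by `C |Psi|` (`vf_bound`),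
integrable (`Psi_bound`).  Measurability in `y`: `vf_bound` (continuity in `y`), `zeta_smooth`.
-/

open MeasureTheory Filter Topology Set
open scoped ContDiff

namespace H72KB

open H98KB

theorem DerV_bd_le_one {p q : ℝ} (hp : 0 ≤ p) (hq : 0 ≤ q) (y : ℝ) : bd p q y ≤ 1 := by
  unfold bd
  rw [Real.exp_le_one_iff]
  have h1 : 0 ≤ p * max y 0 := mul_nonneg hp (le_max_right _ _)
  have h2 : 0 ≤ q * max (-y) 0 := mul_nonneg hq (le_max_right _ _)
  linarith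

theorem DerV_bd_pos (p q y : ℝ) : 0 < bd p q y := Real.exp_pos _

theorem DerV_it0 (f : ℝ → ℝ) (x : ℝ) : iteratedDeriv 0 f x = f x := by
  rw [iteratedDeriv_zero]

theorem DerV_it2 (f : ℝ → ℝ) (x : ℝ) : iteratedDeriv 2 f x = deriv (deriv f) x := by
  rw [iteratedDeriv_succ, iteratedDeriv_one]

theorem DerV_Lop (k : ℕ) (f : ℝ → ℝ) (x : ℝ) :
    Lop k f x = -iteratedDeriv 2 f x + iteratedDeriv 0 f x - (Qf k x) ^ k * iteratedDeriv 0 f x := by
  rw [DerV_it0, DerV_it2]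
  rfl

theorem DerV_Qpow {k : ℕ} (hk : 1 ≤ k) : ∃ K : ℝ, 0 ≤ K ∧ ∀ y, |(Qf k y) ^ k| ≤ K := by
  refine ⟨((k : ℝ) + 1) * ((k : ℝ) + 2) / 2, by positivity, fun y => ?_⟩
  rw [Q_pow hk y]
  have h := qbas_th_abs k y
  have h2 : (th k y) ^ 2 ≤ 1 := by
    rw [← sq_abs]
    exact pow_le_one₀ (abs_nonneg _) h
  have h0 : 0 ≤ (th k y) ^ 2 := sq_nonneg _
  have hc : 0 < ((k : ℝ) + 1) * ((k : ℝ) + 2) / 2 := qbas_C0 k
  rw [abs_of_nonneg (mul_nonneg hc.le (by linarith))]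
  nlinarith

theorem DerV_Lop_bd {k : ℕ} {K C : ℝ} (hK : ∀ y, |(Qf k y) ^ k| ≤ K) {f : ℝ → ℝ}
    (h0 : ∀ y, |iteratedDeriv 0 f y| ≤ C) (h2 : ∀ y, |iteratedDeriv 2 f y| ≤ C) (x : ℝ) :
    |Lop k f x| ≤ (2 + K) * C := by
  rw [DerV_Lop]
  have a1 := h0 x
  have a2 := h2 x
  have a3 := hK x
  have hC : 0 ≤ C := (abs_nonneg _).trans a1
  have a4 : |(Qf k x) ^ k * iteratedDeriv 0 f x| ≤ K * C := by
    rw [abs_mul]
    exact mul_le_mul a3 a1 (abs_nonneg _) ((abs_nonneg _).trans a3)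
  have e1 := abs_sub (-iteratedDeriv 2 f x + iteratedDeriv 0 f x) ((Qf k x) ^ k * iteratedDeriv 0 f x)
  have e2 := abs_add_le (-iteratedDeriv 2 f x) (iteratedDeriv 0 f x)
  rw [abs_neg] at e2
  nlinarith

theorem DerV_Lop_cont {k : ℕ} (hk : 1 ≤ k) {f : ℝ → ℝ} (hf : ContDiff ℝ ∞ f) :
    Continuous (Lop k f) := by
  have h : Lop k f = fun x => -iteratedDeriv 2 f x + iteratedDeriv 0 f x
      - (Qf k x) ^ k * iteratedDeriv 0 f x := by
    funext x
    exact DerV_Lop k f x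
  rw [h]
  have c2 : Continuous (iteratedDeriv 2 f) := hf.continuous_iteratedDeriv 2 (mod_cast ENat.LEInfty.out)
  have c0 : Continuous (iteratedDeriv 0 f) := hf.continuous_iteratedDeriv 0 (by exact_mod_cast bot_le)
  have cQ : Continuous (Qf k) := (qbas_smooth hk).continuous
  exact (c2.neg.add c0).sub ((cQ.pow k).mul c0)

/-- the kernel of `Sm` -/
noncomputable def DerV_ka (δ z : ℝ) : ℝ := Real.exp (-|z| / √δ) / (2 * √δ)

theorem DerV_ka_cont (δ : ℝ) : Continuous (DerV_ka δ) := by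
  unfold DerV_ka
  exact ((Real.continuous_exp.comp ((continuous_abs.neg).div_const _)).div_const _)

theorem DerV_ka_nn {δ : ℝ} (z : ℝ) : 0 ≤ DerV_ka δ z := by
  unfold DerV_ka
  exact div_nonneg (Real.exp_pos _).le (mul_nonneg (by norm_num) (Real.sqrt_nonneg _))

theorem DerV_exp_int {c : ℝ} (hc : 0 < c) : Integrable (fun y : ℝ => Real.exp (-c * |y|)) := by
  have h1 : IntegrableOn (fun y : ℝ => Real.exp (-c * |y|)) (Ioi 0) := by
    have h := (integrableOn_exp_mul_Ioi (neg_lt_zero.mpr hc) 0)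
    refine h.congr_fun (fun y hy => ?_) measurableSet_Ioi
    simp only
    rw [abs_of_pos hy]
  have h2 : IntegrableOn (fun y : ℝ => Real.exp (-c * |y|)) (Iic 0) := by
    have h := (integrableOn_exp_mul_Iic hc 0)
    refine h.congr_fun (fun y hy => ?_) measurableSet_Iic
    simp only
    rw [abs_of_nonpos hy]
    congr 1
    ring
  have h3 := h2.union h1
  rw [Iic_union_Ioi] at h3
  exact integrableOn_univ.mp h3

theorem DerV_ka_int {δ : ℝ} (hδ : 0 < δ) : Integrable (DerV_ka δ) := by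
  have hs : 0 < √δ := Real.sqrt_pos.mpr hδ
  have h := (DerV_exp_int (c := 1 / √δ) (by positivity)).div_const (2 * √δ)
  have e : DerV_ka δ = fun z : ℝ => Real.exp (-(1 / √δ) * |z|) / (2 * √δ) := by
    funext z
    unfold DerV_ka
    congr 2
    ring
  rw [e]
  exact h

theorem DerV_flow_bd {k : ℕ} {R θ : ℝ} {J : Set ℝ} {lam b m : ℝ → ℝ} {ε e : ℝ → ℝ → ℝ}
    (hk : 1 ≤ k) (F : Flow k R θ J lam b m ε e) : ∃ C : ℝ, 0 ≤ C ∧ ∀ t ∈ J, ∀ y,
      |iteratedDeriv 0 (ε t) y| ≤ C ∧ |iteratedDeriv 2 (ε t) y| ≤ C ∧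
      |iteratedDeriv 0 (zeta k (b t) (m t) (lam t) (ε t) (e t)) y| ≤ C ∧
      |iteratedDeriv 2 (zeta k (b t) (m t) (lam t) (ε t) (e t)) y| ≤ C := by
  obtain ⟨A0, hA0⟩ := F.bd 0
  obtain ⟨A2, hA2⟩ := F.bd 2
  obtain ⟨B0, hB0, hB0'⟩ := zeta_bound hk F 0
  obtain ⟨B2, hB2, hB2'⟩ := zeta_bound hk F 2
  have hθ := F.θ0
  have key : ∀ (A p q y v : ℝ), 0 ≤ p → 0 ≤ q → |v| ≤ A * bd p q y → |v| ≤ |A| := by
    intro A p q y v hp hq h
    have h1 := DerV_bd_le_one hp hq y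
    have h2 := DerV_bd_pos p q y
    calc |v| ≤ A * bd p q y := h
      _ ≤ |A| * bd p q y := mul_le_mul_of_nonneg_right (le_abs_self A) h2.le
      _ ≤ |A| * 1 := mul_le_mul_of_nonneg_left h1 (abs_nonneg _)
      _ = |A| := mul_one _
  refine ⟨|A0| + |A2| + |B0| + |B2|, by positivity, fun t ht y => ?_⟩
  have hl : 0 ≤ lam t := hθ.le.trans (F.lo t ht)
  have hR : 0 ≤ R * lam t := mul_nonneg F.R0 hl
  have n1 := abs_nonneg A0
  have n2 := abs_nonneg A2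
  have n3 := abs_nonneg B0
  have n4 := abs_nonneg B2
  refine ⟨?_, ?_, ?_, ?_⟩
  · have := key _ _ _ _ _ (by linarith) hθ.le (hA0 t ht y)
    linarith
  · have := key _ _ _ _ _ (by linarith) hθ.le (hA2 t ht y)
    linarith
  · have := key _ _ _ _ _ (by linarith) (by linarith) (hB0' t ht y)
    linarith
  · have := key _ _ _ _ _ (by linarith) (by linarith) (hB2' t ht y)
    linarith

theorem DerV_Lop_der {k : ℕ} {R θ : ℝ} {J : Set ℝ} {lam b m : ℝ → ℝ} {ε e : ℝ → ℝ → ℝ}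
    (F : Flow k R θ J lam b m ε e) {t : ℝ} (ht : t ∈ J) (x : ℝ) :
    HasDerivAt (fun τ => Lop k (ε τ) x)
      (Lop k (zeta k (b t) (m t) (lam t) (ε t) (e t)) x / (lam t) ^ 3) t := by
  have h0 := F.ev 0 t ht x
  have h2 := F.ev 2 t ht x
  have h := (h2.neg.add h0).sub (h0.const_mul ((Qf k x) ^ k))
  have e1 : (fun τ => Lop k (ε τ) x) = fun τ => -iteratedDeriv 2 (ε τ) x + iteratedDeriv 0 (ε τ) x
      - (Qf k x) ^ k * iteratedDeriv 0 (ε τ) x := by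
    funext τ
    exact DerV_Lop k (ε τ) x
  rw [e1, DerV_Lop]
  refine h.congr_deriv ?_
  ring

theorem DerV_vf_der {k : ℕ} {R θ : ℝ} {J : Set ℝ} {lam b m : ℝ → ℝ} {ε e : ℝ → ℝ → ℝ}
    (hk : 1 ≤ k) (F : Flow k R θ J lam b m ε e) {δ : ℝ} (hδ : 0 < δ) {t : ℝ} (ht : t ∈ J) (y : ℝ) :
    HasDerivAt (fun τ => vf k δ (ε τ) y)
      (vf k δ (zeta k (b t) (m t) (lam t) (ε t) (e t)) y / (lam t) ^ 3) t := by
  obtain ⟨K, hK0, hK⟩ := DerV_Qpow hk
  obtain ⟨C, hC0, hC⟩ := DerV_flow_bd hk F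
  have hθ := F.θ0
  have hJ : J ∈ 𝓝 t := F.op.mem_nhds ht
  have hLc : ∀ τ ∈ J, Continuous (fun z => DerV_ka δ z * Lop k (ε τ) (y - z)) := fun τ hτ =>
    (DerV_ka_cont δ).mul ((DerV_Lop_cont hk (F.sm τ hτ)).comp (continuous_const.sub continuous_id))
  have hZc : ∀ τ ∈ J, Continuous (fun z => DerV_ka δ z *
      (Lop k (zeta k (b τ) (m τ) (lam τ) (ε τ) (e τ)) (y - z) / (lam τ) ^ 3)) := fun τ hτ =>
    (DerV_ka_cont δ).mul (((DerV_Lop_cont hk (zeta_smooth hk _ _ _ (F.sm τ hτ) (F.se τ hτ))).comp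
      (continuous_const.sub continuous_id)).div_const _)
  have hLb : ∀ τ ∈ J, ∀ x, |Lop k (ε τ) x| ≤ (2 + K) * C := fun τ hτ x =>
    DerV_Lop_bd hK (fun y => (hC τ hτ y).1) (fun y => (hC τ hτ y).2.1) x
  have hZb : ∀ τ ∈ J, ∀ x, |Lop k (zeta k (b τ) (m τ) (lam τ) (ε τ) (e τ)) x| ≤ (2 + K) * C :=
    fun τ hτ x => DerV_Lop_bd hK (fun y => (hC τ hτ y).2.2.1) (fun y => (hC τ hτ y).2.2.2) x
  have hM : 0 ≤ (2 + K) * C := by positivity
  have hlam3 : ∀ τ ∈ J, θ ^ 3 ≤ (lam τ) ^ 3 := fun τ hτ => pow_le_pow_left₀ hθ.le (F.lo τ hτ) 3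
  have hθ3 : 0 < θ ^ 3 := by positivity
  have hmain := hasDerivAt_integral_of_dominated_loc_of_deriv_le (μ := volume) (x₀ := t) (s := J)
    (F := fun τ z => DerV_ka δ z * Lop k (ε τ) (y - z))
    (F' := fun τ z => DerV_ka δ z *
      (Lop k (zeta k (b τ) (m τ) (lam τ) (ε τ) (e τ)) (y - z) / (lam τ) ^ 3))
    (bound := fun z => DerV_ka δ z * ((2 + K) * C / θ ^ 3)) hJ
    (by
      filter_upwards [hJ] with τ hτ
      exact (hLc τ hτ).aestronglyMeasurable)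
    (by
      refine ((DerV_ka_int hδ).mul_const ((2 + K) * C)).mono' (hLc t ht).aestronglyMeasurable ?_
      refine Eventually.of_forall fun z => ?_
      rw [Real.norm_eq_abs, abs_mul, abs_of_nonneg (DerV_ka_nn z)]
      exact mul_le_mul_of_nonneg_left (hLb t ht _) (DerV_ka_nn z))
    (hZc t ht).aestronglyMeasurable
    (by
      refine Eventually.of_forall fun z τ hτ => ?_
      rw [Real.norm_eq_abs, abs_mul, abs_of_nonneg (DerV_ka_nn z)]
      refine mul_le_mul_of_nonneg_left ?_ (DerV_ka_nn z)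
      have hp : 0 < (lam τ) ^ 3 := lt_of_lt_of_le hθ3 (hlam3 τ hτ)
      rw [abs_div, abs_of_pos hp]
      exact div_le_div₀ hM (hZb τ hτ _) hθ3 (hlam3 τ hτ))
    ((DerV_ka_int hδ).mul_const _)
    (by
      refine Eventually.of_forall fun z τ hτ => ?_
      exact (DerV_Lop_der F hτ (y - z)).const_mul (DerV_ka δ z))
  have h2 := hmain.2
  have e1 : (fun τ => vf k δ (ε τ) y) = fun τ => ∫ z, DerV_ka δ z * Lop k (ε τ) (y - z) := by
    funext τ
    rfl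
  have e2 : (∫ z, DerV_ka δ z *
      (Lop k (zeta k (b t) (m t) (lam t) (ε t) (e t)) (y - z) / (lam t) ^ 3)) =
      vf k δ (zeta k (b t) (m t) (lam t) (ε t) (e t)) y / (lam t) ^ 3 := by
    have e3 : vf k δ (zeta k (b t) (m t) (lam t) (ε t) (e t)) y = ∫ z, DerV_ka δ z *
        Lop k (zeta k (b t) (m t) (lam t) (ε t) (e t)) (y - z) := rfl
    rw [e3, ← integral_div]
    refine integral_congr_ae (Eventually.of_forall fun z => ?_)
    simp only
    ring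
  rw [e1, ← e2]
  exact h2

theorem der_V {k : ℕ} {R θ : ℝ} {J : Set ℝ} {lam b m : ℝ → ℝ} {ε e : ℝ → ℝ → ℝ}
    (hk : 1 ≤ k) (F : Flow k R θ J lam b m ε e) {B δ : ℝ} (hB : 0 < B) (hδ : 0 < δ) (η γ : ℝ)
    {t : ℝ} (ht : t ∈ J) :
    HasDerivAt (fun τ => Vf k η γ B δ (ε τ))
      (DV k η γ B δ (ε t) (zeta k (b t) (m t) (lam t) (ε t) (e t)) / (lam t) ^ 3) t := by
  obtain ⟨C, hC0, hC⟩ := DerV_flow_bd hk F
  obtain ⟨C₁, hC1, hv⟩ := vf_bound (δ := δ) hk hδ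
  obtain ⟨hPc, hPi, -⟩ := Psi_bound k η γ hB
  have hθ := F.θ0
  have hJ : J ∈ 𝓝 t := F.op.mem_nhds ht
  have hE : ∀ τ ∈ J, Continuous (vf k δ (ε τ)) ∧ ∀ y, |vf k δ (ε τ) y| ≤ C₁ * C := by
    intro τ hτ
    refine hv C (ε τ) (F.sm τ hτ) (fun y => ?_) (fun y => (hC τ hτ y).2.1)
    have := (hC τ hτ y).1
    rwa [DerV_it0] at this
  have hZ : ∀ τ ∈ J, Continuous (vf k δ (zeta k (b τ) (m τ) (lam τ) (ε τ) (e τ))) ∧
      ∀ y, |vf k δ (zeta k (b τ) (m τ) (lam τ) (ε τ) (e τ)) y| ≤ C₁ * C := by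
    intro τ hτ
    refine hv C _ (zeta_smooth hk _ _ _ (F.sm τ hτ) (F.se τ hτ)) (fun y => ?_)
      (fun y => (hC τ hτ y).2.2.2)
    have := (hC τ hτ y).2.2.1
    rwa [DerV_it0] at this
  have hM : 0 ≤ C₁ * C := mul_nonneg hC1 hC0
  have hlam3 : ∀ τ ∈ J, θ ^ 3 ≤ (lam τ) ^ 3 := fun τ hτ => pow_le_pow_left₀ hθ.le (F.lo τ hτ) 3
  have hθ3 : 0 < θ ^ 3 := by positivity
  have hmain := hasDerivAt_integral_of_dominated_loc_of_deriv_le (μ := volume) (x₀ := t) (s := J)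
    (F := fun τ y => Psi k η γ B y * (vf k δ (ε τ) y) ^ 2)
    (F' := fun τ y => Psi k η γ B y * (2 * vf k δ (ε τ) y *
      (vf k δ (zeta k (b τ) (m τ) (lam τ) (ε τ) (e τ)) y / (lam τ) ^ 3)))
    (bound := fun y => |Psi k η γ B y| * (2 * (C₁ * C) * (C₁ * C / θ ^ 3))) hJ
    (by
      filter_upwards [hJ] with τ hτ
      exact (hPc.mul ((hE τ hτ).1.pow 2)).aestronglyMeasurable)
    (by
      refine (hPi.abs.mul_const ((C₁ * C) ^ 2)).mono'
        (hPc.mul ((hE t ht).1.pow 2)).aestronglyMeasurable ?_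
      refine Eventually.of_forall fun y => ?_
      rw [Real.norm_eq_abs, abs_mul, abs_pow]
      exact mul_le_mul_of_nonneg_left (pow_le_pow_left₀ (abs_nonneg _) ((hE t ht).2 y) 2)
        (abs_nonneg _))
    ((hPc.mul (((hE t ht).1.const_mul 2).mul ((hZ t ht).1.div_const _))).aestronglyMeasurable)
    (by
      refine Eventually.of_forall fun y τ hτ => ?_
      have hp : 0 < (lam τ) ^ 3 := lt_of_lt_of_le hθ3 (hlam3 τ hτ)
      rw [Real.norm_eq_abs, abs_mul, abs_mul, abs_mul, abs_div, abs_of_pos hp, abs_two]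
      refine mul_le_mul_of_nonneg_left ?_ (abs_nonneg _)
      refine mul_le_mul ?_ ?_ (by positivity) (by positivity)
      · exact mul_le_mul_of_nonneg_left ((hE τ hτ).2 y) (by norm_num)
      · exact div_le_div₀ hM ((hZ τ hτ).2 y) hθ3 (hlam3 τ hτ))
    (hPi.abs.mul_const _)
    (by
      refine Eventually.of_forall fun y τ hτ => ?_
      have h := ((DerV_vf_der hk F hδ hτ y).pow 2).const_mul (Psi k η γ B y)
      refine h.congr_deriv ?_
      norm_num)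
  have h2 := hmain.2.const_mul (1 / 2 : ℝ)
  refine h2.congr_deriv ?_
  have e3 : DV k η γ B δ (ε t) (zeta k (b t) (m t) (lam t) (ε t) (e t)) =
      ∫ y, Psi k η γ B y * (vf k δ (ε t) y *
        vf k δ (zeta k (b t) (m t) (lam t) (ε t) (e t)) y) := rfl
  rw [e3, ← integral_div, ← integral_const_mul]
  refine integral_congr_ae (Eventually.of_forall fun y => ?_)
  simp only
  ring

end H72KB
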