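import Pool.Agent.H72.KB.FamR

/-!
# Row FlowR: along a trajectory, near a time where the clips are inactive, `ε` is a `Flow`

Proof.  `t₀ ∈ (0,T)`, `lo < (P a t₀).1 < hi`, `|(P a t₀).2| < X₀`.  By continuity of `P a` (it is differentiable at every
`t ∈ (0,T)` by `hP.ode`) the set `J = {t ∈ (0,T) : lo < (P a t).1 < hi, |(P a t).2| < X₀}` is open and contains `t₀`.
On `J`: `lb lo hi P a t = (P a t).1 =: l(t)`, `xb X₀ P a t = (P a t).2 =: x(t)`, and since `J` is open these equalities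
hold near each `t ∈ J`; so `lb` has derivative `-(ba)/l²` (first component of `VF`, which at such `t` is
`(-(ba)/l², (1+ma)/l²)`), and `x' = (1+ma)/l²`.
`lo, hi, hr, bd, be, sm, se, bm`: as in `fam_epa` (use `fam_epa` for `ε`; for `e` the same computation;
`bm`: `bfn_lip` bound or: `ba`, `ma` are bounded by `VF_props`-type bound: `|ba| ≤ L l² ≤ L`; the simplest is
`‖VF‖ ≤ L` from `VF_props` with `l ≤ 1`: `|b| ≤ L l²`, `|1+m| ≤ L l²`).
`ev`: with `V_j(t,z) = iteratedDeriv j (U a t) z`, `iteratedDeriv j (epa..) y = l^{2/k+j} V_j(t, l y + x) - Q^{(j)}(y)`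
(`iter_Wf`).  CHAIN RULE: `V_j(·,z)` is differentiable at `t` with derivative `(App.evol j)`, `V_j(t,·)` has derivative
`V_{j+1}`, jointly continuous (`UF_jc`); hence `d/dt V_j(t,z(t)) = ∂_t V_j (t,z(t)) + V_{j+1}(t,z(t)) z'(t)` by
 `V_j(t+h,z(t+h)) - V_j(t,z(t)) = [V_j(t+h,z(t+h)) - V_j(t+h,z(t))] + [V_j(t+h,z(t)) - V_j(t,z(t))]`
and the mean value theorem in the first bracket (or: `HasDerivAt` of `s ↦ ∫_{z(t)}^{z(s)} V_{j+1}(s,w) dw`).
So `d/dt [l^{2/k+j} V_j] = (2/k+j) l^{2/k+j-1} l' V_j + l^{2/k+j} (∂_t V_j + V_{j+1} (l' y + x'))`, `l' = -b/l²`,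
`x' = (1+m)/l²`.
On the other side, with `W = Q + ε = Wf k (U a t) l x` and `Q'' = Q - fl k Q` (`Q_ode`), `g = -W'' + W - fl k W`, so
 `zeta = -W''' + W' - (fl k W)' - b Lam W + m W' + l W'' - E'`,  `E = ef k (e a t) l x`,
and `W(y) = l^{2/k} U(ly+x)` gives (as functions of `y`, `z = l y + x`; note `fl k (l^{2/k} u) = l^{2/k+2} fl k u` since
`(l^{2/k})^{k+1} = l^{2/k} l^2`)
 `zeta(y) = l^{2/k+3} (-U_zzz + U_zz - (fl k U)_z - e_z)(z) - b (2/k) l^{2/k} U(z) + l^{2/k+1} U_z(z) (1 + m - b y)`.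
`j`-th derivative in `y`: `iter_comp`-type formula, and `iteratedDeriv j (y G) = y G^{(j)} + j G^{(j-1)}`; compare.
-/

open MeasureTheory Filter Topology Set
open scoped ContDiff

namespace H72KB

open H98KB

/-- inactive clip -/
theorem FlowR_clp {lo hi s : ℝ} (h1 : lo < s) (h2 : s < hi) : clp lo hi s = s := by
  unfold clp
  rw [min_eq_left h2.le, max_eq_right h1.le]

/-- chain rule in two variables with a separate derivative in the first one -/
theorem FlowR_chain {V V' : ℝ → ℝ → ℝ} {z : ℝ → ℝ} {t z' A : ℝ} {J : Set ℝ} (hJ : J ∈ 𝓝 t)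
    (h1 : HasDerivAt (fun τ => V τ (z t)) A t)
    (h2 : ∀ τ ∈ J, ∀ w, HasDerivAt (V τ) (V' τ w) w)
    (h3 : ContinuousAt (fun q : ℝ × ℝ => V' q.1 q.2) (t, z t))
    (hz : HasDerivAt z z' t) :
    HasDerivAt (fun τ => V τ (z τ)) (A + V' t (z t) * z') t := by
  have hlo : (fun τ => V τ (z τ) - V τ (z t) - V' t (z t) * (z τ - z t)) =o[𝓝 t]
      fun τ => z τ - z t := by
    rw [Asymptotics.isLittleO_iff]
    intro c hc
    obtain ⟨δ, hδ, h5⟩ := Metric.continuousAt_iff.1 h3 c hc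
    have h6 : ∀ᶠ τ in 𝓝 t, dist τ t < δ := Metric.ball_mem_nhds _ hδ
    have h7 : ∀ᶠ τ in 𝓝 t, dist (z τ) (z t) < δ :=
      hz.continuousAt.eventually (Metric.ball_mem_nhds _ hδ)
    filter_upwards [hJ, h6, h7] with τ a b c'
    have key : ‖(V τ (z τ) - V' t (z t) * z τ) - (V τ (z t) - V' t (z t) * z t)‖ ≤
        c * ‖z τ - z t‖ := by
      refine (convex_ball (z t) δ).norm_image_sub_le_of_norm_hasDerivWithin_le
        (f := fun w => V τ w - V' t (z t) * w) (f' := fun w => V' τ w - V' t (z t)) (C := c)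
        ?_ ?_ (Metric.mem_ball_self hδ) c'
      · intro w hw
        have h8 := (h2 τ a w).sub ((hasDerivAt_id w).const_mul (V' t (z t)))
        rw [mul_one] at h8
        exact h8.hasDerivWithinAt
      · intro w hw
        have h9 := h5 (x := (τ, w)) (by rw [Prod.dist_eq]; exact max_lt b hw)
        rw [Real.dist_eq] at h9
        exact h9.le
    have e : V τ (z τ) - V τ (z t) - V' t (z t) * (z τ - z t) =
        (V τ (z τ) - V' t (z t) * z τ) - (V τ (z t) - V' t (z t) * z t) := by ring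
    rw [e]
    exact key
  have h8 : HasDerivAt (fun τ => V τ (z τ) - V τ (z t) - V' t (z t) * (z τ - z t)) 0 t := by
    rw [hasDerivAt_iff_isLittleO]
    have h9 := hlo.trans_isBigO hz.isBigO_sub
    refine h9.congr' (Eventually.of_forall fun τ => ?_) EventuallyEq.rfl
    simp
  have h10 := (h8.add h1).add ((hz.sub_const (z t)).const_mul (V' t (z t)))
  refine (h10.congr_deriv (by ring)).congr_of_eventuallyEq (Eventually.of_forall fun τ => ?_)
  simp only [Pi.add_apply]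
  ring

theorem FlowR_dit {u : ℝ → ℝ} (hu : ContDiff ℝ ∞ u) (i : ℕ) (y : ℝ) :
    HasDerivAt (iteratedDeriv i u) (iteratedDeriv (i + 1) u y) y := by
  rw [iteratedDeriv_succ]
  have h1 : ContDiff ℝ (i + 1 : ℕ) u := contDiff_infty.1 hu (i + 1)
  have h2 := h1.differentiable_iteratedDeriv i (by exact_mod_cast Nat.lt_succ_self i)
  exact (h2 y).hasDerivAt

theorem FlowR_ymul {u : ℝ → ℝ} (hu : ContDiff ℝ ∞ u) (j : ℕ) (y : ℝ) :
    iteratedDeriv j (fun y => y * deriv u y) y =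
      y * iteratedDeriv (j + 1) u y + j * iteratedDeriv j u y := by
  induction j generalizing y with
  | zero => simp [iteratedDeriv_one]
  | succ j ih =>
    have e : iteratedDeriv j (fun y => y * deriv u y) =
      fun y => y * iteratedDeriv (j + 1) u y + j * iteratedDeriv j u y := funext ih
    rw [iteratedDeriv_succ, e]
    have h1 := ((hasDerivAt_id y).mul (FlowR_dit hu (j + 1) y)).add
      ((FlowR_dit hu j y).const_mul (j : ℝ))
    refine (h1.deriv).trans ?_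
    simp only [id_eq]
    push_cast
    ring

theorem FlowR_sm {f : ℝ → ℝ} (hf : ContDiff ℝ ∞ f) (l x : ℝ) :
    ContDiff ℝ ∞ (fun y => f (l * y + x)) :=
  hf.comp ((contDiff_const.mul contDiff_fun_id).add contDiff_const)

theorem FlowR_comp1 {f : ℝ → ℝ} (hf : ContDiff ℝ ∞ f) (l x y : ℝ) :
    HasDerivAt (fun y => f (l * y + x)) (l * deriv f (l * y + x)) y := by
  have h1 : HasDerivAt (fun y : ℝ => l * y + x) l y := by
    simpa using ((hasDerivAt_id y).const_mul l).add_const x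
  have h2 : HasDerivAt f (deriv f (l * y + x)) (l * y + x) :=
    ((hf.differentiable (by simp)) _).hasDerivAt
  have h3 := h2.comp y h1
  rw [mul_comm]
  exact h3

theorem FlowR_pow {k : ℕ} (hk : 5 ≤ k) {l : ℝ} (hl : 0 < l) :
    (l ^ (2 / (k : ℝ))) ^ (k + 1) = l ^ (2 / (k : ℝ)) * l ^ 2 := by
  have hk0 : (k : ℝ) ≠ 0 := by
    have : k ≠ 0 := by omega
    exact_mod_cast this
  rw [pow_succ, ← Real.rpow_natCast (l ^ (2 / (k : ℝ))) k, ← Real.rpow_mul hl.le]
  have e : 2 / (k : ℝ) * (k : ℝ) = 2 := by field_simp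
  rw [e, mul_comm]
  norm_num

theorem FlowR_fl {k : ℕ} (hk : 5 ≤ k) {l : ℝ} (hl : 0 < l) (v : ℝ) :
    fl k (l ^ (2 / (k : ℝ)) * v) = l ^ (2 / (k : ℝ)) * l ^ 2 * fl k v := by
  unfold fl
  rw [mul_pow, FlowR_pow hk hl]
  ring

theorem FlowR_fls {k : ℕ} {U : ℝ → ℝ} (hU : ContDiff ℝ ∞ U) :
    ContDiff ℝ ∞ (fun z => fl k (U z)) := by
  unfold fl
  exact (hU.pow (k + 1)).div_const _

/-- the right hand side of the equation for `U` -/
noncomputable def FlowR_H (k : ℕ) (U E : ℝ → ℝ) (z : ℝ) : ℝ :=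
  -iteratedDeriv 3 U z + iteratedDeriv 2 U z - deriv (fun z' => fl k (U z')) z - deriv E z

theorem FlowR_its {u : ℝ → ℝ} (hu : ContDiff ℝ ∞ u) (i : ℕ) :
    ContDiff ℝ ∞ (iteratedDeriv i u) := by
  induction i with
  | zero =>
    rw [iteratedDeriv_zero]
    exact hu
  | succ j ih =>
    rw [iteratedDeriv_succ]
    exact (contDiff_infty_iff_deriv.1 ih).2

theorem FlowR_Hs {k : ℕ} {U E : ℝ → ℝ} (hU : ContDiff ℝ ∞ U) (hE : ContDiff ℝ ∞ E) :
    ContDiff ℝ ∞ (FlowR_H k U E) :=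
  (((FlowR_its hU 3).neg.add (FlowR_its hU 2)).sub
    (contDiff_infty_iff_deriv.1 (FlowR_fls hU)).2).sub (contDiff_infty_iff_deriv.1 hE).2

theorem FlowR_gf {k : ℕ} (hk : 5 ≤ k) {U : ℝ → ℝ} (hU : ContDiff ℝ ∞ U) {l : ℝ} (hl : 0 < l)
    (x : ℝ) : gf k (epf k U l x) = fun y =>
      -(l ^ (2 / (k : ℝ)) * l ^ 2 * iteratedDeriv 2 U (l * y + x))
        + l ^ (2 / (k : ℝ)) * U (l * y + x)
        - l ^ (2 / (k : ℝ)) * l ^ 2 * fl k (U (l * y + x)) := by
  funext y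
  have hk1 : 1 ≤ k := by omega
  have hQ := qbas_smooth hk1
  have hW : ContDiff ℝ ∞ (Wf k U l x) := contDiff_const.mul (FlowR_sm hU l x)
  have e1 : deriv (deriv (epf k U l x)) y =
      l ^ (2 / (k : ℝ)) * l ^ 2 * iteratedDeriv 2 U (l * y + x) -
        (Qf k y - fl k (Qf k y)) := by
    have e2 : deriv (deriv (epf k U l x)) y = iteratedDeriv 2 (epf k U l x) y := by
      rw [iteratedDeriv_succ, iteratedDeriv_one]
    have e3 : iteratedDeriv 2 (Qf k) y = deriv (deriv (Qf k)) y := by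
      rw [iteratedDeriv_succ, iteratedDeriv_one]
    have e4 : iteratedDeriv 2 (epf k U l x) y =
        iteratedDeriv 2 (Wf k U l x) y - iteratedDeriv 2 (Qf k) y :=
      iteratedDeriv_fun_sub (ClB_at hW 2 y) (ClB_at hQ 2 y)
    rw [e2, e4, e3, Q_ode hk1, iter_Wf hU]
  have e5 : Df k (epf k U l x) y = l ^ (2 / (k : ℝ)) * l ^ 2 * fl k (U (l * y + x)) -
      fl k (Qf k y) := by
    unfold Df
    have e6 : Qf k y + epf k U l x y = l ^ (2 / (k : ℝ)) * U (l * y + x) := by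
      unfold epf Wf
      ring
    rw [e6, FlowR_fl hk hl]
  unfold gf
  rw [e1, e5]
  unfold epf Wf
  ring

theorem FlowR_zeta {k : ℕ} (hk : 5 ≤ k) {U E : ℝ → ℝ} (hU : ContDiff ℝ ∞ U)
    (hE : ContDiff ℝ ∞ E) (b m : ℝ) {l : ℝ} (hl : 0 < l) (x : ℝ) :
    zeta k b m l (epf k U l x) (ef k E l x) = fun y =>
      ((l ^ (2 / (k : ℝ)) * l ^ 3) * FlowR_H k U E (l * y + x)
        + ((1 + m) * l ^ (2 / (k : ℝ))) * deriv (fun y => U (l * y + x)) y)
        - ((b * l ^ (2 / (k : ℝ))) * (y * deriv (fun y => U (l * y + x)) y)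
        + (b * (2 / (k : ℝ)) * l ^ (2 / (k : ℝ))) * U (l * y + x)) := by
  funext y
  have hk1 : 1 ≤ k := by omega
  have hQ := qbas_smooth hk1
  have hW : ContDiff ℝ ∞ (Wf k U l x) := contDiff_const.mul (FlowR_sm hU l x)
  have d1 : deriv (fun y => U (l * y + x)) y = l * deriv U (l * y + x) :=
    (FlowR_comp1 hU l x y).deriv
  have d2 : deriv (gf k (epf k U l x)) y =
      -(l ^ (2 / (k : ℝ)) * l ^ 2 * (l * iteratedDeriv 3 U (l * y + x)))
        + l ^ (2 / (k : ℝ)) * (l * deriv U (l * y + x))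
        - l ^ (2 / (k : ℝ)) * l ^ 2 * (l * deriv (fun z' => fl k (U z')) (l * y + x)) := by
    rw [FlowR_gf hk hU hl x]
    have f1 := (FlowR_comp1 (FlowR_its hU 2) l x y).const_mul (l ^ (2 / (k : ℝ)) * l ^ 2)
    have f2 := (FlowR_comp1 hU l x y).const_mul (l ^ (2 / (k : ℝ)))
    have f3 := (FlowR_comp1 (FlowR_fls (k := k) hU) l x y).const_mul
      (l ^ (2 / (k : ℝ)) * l ^ 2)
    have f4 := ((f1.neg.add f2).sub f3).deriv
    refine Eq.trans ?_ (f4.trans ?_)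
    · rfl
    · have f5 : iteratedDeriv 3 U = deriv (iteratedDeriv 2 U) := iteratedDeriv_succ
      rw [f5]
  have hWd : ∀ j : ℕ, iteratedDeriv j (epf k U l x) y =
      l ^ (2 / (k : ℝ)) * l ^ j * iteratedDeriv j U (l * y + x) - iteratedDeriv j (Qf k) y := by
    intro j
    have e4 : iteratedDeriv j (epf k U l x) y =
        iteratedDeriv j (Wf k U l x) y - iteratedDeriv j (Qf k) y :=
      iteratedDeriv_fun_sub (ClB_at hW j y) (ClB_at hQ j y)
    rw [e4, iter_Wf hU]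
  have e0 : epf k U l x y = l ^ (2 / (k : ℝ)) * U (l * y + x) - Qf k y := rfl
  have e1 : deriv (epf k U l x) y = l ^ (2 / (k : ℝ)) * l * deriv U (l * y + x) -
      deriv (Qf k) y := by
    have := hWd 1
    rw [iteratedDeriv_one, iteratedDeriv_one, iteratedDeriv_one, pow_one] at this
    exact this
  have e2 : deriv (deriv (epf k U l x)) y =
      l ^ (2 / (k : ℝ)) * l ^ 2 * iteratedDeriv 2 U (l * y + x) - deriv (deriv (Qf k)) y := by
    have h2 := hWd 2
    have e3 : ∀ f : ℝ → ℝ, iteratedDeriv 2 f = deriv (deriv f) := by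
      intro f
      rw [iteratedDeriv_succ, iteratedDeriv_one]
    rw [e3 (epf k U l x), e3 (Qf k)] at h2
    exact h2
  have e4 : deriv (ef k E l x) y = l ^ 2 * (l ^ (2 / (k : ℝ)) * (l * deriv E (l * y + x))) :=
    (((FlowR_comp1 hE l x y).const_mul (l ^ (2 / (k : ℝ)))).const_mul (l ^ 2)).deriv
  unfold zeta Nf Lam
  rw [d2, e0, e1, e2, e4]
  simp only [d1]
  unfold FlowR_H
  ring

theorem FlowR_zetaj {k : ℕ} (hk : 5 ≤ k) {U E : ℝ → ℝ} (hU : ContDiff ℝ ∞ U)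
    (hE : ContDiff ℝ ∞ E) (b m : ℝ) {l : ℝ} (hl : 0 < l) (x : ℝ) (j : ℕ) (y : ℝ) :
    iteratedDeriv j (zeta k b m l (epf k U l x) (ef k E l x)) y =
      (l ^ (2 / (k : ℝ)) * l ^ 3) * (l ^ j * iteratedDeriv j (FlowR_H k U E) (l * y + x))
        + ((1 + m) * l ^ (2 / (k : ℝ))) * (l ^ (j + 1) * iteratedDeriv (j + 1) U (l * y + x))
        - ((b * l ^ (2 / (k : ℝ))) * (y * (l ^ (j + 1) * iteratedDeriv (j + 1) U (l * y + x))
            + j * (l ^ j * iteratedDeriv j U (l * y + x)))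
        + (b * (2 / (k : ℝ)) * l ^ (2 / (k : ℝ))) *
            (l ^ j * iteratedDeriv j U (l * y + x))) := by
  rw [FlowR_zeta hk hU hE b m hl x]
  have hu := FlowR_sm hU l x
  have hdu : ContDiff ℝ ∞ (deriv (fun y => U (l * y + x))) := (contDiff_infty_iff_deriv.1 hu).2
  have hyd : ContDiff ℝ ∞ (fun y => y * deriv (fun y => U (l * y + x)) y) :=
    contDiff_fun_id.mul hdu
  have hH : ContDiff ℝ ∞ (fun y => FlowR_H k U E (l * y + x)) := FlowR_sm (FlowR_Hs hU hE) l x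
  have s1 : ContDiff ℝ ∞ (fun y => (l ^ (2 / (k : ℝ)) * l ^ 3) * FlowR_H k U E (l * y + x)) :=
    contDiff_const.mul hH
  have s2 : ContDiff ℝ ∞ (fun y => ((1 + m) * l ^ (2 / (k : ℝ))) *
      deriv (fun y => U (l * y + x)) y) := contDiff_const.mul hdu
  have s3 : ContDiff ℝ ∞ (fun y => (b * l ^ (2 / (k : ℝ))) *
      (y * deriv (fun y => U (l * y + x)) y)) := contDiff_const.mul hyd
  have s4 : ContDiff ℝ ∞ (fun y => (b * (2 / (k : ℝ)) * l ^ (2 / (k : ℝ))) *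
      U (l * y + x)) := contDiff_const.mul hu
  rw [iteratedDeriv_fun_sub (ClB_at (s1.add s2) j y) (ClB_at (s3.add s4) j y),
    iteratedDeriv_fun_add (ClB_at s1 j y) (ClB_at s2 j y),
    iteratedDeriv_fun_add (ClB_at s3 j y) (ClB_at s4 j y),
    iteratedDeriv_const_mul_field, iteratedDeriv_const_mul_field,
    iteratedDeriv_const_mul_field, iteratedDeriv_const_mul_field,
    iter_comp (FlowR_Hs hU hE), FlowR_ymul hu, iter_comp hU, iter_comp hU]
  have e1 : iteratedDeriv j (fun y => deriv (fun y => U (l * y + x)) y) y =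
      iteratedDeriv (j + 1) (fun y => U (l * y + x)) y := by
    rw [iteratedDeriv_succ']
  rw [e1, iter_comp hU]

theorem flow_epa {k : ℕ} {T α a₁ l₀ lo hi X₀ R : ℝ} {U e : ℝ → ℝ → ℝ → ℝ} {P : ℝ → ℝ → ℝ × ℝ}
    (hk : 5 ≤ k) (hT : 0 < T) (ha : 0 ≤ a₁) (hR : 1 ≤ R) (hα : α = 4 * R) (hlo : 0 < lo)
    (hlh : lo ≤ hi) (hhi : 16 * R * hi ≤ 1) (hX : 0 ≤ X₀) (h : UF k T α a₁ U e)
    (hP : Traj k T a₁ l₀ lo hi X₀ U e P) (L : ℝ)
    (hL : ∀ a ∈ Icc (-a₁) a₁, ∀ t ∈ Icc 0 T, ∀ P, ‖VF k lo hi X₀ (U a) (e a) t P‖ ≤ L)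
    {a t₀ : ℝ} (haI : a ∈ Icc (-a₁) a₁) (ht₀ : t₀ ∈ Ioo 0 T) (h1 : lo < (P a t₀).1)
    (h2 : (P a t₀).1 < hi) (h3 : |(P a t₀).2| < X₀) :
    ∃ J : Set ℝ, t₀ ∈ J ∧ J ⊆ Ioo 0 T ∧ (∀ t ∈ J, lo < (P a t).1 ∧ (P a t).1 < hi ∧ |(P a t).2| < X₀) ∧
      Flow k R (lo / 16) J (fun t => lb lo hi P a t) (fun t => ba k lo hi X₀ U e P a t)
        (fun t => ma k lo hi X₀ U e P a t) (fun t => epa k lo hi X₀ U P a t)
        (fun t => eaa k lo hi X₀ e P a t) := by
  subst hα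
  have hl16 : hi ≤ 1 / 16 := by nlinarith
  have hα0 : (0 : ℝ) ≤ 4 * R := by linarith
  have hF := fam_epa hk hT ha hR rfl hlo hlh hhi hX h hP
  have happ := h.app a haI
  have hL0 : 0 ≤ L := le_trans (norm_nonneg _) (hL a haI 0 ⟨le_rfl, hT.le⟩ (P a 0))
  have hcl : ∀ t, lb lo hi P a t ≤ hi := fun t => max_le hlh (min_le_right _ _)
  have hcl2 : ∀ t, lo ≤ lb lo hi P a t := fun t => le_max_left _ _
  have hclx : ∀ t, |xb X₀ P a t| ≤ X₀ := by
    intro t
    unfold xb clp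
    rw [abs_le]
    exact ⟨le_max_left _ _, max_le (by linarith) (min_le_right _ _)⟩
  have hP1 : ∀ t ∈ Ioo 0 T, HasDerivAt (fun s => (P a s).1)
      (-(ba k lo hi X₀ U e P a t) / (lb lo hi P a t) ^ 2) t := by
    intro t ht
    exact hasFDerivAt_fst.comp_hasDerivAt t (hP.ode a haI t ht)
  have hP2 : ∀ t ∈ Ioo 0 T, HasDerivAt (fun s => (P a s).2)
      ((1 + ma k lo hi X₀ U e P a t) / (lb lo hi P a t) ^ 2) t := by
    intro t ht
    exact hasFDerivAt_snd.comp_hasDerivAt t (hP.ode a haI t ht)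
  refine ⟨{t | t ∈ Ioo 0 T ∧ (lo < (P a t).1 ∧ (P a t).1 < hi ∧ |(P a t).2| < X₀)},
    ⟨ht₀, h1, h2, h3⟩, fun t ht => ht.1, fun t ht => ht.2, ?_⟩
  have hJo : ∀ t ∈ {t | t ∈ Ioo 0 T ∧ (lo < (P a t).1 ∧ (P a t).1 < hi ∧ |(P a t).2| < X₀)},
      {t | t ∈ Ioo 0 T ∧ (lo < (P a t).1 ∧ (P a t).1 < hi ∧ |(P a t).2| < X₀)} ∈ 𝓝 t := by
    rintro t ⟨ht, g1, g2, g3⟩
    have c1 := (hP1 t ht).continuousAt
    have c2 := (hP2 t ht).continuousAt
    filter_upwards [Ioo_mem_nhds ht.1 ht.2, continuousAt_const.eventually_lt c1 g1,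
      c1.eventually_lt continuousAt_const g2, c2.abs.eventually_lt continuousAt_const g3]
      with s hs a1 a2 a3
    exact ⟨hs, a1, a2, a3⟩
  have hIcc : ∀ t, t ∈ Ioo 0 T → ((a, t) : ℝ × ℝ) ∈ Icc (-a₁) a₁ ×ˢ Icc 0 T :=
    fun t ht => ⟨haI, ht.1.le, ht.2.le⟩
  have hdl : ∀ t ∈ {t | t ∈ Ioo 0 T ∧ (lo < (P a t).1 ∧ (P a t).1 < hi ∧ |(P a t).2| < X₀)},
      HasDerivAt (fun t => lb lo hi P a t)
        (-(ba k lo hi X₀ U e P a t) / (lb lo hi P a t) ^ 2) t := by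
    intro t ht
    refine (hP1 t ht.1).congr_of_eventuallyEq ?_
    filter_upwards [hJo t ht] with s hs
    exact FlowR_clp hs.2.1 hs.2.2.1
  have hdx : ∀ t ∈ {t | t ∈ Ioo 0 T ∧ (lo < (P a t).1 ∧ (P a t).1 < hi ∧ |(P a t).2| < X₀)},
      HasDerivAt (fun t => xb X₀ P a t)
        ((1 + ma k lo hi X₀ U e P a t) / (lb lo hi P a t) ^ 2) t := by
    intro t ht
    refine (hP2 t ht.1).congr_of_eventuallyEq ?_
    filter_upwards [hJo t ht] with s hs
    have h4 := abs_lt.1 hs.2.2.2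
    exact FlowR_clp h4.1 h4.2
  refine ⟨?_, hF.R0, hF.θ0, ?_, ?_, ?_, hdl, ?_, ?_, ?_, ?_, ?_, ?_⟩
  · rw [isOpen_iff_mem_nhds]
    exact hJo
  · intro t ht
    exact hF.lo (a, t) (hIcc t ht.1)
  · intro t ht
    exact hF.hi (a, t) (hIcc t ht.1)
  · intro t ht
    exact hF.hr (a, t) (hIcc t ht.1)
  · refine ⟨L + 1, fun t ht => ?_⟩
    have hv := hL a haI t ⟨ht.1.1.le, ht.1.2.le⟩ (P a t)
    have hl0 : 0 < lb lo hi P a t := lt_of_lt_of_le hlo (hcl2 t)
    have hl1 : lb lo hi P a t ≤ 1 := (hcl t).trans (by linarith)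
    have hl2 : (lb lo hi P a t) ^ 2 ≤ 1 := by nlinarith
    have hl3 : 0 < (lb lo hi P a t) ^ 2 := by positivity
    have v1 : |-(ba k lo hi X₀ U e P a t) / (lb lo hi P a t) ^ 2| ≤ L :=
      (norm_fst_le _).trans hv
    have v2 : |(1 + ma k lo hi X₀ U e P a t) / (lb lo hi P a t) ^ 2| ≤ L :=
      (norm_snd_le _).trans hv
    rw [abs_div, abs_neg, abs_of_pos hl3, div_le_iff₀ hl3] at v1
    rw [abs_div, abs_of_pos hl3, div_le_iff₀ hl3] at v2
    have v3 : L * (lb lo hi P a t) ^ 2 ≤ L := by nlinarith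
    refine ⟨by linarith, ?_⟩
    have v4 : |ma k lo hi X₀ U e P a t| ≤ |1 + ma k lo hi X₀ U e P a t| + |(1 : ℝ)| := by
      have := abs_sub (1 + ma k lo hi X₀ U e P a t) 1
      rw [add_sub_cancel_left] at this
      exact this
    rw [abs_one] at v4
    linarith
  · intro t ht
    exact hF.sm (a, t) (hIcc t ht.1)
  · intro t ht
    have hs := happ.smooth' t ⟨ht.1.1.le, ht.1.2.le⟩
    exact contDiff_const.mul (contDiff_const.mul (FlowR_sm hs _ _))
  · intro j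
    obtain ⟨C, hC⟩ := hF.bd j
    exact ⟨C, fun t ht y => hC (a, t) (hIcc t ht.1) y⟩
  · intro j
    obtain ⟨C, hC0, hC⟩ := UF_bound ha h j
    refine ⟨C * Real.exp ((4 * R / 2 + 1 / 16) * X₀), fun t ht y => ?_⟩
    have hs := happ.smooth' t ⟨ht.1.1.le, ht.1.2.le⟩
    have hl0 : 0 < lb lo hi P a t := lt_of_lt_of_le hlo (hcl2 t)
    have hl1 : lb lo hi P a t ≤ 1 := (hcl t).trans (by linarith)
    have e1 : iteratedDeriv j (eaa k lo hi X₀ e P a t) y =
        (lb lo hi P a t) ^ 2 * ((lb lo hi P a t) ^ (2 / (k : ℝ)) * (lb lo hi P a t) ^ j *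
          iteratedDeriv j (e a t) (lb lo hi P a t * y + xb X₀ P a t)) := by
      rw [← iter_Wf hs]
      exact iteratedDeriv_const_mul_field _ _
    have b1 := (hC a haI t ⟨ht.1.1.le, ht.1.2.le⟩
      (lb lo hi P a t * y + xb X₀ P a t)).2
    have b2 := bd_shift (p := 4 * R / 2) (q := 1 / 16) (by positivity) (by norm_num) hl0.le
      (xb X₀ P a t) y
    have b3 : H98KB.bd (lb lo hi P a t * (4 * R / 2)) (lb lo hi P a t * (1 / 16)) y ≤
        H98KB.bd (R * lb lo hi P a t + lo / 16) (lo / 16) y := by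
      have := hcl2 t
      apply bd_anti
      · nlinarith
      · linarith
    have b4 : Real.exp ((4 * R / 2 + 1 / 16) * |xb X₀ P a t|) ≤
        Real.exp ((4 * R / 2 + 1 / 16) * X₀) := by
      rw [Real.exp_le_exp]
      exact mul_le_mul_of_nonneg_left (hclx t) (by positivity)
    have b5 : |iteratedDeriv j (e a t) (lb lo hi P a t * y + xb X₀ P a t)| ≤
        C * Real.exp ((4 * R / 2 + 1 / 16) * X₀) *
          H98KB.bd (R * lb lo hi P a t + lo / 16) (lo / 16) y := by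
      refine b1.trans ?_
      rw [mul_assoc]
      refine mul_le_mul_of_nonneg_left (b2.trans ?_) hC0
      exact mul_le_mul b4 b3 (bd_pos _ _ _).le (Real.exp_pos _).le
    rw [e1, abs_mul, abs_mul, abs_mul]
    have p1 : |(lb lo hi P a t) ^ 2| ≤ 1 := by
      rw [abs_of_pos (by positivity)]
      exact pow_le_one₀ hl0.le hl1
    have p2 : |(lb lo hi P a t) ^ (2 / (k : ℝ))| ≤ 1 := by
      rw [abs_of_pos (Real.rpow_pos_of_pos hl0 _)]
      exact Real.rpow_le_one hl0.le hl1 (by positivity)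
    have p3 : |(lb lo hi P a t) ^ j| ≤ 1 := by
      rw [abs_of_pos (by positivity)]
      exact pow_le_one₀ hl0.le hl1
    refine le_trans ?_ b5
    have p4 : |(lb lo hi P a t) ^ (2 / (k : ℝ))| * |(lb lo hi P a t) ^ j| ≤ 1 :=
      mul_le_one₀ p2 (abs_nonneg _) p3
    refine le_trans (mul_le_of_le_one_left (by positivity) p1) ?_
    exact mul_le_of_le_one_left (abs_nonneg _) p4
  · intro j t ht y
    have hl0 : 0 < lb lo hi P a t := lt_of_lt_of_le hlo (hcl2 t)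
    have htI : t ∈ Icc 0 T := ⟨ht.1.1.le, ht.1.2.le⟩
    have hU := happ.smooth t htI
    have hE := happ.smooth' t htI
    have hQ : ContDiff ℝ ∞ (Qf k) := qbas_smooth (by omega)
    have hz : HasDerivAt (fun s => lb lo hi P a s * y + xb X₀ P a s)
        (-(ba k lo hi X₀ U e P a t) / (lb lo hi P a t) ^ 2 * y +
          (1 + ma k lo hi X₀ U e P a t) / (lb lo hi P a t) ^ 2) t :=
      ((hdl t ht).mul_const y).add (hdx t ht)
    have hev := happ.evol j t ht.1 (lb lo hi P a t * y + xb X₀ P a t)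
    have hcont : ContinuousAt (fun q : ℝ × ℝ => iteratedDeriv (j + 1) (U a q.1) q.2)
        (t, lb lo hi P a t * y + xb X₀ P a t) := by
      have c1 : ContinuousOn (fun q : ℝ × ℝ => iteratedDeriv (j + 1) (U a q.1) q.2)
          (Icc 0 T ×ˢ univ) := by
        have c2 := (UF_jc hα0 ha h (j + 1)).1
        refine c2.comp (f := fun q : ℝ × ℝ => ((a, q.1, q.2) : ℝ × ℝ × ℝ))
          (by fun_prop) ?_
        rintro ⟨s, w⟩ ⟨hs, hw⟩
        exact ⟨haI, hs, hw⟩
      exact c1.continuousAt (prod_mem_nhds (Icc_mem_nhds ht.1.1 ht.1.2) univ_mem)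
    have hch := FlowR_chain (V := fun τ w => iteratedDeriv j (U a τ) w)
      (V' := fun τ w => iteratedDeriv (j + 1) (U a τ) w)
      (z := fun s => lb lo hi P a s * y + xb X₀ P a s) (Ioo_mem_nhds ht.1.1 ht.1.2) hev
      (fun τ hτ w => FlowR_dit (happ.smooth τ ⟨hτ.1.le, hτ.2.le⟩) j w) hcont hz
    have hpw : HasDerivAt (fun s => (lb lo hi P a s) ^ (2 / (k : ℝ) + (j : ℝ)))
        (-(ba k lo hi X₀ U e P a t) / (lb lo hi P a t) ^ 2 * (2 / (k : ℝ) + (j : ℝ)) *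
          (lb lo hi P a t) ^ (2 / (k : ℝ) + (j : ℝ) - 1)) t :=
      (hdl t ht).rpow_const (Or.inl hl0.ne')
    have hall := (hpw.mul hch).sub_const (iteratedDeriv j (Qf k) y)
    have hpj : ∀ s, (lb lo hi P a s) ^ (2 / (k : ℝ) + (j : ℝ)) =
        (lb lo hi P a s) ^ (2 / (k : ℝ)) * (lb lo hi P a s) ^ j := fun s =>
      Real.rpow_add_natCast (lt_of_lt_of_le hlo (hcl2 s)).ne' _ _
    have hval : iteratedDeriv j (zeta k (ba k lo hi X₀ U e P a t) (ma k lo hi X₀ U e P a t)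
        (lb lo hi P a t) (epa k lo hi X₀ U P a t) (eaa k lo hi X₀ e P a t)) y = _ :=
      FlowR_zetaj hk hU hE (ba k lo hi X₀ U e P a t) (ma k lo hi X₀ U e P a t) hl0
        (xb X₀ P a t) j y
    rw [hval]
    refine (hall.congr_deriv ?_).congr_of_eventuallyEq ?_
    · rw [Real.rpow_sub_one hl0.ne', hpj t]
      have eH : iteratedDeriv j (fun z => -iteratedDeriv 3 (U a t) z +
          iteratedDeriv 2 (U a t) z - deriv (fun z' => fl k (U a t z')) z -
          deriv (e a t) z) = iteratedDeriv j (FlowR_H k (U a t) (e a t)) := rfl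
      rw [eH]
      field_simp
      ring
    · filter_upwards [hJo t ht] with s hs
      have hsI : s ∈ Icc 0 T := ⟨hs.1.1.le, hs.1.2.le⟩
      have hUs := happ.smooth s hsI
      have hW : ContDiff ℝ ∞ (Wf k (U a s) (lb lo hi P a s) (xb X₀ P a s)) :=
        contDiff_const.mul (FlowR_sm hUs _ _)
      have e4 : iteratedDeriv j (epa k lo hi X₀ U P a s) y =
          iteratedDeriv j (Wf k (U a s) (lb lo hi P a s) (xb X₀ P a s)) y -
            iteratedDeriv j (Qf k) y :=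
        iteratedDeriv_fun_sub (ClB_at hW j y) (ClB_at hQ j y)
      rw [e4, iter_Wf hUs]
      simp only [Pi.mul_apply]
      rw [hpj s]

end H72KB
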