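import Mathlib

/-!
# Row OdeAbs: a family of ODEs with a bounded globally Lipschitz vector field

Proof.  Fix `a ∈ I = [-a₁,a₁]`.  Picard-Lindelof on `[0,T]` with ball radius `L*T+1` around `P₀`
(`IsPicardLindelof` with `tmin = 0`, `tmax = T`, `t₀ = 0`, radius `L*T+1`, bound `L` (or `max L 0`), Lipschitz
constant `max L 0`; `exists_eq_forall_mem_Icc_hasDerivWithinAt`-type lemma): there is `P_a` with `P_a(0)=P₀`,
`HasDerivWithinAt P_a (F a t (P_a t)) (Icc 0 T) t` for `t ∈ [0,T]`; at interior points this is `HasDerivAt`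
(`HasDerivWithinAt.hasDerivAt` with `Icc_mem_nhds`).  Choose `P a` for each `a` (`Classical.choose`, any
function for `a ∉ I`).  Joint continuity: for `a, a' ∈ I`, `t ∈ [0,T]`:
 `|P_a(t) - P_a'(t)| <= C |a-a'|` with `C = T L exp(L T)`-like constant by Gronwall
 (`dist_le_of_approx_trajectories_ODE`(`_of_mem`) with `εf = 0`, `εg = L|a-a'|`, or
 `norm_le_gronwallBound_of_norm_deriv_right_le`), and `|P_a(t)-P_a(t')| <= L |t-t'|` (mean value,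
 `Convex.norm_image_sub_le_of_norm_hasDerivWithin_le`).  Hence `(a,t) ↦ P_a(t)` is continuous on
 `I × [0,T]`.  (`0 ≤ L` may be assumed: replace `L` by `max L 0`.)
-/

open Filter Topology Set

namespace H72KB

theorem OdeAbs_exists (T : ℝ) (L : NNReal) (hT : 0 < T) (F : ℝ → ℝ × ℝ → ℝ × ℝ) (P₀ : ℝ × ℝ)
    (hb : ∀ t ∈ Icc 0 T, ∀ P, ‖F t P‖ ≤ L)
    (hl : ∀ t ∈ Icc 0 T, ∀ P P', ‖F t P - F t P'‖ ≤ L * ‖P - P'‖)
    (hc : ∀ P, ContinuousOn (fun t => F t P) (Icc 0 T)) :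
    ∃ P : ℝ → ℝ × ℝ, P 0 = P₀ ∧
      ∀ t ∈ Icc 0 T, HasDerivWithinAt P (F t (P t)) (Icc 0 T) t := by
  let t₀ : Icc (0 : ℝ) T := ⟨0, le_refl 0, hT.le⟩
  have h : IsPicardLindelof F t₀ P₀ (L * ⟨T, hT.le⟩) 0 L L :=
    { lipschitzOnWith := by
        intro t ht
        apply LipschitzOnWith.of_dist_le_mul
        intro x _ y _
        rw [dist_eq_norm, dist_eq_norm]
        exact hl t ht x y
      continuousOn := fun x _ => hc x
      norm_le := fun t ht x _ => hb t ht x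
      mul_max_le := by
        have h1 : max (T - (t₀ : ℝ)) ((t₀ : ℝ) - 0) = T := by
          show max (T - 0) (0 - 0) = T
          rw [sub_zero, sub_zero]
          exact max_eq_left hT.le
        rw [h1]
        simp
        rfl }
  obtain ⟨α, h1, h2⟩ := h.exists_eq_forall_mem_Icc_hasDerivWithinAt₀
  exact ⟨α, h1, h2⟩

theorem OdeAbs_gron (K ε x : ℝ) : gronwallBound 0 K ε x = ε * gronwallBound 0 K 1 x := by
  by_cases hK : K = 0
  · subst hK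
    simp [gronwallBound_K0]
  · rw [gronwallBound_of_K_ne_0 hK, gronwallBound_of_K_ne_0 hK]
    simp only [zero_mul, zero_add]
    ring

theorem ode_family (T a₁ L : ℝ) (hT : 0 < T) (F : ℝ → ℝ → ℝ × ℝ → ℝ × ℝ) (P₀ : ℝ × ℝ)
    (hb : ∀ a ∈ Icc (-a₁) a₁, ∀ t ∈ Icc 0 T, ∀ P, ‖F a t P‖ ≤ L)
    (hl : ∀ a ∈ Icc (-a₁) a₁, ∀ t ∈ Icc 0 T, ∀ P P', ‖F a t P - F a t P'‖ ≤ L * ‖P - P'‖)
    (ha : ∀ a ∈ Icc (-a₁) a₁, ∀ a' ∈ Icc (-a₁) a₁, ∀ t ∈ Icc 0 T, ∀ P,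
      ‖F a t P - F a' t P‖ ≤ L * |a - a'|)
    (hc : ∀ a ∈ Icc (-a₁) a₁, ∀ P, ContinuousOn (fun t => F a t P) (Icc 0 T)) :
    ∃ P : ℝ → ℝ → ℝ × ℝ, (∀ a ∈ Icc (-a₁) a₁, P a 0 = P₀) ∧
      ContinuousOn (fun z : ℝ × ℝ => P z.1 z.2) (Icc (-a₁) a₁ ×ˢ Icc 0 T) ∧
      ∀ a ∈ Icc (-a₁) a₁, ∀ t ∈ Ioo 0 T, HasDerivAt (P a) (F a t (P a t)) t := by
  classical
  by_cases hI : (Icc (-a₁) a₁).Nonempty
  swap
  · have hE : Icc (-a₁) a₁ = ∅ := Set.not_nonempty_iff_eq_empty.mp hI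
    refine ⟨fun _ _ => P₀, ?_, ?_, ?_⟩
    · intro a h; exact absurd (hE ▸ h) (Set.notMem_empty a)
    · exact continuousOn_const
    · intro a h; exact absurd (hE ▸ h) (Set.notMem_empty a)
  obtain ⟨c, hcI⟩ := hI
  have hL : 0 ≤ L := le_trans (norm_nonneg _) (hb c hcI 0 ⟨le_refl 0, hT.le⟩ P₀)
  lift L to NNReal using hL
  have hex : ∀ a : ℝ, ∃ P : ℝ → ℝ × ℝ, a ∈ Icc (-a₁) a₁ → (P 0 = P₀ ∧
      ∀ t ∈ Icc 0 T, HasDerivWithinAt P (F a t (P t)) (Icc 0 T) t) := by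
    intro a
    by_cases haI : a ∈ Icc (-a₁) a₁
    · obtain ⟨P, h1, h2⟩ := OdeAbs_exists T L hT (F a) P₀ (hb a haI) (hl a haI) (hc a haI)
      exact ⟨P, fun _ => ⟨h1, h2⟩⟩
    · exact ⟨fun _ => P₀, fun h => absurd h haI⟩
  choose P hP using hex
  have hcont : ∀ a ∈ Icc (-a₁) a₁, ContinuousOn (P a) (Icc 0 T) := fun a haI t ht =>
    ((hP a haI).2 t ht).continuousWithinAt
  have hder : ∀ a ∈ Icc (-a₁) a₁, ∀ t ∈ Ico 0 T,
      HasDerivWithinAt (P a) (F a t (P a t)) (Ici t) t := by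
    intro a haI t ht
    have h := (hP a haI).2 t ⟨ht.1, ht.2.le⟩
    exact h.mono_of_mem_nhdsWithin (Icc_mem_nhdsGE_of_mem ht)
  have hdist : ∀ a ∈ Icc (-a₁) a₁, ∀ a' ∈ Icc (-a₁) a₁, ∀ t ∈ Icc 0 T,
      dist (P a t) (P a' t) ≤ |a - a'| * (L * gronwallBound 0 L 1 T) := by
    intro a haI a' haI' t ht
    have h := dist_le_of_approx_trajectories_ODE_of_mem (v := F a) (K := L) (s := fun _ => univ)
      (f := P a) (g := P a') (f' := fun t => F a t (P a t)) (g' := fun t => F a' t (P a' t))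
      (a := 0) (b := T) (εf := 0) (εg := L * |a - a'|) (δ := 0)
      (fun s hs => by
        apply LipschitzOnWith.of_dist_le_mul
        intro x _ y _
        rw [dist_eq_norm, dist_eq_norm]
        exact hl a haI s ⟨hs.1, hs.2.le⟩ x y)
      (hcont a haI) (hder a haI) (fun s _ => by rw [dist_self]) (fun _ _ => trivial)
      (hcont a' haI') (hder a' haI')
      (fun s hs => by
        rw [dist_comm, dist_eq_norm]
        exact ha a haI a' haI' s ⟨hs.1, hs.2.le⟩ _)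
      (fun _ _ => trivial)
      (by rw [(hP a haI).1, (hP a' haI').1, dist_self]) t ht
    rw [zero_add, sub_zero, OdeAbs_gron] at h
    refine h.trans ?_
    have hm : gronwallBound 0 (L : ℝ) 1 t ≤ gronwallBound 0 (L : ℝ) 1 T :=
      gronwallBound_mono (le_refl 0) zero_le_one L.2 ht.2
    have h0 : 0 ≤ (L : ℝ) * |a - a'| := mul_nonneg L.2 (abs_nonneg _)
    calc (L : ℝ) * |a - a'| * gronwallBound 0 (L : ℝ) 1 t
        ≤ (L : ℝ) * |a - a'| * gronwallBound 0 (L : ℝ) 1 T := mul_le_mul_of_nonneg_left hm h0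
      _ = |a - a'| * (L * gronwallBound 0 L 1 T) := by ring
  refine ⟨P, fun a haI => (hP a haI).1, ?_, ?_⟩
  · rintro ⟨a0, t0⟩ ⟨ha0, ht0⟩
    simp only at ha0 ht0
    show Tendsto (fun z : ℝ × ℝ => P z.1 z.2) (𝓝[Icc (-a₁) a₁ ×ˢ Icc 0 T] (a0, t0)) (𝓝 (P a0 t0))
    rw [tendsto_iff_dist_tendsto_zero]
    have hfst : Tendsto (fun z : ℝ × ℝ => z.1) (𝓝[Icc (-a₁) a₁ ×ˢ Icc 0 T] (a0, t0)) (𝓝 a0) :=
      (continuous_fst.tendsto (a0, t0)).mono_left nhdsWithin_le_nhds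
    have hsnd : Tendsto (fun z : ℝ × ℝ => z.2) (𝓝[Icc (-a₁) a₁ ×ˢ Icc 0 T] (a0, t0))
        (𝓝[Icc 0 T] t0) := by
      apply tendsto_nhdsWithin_iff.mpr
      refine ⟨(continuous_snd.tendsto (a0, t0)).mono_left nhdsWithin_le_nhds, ?_⟩
      filter_upwards [self_mem_nhdsWithin] with z hz
      exact hz.2
    have hc2 : Tendsto (fun z : ℝ × ℝ => P a0 z.2) (𝓝[Icc (-a₁) a₁ ×ˢ Icc 0 T] (a0, t0))
        (𝓝 (P a0 t0)) := (hcont a0 ha0 t0 ht0).tendsto.comp hsnd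
    have hlim : Tendsto (fun z : ℝ × ℝ => |z.1 - a0| * (L * gronwallBound 0 L 1 T)
        + dist (P a0 z.2) (P a0 t0)) (𝓝[Icc (-a₁) a₁ ×ˢ Icc 0 T] (a0, t0)) (𝓝 0) := by
      have e1 : Tendsto (fun z : ℝ × ℝ => |z.1 - a0| * (L * gronwallBound 0 L 1 T))
          (𝓝[Icc (-a₁) a₁ ×ˢ Icc 0 T] (a0, t0)) (𝓝 0) := by
        have : Tendsto (fun z : ℝ × ℝ => |z.1 - a0| * ((L : ℝ) * gronwallBound 0 L 1 T))
          (𝓝[Icc (-a₁) a₁ ×ˢ Icc 0 T] (a0, t0)) (𝓝 (|a0 - a0| * ((L : ℝ) * gronwallBound 0 L 1 T))) :=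
          ((hfst.sub tendsto_const_nhds).abs).mul_const _
        simpa using this
      have e2 := tendsto_iff_dist_tendsto_zero.mp hc2
      simpa using e1.add e2
    refine squeeze_zero' (Eventually.of_forall fun z => dist_nonneg) ?_ hlim
    filter_upwards [self_mem_nhdsWithin] with z hz
    calc dist (P z.1 z.2) (P a0 t0)
        ≤ dist (P z.1 z.2) (P a0 z.2) + dist (P a0 z.2) (P a0 t0) := dist_triangle _ _ _
      _ ≤ _ := by
        gcongr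
        exact hdist z.1 hz.1 a0 ha0 z.2 hz.2
  · intro a haI t ht
    exact ((hP a haI).2 t ⟨ht.1.le, ht.2.le⟩).hasDerivAt (Icc_mem_nhds ht.1 ht.2)

end H72KB
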