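import Pool.Agent.H72.KB.Base
import Pool.Agent.H72.KB.ClA

/-!
# Row UFb: uniform bounds and joint continuity for the family `U, e`

`UF_bound`: for `a = 0` use `(h.app 0 _).bound j`, for general `a` add `h.lip j` (with `a' = 0`, `|a - 0| ≤ a₁`);
the constant can be taken nonnegative (evaluate or replace by `|C|`; `bd > 0` by `bd_pos`).
`UF_jc`: at `(a₀,t₀,x₀)`:
 `|F(a,t,x) - F(a₀,t₀,x₀)| ≤ |F(a,t,x) - F(a₀,t,x)| + |F(a₀,t,x) - F(a₀,t,x₀)| + |F(a₀,t,x₀) - F(a₀,t₀,x₀)|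
   ≤ C |a-a₀| + C' |x-x₀| + o(1)`
with `h.lip j` (`bd ≤ 1`, `bd_le_one`), the mean value theorem with `UF_bound (j+1)`
(`iteratedDeriv (j+1) f = deriv (iteratedDeriv j f)`, `Convex.norm_image_sub_le_of_norm_deriv_le`;
`iteratedDeriv j` of a `ContDiff ℝ ∞` function is differentiable), and `(h.app a₀ _).cont j x₀`.
-/

open MeasureTheory Filter Topology Set
open scoped ContDiff

namespace H72KB

open H98KB

theorem UFb_bd {T α a₁ : ℝ} {F : ℝ → ℝ → ℝ → ℝ} (ha : 0 ≤ a₁) (j : ℕ)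
    (h0 : ∃ C : ℝ, ∀ t ∈ Icc 0 T, ∀ x, |iteratedDeriv j (F 0 t) x| ≤ C * bd (α / 2) (1 / 16) x)
    (hl : ∃ C : ℝ, ∀ a ∈ Icc (-a₁) a₁, ∀ a' ∈ Icc (-a₁) a₁, ∀ t ∈ Icc 0 T, ∀ x,
      |iteratedDeriv j (F a t) x - iteratedDeriv j (F a' t) x| ≤
        C * |a - a'| * bd (α / 2) (1 / 16) x) :
    ∃ C : ℝ, 0 ≤ C ∧ ∀ a ∈ Icc (-a₁) a₁, ∀ t ∈ Icc 0 T, ∀ x,
      |iteratedDeriv j (F a t) x| ≤ C * bd (α / 2) (1 / 16) x := by
  obtain ⟨C0, h0⟩ := h0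
  obtain ⟨C1, h1⟩ := hl
  refine ⟨|C0| + |C1| * a₁, by positivity, fun a ha' t ht x => ?_⟩
  have hb := (bd_pos (α / 2) (1 / 16) x).le
  have e0 := h0 t ht x
  have e1 := h1 a ha' 0 ⟨by linarith, ha⟩ t ht x
  have e2 : |a - 0| ≤ a₁ := by
    rw [sub_zero]
    exact abs_le.2 ha'
  have e3 : C0 * bd (α / 2) (1 / 16) x ≤ |C0| * bd (α / 2) (1 / 16) x :=
    mul_le_mul_of_nonneg_right (le_abs_self _) hb
  have e4 : C1 * |a - 0| ≤ |C1| * a₁ :=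
    le_trans (mul_le_mul_of_nonneg_right (le_abs_self _) (abs_nonneg _))
      (mul_le_mul_of_nonneg_left e2 (abs_nonneg _))
  have e5 : C1 * |a - 0| * bd (α / 2) (1 / 16) x ≤ |C1| * a₁ * bd (α / 2) (1 / 16) x :=
    mul_le_mul_of_nonneg_right e4 hb
  have e6 : |iteratedDeriv j (F a t) x| ≤
      |iteratedDeriv j (F a t) x - iteratedDeriv j (F 0 t) x| + |iteratedDeriv j (F 0 t) x| := by
    have e7 := abs_add_le (iteratedDeriv j (F a t) x - iteratedDeriv j (F 0 t) x)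
      (iteratedDeriv j (F 0 t) x)
    rwa [sub_add_cancel] at e7
  rw [add_mul]
  linarith

theorem UFb_jc {T α a₁ : ℝ} {F : ℝ → ℝ → ℝ → ℝ} (hα : 0 ≤ α) (j : ℕ)
    (hs : ∀ a ∈ Icc (-a₁) a₁, ∀ t ∈ Icc 0 T, ContDiff ℝ ∞ (F a t))
    (hb : ∃ C : ℝ, 0 ≤ C ∧ ∀ a ∈ Icc (-a₁) a₁, ∀ t ∈ Icc 0 T, ∀ x,
      |iteratedDeriv (j + 1) (F a t) x| ≤ C * bd (α / 2) (1 / 16) x)
    (hl : ∃ C : ℝ, ∀ a ∈ Icc (-a₁) a₁, ∀ a' ∈ Icc (-a₁) a₁, ∀ t ∈ Icc 0 T, ∀ x,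
      |iteratedDeriv j (F a t) x - iteratedDeriv j (F a' t) x| ≤
        C * |a - a'| * bd (α / 2) (1 / 16) x)
    (hc : ∀ a ∈ Icc (-a₁) a₁, ∀ x, ContinuousOn (fun t => iteratedDeriv j (F a t) x) (Icc 0 T)) :
    ContinuousOn (fun z : ℝ × ℝ × ℝ => iteratedDeriv j (F z.1 z.2.1) z.2.2)
      (Icc (-a₁) a₁ ×ˢ (Icc 0 T ×ˢ univ)) := by
  obtain ⟨C, hC0, hC⟩ := hb
  obtain ⟨C1, h1⟩ := hl
  have hbd1 : ∀ z, bd (α / 2) (1 / 16) z ≤ 1 := fun z =>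
    bd_le_one (by linarith) (by norm_num) z
  have hx : ∀ a ∈ Icc (-a₁) a₁, ∀ t ∈ Icc 0 T, ∀ x y,
      |iteratedDeriv j (F a t) x - iteratedDeriv j (F a t) y| ≤ C * |x - y| := by
    intro a ha t ht x y
    have hd : Differentiable ℝ (iteratedDeriv j (F a t)) :=
      (hs a ha t ht).differentiable_iteratedDeriv j (by exact_mod_cast WithTop.coe_lt_top j)
    have hder : ∀ z, ‖deriv (iteratedDeriv j (F a t)) z‖ ≤ C := by
      intro z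
      rw [← iteratedDeriv_succ, Real.norm_eq_abs]
      exact le_trans (hC a ha t ht z) (mul_le_of_le_one_right hC0 (hbd1 z))
    have h2 := Convex.norm_image_sub_le_of_norm_deriv_le (s := (univ : Set ℝ))
      (fun z _ => hd z) (fun z _ => hder z) convex_univ (mem_univ y) (mem_univ x)
    simpa only [Real.norm_eq_abs] using h2
  rintro z0 ⟨ha0, ht0, -⟩
  have h3 : Tendsto (fun z : ℝ × ℝ × ℝ => z.2.1) (𝓝[Icc (-a₁) a₁ ×ˢ (Icc 0 T ×ˢ univ)] z0)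
      (𝓝[Icc 0 T] z0.2.1) := by
    refine tendsto_nhdsWithin_iff.2 ⟨?_, ?_⟩
    · exact ((continuous_fst.comp continuous_snd).tendsto z0).mono_left nhdsWithin_le_nhds
    · filter_upwards [self_mem_nhdsWithin] with z hz
      exact hz.2.1
  have h4 := (hc z0.1 ha0 z0.2.2 z0.2.1 ht0).tendsto.comp h3
  have h5 : Tendsto (fun z : ℝ × ℝ × ℝ => |iteratedDeriv j (F z0.1 z.2.1) z0.2.2 -
      iteratedDeriv j (F z0.1 z0.2.1) z0.2.2|)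
      (𝓝[Icc (-a₁) a₁ ×ˢ (Icc 0 T ×ˢ univ)] z0) (𝓝 0) := by
    have h6 := (h4.sub_const (iteratedDeriv j (F z0.1 z0.2.1) z0.2.2)).abs
    rw [sub_self, abs_zero] at h6
    exact h6
  have h7 : Tendsto (fun z : ℝ × ℝ × ℝ => |C1| * |z.1 - z0.1| + C * |z.2.2 - z0.2.2|)
      (𝓝[Icc (-a₁) a₁ ×ˢ (Icc 0 T ×ˢ univ)] z0) (𝓝 0) := by
    have h8 : Continuous (fun z : ℝ × ℝ × ℝ => |C1| * |z.1 - z0.1| + C * |z.2.2 - z0.2.2|) := by
      fun_prop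
    have h9 := (h8.tendsto z0).mono_left (nhdsWithin_le_nhds
      (s := Icc (-a₁) a₁ ×ˢ (Icc 0 T ×ˢ (univ : Set ℝ))))
    simpa only [sub_self, abs_zero, mul_zero, add_zero] using h9
  have h10 := h7.add h5
  rw [add_zero] at h10
  rw [ContinuousWithinAt, tendsto_iff_dist_tendsto_zero]
  refine squeeze_zero' (Eventually.of_forall fun _ => dist_nonneg) ?_ h10
  filter_upwards [self_mem_nhdsWithin] with z hz
  obtain ⟨ha, ht, -⟩ := hz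
  rw [Real.dist_eq]
  have k1 := h1 z.1 ha z0.1 ha0 z.2.1 ht z.2.2
  have k2 := hx z0.1 ha0 z.2.1 ht z.2.2 z0.2.2
  have k3 : C1 * |z.1 - z0.1| * bd (α / 2) (1 / 16) z.2.2 ≤ |C1| * |z.1 - z0.1| := by
    have k4 : C1 * |z.1 - z0.1| * bd (α / 2) (1 / 16) z.2.2 ≤
        |C1| * |z.1 - z0.1| * bd (α / 2) (1 / 16) z.2.2 :=
      mul_le_mul_of_nonneg_right
        (mul_le_mul_of_nonneg_right (le_abs_self _) (abs_nonneg _)) (bd_pos _ _ _).le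
    exact le_trans k4 (mul_le_of_le_one_right (by positivity) (hbd1 _))
  have k5 := abs_add_three (iteratedDeriv j (F z.1 z.2.1) z.2.2 -
      iteratedDeriv j (F z0.1 z.2.1) z.2.2)
    (iteratedDeriv j (F z0.1 z.2.1) z.2.2 - iteratedDeriv j (F z0.1 z.2.1) z0.2.2)
    (iteratedDeriv j (F z0.1 z.2.1) z0.2.2 - iteratedDeriv j (F z0.1 z0.2.1) z0.2.2)
  have k6 : iteratedDeriv j (F z.1 z.2.1) z.2.2 - iteratedDeriv j (F z0.1 z.2.1) z.2.2 +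
      (iteratedDeriv j (F z0.1 z.2.1) z.2.2 - iteratedDeriv j (F z0.1 z.2.1) z0.2.2) +
      (iteratedDeriv j (F z0.1 z.2.1) z0.2.2 - iteratedDeriv j (F z0.1 z0.2.1) z0.2.2) =
      iteratedDeriv j (F z.1 z.2.1) z.2.2 - iteratedDeriv j (F z0.1 z0.2.1) z0.2.2 := by ring
  rw [k6] at k5
  linarith

theorem UF_bound {k : ℕ} {T α a₁ : ℝ} {U e : ℝ → ℝ → ℝ → ℝ} (ha : 0 ≤ a₁)
    (h : UF k T α a₁ U e) (j : ℕ) : ∃ C : ℝ, 0 ≤ C ∧ ∀ a ∈ Icc (-a₁) a₁, ∀ t ∈ Icc 0 T, ∀ x,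
      |iteratedDeriv j (U a t) x| ≤ C * bd (α / 2) (1 / 16) x ∧
      |iteratedDeriv j (e a t) x| ≤ C * bd (α / 2) (1 / 16) x := by
  have h00 : (0 : ℝ) ∈ Icc (-a₁) a₁ := ⟨by linarith, ha⟩
  obtain ⟨L, hL⟩ := h.lip j
  obtain ⟨C1, hC1, h1⟩ := UFb_bd (F := U) ha j ((h.app 0 h00).bound j)
    ⟨L, fun a ha' a' ha'' t ht x => (hL a ha' a' ha'' t ht x).1⟩
  obtain ⟨C2, hC2, h2⟩ := UFb_bd (F := e) ha j ((h.app 0 h00).bound' j)
    ⟨L, fun a ha' a' ha'' t ht x => (hL a ha' a' ha'' t ht x).2⟩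
  refine ⟨max C1 C2, le_max_of_le_left hC1, fun a ha' t ht x => ⟨?_, ?_⟩⟩
  · exact le_trans (h1 a ha' t ht x)
      (mul_le_mul_of_nonneg_right (le_max_left _ _) (bd_pos _ _ _).le)
  · exact le_trans (h2 a ha' t ht x)
      (mul_le_mul_of_nonneg_right (le_max_right _ _) (bd_pos _ _ _).le)

theorem UF_jc {k : ℕ} {T α a₁ : ℝ} {U e : ℝ → ℝ → ℝ → ℝ} (hα : 0 ≤ α) (ha : 0 ≤ a₁)
    (h : UF k T α a₁ U e) (j : ℕ) :
    ContinuousOn (fun z : ℝ × ℝ × ℝ => iteratedDeriv j (U z.1 z.2.1) z.2.2)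
      (Icc (-a₁) a₁ ×ˢ (Icc 0 T ×ˢ univ)) ∧
    ContinuousOn (fun z : ℝ × ℝ × ℝ => iteratedDeriv j (e z.1 z.2.1) z.2.2)
      (Icc (-a₁) a₁ ×ˢ (Icc 0 T ×ˢ univ)) := by
  obtain ⟨C, hC0, hC⟩ := UF_bound ha h (j + 1)
  obtain ⟨L, hL⟩ := h.lip j
  constructor
  · exact UFb_jc (F := U) hα j (fun a ha' => (h.app a ha').smooth)
      ⟨C, hC0, fun a ha' t ht x => (hC a ha' t ht x).1⟩
      ⟨L, fun a ha' a' ha'' t ht x => (hL a ha' a' ha'' t ht x).1⟩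
      (fun a ha' x => (h.app a ha').cont j x)
  · exact UFb_jc (F := e) hα j (fun a ha' => (h.app a ha').smooth')
      ⟨C, hC0, fun a ha' t ht x => (hC a ha' t ht x).2⟩
      ⟨L, fun a ha' a' ha'' t ht x => (hL a ha' a' ha'' t ht x).2⟩
      (fun a ha' x => (h.app a ha').cont' j x)

end H72KB
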