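import Pool.Agent.H72.KB.PCon
import Pool.Agent.H72.KB.UFb
import Pool.Agent.H72.KB.OdeAbs

/-!
# Row VFr: the clipped vector field is bounded, Lipschitz, continuous in time; existence of the trajectories

Proof.  Put `l = clp lo hi P.1 ∈ [lo,hi]`, `x = clp (-X₀) X₀ P.2 ∈ [-X₀,X₀]`; `clp` is 1-Lipschitz
(`|max lo (min s hi) - max lo (min s' hi)| ≤ |s-s'|`) and `‖P - P'‖ = max |..| |..|` on `ℝ × ℝ`.
`W(l,x,y) = l^{2/k} U(l y + x)`: with `UF_bound` for `j = 0, 1` (`bd ≤ 1`) there is `C` (independent of `a,t`) with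
`|W| ≤ C`, `|W(l,x,y) - W(l',x',y)| ≤ C (1+|y|) (|l-l'| + |x-x'|)` (`l ↦ l^{2/k}` is Lipschitz on `[lo,hi]`, `lo > 0`;
mean value theorem for `U`), and `|W_a - W_a'| ≤ C |a-a'|` (`h.lip 0`); the same for `ef = l² Wf k e l x`.
Apply `bfn_lip` (with `d = C (|l-l'| + |x-x'|)` resp. `d = C|a-a'|`), then divide by `l² ≥ lo²` (`l ↦ 1/l²` Lipschitz on
`[lo,hi]`).  Continuity in `t` for fixed `P`: `bfn_cont` with `W t = Wf k (U a t) l x` etc. (`J = Icc 0 T`;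
pointwise continuity from `App.cont 0`, `App.cont' 0`; `iteratedDeriv 0 f = f`).
`traj_exists`: `ode_family` with `F a t P = VF k lo hi X₀ (U a) (e a) t P`, `P₀ = (l₀, 0)`.
-/

open MeasureTheory Filter Topology Set
open scoped ContDiff

namespace H72KB

open H98KB

theorem VFr_clp_mem {lo hi : ℝ} (h : lo ≤ hi) (s : ℝ) : lo ≤ clp lo hi s ∧ clp lo hi s ≤ hi := by
  unfold clp
  exact ⟨le_max_left _ _, max_le h (min_le_right _ _)⟩

theorem VFr_clp_lip (lo hi s s' : ℝ) : |clp lo hi s - clp lo hi s'| ≤ |s - s'| := by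
  unfold clp
  have h1 := abs_max_sub_max_le_max lo (min s hi) lo (min s' hi)
  have h2 := abs_min_sub_min_le_max s hi s' hi
  rw [sub_self, abs_zero, max_eq_right (abs_nonneg (min s hi - min s' hi))] at h1
  rw [sub_self, abs_zero, max_eq_left (abs_nonneg (s - s'))] at h2
  exact h1.trans h2

theorem VFr_rpow {s lo : ℝ} (hs0 : 0 ≤ s) (hs1 : s ≤ 1) (hlo : 0 < lo) {l l' : ℝ} (hl : lo ≤ l)
    (hl' : lo ≤ l') : |l ^ s - l' ^ s| ≤ s * lo ^ (s - 1) * |l - l'| := by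
  have h := Convex.norm_image_sub_le_of_norm_hasDerivWithin_le (f := fun x : ℝ => x ^ s)
    (f' := fun x : ℝ => s * x ^ (s - 1)) (s := Ici lo) (C := s * lo ^ (s - 1)) (x := l') (y := l)
    (fun x hx => (Real.hasDerivAt_rpow_const
      (Or.inl (ne_of_gt (lt_of_lt_of_le hlo hx)))).hasDerivWithinAt)
    (fun x hx => by
      have hx0 : 0 < x := lt_of_lt_of_le hlo hx
      rw [Real.norm_eq_abs, abs_of_nonneg (mul_nonneg hs0 (Real.rpow_nonneg hx0.le _))]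
      refine mul_le_mul_of_nonneg_left ?_ hs0
      exact Real.rpow_le_rpow_of_nonpos hlo hx (by linarith))
    (convex_Ici lo) hl' hl
  simpa [Real.norm_eq_abs] using h

theorem VFr_lipg {g : ℝ → ℝ} {M : ℝ} (hg : ContDiff ℝ ∞ g) (h1 : ∀ x, |iteratedDeriv 1 g x| ≤ M)
    (x x' : ℝ) : |g x - g x'| ≤ M * |x - x'| := by
  have h := Convex.norm_image_sub_le_of_norm_deriv_le (f := g) (s := univ) (C := M) (x := x')
    (y := x)
    (fun z _ => (hg.differentiable (by simp)).differentiableAt)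
    (fun z _ => by
      have := h1 z
      rw [iteratedDeriv_one] at this
      exact this)
    convex_univ (mem_univ _) (mem_univ _)
  simpa [Real.norm_eq_abs] using h

theorem VFr_s {k : ℕ} (hk : 5 ≤ k) : 0 ≤ 2 / (k : ℝ) ∧ 2 / (k : ℝ) ≤ 1 := by
  have h5 : (5 : ℝ) ≤ (k : ℝ) := by exact_mod_cast hk
  refine ⟨by positivity, ?_⟩
  rw [div_le_one (by linarith)]
  linarith

theorem VFr_pw {s l : ℝ} (hs0 : 0 ≤ s) (hl : 0 < l) (hl1 : l ≤ 1) : 0 ≤ l ^ s ∧ l ^ s ≤ 1 :=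
  ⟨Real.rpow_nonneg hl.le _, Real.rpow_le_one hl.le hl1 hs0⟩

theorem VFr_Wb {k : ℕ} (hk : 5 ≤ k) {g : ℝ → ℝ} {M : ℝ} (h0 : ∀ x, |g x| ≤ M) {l : ℝ}
    (hl : 0 < l) (hl1 : l ≤ 1) (x y : ℝ) : |Wf k g l x y| ≤ M := by
  unfold Wf
  obtain ⟨h1, h2⟩ := VFr_pw (VFr_s hk).1 hl hl1
  rw [abs_mul, abs_of_nonneg h1]
  calc l ^ (2 / (k : ℝ)) * |g (l * y + x)| ≤ 1 * |g (l * y + x)| :=
        mul_le_mul_of_nonneg_right h2 (abs_nonneg _)
    _ ≤ M := by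
        rw [one_mul]
        exact h0 _

theorem VFr_eb {k : ℕ} (hk : 5 ≤ k) {g : ℝ → ℝ} {M : ℝ} (h0 : ∀ x, |g x| ≤ M) {l : ℝ}
    (hl : 0 < l) (hl1 : l ≤ 1) (x y : ℝ) : |ef k g l x y| ≤ M := by
  unfold ef
  have h1 := VFr_Wb hk h0 hl hl1 x y
  have h2 : l ^ 2 ≤ 1 := pow_le_one₀ hl.le hl1
  rw [abs_mul, abs_of_nonneg (sq_nonneg l)]
  calc l ^ 2 * |Wf k g l x y| ≤ 1 * |Wf k g l x y| :=
        mul_le_mul_of_nonneg_right h2 (abs_nonneg _)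
    _ ≤ M := by
        rw [one_mul]
        exact h1

theorem VFr_Wc (k : ℕ) {g : ℝ → ℝ} (hg : Continuous g) (l x : ℝ) : Continuous (Wf k g l x) := by
  unfold Wf
  fun_prop

theorem VFr_ec (k : ℕ) {g : ℝ → ℝ} (hg : Continuous g) (l x : ℝ) : Continuous (ef k g l x) := by
  have h := VFr_Wc k hg l x
  unfold ef
  fun_prop

theorem VFr_Wl {k : ℕ} (hk : 5 ≤ k) {g : ℝ → ℝ} {M lo : ℝ} (hM : 0 ≤ M) (hlo : 0 < lo)
    (h0 : ∀ x, |g x| ≤ M) (h1 : ∀ x x', |g x - g x'| ≤ M * |x - x'|) {l l' : ℝ} (hl : lo ≤ l)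
    (hl' : lo ≤ l') (hl1' : l' ≤ 1) (x x' y : ℝ) :
    |Wf k g l x y - Wf k g l' x' y| ≤
      M * (2 / (k : ℝ) * lo ^ (2 / (k : ℝ) - 1) + 1) * (|l - l'| + |x - x'|) * (1 + |y|) := by
  obtain ⟨hs0, hs1⟩ := VFr_s hk
  obtain ⟨h2, h3⟩ := VFr_pw hs0 (lt_of_lt_of_le hlo hl') hl1'
  have h4 := VFr_rpow hs0 hs1 hlo hl hl'
  obtain ⟨K, hK⟩ : ∃ K, K = 2 / (k : ℝ) * lo ^ (2 / (k : ℝ) - 1) := ⟨_, rfl⟩
  have hK0 : 0 ≤ K := by
    rw [hK]
    exact mul_nonneg hs0 (Real.rpow_nonneg hlo.le _)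
  rw [← hK] at h4 ⊢
  unfold Wf
  have e : l ^ (2 / (k : ℝ)) * g (l * y + x) - l' ^ (2 / (k : ℝ)) * g (l' * y + x') =
      (l ^ (2 / (k : ℝ)) - l' ^ (2 / (k : ℝ))) * g (l * y + x) +
        l' ^ (2 / (k : ℝ)) * (g (l * y + x) - g (l' * y + x')) := by ring
  rw [e]
  have a1 : |(l ^ (2 / (k : ℝ)) - l' ^ (2 / (k : ℝ))) * g (l * y + x)| ≤ K * |l - l'| * M := by
    rw [abs_mul]
    exact mul_le_mul h4 (h0 _) (abs_nonneg _) (by positivity)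
  have a2 : |l * y + x - (l' * y + x')| ≤ |l - l'| * |y| + |x - x'| := by
    have e2 : l * y + x - (l' * y + x') = (l - l') * y + (x - x') := by ring
    rw [e2, ← abs_mul]
    exact abs_add_le _ _
  have a3 : |l' ^ (2 / (k : ℝ)) * (g (l * y + x) - g (l' * y + x'))| ≤
      M * (|l - l'| * |y| + |x - x'|) := by
    rw [abs_mul, abs_of_nonneg h2]
    calc l' ^ (2 / (k : ℝ)) * |g (l * y + x) - g (l' * y + x')|
        ≤ 1 * |g (l * y + x) - g (l' * y + x')| :=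
          mul_le_mul_of_nonneg_right h3 (abs_nonneg _)
      _ ≤ M * |l * y + x - (l' * y + x')| := by
          rw [one_mul]
          exact h1 _ _
      _ ≤ M * (|l - l'| * |y| + |x - x'|) := mul_le_mul_of_nonneg_left a2 hM
  refine (abs_add_le _ _).trans ((add_le_add a1 a3).trans ?_)
  obtain ⟨A, hA⟩ : ∃ A, A = |l - l'| := ⟨_, rfl⟩
  obtain ⟨B, hB⟩ : ∃ B, B = |x - x'| := ⟨_, rfl⟩
  obtain ⟨Y, hY⟩ : ∃ Y, Y = |y| := ⟨_, rfl⟩
  have hA0 : 0 ≤ A := by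
    rw [hA]
    exact abs_nonneg _
  have hB0 : 0 ≤ B := by
    rw [hB]
    exact abs_nonneg _
  have hY0 : 0 ≤ Y := by
    rw [hY]
    exact abs_nonneg _
  rw [← hA, ← hB, ← hY]
  have e3 : M * (K + 1) * (A + B) * (1 + Y) - (K * A * M + M * (A * Y + B)) =
      M * (K * A * Y + K * B + K * B * Y + A + B * Y) := by ring
  have h5 : 0 ≤ M * (K * A * Y + K * B + K * B * Y + A + B * Y) := by positivity
  linarith

theorem VFr_el {k : ℕ} (hk : 5 ≤ k) {g : ℝ → ℝ} {M lo : ℝ} (hM : 0 ≤ M) (hlo : 0 < lo)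
    (h0 : ∀ x, |g x| ≤ M) (h1 : ∀ x x', |g x - g x'| ≤ M * |x - x'|) {l l' : ℝ} (hl : lo ≤ l)
    (hl1 : l ≤ 1) (hl' : lo ≤ l') (hl1' : l' ≤ 1) (x x' y : ℝ) :
    |ef k g l x y - ef k g l' x' y| ≤
      M * (2 / (k : ℝ) * lo ^ (2 / (k : ℝ) - 1) + 3) * (|l - l'| + |x - x'|) * (1 + |y|) := by
  have h2 := VFr_Wl hk hM hlo h0 h1 hl hl' hl1' x x' y
  have h3 := VFr_Wb hk h0 (lt_of_lt_of_le hlo hl) hl1 x y
  obtain ⟨K, hK⟩ : ∃ K, K = 2 / (k : ℝ) * lo ^ (2 / (k : ℝ) - 1) := ⟨_, rfl⟩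
  rw [← hK] at h2 ⊢
  unfold ef
  have e : l ^ 2 * Wf k g l x y - l' ^ 2 * Wf k g l' x' y =
      (l - l') * (l + l') * Wf k g l x y + l' ^ 2 * (Wf k g l x y - Wf k g l' x' y) := by ring
  rw [e]
  have a1 : |(l - l') * (l + l') * Wf k g l x y| ≤ |l - l'| * 2 * M := by
    rw [abs_mul, abs_mul]
    have b1 : |l + l'| ≤ 2 := by
      rw [abs_of_nonneg (by linarith)]
      linarith
    exact mul_le_mul (mul_le_mul_of_nonneg_left b1 (abs_nonneg _)) h3 (abs_nonneg _)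
      (by positivity)
  have a2 : |l' ^ 2 * (Wf k g l x y - Wf k g l' x' y)| ≤ |Wf k g l x y - Wf k g l' x' y| := by
    rw [abs_mul, abs_of_nonneg (sq_nonneg l')]
    have b2 : l' ^ 2 ≤ 1 := pow_le_one₀ (by linarith) hl1'
    calc l' ^ 2 * |Wf k g l x y - Wf k g l' x' y| ≤ 1 * |Wf k g l x y - Wf k g l' x' y| :=
          mul_le_mul_of_nonneg_right b2 (abs_nonneg _)
      _ = _ := one_mul _
  refine (abs_add_le _ _).trans ((add_le_add a1 (a2.trans h2)).trans ?_)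
  obtain ⟨A, hA⟩ : ∃ A, A = |l - l'| := ⟨_, rfl⟩
  obtain ⟨B, hB⟩ : ∃ B, B = |x - x'| := ⟨_, rfl⟩
  obtain ⟨Y, hY⟩ : ∃ Y, Y = |y| := ⟨_, rfl⟩
  have hA0 : 0 ≤ A := by
    rw [hA]
    exact abs_nonneg _
  have hB0 : 0 ≤ B := by
    rw [hB]
    exact abs_nonneg _
  have hY0 : 0 ≤ Y := by
    rw [hY]
    exact abs_nonneg _
  rw [← hA, ← hB, ← hY]
  have e3 : M * (K + 3) * (A + B) * (1 + Y) - (A * 2 * M + M * (K + 1) * (A + B) * (1 + Y)) =
      M * (2 * A * Y + 2 * B + 2 * B * Y) := by ring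
  have h5 : 0 ≤ M * (2 * A * Y + 2 * B + 2 * B * Y) := by positivity
  linarith

theorem VFr_div1 {N l lo C : ℝ} (hlo : 0 < lo) (hl : lo ≤ l) (hN : |N| ≤ C) :
    |N / l ^ 2| ≤ C / lo ^ 2 := by
  have hl0 : 0 < l := lt_of_lt_of_le hlo hl
  rw [abs_div, abs_of_nonneg (sq_nonneg l)]
  have h1 : lo ^ 2 ≤ l ^ 2 := pow_le_pow_left₀ hlo.le hl 2
  exact div_le_div₀ ((abs_nonneg _).trans hN) hN (by positivity) h1

theorem VFr_div2 {N N' l l' lo C D d : ℝ} (hlo : 0 < lo) (hl : lo ≤ l) (hl1 : l ≤ 1)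
    (hl' : lo ≤ l') (hl1' : l' ≤ 1) (hN' : |N'| ≤ C) (hD : |N - N'| ≤ D) (hd : |l - l'| ≤ d) :
    |N / l ^ 2 - N' / l' ^ 2| ≤ (D + 2 * C * d) / lo ^ 4 := by
  have hl0 : 0 < l := lt_of_lt_of_le hlo hl
  have hl0' : 0 < l' := lt_of_lt_of_le hlo hl'
  have e : N / l ^ 2 - N' / l' ^ 2 =
      ((N - N') * l' ^ 2 + N' * (l' - l) * (l' + l)) / (l ^ 2 * l' ^ 2) := by
    field_simp
    ring
  rw [e, abs_div, abs_of_pos (by positivity : 0 < l ^ 2 * l' ^ 2)]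
  have h1 : lo ^ 4 ≤ l ^ 2 * l' ^ 2 := by
    calc lo ^ 4 = lo ^ 2 * lo ^ 2 := by ring
      _ ≤ l ^ 2 * l' ^ 2 := mul_le_mul (pow_le_pow_left₀ hlo.le hl 2)
          (pow_le_pow_left₀ hlo.le hl' 2) (by positivity) (by positivity)
  have h2 : |(N - N') * l' ^ 2 + N' * (l' - l) * (l' + l)| ≤ D + 2 * C * d := by
    refine (abs_add_le _ _).trans (add_le_add ?_ ?_)
    · rw [abs_mul, abs_of_nonneg (sq_nonneg l')]
      have b2 : l' ^ 2 ≤ 1 := pow_le_one₀ hl0'.le hl1'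
      calc |N - N'| * l' ^ 2 ≤ |N - N'| * 1 := mul_le_mul_of_nonneg_left b2 (abs_nonneg _)
        _ ≤ D := by
          rw [mul_one]
          exact hD
    · rw [abs_mul, abs_mul, abs_sub_comm l' l]
      have b1 : |l' + l| ≤ 2 := by
        rw [abs_of_nonneg (by linarith)]
        linarith
      have hC : 0 ≤ C := (abs_nonneg _).trans hN'
      have hd0 : 0 ≤ d := (abs_nonneg _).trans hd
      calc |N'| * |l - l'| * |l' + l| ≤ C * d * 2 :=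
            mul_le_mul (mul_le_mul hN' hd (abs_nonneg _) hC) b1 (abs_nonneg _) (by positivity)
        _ = 2 * C * d := by ring
  exact div_le_div₀ ((abs_nonneg _).trans h2) h2 (by positivity) h1

theorem VFr_unif {k : ℕ} {T α a₁ : ℝ} {U e : ℝ → ℝ → ℝ → ℝ} (ha : 0 ≤ a₁) (hα : 0 ≤ α)
    (h : UF k T α a₁ U e) : ∃ M : ℝ, 0 ≤ M ∧ ∀ a ∈ Icc (-a₁) a₁, ∀ t ∈ Icc 0 T,
      ((∀ x, |U a t x| ≤ M) ∧ (∀ x x', |U a t x - U a t x'| ≤ M * |x - x'|)) ∧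
      ((∀ x, |e a t x| ≤ M) ∧ (∀ x x', |e a t x - e a t x'| ≤ M * |x - x'|)) := by
  obtain ⟨C0, hC0, h0⟩ := UF_bound ha h 0
  obtain ⟨C1, hC1, h1⟩ := UF_bound ha h 1
  refine ⟨C0 + C1, by linarith, fun a haa t ht => ?_⟩
  have hb : ∀ x, bd (α / 2) (1 / 16) x ≤ 1 := fun x =>
    bd_le_one (by linarith) (by norm_num) x
  have b0 : ∀ x, C0 * bd (α / 2) (1 / 16) x ≤ C0 + C1 := fun x => by
    have := mul_le_mul_of_nonneg_left (hb x) hC0
    linarith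
  have b1 : ∀ x, C1 * bd (α / 2) (1 / 16) x ≤ C0 + C1 := fun x => by
    have := mul_le_mul_of_nonneg_left (hb x) hC1
    linarith
  have hA := h.app a haa
  refine ⟨⟨fun x => ?_, ?_⟩, ⟨fun x => ?_, ?_⟩⟩
  · have h2 := (h0 a haa t ht x).1
    rw [iteratedDeriv_zero] at h2
    exact h2.trans (b0 x)
  · exact VFr_lipg (hA.smooth t ht) fun x => ((h1 a haa t ht x).1).trans (b1 x)
  · have h2 := (h0 a haa t ht x).2
    rw [iteratedDeriv_zero] at h2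
    exact h2.trans (b0 x)
  · exact VFr_lipg (hA.smooth' t ht) fun x => ((h1 a haa t ht x).2).trans (b1 x)

theorem VF_props {k : ℕ} {T α a₁ lo hi X₀ : ℝ} {U e : ℝ → ℝ → ℝ → ℝ} (hk : 5 ≤ k) (hT : 0 < T)
    (ha : 0 ≤ a₁) (hα : 0 ≤ α) (hlo : 0 < lo) (hlh : lo ≤ hi) (hhi : hi ≤ 1) (hX : 0 ≤ X₀)
    (h : UF k T α a₁ U e) : ∃ L : ℝ,
    (∀ a ∈ Icc (-a₁) a₁, ∀ t ∈ Icc 0 T, ∀ P, ‖VF k lo hi X₀ (U a) (e a) t P‖ ≤ L) ∧
    (∀ a ∈ Icc (-a₁) a₁, ∀ t ∈ Icc 0 T, ∀ P P',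
      ‖VF k lo hi X₀ (U a) (e a) t P - VF k lo hi X₀ (U a) (e a) t P'‖ ≤ L * ‖P - P'‖) ∧
    (∀ a ∈ Icc (-a₁) a₁, ∀ a' ∈ Icc (-a₁) a₁, ∀ t ∈ Icc 0 T, ∀ P,
      ‖VF k lo hi X₀ (U a) (e a) t P - VF k lo hi X₀ (U a') (e a') t P‖ ≤ L * |a - a'|) ∧
    (∀ a ∈ Icc (-a₁) a₁, ∀ P, ContinuousOn (fun t => VF k lo hi X₀ (U a) (e a) t P) (Icc 0 T)) := by
  obtain ⟨M, hM, hU⟩ := VFr_unif ha hα h
  obtain ⟨C₁, hC₁, hbf⟩ := bfn_lip hk M
  obtain ⟨CL, hCL⟩ := h.lip 0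
  obtain ⟨K, hK⟩ : ∃ K, K = 2 / (k : ℝ) * lo ^ (2 / (k : ℝ) - 1) := ⟨_, rfl⟩
  have hK0 : 0 ≤ K := by
    rw [hK]
    exact mul_nonneg (VFr_s hk).1 (Real.rpow_nonneg hlo.le _)
  obtain ⟨C, hC⟩ : ∃ C, C = M * (K + 3) + 1 := ⟨_, rfl⟩
  have hC1 : 1 ≤ C := by
    rw [hC]
    have : 0 ≤ M * (K + 3) := by positivity
    linarith
  have hlm : ∀ s, lo ≤ clp lo hi s ∧ clp lo hi s ≤ 1 := fun s =>
    ⟨(VFr_clp_mem hlh s).1, (VFr_clp_mem hlh s).2.trans hhi⟩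
  have hl0 : ∀ s, 0 < clp lo hi s := fun s => lt_of_lt_of_le hlo (hlm s).1
  have hUc : ∀ a ∈ Icc (-a₁) a₁, ∀ t ∈ Icc 0 T, Continuous (U a t) ∧ Continuous (e a t) :=
    fun a haa t ht => ⟨((h.app a haa).smooth t ht).continuous,
      ((h.app a haa).smooth' t ht).continuous⟩
  have hlo2 : 0 < lo ^ 2 := by positivity
  have hlo4 : 0 < lo ^ 4 := by positivity
  obtain ⟨L, hL⟩ : ∃ L, L = (1 + C₁) / lo ^ 2 + (C₁ + 2 * (1 + C₁)) / lo ^ 4 * (2 * C) +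
    C₁ * |CL| / lo ^ 4 := ⟨_, rfl⟩
  have hp1 : 0 ≤ (1 + C₁) / lo ^ 2 := by positivity
  have hp2 : 0 ≤ (C₁ + 2 * (1 + C₁)) / lo ^ 4 * (2 * C) := by positivity
  have hp3 : 0 ≤ C₁ * |CL| / lo ^ 4 := by positivity
  -- bound of the functionals
  have hB : ∀ a ∈ Icc (-a₁) a₁, ∀ t ∈ Icc 0 T, ∀ P : ℝ × ℝ,
      |bfn k (clp lo hi P.1) (Wf k (U a t) (clp lo hi P.1) (clp (-X₀) X₀ P.2))
        (ef k (e a t) (clp lo hi P.1) (clp (-X₀) X₀ P.2))| ≤ C₁ ∧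
      |mfn k (clp lo hi P.1) (Wf k (U a t) (clp lo hi P.1) (clp (-X₀) X₀ P.2))
        (ef k (e a t) (clp lo hi P.1) (clp (-X₀) X₀ P.2))| ≤ C₁ := by
    intro a haa t ht P
    obtain ⟨⟨u0, u1⟩, ⟨v0, v1⟩⟩ := hU a haa t ht
    obtain ⟨c1, c2⟩ := hUc a haa t ht
    have h1 := hbf (clp lo hi P.1) (clp lo hi P.1)
      (Wf k (U a t) (clp lo hi P.1) (clp (-X₀) X₀ P.2))
      (Wf k (U a t) (clp lo hi P.1) (clp (-X₀) X₀ P.2))
      (ef k (e a t) (clp lo hi P.1) (clp (-X₀) X₀ P.2))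
      (ef k (e a t) (clp lo hi P.1) (clp (-X₀) X₀ P.2)) 0 (hl0 _).le (hlm _).2 (hl0 _).le
      (hlm _).2 le_rfl (by simp) (VFr_Wc k c1 _ _) (VFr_Wc k c1 _ _) (VFr_ec k c2 _ _)
      (VFr_ec k c2 _ _) (VFr_Wb hk u0 (hl0 _) (hlm _).2 _) (VFr_Wb hk u0 (hl0 _) (hlm _).2 _)
      (VFr_eb hk v0 (hl0 _) (hlm _).2 _) (VFr_eb hk v0 (hl0 _) (hlm _).2 _) (by simp) (by simp)
    exact ⟨h1.1, h1.2.1⟩
  refine ⟨L, ?_, ?_, ?_, ?_⟩
  · intro a haa t ht P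
    obtain ⟨h1, h2⟩ := hB a haa t ht P
    unfold VF
    rw [norm_prod_le_iff]
    constructor
    · have h3 := VFr_div1 hlo (hlm P.1).1 (N := -(bfn k (clp lo hi P.1)
        (Wf k (U a t) (clp lo hi P.1) (clp (-X₀) X₀ P.2))
        (ef k (e a t) (clp lo hi P.1) (clp (-X₀) X₀ P.2)))) (C := 1 + C₁) (by
          rw [abs_neg]
          linarith)
      rw [Real.norm_eq_abs]
      refine h3.trans ?_
      rw [hL]
      linarith
    · have h3 := VFr_div1 hlo (hlm P.1).1 (N := 1 + mfn k (clp lo hi P.1)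
        (Wf k (U a t) (clp lo hi P.1) (clp (-X₀) X₀ P.2))
        (ef k (e a t) (clp lo hi P.1) (clp (-X₀) X₀ P.2))) (C := 1 + C₁) (by
          refine (abs_add_le _ _).trans ?_
          rw [abs_one]
          linarith)
      rw [Real.norm_eq_abs]
      refine h3.trans ?_
      rw [hL]
      linarith
  · intro a haa t ht P P'
    obtain ⟨⟨u0, u1⟩, ⟨v0, v1⟩⟩ := hU a haa t ht
    obtain ⟨c1, c2⟩ := hUc a haa t ht
    obtain ⟨h1, h2⟩ := hB a haa t ht P'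
    obtain ⟨l, hl⟩ : ∃ l, l = clp lo hi P.1 := ⟨_, rfl⟩
    obtain ⟨l', hl'⟩ : ∃ l', l' = clp lo hi P'.1 := ⟨_, rfl⟩
    obtain ⟨x, hx⟩ : ∃ x, x = clp (-X₀) X₀ P.2 := ⟨_, rfl⟩
    obtain ⟨x', hx'⟩ : ∃ x', x' = clp (-X₀) X₀ P'.2 := ⟨_, rfl⟩
    have hle : |l - l'| ≤ |P.1 - P'.1| := by
      rw [hl, hl']
      exact VFr_clp_lip _ _ _ _
    have hxe : |x - x'| ≤ |P.2 - P'.2| := by
      rw [hx, hx']
      exact VFr_clp_lip _ _ _ _
    have hl1 := hlm P.1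
    have hl1' := hlm P'.1
    have hl2 := hl0 P.1
    have hl2' := hl0 P'.1
    rw [← hl] at hl1 hl2
    rw [← hl'] at hl1' hl2' h1 h2
    rw [← hx'] at h1 h2
    obtain ⟨d, hd⟩ : ∃ d, d = C * (|l - l'| + |x - x'|) := ⟨_, rfl⟩
    have hs0 : 0 ≤ |l - l'| + |x - x'| := by positivity
    have hld : |l - l'| ≤ d := by
      rw [hd]
      have h3 := mul_le_mul_of_nonneg_right hC1 hs0
      have h4 := abs_nonneg (x - x')
      linarith
    have hd0 : 0 ≤ d := (abs_nonneg _).trans hld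
    have hMC : M * (K + 3) ≤ C := by
      rw [hC]
      linarith
    have hMC' : M * (K + 1) ≤ C := by
      refine le_trans ?_ hMC
      exact mul_le_mul_of_nonneg_left (by linarith) hM
    have hW : ∀ y, |Wf k (U a t) l x y - Wf k (U a t) l' x' y| ≤ d * (1 + |y|) := by
      intro y
      have h3 := VFr_Wl hk hM hlo u0 u1 hl1.1 hl1'.1 hl1'.2 x x' y
      rw [← hK] at h3
      refine h3.trans ?_
      rw [hd]
      exact mul_le_mul_of_nonneg_right (mul_le_mul_of_nonneg_right hMC' hs0) (by positivity)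
    have hE : ∀ y, |ef k (e a t) l x y - ef k (e a t) l' x' y| ≤ d * (1 + |y|) := by
      intro y
      have h3 := VFr_el hk hM hlo v0 v1 hl1.1 hl1.2 hl1'.1 hl1'.2 x x' y
      rw [← hK] at h3
      refine h3.trans ?_
      rw [hd]
      exact mul_le_mul_of_nonneg_right (mul_le_mul_of_nonneg_right hMC hs0) (by positivity)
    obtain ⟨-, -, g3, g4⟩ := hbf l l' (Wf k (U a t) l x) (Wf k (U a t) l' x')
      (ef k (e a t) l x) (ef k (e a t) l' x') d hl2.le hl1.2 hl2'.le hl1'.2 hd0 hld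
      (VFr_Wc k c1 _ _) (VFr_Wc k c1 _ _) (VFr_ec k c2 _ _) (VFr_ec k c2 _ _)
      (VFr_Wb hk u0 hl2 hl1.2 _) (VFr_Wb hk u0 hl2' hl1'.2 _)
      (VFr_eb hk v0 hl2 hl1.2 _) (VFr_eb hk v0 hl2' hl1'.2 _) hW hE
    have hdP : d ≤ 2 * C * ‖P - P'‖ := by
      have n1 : |P.1 - P'.1| ≤ ‖P - P'‖ := norm_fst_le (P - P')
      have n2 : |P.2 - P'.2| ≤ ‖P - P'‖ := norm_snd_le (P - P')
      rw [hd]
      calc C * (|l - l'| + |x - x'|) ≤ C * (‖P - P'‖ + ‖P - P'‖) :=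
            mul_le_mul_of_nonneg_left (by linarith) (by linarith)
        _ = 2 * C * ‖P - P'‖ := by ring
    have hfin : (C₁ * d + 2 * (1 + C₁) * d) / lo ^ 4 ≤ L * ‖P - P'‖ := by
      calc (C₁ * d + 2 * (1 + C₁) * d) / lo ^ 4 = (C₁ + 2 * (1 + C₁)) / lo ^ 4 * d := by ring
        _ ≤ (C₁ + 2 * (1 + C₁)) / lo ^ 4 * (2 * C * ‖P - P'‖) :=
            mul_le_mul_of_nonneg_left hdP (by positivity)
        _ = (C₁ + 2 * (1 + C₁)) / lo ^ 4 * (2 * C) * ‖P - P'‖ := by ring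
        _ ≤ L * ‖P - P'‖ := by
            refine mul_le_mul_of_nonneg_right ?_ (norm_nonneg _)
            rw [hL]
            linarith
    unfold VF
    rw [← hl, ← hl', ← hx, ← hx']
    rw [Prod.mk_sub_mk, norm_prod_le_iff]
    constructor
    · rw [Real.norm_eq_abs]
      refine le_trans ?_ hfin
      refine VFr_div2 hlo hl1.1 hl1.2 hl1'.1 hl1'.2 ?_ ?_ hld
      · rw [abs_neg]
        linarith
      · rw [neg_sub_neg, abs_sub_comm]
        exact g3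
    · rw [Real.norm_eq_abs]
      refine le_trans ?_ hfin
      refine VFr_div2 hlo hl1.1 hl1.2 hl1'.1 hl1'.2 ?_ ?_ hld
      · refine (abs_add_le _ _).trans ?_
        rw [abs_one]
        linarith
      · rw [add_sub_add_left_eq_sub]
        exact g4
  · intro a haa a' haa' t ht P
    obtain ⟨⟨u0, u1⟩, ⟨v0, v1⟩⟩ := hU a haa t ht
    obtain ⟨⟨u0', u1'⟩, ⟨v0', v1'⟩⟩ := hU a' haa' t ht
    obtain ⟨c1, c2⟩ := hUc a haa t ht
    obtain ⟨c1', c2'⟩ := hUc a' haa' t ht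
    obtain ⟨h1, h2⟩ := hB a' haa' t ht P
    obtain ⟨l, hl⟩ : ∃ l, l = clp lo hi P.1 := ⟨_, rfl⟩
    obtain ⟨x, hx⟩ : ∃ x, x = clp (-X₀) X₀ P.2 := ⟨_, rfl⟩
    have hl1 := hlm P.1
    have hl2 := hl0 P.1
    rw [← hl] at hl1 hl2 h1 h2
    rw [← hx] at h1 h2
    obtain ⟨d, hd⟩ : ∃ d, d = |CL| * |a - a'| := ⟨_, rfl⟩
    have hd0 : 0 ≤ d := by
      rw [hd]
      positivity
    have hb : ∀ z, bd (α / 2) (1 / 16) z ≤ 1 := fun z =>
      bd_le_one (by linarith) (by norm_num) z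
    have hle : ∀ z, CL * |a - a'| * bd (α / 2) (1 / 16) z ≤ d := by
      intro z
      rw [hd]
      have q1 : CL * |a - a'| ≤ |CL| * |a - a'| :=
        mul_le_mul_of_nonneg_right (le_abs_self _) (abs_nonneg _)
      have q2 : 0 ≤ |CL| * |a - a'| := by positivity
      calc CL * |a - a'| * bd (α / 2) (1 / 16) z ≤ |CL| * |a - a'| * bd (α / 2) (1 / 16) z :=
            mul_le_mul_of_nonneg_right q1 (bd_pos _ _ _).le
        _ ≤ |CL| * |a - a'| * 1 := mul_le_mul_of_nonneg_left (hb z) q2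
        _ = |CL| * |a - a'| := mul_one _
    have hUa : ∀ z, |U a t z - U a' t z| ≤ d := by
      intro z
      have h3 := (hCL a haa a' haa' t ht z).1
      rw [iteratedDeriv_zero, iteratedDeriv_zero] at h3
      exact h3.trans (hle z)
    have hea : ∀ z, |e a t z - e a' t z| ≤ d := by
      intro z
      have h3 := (hCL a haa a' haa' t ht z).2
      rw [iteratedDeriv_zero, iteratedDeriv_zero] at h3
      exact h3.trans (hle z)
    have hy1 : ∀ y : ℝ, d ≤ d * (1 + |y|) := by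
      intro y
      have := mul_nonneg hd0 (abs_nonneg y)
      linarith
    have hWd : ∀ (g g' : ℝ → ℝ), (∀ z, |g z - g' z| ≤ d) → ∀ y,
        |Wf k g l x y - Wf k g' l x y| ≤ d := by
      intro g g' hgg y
      unfold Wf
      obtain ⟨p1, p2⟩ := VFr_pw (VFr_s hk).1 hl2 hl1.2
      rw [← mul_sub, abs_mul, abs_of_nonneg p1]
      calc l ^ (2 / (k : ℝ)) * |g (l * y + x) - g' (l * y + x)|
          ≤ 1 * |g (l * y + x) - g' (l * y + x)| :=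
            mul_le_mul_of_nonneg_right p2 (abs_nonneg _)
        _ ≤ d := by
            rw [one_mul]
            exact hgg _
    have hW : ∀ y, |Wf k (U a t) l x y - Wf k (U a' t) l x y| ≤ d * (1 + |y|) :=
      fun y => (hWd _ _ hUa y).trans (hy1 y)
    have hE : ∀ y, |ef k (e a t) l x y - ef k (e a' t) l x y| ≤ d * (1 + |y|) := by
      intro y
      refine le_trans ?_ (hy1 y)
      unfold ef
      rw [← mul_sub, abs_mul, abs_of_nonneg (sq_nonneg l)]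
      have b2 : l ^ 2 ≤ 1 := pow_le_one₀ hl2.le hl1.2
      calc l ^ 2 * |Wf k (e a t) l x y - Wf k (e a' t) l x y|
          ≤ 1 * |Wf k (e a t) l x y - Wf k (e a' t) l x y| :=
            mul_le_mul_of_nonneg_right b2 (abs_nonneg _)
        _ ≤ d := by
            rw [one_mul]
            exact hWd _ _ hea y
    obtain ⟨-, -, g3, g4⟩ := hbf l l (Wf k (U a t) l x) (Wf k (U a' t) l x)
      (ef k (e a t) l x) (ef k (e a' t) l x) d hl2.le hl1.2 hl2.le hl1.2 hd0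
      (by
        rw [sub_self, abs_zero]
        exact hd0)
      (VFr_Wc k c1 _ _) (VFr_Wc k c1' _ _) (VFr_ec k c2 _ _) (VFr_ec k c2' _ _)
      (VFr_Wb hk u0 hl2 hl1.2 _) (VFr_Wb hk u0' hl2 hl1.2 _)
      (VFr_eb hk v0 hl2 hl1.2 _) (VFr_eb hk v0' hl2 hl1.2 _) hW hE
    have hfin : (C₁ * d + 2 * (1 + C₁) * 0) / lo ^ 4 ≤ L * |a - a'| := by
      calc (C₁ * d + 2 * (1 + C₁) * 0) / lo ^ 4 = C₁ * |CL| / lo ^ 4 * |a - a'| := by
            rw [hd]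
            ring
        _ ≤ L * |a - a'| := by
            refine mul_le_mul_of_nonneg_right ?_ (abs_nonneg _)
            rw [hL]
            linarith
    have hll : |l - l| ≤ 0 := by simp
    unfold VF
    rw [← hl, ← hx]
    rw [Prod.mk_sub_mk, norm_prod_le_iff]
    constructor
    · rw [Real.norm_eq_abs]
      refine le_trans ?_ hfin
      refine VFr_div2 hlo hl1.1 hl1.2 hl1.1 hl1.2 ?_ ?_ hll
      · rw [abs_neg]
        linarith
      · rw [neg_sub_neg, abs_sub_comm]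
        exact g3
    · rw [Real.norm_eq_abs]
      refine le_trans ?_ hfin
      refine VFr_div2 hlo hl1.1 hl1.2 hl1.1 hl1.2 ?_ ?_ hll
      · refine (abs_add_le _ _).trans ?_
        rw [abs_one]
        linarith
      · rw [add_sub_add_left_eq_sub]
        exact g4
  · intro a haa P
    obtain ⟨l, hl⟩ : ∃ l, l = clp lo hi P.1 := ⟨_, rfl⟩
    obtain ⟨x, hx⟩ : ∃ x, x = clp (-X₀) X₀ P.2 := ⟨_, rfl⟩
    have hl1 := hlm P.1
    have hl2 := hl0 P.1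
    rw [← hl] at hl1 hl2
    have hA := h.app a haa
    obtain ⟨q1, q2⟩ := bfn_cont hk (Icc 0 T) l M (fun t => Wf k (U a t) l x)
      (fun t => ef k (e a t) l x)
      (fun t ht => VFr_Wc k (hUc a haa t ht).1 _ _) (fun t ht => VFr_ec k (hUc a haa t ht).2 _ _)
      (fun t ht => VFr_Wb hk (hU a haa t ht).1.1 hl2 hl1.2 _)
      (fun t ht => VFr_eb hk (hU a haa t ht).2.1 hl2 hl1.2 _)
      (fun y => by
        have h3 := hA.cont 0 (l * y + x)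
        simp only [iteratedDeriv_zero] at h3
        unfold Wf
        exact continuousOn_const.mul h3)
      (fun y => by
        have h3 := hA.cont' 0 (l * y + x)
        simp only [iteratedDeriv_zero] at h3
        unfold ef Wf
        exact continuousOn_const.mul (continuousOn_const.mul h3))
    unfold VF
    rw [← hl, ← hx]
    exact (q1.neg.div_const _).prodMk ((continuousOn_const.add q2).div_const _)

theorem traj_exists {k : ℕ} {T α a₁ lo hi X₀ : ℝ} {U e : ℝ → ℝ → ℝ → ℝ} (l₀ : ℝ) (hk : 5 ≤ k)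
    (hT : 0 < T) (ha : 0 ≤ a₁) (hα : 0 ≤ α) (hlo : 0 < lo) (hlh : lo ≤ hi) (hhi : hi ≤ 1)
    (hX : 0 ≤ X₀) (h : UF k T α a₁ U e) : ∃ P, Traj k T a₁ l₀ lo hi X₀ U e P := by
  obtain ⟨L, h1, h2, h3, h4⟩ := VF_props hk hT ha hα hlo hlh hhi hX h
  obtain ⟨P, p1, p2, p3⟩ := ode_family T a₁ L hT
    (fun a t P => VF k lo hi X₀ (U a) (e a) t P) (l₀, 0) h1 h2 h3 h4
  exact ⟨P, ⟨p1, p2, p3⟩⟩

end H72KB
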