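import Pool.Agent.H72.KB.Stat
import Pool.Agent.H72.KB.FlowR
import Pool.Agent.H72.KB.VFr
import Pool.Agent.H72.KB.DerI
import Pool.Agent.H72.KB.DerE
import Pool.Agent.H72.KB.DerV
import Pool.Agent.H72.KB.ConE
import Pool.Agent.H72.KB.ConV

/-!
# Row Glue: continuity and time derivatives of all functionals along the trajectories

`con_all`: `fam_epa` + `con_E`, `con_V`, `con_I`, `con_X` (`LL = M * Ef + Vf`; `ph0, Q, Q'` are continuous and bounded: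
`Q_cl`, `Cl_deriv`, `|ph0| ≤ Q`); `P` is jointly continuous (`Traj.cont`).
`der_all`: `L` from `VF_props` (`hi ≤ 1` since `16 R hi ≤ 1`, `R ≥ 1`); `flow_epa` gives `J` and the `Flow`; `der_E`, `der_V`, `der_I`,
`der_X` at `t ∈ J`; `lb = (P a t).1` at points of `J` (clips inactive: `clp lo hi s = s` for `lo ≤ s ≤ hi`), `J` open
(`Flow.op`) for the `HasDerivAt` of `(P a ·).1`: `Flow.dl` and `HasDerivAt.congr_of_eventuallyEq`, or directly from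
`Traj.ode` (`HasDerivAt.fst`, `.snd`; at `t` the clips are inactive, `VF = (-b/l², (1+m)/l²)`).
-/

open MeasureTheory Filter Topology Set
open scoped ContDiff

namespace H72KB

open H98KB

theorem Glue_bnd {k : ℕ} (hk : 5 ≤ k) : ∃ C : ℝ, (∀ y, |ph0 k y| ≤ C) ∧ (∀ y, |Qf k y| ≤ C) ∧
    ∀ y, |deriv (Qf k) y| ≤ C := by
  have hk1 : 1 ≤ k := by omega
  obtain ⟨C0, hC0, h0⟩ := ClB_pos (Q_cl hk1) 0
  obtain ⟨C1, hC1, h1⟩ := ClB_pos (Q_cl hk1) 1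
  have hb : ∀ y, bd 1 1 y ≤ 1 := fun y => bd_le_one (by norm_num) (by norm_num) y
  have hQ : ∀ y, |Qf k y| ≤ C0 := by
    intro y
    have h := h0 y
    rw [iteratedDeriv_zero] at h
    exact h.trans (mul_le_of_le_one_right hC0 (hb y))
  have hQ' : ∀ y, |deriv (Qf k) y| ≤ C1 := by
    intro y
    have h := h1 y
    rw [iteratedDeriv_one] at h
    exact h.trans (mul_le_of_le_one_right hC1 (hb y))
  refine ⟨C0 + C1, fun y => ?_, fun y => (hQ y).trans (by linarith), fun y =>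
    (hQ' y).trans (by linarith)⟩
  have h2 : |ph0 k y| ≤ |Qf k y| := by
    unfold ph0
    rw [abs_div, abs_of_pos (Real.cosh_pos _)]
    exact div_le_self (abs_nonneg _) (Real.one_le_cosh _)
  exact h2.trans ((hQ y).trans (by linarith))

theorem Glue_cont {k : ℕ} (hk : 5 ≤ k) : Continuous (ph0 k) ∧ Continuous (Qf k) ∧
    Continuous (deriv (Qf k)) := by
  have hk1 : 1 ≤ k := by omega
  have hQ : Continuous (Qf k) := (Q_cl hk1).1.continuous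
  refine ⟨?_, hQ, (Cl_deriv (Q_cl hk1)).1.continuous⟩
  show Continuous (fun y => Qf k y / Real.cosh ((k : ℝ) * y / 2))
  exact hQ.div (Real.continuous_cosh.comp (by fun_prop)) (fun y => (Real.cosh_pos _).ne')

theorem con_all {k : ℕ} {T α a₁ l₀ lo hi X₀ R : ℝ} {U e : ℝ → ℝ → ℝ → ℝ} {P : ℝ → ℝ → ℝ × ℝ}
    (hk : 5 ≤ k) (hT : 0 < T) (ha : 0 ≤ a₁) (hR : 1 ≤ R) (hα : α = 4 * R) (hlo : 0 < lo)
    (hlh : lo ≤ hi) (hhi : 16 * R * hi ≤ 1) (hX : 0 ≤ X₀) (h : UF k T α a₁ U e)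
    (hP : Traj k T a₁ l₀ lo hi X₀ U e P) (γ η M : ℝ) {δ B : ℝ} (hB : 0 < B) (hδ : 0 < δ) :
    ContinuousOn (fun z : ℝ × ℝ => (P z.1 z.2).1) (Icc (-a₁) a₁ ×ˢ Icc 0 T) ∧
    ContinuousOn (fun z : ℝ × ℝ => (P z.1 z.2).2) (Icc (-a₁) a₁ ×ˢ Icc 0 T) ∧
    ContinuousOn (fun z : ℝ × ℝ => LL k η γ δ M B (R * lb lo hi P z.1 z.2)
      (epa k lo hi X₀ U P z.1 z.2)) (Icc (-a₁) a₁ ×ˢ Icc 0 T) ∧
    ContinuousOn (fun z : ℝ × ℝ => ip (epa k lo hi X₀ U P z.1 z.2) (ph0 k))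
      (Icc (-a₁) a₁ ×ˢ Icc 0 T) ∧
    ContinuousOn (fun z : ℝ × ℝ => ip (epa k lo hi X₀ U P z.1 z.2) (Qf k))
      (Icc (-a₁) a₁ ×ˢ Icc 0 T) ∧
    ContinuousOn (fun z : ℝ × ℝ => ip (epa k lo hi X₀ U P z.1 z.2) (deriv (Qf k)))
      (Icc (-a₁) a₁ ×ˢ Icc 0 T) ∧
    ContinuousOn (fun z : ℝ × ℝ => Xn (epa k lo hi X₀ U P z.1 z.2))
      (Icc (-a₁) a₁ ×ˢ Icc 0 T) := by
  have hk1 : 1 ≤ k := by omega
  have F := fam_epa hk hT ha hR hα hlo hlh hhi hX h hP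
  obtain ⟨C, hC1, hC2, hC3⟩ := Glue_bnd hk
  obtain ⟨hc1, hc2, hc3⟩ := Glue_cont hk
  refine ⟨continuous_fst.comp_continuousOn hP.cont, continuous_snd.comp_continuousOn hP.cont, ?_,
    con_I F _ hc1 C hC1, con_I F _ hc2 C hC2, con_I F _ hc3 C hC3, con_X F⟩
  exact ((con_E hk1 F hB).const_mul M).add (con_V hk1 F hB hδ η γ)

theorem der_all {k : ℕ} {T α a₁ l₀ lo hi X₀ R : ℝ} {U e : ℝ → ℝ → ℝ → ℝ} {P : ℝ → ℝ → ℝ × ℝ}
    (hk : 5 ≤ k) (hT : 0 < T) (ha : 0 ≤ a₁) (hR : 1 ≤ R) (hα : α = 4 * R) (hlo : 0 < lo)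
    (hlh : lo ≤ hi) (hhi : 16 * R * hi ≤ 1) (hX : 0 ≤ X₀) (h : UF k T α a₁ U e)
    (hP : Traj k T a₁ l₀ lo hi X₀ U e P) (γ η M : ℝ) {δ B : ℝ} (hB : 0 < B) (hδ : 0 < δ)
    {a t : ℝ} (haI : a ∈ Icc (-a₁) a₁) (ht : t ∈ Ioo 0 T) (h1 : lo < (P a t).1)
    (h2 : (P a t).1 < hi) (h3 : |(P a t).2| < X₀) {b m l : ℝ} {ε E : ℝ → ℝ}
    (hl : l = (P a t).1) (hb : b = ba k lo hi X₀ U e P a t) (hm : m = ma k lo hi X₀ U e P a t)
    (hε : ε = epa k lo hi X₀ U P a t) (hE : E = eaa k lo hi X₀ e P a t) :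
    HasDerivAt (fun s => (P a s).1) (-b / l ^ 2) t ∧
    HasDerivAt (fun s => (P a s).2) ((1 + m) / l ^ 2) t ∧
    HasDerivAt (fun s => LL k η γ δ M B (R * lb lo hi P a s) (epa k lo hi X₀ U P a s))
      (W3 k η γ δ M B R l b m ε E / l ^ 3) t ∧
    HasDerivAt (fun s => ip (epa k lo hi X₀ U P a s) (ph0 k))
      (ip (zeta k b m l ε E) (ph0 k) / l ^ 3) t ∧
    HasDerivAt (fun s => ip (epa k lo hi X₀ U P a s) (Qf k))
      (ip (zeta k b m l ε E) (Qf k) / l ^ 3) t ∧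
    HasDerivAt (fun s => ip (epa k lo hi X₀ U P a s) (deriv (Qf k)))
      (ip (zeta k b m l ε E) (deriv (Qf k)) / l ^ 3) t ∧
    HasDerivAt (fun s => Xn (epa k lo hi X₀ U P a s))
      (2 * ip (deriv ε) (deriv (zeta k b m l ε E)) / l ^ 3) t := by
  have hk1 : 1 ≤ k := by omega
  have hhi1 : hi ≤ 1 := by nlinarith
  obtain ⟨L, hL, -, -, -⟩ := VF_props hk hT ha (by rw [hα]; linarith) hlo hlh hhi1 hX h
  obtain ⟨J, htJ, hJT, hJc, F⟩ := flow_epa hk hT ha hR hα hlo hlh hhi hX h hP L hL haI ht h1 h2 h3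
  obtain ⟨C, hC1, hC2, hC3⟩ := Glue_bnd hk
  obtain ⟨hc1, hc2, hc3⟩ := Glue_cont hk
  have hlt : lb lo hi P a t = l := by
    rw [hl]
    exact FlowR_clp h1 h2
  have hode := hP.ode a haI t ht
  have e1 : clp lo hi (P a t).1 = l := hlt
  subst hb hm hε hE
  have hI := fun φ (hφ : Continuous φ) (hC : ∀ y, |φ y| ≤ C) => der_I hk1 F φ hφ C hC htJ
  have hX' := der_X hk1 F htJ
  have hE' := der_E hk1 F hB htJ
  have hV' := der_V hk1 F hB hδ η γ htJ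
  simp only [hlt] at hI hX' hE' hV'
  refine ⟨?_, ?_, ?_, hI _ hc1 hC1, hI _ hc2 hC2, hI _ hc3 hC3, hX'⟩
  · have h4 : HasDerivAt (fun s => (P a s).1) (VF k lo hi X₀ (U a) (e a) t (P a t)).1 t :=
      (hasFDerivAt_fst (𝕜 := ℝ) (p := P a t)).comp_hasDerivAt t hode
    have e2 : (VF k lo hi X₀ (U a) (e a) t (P a t)).1 = -ba k lo hi X₀ U e P a t / l ^ 2 := by
      show -(ba k lo hi X₀ U e P a t) / (clp lo hi (P a t).1) ^ 2 = _
      rw [e1]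
    rw [e2] at h4
    exact h4
  · have h4 : HasDerivAt (fun s => (P a s).2) (VF k lo hi X₀ (U a) (e a) t (P a t)).2 t :=
      (hasFDerivAt_snd (𝕜 := ℝ) (p := P a t)).comp_hasDerivAt t hode
    have e2 : (VF k lo hi X₀ (U a) (e a) t (P a t)).2 =
        (1 + ma k lo hi X₀ U e P a t) / l ^ 2 := by
      show (1 + ma k lo hi X₀ U e P a t) / (clp lo hi (P a t).1) ^ 2 = _
      rw [e1]
    rw [e2] at h4
    exact h4
  · have h4 := (hE'.const_mul M).add hV'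
    have e2 : W3 k η γ δ M B R l (ba k lo hi X₀ U e P a t) (ma k lo hi X₀ U e P a t)
        (epa k lo hi X₀ U P a t) (eaa k lo hi X₀ e P a t) / l ^ 3 =
        M * (DE k B (R * l) (ba k lo hi X₀ U e P a t) (epa k lo hi X₀ U P a t)
          (zeta k (ba k lo hi X₀ U e P a t) (ma k lo hi X₀ U e P a t) l
            (epa k lo hi X₀ U P a t) (eaa k lo hi X₀ e P a t)) / l ^ 3) +
        DV k η γ B δ (epa k lo hi X₀ U P a t)
          (zeta k (ba k lo hi X₀ U e P a t) (ma k lo hi X₀ U e P a t) l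
            (epa k lo hi X₀ U P a t) (eaa k lo hi X₀ e P a t)) / l ^ 3 := by
      unfold W3
      ring
    rw [e2]
    exact h4

end H72KB
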