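import Pool.Agent.H72.KB.Shoot
import Pool.Agent.H72.KB.Glue

/-! # Core: the shooting argument along the trajectories -/

open MeasureTheory Filter Topology Set
open scoped ContDiff

namespace H72KB

open H98KB

theorem core_clp {lo hi s : ℝ} (h1 : lo ≤ s) (h2 : s ≤ hi) : clp lo hi s = s := by
  unfold clp
  rw [min_eq_left h2, max_eq_right h1]

theorem core {k : ℕ} (hk : 5 ≤ k) {γ η δ M B : ℝ} (hB : 0 < B) (hδ : 0 < δ)
    {K2 K3 K6 K7 μ R l₀ a₁ T α lm X₀ ν₁ : ℝ} (hκ : 0 < kap k) (hμ : 0 < μ) (hK3 : 0 < K3)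
    (hK7 : 0 < K7) (hR : 1 ≤ R) (hα : α = 4 * R) (hl₀ : 0 < l₀) (hRl : 32 * R * l₀ ≤ 1)
    (hT : T = l₀ ^ 2 / kap k) (ha₁ : 0 < a₁) (hlm : 0 < lm) (hlm' : lm ≤ l₀)
    (hX₀ : X₀ = 2 + 2 / lm ^ 2 * T) {U e : ℝ → ℝ → ℝ → ℝ} {P : ℝ → ℝ → ℝ × ℝ}
    (hU : UF k T α a₁ U e) (hP : Traj k T a₁ l₀ (lm / 2) (2 * l₀) X₀ U e P)
    (hdyn : ∀ a ∈ Icc (-a₁) a₁, ∀ t ∈ Icc 0 T, lm / 2 < (P a t).1 → (P a t).1 < 2 * l₀ →
      |(P a t).2| < X₀ →
      Reg k γ η δ M B R μ K2 K3 K6 K7 ν₁ (P a t).1 (epa k (lm / 2) (2 * l₀) X₀ U P a t) →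
      lm ≤ (P a t).1 ∧
      Dyn k γ η δ M B R μ K2 K3 K6 K7 (P a t).1 (ba k (lm / 2) (2 * l₀) X₀ U e P a t)
        (ma k (lm / 2) (2 * l₀) X₀ U e P a t) (epa k (lm / 2) (2 * l₀) X₀ U P a t)
        (eaa k (lm / 2) (2 * l₀) X₀ e P a t))
    (hini : ∀ a ∈ Icc (-a₁) a₁,
      Reg k γ η δ M B R μ K2 K3 K6 K7 ν₁ l₀ (epa k (lm / 2) (2 * l₀) X₀ U P a 0))
    (hend : ∀ a ∈ Icc (-a₁) a₁, |a| = a₁ →
      LL k η γ δ M B (R * l₀) (epa k (lm / 2) (2 * l₀) X₀ U P a 0) < -(μ * l₀) ∧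
      0 < ip (epa k (lm / 2) (2 * l₀) X₀ U P a 0) (ph0 k) * (a * ip (nf k) (ph0 k))) :
    False := by
  have hT0 : 0 < T := by rw [hT]; positivity
  have hX0 : 0 ≤ X₀ := by rw [hX₀]; positivity
  have hlo : 0 < lm / 2 := by positivity
  have hlh : lm / 2 ≤ 2 * l₀ := by linarith
  have hhi : 16 * R * (2 * l₀) ≤ 1 := by linarith
  obtain ⟨c1, c2, c3, c4, c5, c6, c7⟩ := con_all hk hT0 ha₁.le hR hα hlo hlh hhi hX0 hU hP γ η M
    hB hδ
  set lam : ℝ × ℝ → ℝ := fun z => (P z.1 z.2).1 with hlam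
  set xx : ℝ × ℝ → ℝ := fun z => (P z.1 z.2).2 with hxx
  set W : ℝ × ℝ → ℝ := fun z => LL k η γ δ M B (R * lb (lm / 2) (2 * l₀) P z.1 z.2)
      (epa k (lm / 2) (2 * l₀) X₀ U P z.1 z.2) with hW
  set φ : ℝ × ℝ → ℝ := fun z => ip (epa k (lm / 2) (2 * l₀) X₀ U P z.1 z.2) (ph0 k) with hφ
  set pp : ℝ × ℝ → ℝ := fun z => ip (epa k (lm / 2) (2 * l₀) X₀ U P z.1 z.2) (Qf k) with hpp
  set qq : ℝ × ℝ → ℝ := fun z => ip (epa k (lm / 2) (2 * l₀) X₀ U P z.1 z.2) (deriv (Qf k))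
    with hqq
  set X : ℝ × ℝ → ℝ := fun z => Xn (epa k (lm / 2) (2 * l₀) X₀ U P z.1 z.2) with hX
  -- the barrier functions
  set wv : Fin 9 → ℝ × ℝ → ℝ := ![
    fun z => μ * lam z - W z,
    fun z => K3 * μ * lam z - ((φ z) ^ 2 + K2 * W z),
    fun z => K7 * lam z - (X z + K6 * W z),
    fun z => 2 * l₀ - lam z,
    fun z => lam z - lm / 2,
    fun z => 1 + 2 / lm ^ 2 * z.2 - xx z,
    fun z => 1 + xx z,
    fun z => ν₁ ^ 2 - (pp z) ^ 2,
    fun z => ν₁ ^ 2 - (qq z) ^ 2] with hwd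
  have hall : ∀ z, (∀ i, 0 < wv i z) ↔ (0 < μ * lam z - W z ∧
      0 < K3 * μ * lam z - ((φ z) ^ 2 + K2 * W z) ∧ 0 < K7 * lam z - (X z + K6 * W z) ∧
      0 < 2 * l₀ - lam z ∧ 0 < lam z - lm / 2 ∧ 0 < 1 + 2 / lm ^ 2 * z.2 - xx z ∧
      0 < 1 + xx z ∧ 0 < ν₁ ^ 2 - (pp z) ^ 2 ∧ 0 < ν₁ ^ 2 - (qq z) ^ 2) := by
    intro z
    constructor
    · intro h
      exact ⟨h 0, h 1, h 2, h 3, h 4, h 5, h 6, h 7, h 8⟩
    · rintro ⟨h0, h1, h2, h3, h4, h5, h6, h7, h8⟩ i
      fin_cases i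
      · exact h0
      · exact h1
      · exact h2
      · exact h3
      · exact h4
      · exact h5
      · exact h6
      · exact h7
      · exact h8
  have hlb : ∀ a t, lm / 2 < (P a t).1 → (P a t).1 < 2 * l₀ →
      lb (lm / 2) (2 * l₀) P a t = (P a t).1 := by
    intro a t h1 h2
    exact core_clp h1.le h2.le
  -- the state in the region
  have key : ∀ a ∈ Icc (-a₁) a₁, ∀ t ∈ Icc 0 T, (∀ i, 0 < wv i (a, t)) →
      0 < W (a, t) + 4 * μ * lam (a, t) →
      (lm / 2 < (P a t).1 ∧ (P a t).1 < 2 * l₀ ∧ |(P a t).2| < X₀ ∧ lm ≤ (P a t).1 ∧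
        W (a, t) = LL k η γ δ M B (R * (P a t).1) (epa k (lm / 2) (2 * l₀) X₀ U P a t) ∧
      Dyn k γ η δ M B R μ K2 K3 K6 K7 (P a t).1 (ba k (lm / 2) (2 * l₀) X₀ U e P a t)
        (ma k (lm / 2) (2 * l₀) X₀ U e P a t) (epa k (lm / 2) (2 * l₀) X₀ U P a t)
        (eaa k (lm / 2) (2 * l₀) X₀ e P a t)) := by
    intro a ha t ht hhwv hr
    rw [hall] at hhwv
    obtain ⟨h0, h1, h2, h3, h4, h5, h6, h7, h8⟩ := hhwv
    have g1 : lm / 2 < (P a t).1 := by
      have := h4; simp only [hlam] at this; linarith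
    have g2 : (P a t).1 < 2 * l₀ := by
      have := h3; simp only [hlam] at this; linarith
    have g3 : |(P a t).2| < X₀ := by
      have e5 := h5
      have e6 := h6
      simp only [hxx] at e5 e6
      have ht2 : 2 / lm ^ 2 * t ≤ 2 / lm ^ 2 * T :=
        mul_le_mul_of_nonneg_left ht.2 (by positivity)
      rw [hX₀, abs_lt]
      have : 0 ≤ 2 / lm ^ 2 * T := by positivity
      constructor <;> linarith
    have gW : W (a, t) = LL k η γ δ M B (R * (P a t).1) (epa k (lm / 2) (2 * l₀) X₀ U P a t) := by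
      simp only [hW, hlb a t g1 g2]
    have hreg : Reg k γ η δ M B R μ K2 K3 K6 K7 ν₁ (P a t).1
        (epa k (lm / 2) (2 * l₀) X₀ U P a t) := by
      refine ⟨?_, ?_, ?_, ?_, ?_, ?_⟩
      · rw [← gW]
        have := hr
        simp only [hlam] at this
        linarith
      · rw [← gW]
        have := h0
        simp only [hlam] at this
        linarith
      · rw [← gW]
        have := h1
        simp only [hlam, hφ] at this
        linarith
      · rw [← gW]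
        have := h2
        simp only [hlam, hX] at this
        linarith
      · have := h7
        simp only [hpp] at this
        linarith
      · have := h8
        simp only [hqq] at this
        linarith
    obtain ⟨d1, d2⟩ := hdyn a ha t ht g1 g2 g3 hreg
    exact ⟨g1, g2, g3, d1, gW, d2⟩
  have hder : ∀ a ∈ Icc (-a₁) a₁, ∀ t ∈ Ioo 0 T, lm / 2 < (P a t).1 → (P a t).1 < 2 * l₀ →
      |(P a t).2| < X₀ → _ := fun a ha t ht g1 g2 g3 =>
    der_all hk hT0 ha₁.le hR hα hlo hlh hhi hX0 hU hP γ η M hB hδ ha ht g1 g2 g3 rfl rfl rfl rfl rfl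
  have hI1 : a₁ ∈ Icc (-a₁) a₁ := ⟨by linarith, le_refl _⟩
  have hI2 : -a₁ ∈ Icc (-a₁) a₁ := ⟨le_refl _, by linarith⟩
  have hP0 : ∀ a ∈ Icc (-a₁) a₁, lam (a, 0) = l₀ ∧ xx (a, 0) = 0 := by
    intro a ha
    have := hP.init a ha
    simp only [hlam, hxx, this, and_self]
  have hW0 : ∀ a ∈ Icc (-a₁) a₁, W (a, 0) =
      LL k η γ δ M B (R * l₀) (epa k (lm / 2) (2 * l₀) X₀ U P a 0) := by
    intro a ha
    have h1 : (P a 0).1 = l₀ := (hP0 a ha).1
    simp only [hW]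
    rw [hlb a 0 (by rw [h1]; linarith) (by rw [h1]; linarith), h1]
  have hsub : ∀ t, t ∈ Ioo (0:ℝ) T → t ∈ Icc (0:ℝ) T := fun t h => ⟨h.1.le, h.2.le⟩
  refine shoot a₁ T ha₁ hT0 (fun z => W z + μ * lam z) φ (fun z => W z + 4 * μ * lam z) wv
    (c3.add (c1.const_mul μ |>.congr fun _ _ => rfl)) c4
    (c3.add ((c1.const_mul (4 * μ)).congr fun _ _ => rfl)) ?_ ?_ ?_ ?_ ?_ ?_ ?_ ?_ ?_ ?_ ?_
  · -- continuity of wv
    intro i
    fin_cases i
    · exact (continuousOn_const.mul c1).sub c3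
    · exact (continuousOn_const.mul c1).sub ((c4.pow 2).add (continuousOn_const.mul c3))
    · exact (continuousOn_const.mul c1).sub (c7.add (continuousOn_const.mul c3))
    · exact continuousOn_const.sub c1
    · exact c1.sub continuousOn_const
    · exact (continuousOn_const.add (continuousOn_const.mul continuousOn_snd)).sub c2
    · exact continuousOn_const.add c2
    · exact continuousOn_const.sub (c5.pow 2)
    · exact continuousOn_const.sub (c6.pow 2)
  · -- initial positivity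
    intro a ha
    rw [hall]
    have hr := hini a ha
    obtain ⟨h1, h2⟩ := hP0 a ha
    have e0 := hr.w1
    have e1 := hr.w2
    have e2 := hr.w3
    have e7 := hr.wp
    have e8 := hr.wq
    rw [← hW0 a ha] at e0 e1 e2
    rw [h1, h2]
    simp only [hφ, hX, hpp, hqq]
    refine ⟨by linarith, by linarith, by linarith, by linarith, by linarith, by norm_num, by norm_num,
      by linarith, by linarith⟩
  · intro a ha
    have h := (hini a ha).w0
    rw [← hW0 a ha] at h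
    have h1 := (hP0 a ha).1
    simp only [h1]
    linarith
  · intro a ha t ht hwv hh
    rw [hall] at hwv
    have h4 := hwv.2.2.2.2.1
    have : 0 < lam (a, t) := by linarith
    have := mul_pos hμ this
    have hh' : 0 ≤ W (a, t) + μ * lam (a, t) := hh
    show 0 < W (a, t) + 4 * μ * lam (a, t)
    linarith
  · -- barriers
    have hb0 : ∀ a ∈ Icc (-a₁) a₁, ∀ t ∈ Ioo 0 T, (∀ i, 0 < wv i (a, t)) →
      0 < W (a, t) + 4 * μ * lam (a, t) → 0 < (P a t).1 ∧
        0 ≤ ba k (lm / 2) (2 * l₀) X₀ U e P a t := by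
      intro a ha t ht hwv hr
      obtain ⟨g1, g2, g3, g4, g5, g6⟩ := key a ha t (hsub t ht) hwv hr
      have : 0 < (P a t).1 := by linarith
      exact ⟨this, le_trans (by positivity) g6.b1⟩
    intro i
    fin_cases i
    · refine ⟨μ * lm / 4, by positivity, ?_⟩
      intro a ha t ht hwv hr hlt
      obtain ⟨g1, g2, g3, g4, g5, g6⟩ := key a ha t (hsub t ht) hwv hr
      obtain ⟨p1, p2⟩ := hb0 a ha t ht hwv hr
      obtain ⟨d1, d2, d3, d4, d5, d6, d7⟩ := hder a ha t ht g1 g2 g3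
      have hlt' : μ * (P a t).1 - W (a, t) < μ * lm / 4 := hlt
      have hm : μ * lm ≤ μ * (P a t).1 := mul_le_mul_of_nonneg_left g4 hμ.le
      have hm0 : 0 < μ * (P a t).1 := mul_pos hμ p1
      have ht1 := g6.t1 (by
        rw [← g5, abs_of_nonneg (by linarith)]
        linarith)
      refine ⟨_, ?_, (d1.const_mul μ).sub d3⟩
      have : μ * (-ba k (lm / 2) (2 * l₀) X₀ U e P a t / (P a t).1 ^ 2) -
          W3 k η γ δ M B R (P a t).1 (ba k (lm / 2) (2 * l₀) X₀ U e P a t)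
            (ma k (lm / 2) (2 * l₀) X₀ U e P a t) (epa k (lm / 2) (2 * l₀) X₀ U P a t)
            (eaa k (lm / 2) (2 * l₀) X₀ e P a t) / (P a t).1 ^ 3 =
          (-(μ * ba k (lm / 2) (2 * l₀) X₀ U e P a t * (P a t).1) -
          W3 k η γ δ M B R (P a t).1 (ba k (lm / 2) (2 * l₀) X₀ U e P a t)
            (ma k (lm / 2) (2 * l₀) X₀ U e P a t) (epa k (lm / 2) (2 * l₀) X₀ U P a t)
            (eaa k (lm / 2) (2 * l₀) X₀ e P a t)) / (P a t).1 ^ 3 := by
        field_simp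
      rw [this]
      exact div_nonneg (by linarith) (by positivity)
    · refine ⟨K3 * μ * lm / 4, by positivity, ?_⟩
      intro a ha t ht hwv hr hlt
      obtain ⟨g1, g2, g3, g4, g5, g6⟩ := key a ha t (hsub t ht) hwv hr
      obtain ⟨p1, p2⟩ := hb0 a ha t ht hwv hr
      obtain ⟨d1, d2, d3, d4, d5, d6, d7⟩ := hder a ha t ht g1 g2 g3
      have hlt' : K3 * μ * (P a t).1 - ((φ (a, t)) ^ 2 + K2 * W (a, t)) < K3 * μ * lm / 4 := hlt
      have hm : K3 * μ * lm ≤ K3 * μ * (P a t).1 := mul_le_mul_of_nonneg_left g4 (by positivity)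
      have hm0 : 0 < K3 * μ * (P a t).1 := by positivity
      have ht1 := g6.t2 (by
        rw [← g5]
        show _ ≤ (φ (a, t)) ^ 2 + K2 * W (a, t)
        linarith)
      refine ⟨_, ?_, (d1.const_mul (K3 * μ)).sub ((d4.pow 2).add (d3.const_mul K2))⟩
      generalize W3 k η γ δ M B R (P a t).1 (ba k (lm / 2) (2 * l₀) X₀ U e P a t)
            (ma k (lm / 2) (2 * l₀) X₀ U e P a t) (epa k (lm / 2) (2 * l₀) X₀ U P a t)
            (eaa k (lm / 2) (2 * l₀) X₀ e P a t) = w at ht1 ⊢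
      generalize ip (zeta k (ba k (lm / 2) (2 * l₀) X₀ U e P a t)
        (ma k (lm / 2) (2 * l₀) X₀ U e P a t) (P a t).1 (epa k (lm / 2) (2 * l₀) X₀ U P a t)
            (eaa k (lm / 2) (2 * l₀) X₀ e P a t)) (ph0 k) = w' at ht1 ⊢
      generalize ba k (lm / 2) (2 * l₀) X₀ U e P a t = bb at ht1 ⊢
      generalize ip (epa k (lm / 2) (2 * l₀) X₀ U P a t) (ph0 k) = f at ht1 ⊢
      generalize (P a t).1 = l at ht1 p1 ⊢
      have : K3 * μ * (-bb / l ^ 2) - (((2 : ℕ) : ℝ) * f ^ (2 - 1) * (w' / l ^ 3) + K2 * (w / l ^ 3)) =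
          (-(K3 * μ * bb * l) - (2 * f * w' + K2 * w)) / l ^ 3 := by
        push_cast
        field_simp
      rw [this]
      exact div_nonneg (by linarith) (by positivity)
    · refine ⟨K7 * lm / (k + 4), by positivity, ?_⟩
      intro a ha t ht hwv hr hlt
      obtain ⟨g1, g2, g3, g4, g5, g6⟩ := key a ha t (hsub t ht) hwv hr
      obtain ⟨p1, p2⟩ := hb0 a ha t ht hwv hr
      obtain ⟨d1, d2, d3, d4, d5, d6, d7⟩ := hder a ha t ht g1 g2 g3
      have hlt' : K7 * (P a t).1 - (X (a, t) + K6 * W (a, t)) < K7 * lm / (k + 4) := hlt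
      have hk0 : (0 : ℝ) < (k : ℝ) + 4 := by positivity
      have hm : K7 * lm / (k + 4) ≤ K7 * (P a t).1 / (k + 4) :=
        div_le_div_of_nonneg_right (mul_le_mul_of_nonneg_left g4 hK7.le) hk0.le
      have hm2 : K7 * (P a t).1 / (k + 4) = K7 * (P a t).1 -
        ((k : ℝ) + 3) / ((k : ℝ) + 4) * K7 * (P a t).1 := by
        field_simp
        ring
      have ht1 := g6.t3 (by
        rw [← g5]
        show _ ≤ X (a, t) + K6 * W (a, t)
        linarith)
      refine ⟨_, ?_, (d1.const_mul K7).sub (d7.add (d3.const_mul K6))⟩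
      generalize W3 k η γ δ M B R (P a t).1 (ba k (lm / 2) (2 * l₀) X₀ U e P a t)
            (ma k (lm / 2) (2 * l₀) X₀ U e P a t) (epa k (lm / 2) (2 * l₀) X₀ U P a t)
            (eaa k (lm / 2) (2 * l₀) X₀ e P a t) = w at ht1 ⊢
      generalize ip (deriv (epa k (lm / 2) (2 * l₀) X₀ U P a t))
        (deriv (zeta k (ba k (lm / 2) (2 * l₀) X₀ U e P a t)
        (ma k (lm / 2) (2 * l₀) X₀ U e P a t) (P a t).1 (epa k (lm / 2) (2 * l₀) X₀ U P a t)
            (eaa k (lm / 2) (2 * l₀) X₀ e P a t))) = w' at ht1 ⊢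
      generalize ba k (lm / 2) (2 * l₀) X₀ U e P a t = bb at ht1 ⊢
      generalize (P a t).1 = l at ht1 p1 ⊢
      have : K7 * (-bb / l ^ 2) - (2 * w' / l ^ 3 + K6 * (w / l ^ 3)) =
          (-(K7 * bb * l) - (2 * w' + K6 * w)) / l ^ 3 := by
        field_simp
      rw [this]
      exact div_nonneg (by linarith) (by positivity)
    · refine ⟨1, one_pos, ?_⟩
      intro a ha t ht hwv hr hlt
      obtain ⟨g1, g2, g3, g4, g5, g6⟩ := key a ha t (hsub t ht) hwv hr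
      obtain ⟨p1, p2⟩ := hb0 a ha t ht hwv hr
      obtain ⟨d1, d2, d3, d4, d5, d6, d7⟩ := hder a ha t ht g1 g2 g3
      refine ⟨_, ?_, d1.const_sub (2 * l₀)⟩
      rw [neg_div, neg_neg]
      positivity
    · refine ⟨lm / 2, hlo, ?_⟩
      intro a ha t ht hwv hr hlt
      obtain ⟨g1, g2, g3, g4, g5, g6⟩ := key a ha t (hsub t ht) hwv hr
      have hlt' : (P a t).1 - lm / 2 < lm / 2 := hlt
      exfalso
      linarith
    · refine ⟨1, one_pos, ?_⟩
      intro a ha t ht hwv hr hlt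
      obtain ⟨g1, g2, g3, g4, g5, g6⟩ := key a ha t (hsub t ht) hwv hr
      obtain ⟨p1, p2⟩ := hb0 a ha t ht hwv hr
      obtain ⟨d1, d2, d3, d4, d5, d6, d7⟩ := hder a ha t ht g1 g2 g3
      refine ⟨_, ?_, (((hasDerivAt_id t).const_mul (2 / lm ^ 2)).const_add 1).sub d2⟩
      have hm1 := (abs_le.mp g6.m1).2
      have : (1 + ma k (lm / 2) (2 * l₀) X₀ U e P a t) / (P a t).1 ^ 2 ≤ 2 / lm ^ 2 := by
        apply div_le_div₀ (by norm_num) (by linarith) (by positivity)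
        exact pow_le_pow_left₀ hlm.le g4 2
      linarith
    · refine ⟨1, one_pos, ?_⟩
      intro a ha t ht hwv hr hlt
      obtain ⟨g1, g2, g3, g4, g5, g6⟩ := key a ha t (hsub t ht) hwv hr
      obtain ⟨p1, p2⟩ := hb0 a ha t ht hwv hr
      obtain ⟨d1, d2, d3, d4, d5, d6, d7⟩ := hder a ha t ht g1 g2 g3
      refine ⟨_, ?_, d2.const_add 1⟩
      have hm1 := (abs_le.mp g6.m1).1
      exact div_nonneg (by linarith) (by positivity)
    · refine ⟨1, one_pos, ?_⟩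
      intro a ha t ht hwv hr hlt
      obtain ⟨g1, g2, g3, g4, g5, g6⟩ := key a ha t (hsub t ht) hwv hr
      obtain ⟨d1, d2, d3, d4, d5, d6, d7⟩ := hder a ha t ht g1 g2 g3
      refine ⟨_, ?_, (d5.pow 2).const_sub (ν₁ ^ 2)⟩
      rw [g6.orth.1]
      simp
    · refine ⟨1, one_pos, ?_⟩
      intro a ha t ht hwv hr hlt
      obtain ⟨g1, g2, g3, g4, g5, g6⟩ := key a ha t (hsub t ht) hwv hr
      obtain ⟨d1, d2, d3, d4, d5, d6, d7⟩ := hder a ha t ht g1 g2 g3
      refine ⟨_, ?_, (d6.pow 2).const_sub (ν₁ ^ 2)⟩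
      rw [g6.orth.2]
      simp
  · -- transversality
    refine ⟨μ * lm / 2, by positivity, ?_⟩
    intro a ha t ht hwv hr hlt
    obtain ⟨g1, g2, g3, g4, g5, g6⟩ := key a ha t (hsub t ht) hwv hr
    obtain ⟨d1, d2, d3, d4, d5, d6, d7⟩ := hder a ha t ht g1 g2 g3
    have p1 : 0 < (P a t).1 := by linarith
    have p2 : 0 ≤ ba k (lm / 2) (2 * l₀) X₀ U e P a t := le_trans (by positivity) g6.b1
    have hlt' : W (a, t) + μ * (P a t).1 < μ * lm / 2 := hlt
    have hm : μ * lm ≤ μ * (P a t).1 := mul_le_mul_of_nonneg_left g4 hμ.le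
    have hm0 : 0 < μ * (P a t).1 := mul_pos hμ p1
    have ht1 := g6.t1 (by
      rw [← g5, abs_of_nonpos (by linarith)]
      linarith)
    refine ⟨_, ?_, d3.add (d1.const_mul μ)⟩
    generalize W3 k η γ δ M B R (P a t).1 (ba k (lm / 2) (2 * l₀) X₀ U e P a t)
          (ma k (lm / 2) (2 * l₀) X₀ U e P a t) (epa k (lm / 2) (2 * l₀) X₀ U P a t)
          (eaa k (lm / 2) (2 * l₀) X₀ e P a t) = w at ht1 ⊢
    generalize ba k (lm / 2) (2 * l₀) X₀ U e P a t = bb at ht1 p2 ⊢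
    generalize (P a t).1 = l at ht1 p1 ⊢
    have : w / l ^ 3 + μ * (-bb / l ^ 2) = (w - μ * bb * l) / l ^ 3 := by
      field_simp
      ring
    rw [this]
    have : 0 ≤ μ * bb * l := by positivity
    exact div_neg_of_neg_of_pos (by linarith) (by positivity)
  · -- nz
    intro a ha t ht hwv hr hh
    obtain ⟨g1, g2, g3, g4, g5, g6⟩ := key a ha t ht hwv hr
    apply g6.nz
    rw [← g5]
    have hh' : W (a, t) + μ * (P a t).1 ≤ 0 := hh
    linarith
  · -- no trajectory is trapped up to time `T`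
    intro a ha hall'
    have hreg : ∀ t ∈ Icc 0 T, 0 < W (a, t) + 4 * μ * lam (a, t) := by
      intro t ht
      obtain ⟨q1, q2⟩ := hall' t ht
      rw [hall] at q1
      have h4 := q1.2.2.2.2.1
      have : 0 < lam (a, t) := by linarith
      have := mul_pos hμ this
      have hh' : 0 ≤ W (a, t) + μ * lam (a, t) := q2
      linarith
    have hc : ContinuousOn (fun s => (P a s).1 ^ 2) (Icc 0 T) := by
      have : ContinuousOn (fun s : ℝ => lam (a, s)) (Icc 0 T) :=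
        c1.comp (by fun_prop) (fun s hs => ⟨ha, hs⟩)
      exact this.pow 2
    have hd : ∀ t ∈ Ioo 0 T, ∃ d, d ≤ -kap k ∧ HasDerivAt (fun s => (P a s).1 ^ 2) d t := by
      intro t ht
      obtain ⟨g1, g2, g3, g4, g5, g6⟩ := key a ha t (hsub t ht) (hall' t (hsub t ht)).1
        (hreg t (hsub t ht))
      obtain ⟨d1, d2, d3, d4, d5, d6, d7⟩ := hder a ha t ht g1 g2 g3
      have p1 : 0 < (P a t).1 := by linarith
      have hb1 := g6.b1
      refine ⟨_, ?_, d1.pow 2⟩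
      generalize ba k (lm / 2) (2 * l₀) X₀ U e P a t = bb at hb1 ⊢
      generalize (P a t).1 = l at hb1 p1 ⊢
      have : ((2 : ℕ) : ℝ) * l ^ (2 - 1) * (-bb / l ^ 2) = -(2 * bb / l) := by
        push_cast
        field_simp
      rw [this]
      have : kap k ≤ 2 * bb / l := by
        rw [le_div_iff₀ p1]
        linarith
      linarith
    have hmv := Convex.image_sub_le_mul_sub_of_deriv_le (convex_Icc (0:ℝ) T) hc
      (fun t ht => by
        rw [interior_Icc] at ht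
        obtain ⟨d, _, hd2⟩ := hd t ht
        exact hd2.differentiableAt.differentiableWithinAt)
      (C := -kap k)
      (fun t ht => by
        rw [interior_Icc] at ht
        obtain ⟨d, hd1, hd2⟩ := hd t ht
        rw [hd2.deriv]
        exact hd1)
      0 ⟨le_refl _, hT0.le⟩ T ⟨hT0.le, le_refl _⟩ hT0.le
    have h0 : (P a 0).1 = l₀ := (hP0 a ha).1
    obtain ⟨q1, q2⟩ := hall' T ⟨hT0.le, le_refl _⟩
    rw [hall] at q1
    have h4 : 0 < (P a T).1 - lm / 2 := q1.2.2.2.2.1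
    have h5 : 0 < (P a T).1 := by linarith
    have h6 : kap k * T = l₀ ^ 2 := by
      rw [hT]
      field_simp
    have h7 : 0 < (P a T).1 ^ 2 := by positivity
    simp only [h0] at hmv
    linarith only [hmv, h6, h7]
  · have h := (hend a₁ hI1 (abs_of_pos ha₁)).1
    rw [← hW0 a₁ hI1] at h
    have h1 := (hP0 a₁ hI1).1
    simp only [h1]
    linarith
  · have h := (hend (-a₁) hI2 (by rw [abs_neg, abs_of_pos ha₁])).1
    rw [← hW0 (-a₁) hI2] at h
    have h1 := (hP0 (-a₁) hI2).1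
    simp only [h1]
    linarith
  · have h := (hend a₁ hI1 (abs_of_pos ha₁)).2
    have h' := (hend (-a₁) hI2 (by rw [abs_neg, abs_of_pos ha₁])).2
    have h2 := mul_pos h h'
    have e1 : φ (a₁, 0) = ip (epa k (lm / 2) (2 * l₀) X₀ U P a₁ 0) (ph0 k) := rfl
    have e2 : φ (-a₁, 0) = ip (epa k (lm / 2) (2 * l₀) X₀ U P (-a₁) 0) (ph0 k) := rfl
    rw [← e1, ← e2] at h2
    have h3 : φ (a₁, 0) * (a₁ * ip (nf k) (ph0 k)) * (φ (-a₁, 0) * (-a₁ * ip (nf k) (ph0 k))) =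
      -(φ (a₁, 0) * φ (-a₁, 0)) * (a₁ * ip (nf k) (ph0 k)) ^ 2 := by ring
    rw [h3] at h2
    by_contra hc
    rw [not_lt] at hc
    have : -(φ (a₁, 0) * φ (-a₁, 0)) * (a₁ * ip (nf k) (ph0 k)) ^ 2 ≤ 0 := by
      have := mul_nonneg hc (sq_nonneg (a₁ * ip (nf k) (ph0 k)))
      linarith
    linarith

end H72KB
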