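import Pool.Agent.H72.KB.Base
import Pool.Agent.H72.KB.QBas
import Pool.Agent.H72.KB.UFb

/-!
# Row FamR: the functions `ε(a,t)` form a `Fam` on `[-a₁,a₁] × [0,T]`

Proof.  `θ = lo/16`.  For `z = (a,t) ∈ S`: `l = lb.. ∈ [lo,hi]`, `x = xb.. ∈ [-X₀,X₀]`, `epa = l^{2/k} U(l y + x) - Q`.
`R l + θ ≤ 1/2`: `16 R hi ≤ 1`, `lo ≤ hi ≤ 1/16` (`R ≥ 1`).  `cl`: `clp` is continuous, `P` jointly continuous
(`Traj.cont`).  `sm`: composition of smooth functions.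
`bd`: `iteratedDeriv j (Wf k U l x) y = l^{2/k} l^j iteratedDeriv j U (l y + x)` (`iter_comp`), `|..| ≤
 C bd (α/2) (1/16) (l y + x) ≤ C exp((α/2+1/16) X₀) bd (l α/2) (l/16) y` (`UF_bound`, `bd_shift`), and
 `l α/2 = 2 R l ≥ R l + θ` (`R l ≥ lo ≥ θ`), `l/16 ≥ θ`: `bd_anti`.  For `Q`: `Q_cl` gives `C bd 1 1`, `R l + θ ≤ 1`,
 `θ ≤ 1`: `bd_anti`.
`co`: `iteratedDeriv j (epa ..) y = l^{2/k} l^j iteratedDeriv j (U a t) (l y + x) - iteratedDeriv j Q y` and `UF_jc`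
 composed with the continuous map `z ↦ (z.1, z.2, l y + x)`; `l ↦ l^{2/k}` is continuous for `l > 0`.
-/

open MeasureTheory Filter Topology Set
open scoped ContDiff

namespace H72KB

open H98KB

/-- derivatives of the rescaled function -/
theorem iter_Wf {k : ℕ} {U : ℝ → ℝ} (hU : ContDiff ℝ ∞ U) (l x : ℝ) (j : ℕ) (y : ℝ) :
    iteratedDeriv j (Wf k U l x) y = l ^ (2 / (k : ℝ)) * l ^ j * iteratedDeriv j U (l * y + x) := by
  have e : Wf k U l x = fun y => l ^ (2 / (k : ℝ)) * (fun z => U (l * z + x)) y := rfl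
  rw [e, iteratedDeriv_const_mul_field, iter_comp hU, mul_assoc]

theorem FamR_clp_lo {lo hi : ℝ} (s : ℝ) : lo ≤ clp lo hi s := le_max_left _ _

theorem FamR_clp_hi {lo hi : ℝ} (h : lo ≤ hi) (s : ℝ) : clp lo hi s ≤ hi :=
  max_le h (min_le_right _ _)

theorem FamR_clp_cont (lo hi : ℝ) : Continuous (clp lo hi) := by
  unfold clp
  fun_prop

theorem FamR_smooth {k : ℕ} {U : ℝ → ℝ} (hU : ContDiff ℝ ∞ U) (l x : ℝ) :
    ContDiff ℝ ∞ (Wf k U l x) := by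
  have hid : ContDiff ℝ ∞ (fun z : ℝ => l * z + x) :=
    (contDiff_const.mul contDiff_fun_id).add contDiff_const
  exact contDiff_const.mul (hU.comp hid)

/-- derivatives of `ε` -/
theorem FamR_iter {k : ℕ} (hk : 1 ≤ k) {U : ℝ → ℝ} (hU : ContDiff ℝ ∞ U) (l x : ℝ) (j : ℕ)
    (y : ℝ) : iteratedDeriv j (epf k U l x) y =
      l ^ (2 / (k : ℝ)) * l ^ j * iteratedDeriv j U (l * y + x) - iteratedDeriv j (Qf k) y := by
  have e : epf k U l x = fun y => Wf k U l x y - Qf k y := rfl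
  rw [e, iteratedDeriv_fun_sub (ClB_at (FamR_smooth hU l x) j y)
    (ClB_at (Q_cl hk).1 j y), iter_Wf hU]

theorem fam_epa {k : ℕ} {T α a₁ l₀ lo hi X₀ R : ℝ} {U e : ℝ → ℝ → ℝ → ℝ} {P : ℝ → ℝ → ℝ × ℝ}
    (hk : 5 ≤ k) (hT : 0 < T) (ha : 0 ≤ a₁) (hR : 1 ≤ R) (hα : α = 4 * R) (hlo : 0 < lo)
    (hlh : lo ≤ hi) (hhi : 16 * R * hi ≤ 1) (hX : 0 ≤ X₀) (h : UF k T α a₁ U e)
    (hP : Traj k T a₁ l₀ lo hi X₀ U e P) :
    Fam R (lo / 16) (Icc (-a₁) a₁ ×ˢ Icc 0 T) (fun z => lb lo hi P z.1 z.2)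
      (fun z => epa k lo hi X₀ U P z.1 z.2) := by
  have hk1 : 1 ≤ k := by omega
  have hlb : ∀ a t, lo ≤ lb lo hi P a t := fun a t => FamR_clp_lo _
  have hlb' : ∀ a t, lb lo hi P a t ≤ hi := fun a t => FamR_clp_hi hlh _
  have hhi0 : 0 < hi := lt_of_lt_of_le hlo hlh
  have hRhi : R * hi ≤ 1 / 16 := by linarith
  have hhi1 : hi ≤ 1 / 16 := by nlinarith
  have hxb : ∀ a t, |xb X₀ P a t| ≤ X₀ := fun a t =>
    abs_le.2 ⟨FamR_clp_lo _, FamR_clp_hi (by linarith) _⟩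
  have hcl : ContinuousOn (fun z : ℝ × ℝ => lb lo hi P z.1 z.2) (Icc (-a₁) a₁ ×ˢ Icc 0 T) :=
    (FamR_clp_cont lo hi).comp_continuousOn (continuous_fst.comp_continuousOn hP.cont)
  have hcx : ContinuousOn (fun z : ℝ × ℝ => xb X₀ P z.1 z.2) (Icc (-a₁) a₁ ×ˢ Icc 0 T) :=
    (FamR_clp_cont (-X₀) X₀).comp_continuousOn (continuous_snd.comp_continuousOn hP.cont)
  refine ⟨by linarith, by linarith, ?_, ?_, ?_, hcl, ?_, ?_, ?_⟩
  · intro z _
    have := hlb z.1 z.2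
    show lo / 16 ≤ lb lo hi P z.1 z.2
    linarith
  · intro z _
    have := hlb' z.1 z.2
    show lb lo hi P z.1 z.2 ≤ 1
    linarith
  · intro z _
    have h1 := hlb' z.1 z.2
    have h2 : R * lb lo hi P z.1 z.2 ≤ R * hi := mul_le_mul_of_nonneg_left h1 (by linarith)
    show R * lb lo hi P z.1 z.2 + lo / 16 ≤ 1 / 2
    linarith
  · intro z hz
    exact (FamR_smooth ((h.app z.1 hz.1).smooth z.2 hz.2) _ _).sub (Q_cl hk1).1
  · intro j
    obtain ⟨C, hC0, hC⟩ := UF_bound ha h j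
    obtain ⟨D, hD0, hD⟩ := ClB_pos (Q_cl hk1) j
    refine ⟨C * Real.exp ((α / 2 + 1 / 16) * X₀) + D, fun z hz y => ?_⟩
    show |iteratedDeriv j (epf k (U z.1 z.2) (lb lo hi P z.1 z.2) (xb X₀ P z.1 z.2)) y| ≤ _
    have hl0 := hlb z.1 z.2
    have hl1 := hlb' z.1 z.2
    have hx := hxb z.1 z.2
    set l := lb lo hi P z.1 z.2 with hl
    set x := xb X₀ P z.1 z.2 with hxd
    have hlpos : 0 < l := lt_of_lt_of_le hlo hl0
    have hl16 : l ≤ 1 / 16 := hl1.trans hhi1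
    rw [FamR_iter hk1 ((h.app z.1 hz.1).smooth z.2 hz.2)]
    have hRl : R * l ≤ R * hi := mul_le_mul_of_nonneg_left hl1 (by linarith)
    have hlR : l ≤ R * l := by nlinarith
    have hα0 : 0 ≤ α / 2 := by linarith
    have h1 : |iteratedDeriv j (U z.1 z.2) (l * y + x)| ≤
        C * Real.exp ((α / 2 + 1 / 16) * X₀) * bd (R * l + lo / 16) (lo / 16) y := by
      refine ((hC z.1 hz.1 z.2 hz.2 (l * y + x)).1).trans ?_
      rw [mul_assoc]
      refine mul_le_mul_of_nonneg_left ?_ hC0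
      refine (bd_shift hα0 (by norm_num) hlpos.le x y).trans ?_
      have h2 : Real.exp ((α / 2 + 1 / 16) * |x|) ≤ Real.exp ((α / 2 + 1 / 16) * X₀) :=
        Real.exp_le_exp.2 (mul_le_mul_of_nonneg_left hx (by linarith))
      have h3 : bd (l * (α / 2)) (l * (1 / 16)) y ≤ bd (R * l + lo / 16) (lo / 16) y := by
        refine bd_anti ?_ ?_ y
        · rw [hα]
          nlinarith
        · linarith
      exact mul_le_mul h2 h3 (bd_pos _ _ _).le (Real.exp_pos _).le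
    have h4 : |l ^ (2 / (k : ℝ)) * l ^ j| ≤ 1 := by
      rw [abs_of_nonneg (by positivity)]
      have h5 : l ^ (2 / (k : ℝ)) ≤ 1 :=
        Real.rpow_le_one hlpos.le (by linarith) (by positivity)
      have h6 : l ^ j ≤ 1 := pow_le_one₀ hlpos.le (by linarith)
      exact mul_le_one₀ h5 (by positivity) h6
    have h7 : |iteratedDeriv j (Qf k) y| ≤ D * bd (R * l + lo / 16) (lo / 16) y := by
      refine (hD y).trans (mul_le_mul_of_nonneg_left (bd_anti ?_ ?_ y) hD0)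
      · linarith
      · linarith
    refine (abs_sub _ _).trans ?_
    rw [add_mul, abs_mul]
    refine add_le_add ?_ h7
    refine le_trans ?_ h1
    exact mul_le_of_le_one_left (abs_nonneg _) h4
  · intro j y
    have hjc := (UF_jc (by linarith) ha h j).1
    have e : ∀ z ∈ (Icc (-a₁) a₁ ×ˢ Icc 0 T : Set (ℝ × ℝ)),
        iteratedDeriv j (epa k lo hi X₀ U P z.1 z.2) y =
        (lb lo hi P z.1 z.2) ^ (2 / (k : ℝ)) * (lb lo hi P z.1 z.2) ^ j *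
          iteratedDeriv j (U z.1 z.2) (lb lo hi P z.1 z.2 * y + xb X₀ P z.1 z.2) -
          iteratedDeriv j (Qf k) y := by
      intro z hz
      exact FamR_iter hk1 ((h.app z.1 hz.1).smooth z.2 hz.2) _ _ j y
    refine ContinuousOn.congr ?_ e
    have c1 : ContinuousOn (fun z : ℝ × ℝ => (lb lo hi P z.1 z.2) ^ (2 / (k : ℝ)))
        (Icc (-a₁) a₁ ×ˢ Icc 0 T) := by
      refine hcl.rpow_const (fun z _ => Or.inl ?_)
      have := hlb z.1 z.2
      linarith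
    have c2 : ContinuousOn (fun z : ℝ × ℝ => (lb lo hi P z.1 z.2) ^ j)
        (Icc (-a₁) a₁ ×ˢ Icc 0 T) := hcl.pow j
    have c3 : ContinuousOn (fun z : ℝ × ℝ =>
        ((z.1, z.2, lb lo hi P z.1 z.2 * y + xb X₀ P z.1 z.2) : ℝ × ℝ × ℝ))
        (Icc (-a₁) a₁ ×ˢ Icc 0 T) :=
      continuousOn_fst.prodMk (continuousOn_snd.prodMk ((hcl.mul continuousOn_const).add hcx))
    have c4 : ContinuousOn (fun z : ℝ × ℝ =>
        iteratedDeriv j (U z.1 z.2) (lb lo hi P z.1 z.2 * y + xb X₀ P z.1 z.2))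
        (Icc (-a₁) a₁ ×ˢ Icc 0 T) :=
      hjc.comp c3 (fun z hz => ⟨hz.1, hz.2, mem_univ _⟩)
    exact ((c1.mul c2).mul c4).sub continuousOn_const

end H72KB
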