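import Pool.Agent.H72.KB.Stat

/-!
# Row StA: the three barrier inequalities (real arithmetic from `Good` and `St`)

Notation: `G = Gn B (R l) ε`, `TT = Tn B (R l) ε`, `n = ln γ B ε`, `L = LL ..`, `φ = ip ε ph0`, `X = Xn ε`, `Ge = Gn B (R l) e`,
`Xe = Xn e`, `κ = kap k`.  `0 ≤ G, TT, n, Ge, Xe`: integrals of nonnegative functions (`om ≥ 0`; `deriv (om B ρ) ≥ 0` since
`om' = (Th' + 2ρ Th) e^{2ρy}`, `Th' = Th (1-Th)/B ≥ 0`; `loc ≥ 0`).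

`st_main`: `ML` with `l ≤ l₁`: `W3 ≤ -c(TT+n) - cRlG + C(l² + p² + q²) + (C/l) Ge`; `p², q² < ν₁² ≤ l²`, `Ge ≤ ν ≤ l³`, so
 `W3 ≤ -c(TT+n) - cRlG + 4 C l²`.
`st_T1`: `|L| ≤ C G` (`CO`), so `G ≥ μl/(2C)`, `W3 ≤ -cRμl²/(2C) + 4Cl² < -2κμl² ≤ -μbl`.
`st_nz`: `CO`: `0 ≤ G ≤ C(L + φ² + q²)`, so `φ² ≥ -L - q² ≥ μl - ν₁² > 0`.
`st_T2`: `DL`: `|ip ζ φ0| ≤ C(√n + l + √Ge)`, `LN`: `|φ| ≤ C√n`: `2|φ||ip ζ φ0| ≤ 2C²√n(√n+l+√Ge) ≤ 4C²n + C²l² + C²Ge`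
 (`2√n l ≤ n + l²`, `2√n√Ge ≤ n + Ge`); `K2 W3 ≤ -5C²n + 4CK2 l²` (`K2 c = 5C²`; drop `TT, G`).  Sum `≤ -C²n + (2C²+4CK2) l²`
 (`Ge ≤ l²`).  If `Z = φ²+K2 L ≥ K3μl/2` then `φ² ≥ K3μl/2 - K2μl ≥ K3μl/4` (`L < μl`, `4K2 ≤ K3`) and `C²n ≥ φ²`, so
 sum `≤ -K3μl/4 + (2C²+4CK2) l² < -2κK3μl² ≤ -K3μbl` by the numerical hypothesis.
`st_T3`: `DX`: `2 ip(ε',ζ') ≤ -2b(1-sc)X + 2C(TT+n) + 2Cl² + 2C Ge + (2C/l) Xe`; `K6 W3 ≤ -2C(TT+n) + 4CK6 l²` (`K6 c = 2C`);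
 so the sum is `≤ -2b(1-sc)X + C₇ l²`, `C₇ = 2C+4CK6+1` (`2Cν + 2Cν/l ≤ l²`).  `2(1-sc) = 1+4/k ≤ 2`.  If
 `X + K6 L ≥ (k+3)/(k+4) K7 l` then `X ≥ (k+3)/(k+4) K7 l - K6μl`, `(1+4/k)(k+3)/(k+4) = 1+3/k`, so
 `2b(1-sc)X ≥ b l ((1+3/k)K7 - 2K6μ)` (`b ≥ 0`), and the sum is `≤ -K7bl - (3/k)K7 b l + 2K6μ b l + C₇l² < -K7bl` since `b ≥ κl/2`,
 `b ≤ 2κl` and the numerical hypothesis.
-/

open MeasureTheory Filter Topology Set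
open scoped ContDiff

namespace H72KB

open H98KB

theorem StA_th (B y : ℝ) : 0 < Th B y := by
  unfold Th
  positivity

theorem StA_omd {B ρ : ℝ} (hB : 0 < B) (hρ : 0 ≤ ρ) (y : ℝ) : 0 ≤ deriv (om B ρ) y := by
  have h0 : HasDerivAt (fun y : ℝ => -y / B) (-1 / B) y := by
    simpa using (hasDerivAt_id y).neg.div_const B
  have h1 : HasDerivAt (fun y : ℝ => Real.exp (-y / B)) (Real.exp (-y / B) * (-1 / B)) y := h0.exp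
  have h2 : HasDerivAt (fun y : ℝ => 1 + Real.exp (-y / B)) (Real.exp (-y / B) * (-1 / B)) y := by
    simpa using h1.const_add 1
  have hpos : 0 < 1 + Real.exp (-y / B) := by positivity
  have h3 : HasDerivAt (fun y : ℝ => (1 + Real.exp (-y / B))⁻¹)
      (-(Real.exp (-y / B) * (-1 / B)) / (1 + Real.exp (-y / B)) ^ 2) y := h2.inv hpos.ne'
  have h4 : HasDerivAt (fun y : ℝ => Real.exp (2 * ρ * y)) (Real.exp (2 * ρ * y) * (2 * ρ)) y := by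
    have : HasDerivAt (fun y : ℝ => 2 * ρ * y) (2 * ρ) y := by
      simpa using (hasDerivAt_id y).const_mul (2 * ρ)
    exact this.exp
  have h5 := h3.mul h4
  have h6 : om B ρ = (fun y : ℝ => (1 + Real.exp (-y / B))⁻¹) * (fun y : ℝ => Real.exp (2 * ρ * y)) := by
    funext z
    simp [om, Th]
  rw [h6, h5.deriv]
  have e1 : -(Real.exp (-y / B) * (-1 / B)) / (1 + Real.exp (-y / B)) ^ 2 =
      Real.exp (-y / B) / B / (1 + Real.exp (-y / B)) ^ 2 := by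
    ring
  rw [e1]
  positivity

theorem Gn_nonneg {B ρ : ℝ} (hB : 0 < B) (ε : ℝ → ℝ) : 0 ≤ Gn B ρ ε := by
  unfold Gn
  refine integral_nonneg (fun y => ?_)
  have h1 : 0 ≤ om B ρ y := by
    unfold om
    have := StA_th B y
    positivity
  positivity

theorem Tn_nonneg {B ρ : ℝ} (hB : 0 < B) (hρ : 0 ≤ ρ) (ε : ℝ → ℝ) : 0 ≤ Tn B ρ ε := by
  unfold Tn
  refine integral_nonneg (fun y => ?_)
  have h1 := StA_omd hB hρ y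
  positivity

theorem ln_nonneg (γ B : ℝ) (ε : ℝ → ℝ) : 0 ≤ ln γ B ε := by
  unfold H98KB.ln
  refine integral_nonneg (fun y => ?_)
  have h1 : 0 ≤ loc γ B y := by
    unfold loc se2 ch
    positivity
  positivity

theorem Xn_nonneg (ε : ℝ → ℝ) : 0 ≤ Xn ε := by
  unfold Xn
  exact integral_nonneg (fun y => sq_nonneg _)

theorem st_main {k : ℕ} {γ η δ M B c C R μ K2 K3 K6 K7 ν₁ ν l b m p q : ℝ} {ε e : ℝ → ℝ}
    (hG : Good k γ η δ M B c C) (h : St k γ η δ M B c R μ K2 K3 K6 K7 ν₁ ν l b m p q ε e)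
    (hRC : C ≤ R) (l₁ : ℝ) (hl₁ : 0 < l₁) (hll : l ≤ l₁)
    (hML : ∀ l, 0 < l → l ≤ l₁ → ∀ (p q : ℝ) (ε e : ℝ → ℝ),
      Adm (R * l) p q ε → Adm (R * l) p q e → (∀ y, |ε y| ≤ c) → ln γ B ε ≤ c →
      Gn B (R * l) e ≤ c → ∀ b m, 0 ≤ b → b ≤ 2 * kap k * l → Orth k b m l ε e →
      M * DE k B (R * l) b ε (zeta k b m l ε e) + DV k η γ B δ ε (zeta k b m l ε e) ≤
        -c * (Tn B (R * l) ε + ln γ B ε) - c * R * l * Gn B (R * l) ε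
          + C * (l ^ 2 + (ip ε (Qf k)) ^ 2 + (ip ε (deriv (Qf k))) ^ 2) + C / l * Gn B (R * l) e)
    (hκ : 0 < kap k) (hν₁ : ν₁ ^ 2 ≤ l ^ 2) (hν : ν ≤ l ^ 3) :
    W3 k η γ δ M B R l b m ε e ≤ -c * (Tn B (R * l) ε + ln γ B ε) - c * R * l * Gn B (R * l) ε
      + 4 * C * l ^ 2 := by
  have hl := h.l0
  have hb0 : 0 ≤ b := le_trans (by positivity) h.b1
  have h1 := hML l hl hll p q ε e h.a1 h.a2 h.sup h.ln1 h.ge1 b m hb0 h.b2 h.orth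
  have hC : 0 ≤ C := le_trans zero_le_one hG.hC
  have h2 : (ip ε (Qf k)) ^ 2 ≤ l ^ 2 := h.reg.wp.le.trans hν₁
  have h3 : (ip ε (deriv (Qf k))) ^ 2 ≤ l ^ 2 := h.reg.wq.le.trans hν₁
  have h4 : C / l * Gn B (R * l) e ≤ C * l ^ 2 := by
    calc C / l * Gn B (R * l) e ≤ C / l * l ^ 3 :=
          mul_le_mul_of_nonneg_left (h.ge.trans hν) (by positivity)
      _ = C * l ^ 2 := by
          field_simp
  have h5 : C * (l ^ 2 + (ip ε (Qf k)) ^ 2 + (ip ε (deriv (Qf k))) ^ 2) ≤ C * (3 * l ^ 2) :=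
    mul_le_mul_of_nonneg_left (by linarith) hC
  unfold W3
  linarith

theorem st_T1 {k : ℕ} {γ η δ M B c C R μ K2 K3 K6 K7 ν₁ ν l b m p q : ℝ} {ε e : ℝ → ℝ}
    (hG : Good k γ η δ M B c C) (h : St k γ η δ M B c R μ K2 K3 K6 K7 ν₁ ν l b m p q ε e)
    (hm : W3 k η γ δ M B R l b m ε e ≤ -c * (Tn B (R * l) ε + ln γ B ε)
      - c * R * l * Gn B (R * l) ε + 4 * C * l ^ 2)
    (hR : 0 < R) (hμ : 0 < μ) (hn : 4 * C + 2 * kap k * μ < c * R * μ / (2 * C))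
    (hL : μ * l / 2 ≤ |LL k η γ δ M B (R * l) ε|) :
    W3 k η γ δ M B R l b m ε e < -(μ * b * l) := by
  have hl := h.l0
  have hC : 0 < C := lt_of_lt_of_le zero_lt_one hG.hC
  have hc := hG.hc
  have hB : 0 < B := lt_of_lt_of_le (by norm_num) hG.hB
  have h1 := (hG.CO (R * l) h.slow p q ε h.a1 h.sup).2
  have h2 : μ * l / (2 * C) ≤ Gn B (R * l) ε := by
    rw [div_le_iff₀ (by positivity)]
    nlinarith [hL.trans h1]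
  have h3 : 0 ≤ Tn B (R * l) ε := Tn_nonneg hB (by positivity) ε
  have h4 := ln_nonneg γ B ε
  have h5 : c * R * l * (μ * l / (2 * C)) ≤ c * R * l * Gn B (R * l) ε :=
    mul_le_mul_of_nonneg_left h2 (by positivity)
  have h6 : c * R * l * (μ * l / (2 * C)) = c * R * μ / (2 * C) * l ^ 2 := by
    ring
  have h7 : (4 * C + 2 * kap k * μ) * l ^ 2 < c * R * μ / (2 * C) * l ^ 2 :=
    mul_lt_mul_of_pos_right hn (by positivity)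
  have h8 : μ * b * l ≤ 2 * kap k * μ * l ^ 2 := by
    calc μ * b * l = (μ * l) * b := by ring
      _ ≤ (μ * l) * (2 * kap k * l) := mul_le_mul_of_nonneg_left h.b2 (by positivity)
      _ = 2 * kap k * μ * l ^ 2 := by ring
  have h9 : 0 ≤ c * (Tn B (R * l) ε + ln γ B ε) := by positivity
  nlinarith

theorem st_nz {k : ℕ} {γ η δ M B c C R μ K2 K3 K6 K7 ν₁ ν l b m p q : ℝ} {ε e : ℝ → ℝ}
    (hG : Good k γ η δ M B c C) (h : St k γ η δ M B c R μ K2 K3 K6 K7 ν₁ ν l b m p q ε e)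
    (hν₁ : C * ν₁ ^ 2 ≤ μ * l) (hL : LL k η γ δ M B (R * l) ε ≤ -(μ * l)) : ip ε (ph0 k) ≠ 0 := by
  intro h0
  have hC : 0 < C := lt_of_lt_of_le zero_lt_one hG.hC
  have hB : 0 < B := lt_of_lt_of_le (by norm_num) hG.hB
  have h1 := (hG.CO (R * l) h.slow p q ε h.a1 h.sup).1
  have h2 : 0 ≤ Gn B (R * l) ε := Gn_nonneg hB ε
  have h3 : 0 ≤ C * (LL k η γ δ M B (R * l) ε + C * ((ip ε (ph0 k)) ^ 2 +
      (ip ε (deriv (Qf k))) ^ 2)) := h2.trans h1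
  have h4 : 0 ≤ LL k η γ δ M B (R * l) ε + C * ((ip ε (ph0 k)) ^ 2 +
      (ip ε (deriv (Qf k))) ^ 2) := nonneg_of_mul_nonneg_right h3 hC
  have h5 := mul_lt_mul_of_pos_left h.reg.wq hC
  rw [h0] at h4
  nlinarith

end H72KB
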