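import Pool.Agent.H72.KB.Stat
import Pool.Agent.H72.KB.StA
import Pool.Agent.H72.KB.DetR
import Pool.Agent.H72.KB.QBas
import Pool.Agent.H72.KB.ClC

/-!
# Row IniA: the initial data are in the trapped region, and at `a = ±a₁` they have already left it

Notation: `n = nf k`, `n0 = ip n (ph0 k) ≠ 0`, `n1 = Xn n`, `cn > 0` from `Good.IN`, `d = ε - a n`, `φ(ε) = ip ε (ph0 k)`, `LL(ε) = LL ..(R l₀) ε`.
Constants: `A3 = 8 n0²/cn`, `A7 = 4 n1/cn`;  `a₁ = √(2 μ l₀/cn)`.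
`ls`: for `l₀ ≤ ls`: `l₀ ≤ 1/2`, `a₁ ≤ 1`, `a₁ ≤ c/(2 N)` with `|n y| ≤ N` (`N ≥ 1`, `Cl_bdd`), `R l₀ ≤ 1/4`, `4 R l₀ B ≤ 1` (`Slow`),
 `C (R l₀ a₁² + a₁³) ≤ μ l₀/8`: as `a₁² = 2μl₀/cn` this reads `C (R l₀ 2/cn + a₁ 2/cn) ≤ 1/8`, true for `l₀` small.
For fixed `l₀` (then `a₁` fixed) and `ν₁`, choose `νs` small such that (everything below tends to 0 with `νs`):
 (a) `|d y| ≤ c/2`: `|d|⁴ ≤ 4 νs νs` (`Cl_sup`), so `|ε| ≤ |a| N + c/2 ≤ c`;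
 (b) `|LL(ε) - LL(a n)| ≤ C √(Gn d)(√(Gn ε) + √(Gn (a n))) ≤ μ l₀/8`: `LIP`; `Gn (a n) = a² Gn n ≤ Gn n`, `Gn ε ≤ 2 Gn (a n) + 2 Gn d`;
 (c) `|ip d (ph0 k)| , |ip d Q|, |ip d Q'| ≤ C₁ √νs` (`ip_Gn`: `|Q|,|Q'|,|ph0| ≤ C e^{-|y|} ≤ C e^{-|y|/4}`).
 `d ∈ Adm (R l₀) p' q'`: `ε ∈ Cl p q`, `n ∈ Cl (1/2) (1/2)` (`ThmN`), so `d ∈ Cl p q` (`p, q ≤ 1/2`, `Cl_mono`, `Cl_sub`).
Then: `LL(ε) ≤ -cn a² + μl₀/8 + μl₀/8 ≤ μl₀/4 < μ l₀` (w1); `LL(ε) ≥ -cn a₁² - μl₀/4 = -2μl₀ - μl₀/4 > -4μl₀` (w0);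
 `φ(ε) = a n0 + ip d ph0`, `φ² ≤ 2a₁² n0² + 2 C₁² νs = 4μl₀ n0²/cn + ..`, `K2 LL ≤ K2 μ l₀`: sum `< (8 n0²/cn + K2 + 2) μl₀ ≤ K3 μ l₀` (w2);
 `Xn ε ≤ 2 a₁² n1 + 2 νs = 4μl₀ n1/cn + 2νs`, `K6 LL ≤ K6 μl₀`, `μ ≤ 1`: `< (A7 + K6 + 2) l₀ ≤ K7 l₀` (w3);
 `ip ε Q = a·0 + ip d Q` (`ThmN`), so `(ip ε Q)² ≤ C₁² νs < ν₁²` (wp), same for `Q'` (wq).
If `|a| = a₁`: `LL(ε) ≤ -2μl₀ + μl₀/4 < -μl₀`; `φ(ε) (a n0) = a² n0² + a n0 ip d ph0 > 0` as `|ip d ph0| < a₁ |n0|`.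
(The pairings split because `ε`, `n`, `d` are in `Cl` with positive exponents: `Cl_int_mul`.)
-/

open MeasureTheory Filter Topology Set
open scoped ContDiff

namespace H72KB

open H98KB

theorem IniA_ls {cn t s μ R : ℝ} (hcn : 0 < cn) (ht : 0 < t) (hs : 0 < s) (hμ : 0 < μ)
    (hR : 1 ≤ R) :
    ∃ ls : ℝ, 0 < ls ∧ ∀ l, 0 < l → l ≤ ls → R * l ≤ s ∧ √(2 * μ * l / cn) ≤ t := by
  have hR0 : 0 < R := by linarith
  refine ⟨min (s / R) (cn * t ^ 2 / (2 * μ)), lt_min (by positivity) (by positivity),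
    fun l hl0 hl => ⟨?_, ?_⟩⟩
  · have h := hl.trans (min_le_left _ _)
    rw [le_div_iff₀ hR0] at h
    linarith
  · have h := hl.trans (min_le_right _ _)
    rw [le_div_iff₀ (by positivity)] at h
    rw [Real.sqrt_le_left ht.le, div_le_iff₀ hcn]
    linarith

theorem IniA_nu {m1 m2 m3 P D : ℝ} (h1 : 0 < m1) (h2 : 0 < m2) (h3 : 0 < m3) (hP : 0 ≤ P)
    (hD : 0 ≤ D) : ∃ ν : ℝ, 0 < ν ∧ ν ≤ m1 ∧ P * √ν ≤ m2 ∧ D * ν ≤ m3 := by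
  have hP1 : 0 < P + 1 := by linarith
  have hD1 : 0 < D + 1 := by linarith
  obtain ⟨ν, hν⟩ : ∃ ν, ν = min m1 (min ((m2 / (P + 1)) ^ 2) (m3 / (D + 1))) := ⟨_, rfl⟩
  have e1 : ν ≤ m1 := by rw [hν]; exact min_le_left _ _
  have e2 : ν ≤ (m2 / (P + 1)) ^ 2 := by
    rw [hν]; exact (min_le_right _ _).trans (min_le_left _ _)
  have e3 : ν ≤ m3 / (D + 1) := by
    rw [hν]; exact (min_le_right _ _).trans (min_le_right _ _)
  refine ⟨ν, ?_, e1, ?_, ?_⟩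
  · rw [hν]
    exact lt_min h1 (lt_min (by positivity) (by positivity))
  · have h4 : √ν ≤ m2 / (P + 1) := by
      rw [Real.sqrt_le_left (by positivity)]
      exact e2
    have h5 : (P + 1) * (m2 / (P + 1)) = m2 := mul_div_cancel₀ _ hP1.ne'
    have h6 : 0 < m2 / (P + 1) := by positivity
    calc P * √ν ≤ P * (m2 / (P + 1)) := mul_le_mul_of_nonneg_left h4 hP
      _ ≤ m2 := by linarith
  · have h5 : (D + 1) * (m3 / (D + 1)) = m3 := mul_div_cancel₀ _ hD1.ne'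
    have h6 : 0 < m3 / (D + 1) := by positivity
    calc D * ν ≤ D * (m3 / (D + 1)) := mul_le_mul_of_nonneg_left e3 hD
      _ ≤ m3 := by linarith

theorem IniA_diff {p q : ℝ} {f : ℝ → ℝ} (hf : Cl p q f) : Differentiable ℝ f :=
  hf.1.differentiable (by simp)

theorem IniA_ds {p q : ℝ} {f g : ℝ → ℝ} (hf : Cl p q f) (hg : Cl p q g) (y : ℝ) :
    deriv (fun y => f y - g y) y = deriv f y - deriv g y :=
  deriv_fun_sub (IniA_diff hf y) (IniA_diff hg y)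

theorem IniA_om {B ρ : ℝ} (h : Slow B ρ) (y : ℝ) : 0 ≤ om B ρ y := by
  have h1 := (DetR_om h y).1
  have h2 := Real.exp_pos (-(1 / 8) * |y|)
  linarith

theorem IniA_Gn {B ρ p q : ℝ} {f g : ℝ → ℝ} (h : Slow B ρ) (hf : Adm ρ p q f)
    (hg : Adm ρ p q g) : Gn B ρ f ≤ 2 * Gn B ρ g + 2 * Gn B ρ (fun y => f y - g y) := by
  have hd : Adm ρ p q (fun y => f y - g y) :=
    ⟨hf.1, hf.2.1, hf.2.2.1, hf.2.2.2.1, Cl_sub hf.2.2.2.2 hg.2.2.2.2⟩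
  have i1 := DetR_int h hf
  have i2 := DetR_int h hg
  have i3 := DetR_int h hd
  unfold Gn
  rw [← integral_const_mul, ← integral_const_mul, ← integral_add (i2.const_mul 2) (i3.const_mul 2)]
  refine integral_mono i1 ((i2.const_mul 2).add (i3.const_mul 2)) fun y => ?_
  have hder := IniA_ds hf.2.2.2.2 hg.2.2.2.2 y
  have ho := IniA_om h y
  simp only [hder]
  have hh := mul_nonneg ho (add_nonneg (sq_nonneg (f y - 2 * g y))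
    (sq_nonneg (deriv f y - 2 * deriv g y)))
  nlinarith [hh]

theorem IniA_Xn {p q : ℝ} {f g : ℝ → ℝ} (hp : 0 < p) (hq : 0 < q) (hf : Cl p q f)
    (hg : Cl p q g) : Xn f ≤ 2 * Xn g + 2 * Xn (fun y => f y - g y) := by
  have key : ∀ h : ℝ → ℝ, Cl p q h → Integrable (fun y => (deriv h y) ^ 2) := by
    intro h hh
    have h1 := Cl_int (by linarith : 0 < p + p) (by linarith : 0 < q + q)
      (Cl_mul (Cl_deriv hh) (Cl_deriv hh))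
    refine h1.congr (Eventually.of_forall fun y => ?_)
    simp only [pow_two]
  have i1 := key f hf
  have i2 := key g hg
  have i3 := key _ (Cl_sub hf hg)
  unfold Xn
  rw [← integral_const_mul, ← integral_const_mul, ← integral_add (i2.const_mul 2) (i3.const_mul 2)]
  refine integral_mono i1 ((i2.const_mul 2).add (i3.const_mul 2)) fun y => ?_
  have hder := IniA_ds hf hg y
  simp only [hder]
  nlinarith [sq_nonneg (deriv f y - 2 * deriv g y)]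

theorem IniA_Gs (B ρ a : ℝ) (f : ℝ → ℝ) :
    Gn B ρ (fun y => a * f y) = a ^ 2 * Gn B ρ f := by
  unfold Gn
  rw [← integral_const_mul]
  refine integral_congr_ae (Eventually.of_forall fun y => ?_)
  have hd : deriv (fun y => a * f y) y = a * deriv f y := deriv_const_mul_field a
  simp only [hd]
  ring

theorem IniA_Xs (a : ℝ) (f : ℝ → ℝ) : Xn (fun y => a * f y) = a ^ 2 * Xn f := by
  unfold Xn
  rw [← integral_const_mul]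
  refine integral_congr_ae (Eventually.of_forall fun y => ?_)
  have hd : deriv (fun y => a * f y) y = a * deriv f y := deriv_const_mul_field a
  simp only [hd]
  ring

theorem IniA_ip {p q a D : ℝ} {ε n ψ : ℝ → ℝ} (hp : 0 < p) (hq : 0 < q) (hε : Cl p q ε)
    (hn : Cl p q n) (hψ : Continuous ψ) (hD : ∀ y, |ψ y| ≤ D) :
    ip ε ψ = a * ip n ψ + ip (fun y => ε y - a * n y) ψ := by
  unfold ip
  have i1 := Cl_int_mul hp hq hn hψ D hD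
  have i2 := Cl_int_mul hp hq (Cl_sub hε (Cl_smul a hn)) hψ D hD
  rw [← integral_const_mul, ← integral_add (i1.const_mul a) i2]
  refine integral_congr_ae (Eventually.of_forall fun y => ?_)
  simp only
  ring

theorem IniA_pair {k : ℕ} (hk : 5 ≤ k) : ∃ C₁ : ℝ, 0 ≤ C₁ ∧
    ∀ ψ : ℝ → ℝ, (ψ = Qf k ∨ ψ = deriv (Qf k) ∨ ψ = ph0 k) →
      Continuous ψ ∧ (∃ D : ℝ, ∀ y, |ψ y| ≤ D) ∧
      ∀ (B ρ p q : ℝ) (d : ℝ → ℝ), Slow B ρ → Adm ρ p q d →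
        |ip d ψ| ≤ C₁ * √(Gn B ρ d) := by
  have hQ : Cl 1 1 (Qf k) := Q_cl (by omega)
  have hQ' : Cl 1 1 (deriv (Qf k)) := Cl_deriv hQ
  obtain ⟨K₁, hK₁0, hK₁⟩ := ClC_abs hQ
  obtain ⟨K₂, hK₂0, hK₂⟩ := ClC_abs hQ'
  obtain ⟨K, hK⟩ : ∃ K, K = max K₁ K₂ := ⟨_, rfl⟩
  have hK0 : 0 ≤ K := by rw [hK]; exact hK₁0.trans (le_max_left _ _)
  have hKa : K₁ ≤ K := by rw [hK]; exact le_max_left _ _
  have hKb : K₂ ≤ K := by rw [hK]; exact le_max_right _ _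
  obtain ⟨C₁, hC₁, hip⟩ := ip_Gn K
  have hcosh : ∀ y : ℝ, 1 ≤ Real.cosh ((k : ℝ) * y / 2) := fun y => Real.one_le_cosh _
  have hbQ : ∀ y, |Qf k y| ≤ K * bd 1 1 y := fun y =>
    (hK₁ y).trans (mul_le_mul_of_nonneg_right hKa (bd_pos 1 1 y).le)
  have hc : ∀ ψ : ℝ → ℝ, (ψ = Qf k ∨ ψ = deriv (Qf k) ∨ ψ = ph0 k) →
      Continuous ψ ∧ ∀ y, |ψ y| ≤ K * bd 1 1 y := by
    rintro ψ (rfl | rfl | rfl)
    · exact ⟨hQ.1.continuous, hbQ⟩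
    · exact ⟨hQ'.1.continuous, fun y =>
        (hK₂ y).trans (mul_le_mul_of_nonneg_right hKb (bd_pos 1 1 y).le)⟩
    · refine ⟨?_, fun y => ?_⟩
      · unfold ph0
        refine hQ.1.continuous.div (Real.continuous_cosh.comp (by fun_prop)) fun y => ?_
        have := hcosh y
        linarith
      · unfold ph0
        rw [abs_div, abs_of_pos (by linarith [hcosh y] : 0 < Real.cosh ((k : ℝ) * y / 2))]
        exact (div_le_self (abs_nonneg _) (hcosh y)).trans (hbQ y)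
  refine ⟨C₁, hC₁, fun ψ hψ => ⟨(hc ψ hψ).1, ⟨K, fun y => ?_⟩, ?_⟩⟩
  · refine ((hc ψ hψ).2 y).trans ?_
    have h := mul_le_mul_of_nonneg_left (bd_le_one (p := 1) (q := 1) (by norm_num)
      (by norm_num) y) hK0
    rwa [mul_one] at h
  · intro B ρ p q d hS hA
    refine hip B ρ p q d ψ hS hA (hc ψ hψ).1 fun y => ?_
    refine ((hc ψ hψ).2 y).trans (mul_le_mul_of_nonneg_left ?_ hK0)
    rw [DetR_bd, Real.exp_le_exp]
    have := abs_nonneg y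
    linarith

theorem IniA_LL {cn a a₁ μ l L La : ℝ} (hcn : 0 < cn) (hμ : 0 < μ) (hl : 0 < l)
    (ha₁ : a₁ ^ 2 = 2 * μ * l / cn) (ha : a ^ 2 ≤ a₁ ^ 2) (h1 : |La + cn * a ^ 2| ≤ μ * l / 8)
    (h2 : |L - La| ≤ μ * l / 8) :
    -(4 * μ * l) < L ∧ L ≤ μ * l / 4 ∧ (a ^ 2 = a₁ ^ 2 → L < -(μ * l)) := by
  have hml : 0 < μ * l := mul_pos hμ hl
  have e : cn * a₁ ^ 2 = 2 * (μ * l) := by
    rw [ha₁]
    field_simp
  have h3 := abs_le.1 h1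
  have h4 := abs_le.1 h2
  have h5 : cn * a ^ 2 ≤ cn * a₁ ^ 2 := mul_le_mul_of_nonneg_left ha hcn.le
  have h6 : 0 ≤ cn * a ^ 2 := by positivity
  refine ⟨?_, ?_, fun h => ?_⟩
  · linarith [h3.1, h3.2, h4.1, h4.2]
  · linarith [h3.1, h3.2, h4.1, h4.2]
  · rw [h] at h3 
    linarith [h3.1, h3.2, h4.1, h4.2]

theorem IniA_w2 {cn a a₁ μ l L n0 x0 K2 K3 : ℝ} (hcn : 0 < cn) (hμ : 0 < μ) (hl : 0 < l)
    (ha₁ : a₁ ^ 2 = 2 * μ * l / cn) (ha : a ^ 2 ≤ a₁ ^ 2) (hL : L ≤ μ * l / 4)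
    (hx : x0 ^ 2 ≤ μ * l / 4) (hK2 : 0 ≤ K2) (hK : 8 * n0 ^ 2 / cn + K2 + 2 ≤ K3) :
    (a * n0 + x0) ^ 2 + K2 * L < K3 * μ * l := by
  have hml : 0 < μ * l := mul_pos hμ hl
  have h1 : a ^ 2 * n0 ^ 2 ≤ a₁ ^ 2 * n0 ^ 2 := mul_le_mul_of_nonneg_right ha (sq_nonneg _)
  have h2 : a₁ ^ 2 * n0 ^ 2 = (8 * n0 ^ 2 / cn) * (μ * l) / 4 := by
    rw [ha₁]
    field_simp
    ring
  have h3 : (a * n0 + x0) ^ 2 ≤ 2 * (a ^ 2 * n0 ^ 2) + 2 * x0 ^ 2 := by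
    nlinarith [sq_nonneg (a * n0 - x0)]
  have h4 : K2 * L ≤ K2 * (μ * l) := mul_le_mul_of_nonneg_left (by linarith) hK2
  have h5 : (8 * n0 ^ 2 / cn + K2 + 2) * (μ * l) ≤ K3 * (μ * l) :=
    mul_le_mul_of_nonneg_right hK hml.le
  have h6 : 0 ≤ 8 * n0 ^ 2 / cn * (μ * l) := by positivity
  nlinarith [h1, h2, h3, h4, h5, h6]

theorem IniA_w3 {cn a a₁ μ l L n1 ν X K6 K7 : ℝ} (hcn : 0 < cn) (hμ : 0 < μ) (hμ1 : μ ≤ 1)
    (hl : 0 < l) (ha₁ : a₁ ^ 2 = 2 * μ * l / cn) (ha : a ^ 2 ≤ a₁ ^ 2) (hn : 0 ≤ n1)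
    (hL : L ≤ μ * l / 4) (hν : ν ≤ l / 2) (hX : X ≤ 2 * (a ^ 2 * n1) + 2 * ν) (hK6 : 0 ≤ K6)
    (hK : 4 * n1 / cn + K6 + 2 ≤ K7) : X + K6 * L < K7 * l := by
  have hml : μ * l ≤ l := by nlinarith
  have h1 : a ^ 2 * n1 ≤ a₁ ^ 2 * n1 := mul_le_mul_of_nonneg_right ha hn
  have h2 : a₁ ^ 2 * n1 = (4 * n1 / cn) * (μ * l) / 2 := by
    rw [ha₁]
    field_simp
    ring
  have h3 : (4 * n1 / cn) * (μ * l) ≤ (4 * n1 / cn) * l :=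
    mul_le_mul_of_nonneg_left hml (by positivity)
  have h4 : K6 * L ≤ K6 * l := mul_le_mul_of_nonneg_left (by linarith) hK6
  have h5 : (4 * n1 / cn + K6 + 2) * l ≤ K7 * l := mul_le_mul_of_nonneg_right hK hl.le
  nlinarith [h1, h2, h3, h4, h5]

theorem IniA_sg {a a₁ n0 x0 : ℝ} (h : |a| = a₁) (h1 : 0 < a₁) (hn : n0 ≠ 0)
    (hx : x0 ^ 2 ≤ a₁ ^ 2 * n0 ^ 2 / 4) : 0 < (a * n0 + x0) * (a * n0) := by
  have e : a ^ 2 = a₁ ^ 2 := by rw [← h, sq_abs]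
  have e2 : 0 < a₁ ^ 2 * n0 ^ 2 := by positivity
  have e3 : (a * n0) ^ 2 = a₁ ^ 2 * n0 ^ 2 := by rw [mul_pow, e]
  nlinarith [sq_nonneg (x0 + a * n0)]

theorem initial {k : ℕ} (hk : 5 ≤ k) {γ η δ M B c C : ℝ} (hG : Good k γ η δ M B c C)
    (hN : ThmN) : ∃ A3 A7 : ℝ, 0 ≤ A3 ∧ 0 ≤ A7 ∧ ∀ K2 K3 K6 K7 μ R : ℝ, 0 ≤ K2 → 0 ≤ K6 →
      A3 + K2 + 2 ≤ K3 → A7 + K6 + 2 ≤ K7 → 0 < μ → μ ≤ 1 → 1 ≤ R →
      ∃ ls : ℝ, 0 < ls ∧ ∀ l₀, 0 < l₀ → l₀ ≤ ls → ∃ a₁ : ℝ, 0 < a₁ ∧ a₁ ≤ 1 ∧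
      ∀ ν₁, 0 < ν₁ → ∃ νs : ℝ, 0 < νs ∧ ∀ (a p q : ℝ) (ε : ℝ → ℝ), a ∈ Icc (-a₁) a₁ →
        Adm (R * l₀) p q ε → Gn B (R * l₀) (fun y => ε y - a * nf k y) ≤ νs →
        ∫ y, (ε y - a * nf k y) ^ 2 ≤ νs → Xn (fun y => ε y - a * nf k y) ≤ νs →
        Reg k γ η δ M B R μ K2 K3 K6 K7 ν₁ l₀ ε ∧
        (|a| = a₁ → LL k η γ δ M B (R * l₀) ε < -(μ * l₀) ∧
          0 < ip ε (ph0 k) * (a * ip (nf k) (ph0 k))) := by
  obtain ⟨hn, hnQ, hnQ', hn0⟩ := hN k hk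
  obtain ⟨cn, hcn, hIN⟩ := hG.IN
  obtain ⟨N₀, hN₀⟩ := Cl_bdd (by norm_num : (0 : ℝ) ≤ 1 / 2) (by norm_num : (0 : ℝ) ≤ 1 / 2) hn
  obtain ⟨C₁, hC₁, hpair⟩ := IniA_pair hk
  obtain ⟨n0, hn0e⟩ : ∃ x, x = ip (nf k) (ph0 k) := ⟨_, rfl⟩
  obtain ⟨n1, hn1e⟩ : ∃ x, x = Xn (nf k) := ⟨_, rfl⟩
  have hn1 : 0 ≤ n1 := by rw [hn1e]; exact Xn_nonneg _
  rw [← hn0e] at hn0
  obtain ⟨N, hNe⟩ : ∃ x, x = max N₀ 1 := ⟨_, rfl⟩
  have hN1 : 1 ≤ N := by rw [hNe]; exact le_max_right _ _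
  have hNb : ∀ y, |nf k y| ≤ N := fun y => (hN₀ y).trans (by rw [hNe]; exact le_max_left _ _)
  have hB := hG.hB
  have hB0 : 0 < B := by linarith
  have hc := hG.hc
  have hC := hG.hC
  have hC0 : 0 < C := by linarith
  have hN0 : 0 < N := by linarith
  refine ⟨8 * n0 ^ 2 / cn, 4 * n1 / cn, by positivity, by positivity, ?_⟩
  intro K2 K3 K6 K7 μ R hK2 hK6 hK3 hK7 hμ hμ1 hR
  have hR0 : 0 < R := by linarith
  obtain ⟨t, hte⟩ : ∃ x, x = min 1 (min (c / (2 * N)) (cn / (32 * C))) := ⟨_, rfl⟩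
  have ht0 : 0 < t := by
    rw [hte]
    exact lt_min one_pos (lt_min (by positivity) (by positivity))
  have ht1 : t ≤ 1 := by rw [hte]; exact min_le_left _ _
  have ht2 : t ≤ c / (2 * N) := by
    rw [hte]; exact (min_le_right _ _).trans (min_le_left _ _)
  have ht3 : t ≤ cn / (32 * C) := by
    rw [hte]; exact (min_le_right _ _).trans (min_le_right _ _)
  obtain ⟨s, hse⟩ : ∃ x, x = min (1 / (4 * B)) (cn / (32 * C)) := ⟨_, rfl⟩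
  have hs0 : 0 < s := by
    rw [hse]
    exact lt_min (by positivity) (by positivity)
  have hs1 : s ≤ 1 / (4 * B) := by rw [hse]; exact min_le_left _ _
  have hs2 : s ≤ cn / (32 * C) := by rw [hse]; exact min_le_right _ _
  obtain ⟨ls, hls0, hls⟩ := IniA_ls hcn ht0 hs0 hμ hR
  refine ⟨ls, hls0, fun l hl hll => ?_⟩
  obtain ⟨hl1, hl2⟩ := hls l hl hll
  obtain ⟨a₁, ha₁e⟩ : ∃ x, x = √(2 * μ * l / cn) := ⟨_, rfl⟩
  rw [← ha₁e] at hl2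
  have ha₁0 : 0 < a₁ := by rw [ha₁e]; exact Real.sqrt_pos.2 (by positivity)
  have ha₁2 : a₁ ^ 2 = 2 * μ * l / cn := by
    rw [ha₁e]
    exact Real.sq_sqrt (by positivity)
  have ha₁N : a₁ * N ≤ c / 2 := by
    have h := hl2.trans ht2
    rw [le_div_iff₀ (by positivity)] at h
    linarith
  have hslow : Slow B (R * l) := by
    refine ⟨hB, by positivity, ?_⟩
    have h := hl1.trans hs1
    rw [le_div_iff₀ (by positivity)] at h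
    linarith
  have hCs : C * (R * l + a₁) ≤ cn / 16 := by
    have h1 : R * l + a₁ ≤ cn / (32 * C) + cn / (32 * C) :=
      add_le_add (hl1.trans hs2) (hl2.trans ht3)
    have h2 := mul_le_mul_of_nonneg_left h1 hC0.le
    have h3 : C * (cn / (32 * C) + cn / (32 * C)) = cn / 16 := by
      field_simp
      ring
    linarith
  refine ⟨a₁, ha₁0, hl2.trans ht1, fun ν₁ hν₁ => ?_⟩
  obtain ⟨G0, hG0e⟩ : ∃ x, x = Gn B (R * l) (nf k) := ⟨_, rfl⟩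
  have hG00 : 0 ≤ G0 := by rw [hG0e]; exact Gn_nonneg hB0 _
  obtain ⟨νs, hνs0, hνs1, hνs2, hνs3⟩ := IniA_nu
    (m1 := min (min 1 (c ^ 2 / 8)) (l / 2)) (m2 := μ * l / 8)
    (m3 := min (μ * l / 4) (min (ν₁ ^ 2 / 2) (a₁ ^ 2 * n0 ^ 2 / 4)))
    (P := C * (√(2 * G0 + 2) + √G0)) (D := C₁ ^ 2)
    (lt_min (lt_min one_pos (by positivity)) (by positivity)) (by positivity)
    (lt_min (by positivity) (lt_min (by positivity) (by positivity))) (by positivity)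
    (by positivity)
  have hν1 : νs ≤ 1 := hνs1.trans ((min_le_left _ _).trans (min_le_left _ _))
  have hν2 : νs ≤ c ^ 2 / 8 := hνs1.trans ((min_le_left _ _).trans (min_le_right _ _))
  have hν3 : νs ≤ l / 2 := hνs1.trans (min_le_right _ _)
  have hν4 : C₁ ^ 2 * νs ≤ μ * l / 4 := hνs3.trans (min_le_left _ _)
  have hν5 : C₁ ^ 2 * νs ≤ ν₁ ^ 2 / 2 := hνs3.trans ((min_le_right _ _).trans (min_le_left _ _))
  have hν6 : C₁ ^ 2 * νs ≤ a₁ ^ 2 * n0 ^ 2 / 4 :=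
    hνs3.trans ((min_le_right _ _).trans (min_le_right _ _))
  refine ⟨νs, hνs0, fun a p q ε ha hA hGd hL2 hXd => ?_⟩
  obtain ⟨hA1, hA2, hA3, hA4, hA5⟩ := hA
  have haa : |a| ≤ a₁ := abs_le.2 ⟨ha.1, ha.2⟩
  have ha2 : a ^ 2 ≤ a₁ ^ 2 := by
    rw [← sq_abs a]
    exact pow_le_pow_left₀ (abs_nonneg a) haa 2
  have hp0 : 0 < p := lt_trans (by positivity) hA1
  have hnpq : Cl p q (nf k) := Cl_mono hA2 hA4 hn
  have hanpq : Cl p q (fun y => a * nf k y) := Cl_smul a hnpq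
  have hdpq : Cl p q (fun y => ε y - a * nf k y) := Cl_sub hA5 hanpq
  have hAε : Adm (R * l) p q ε := ⟨hA1, hA2, hA3, hA4, hA5⟩
  have hAn : Adm (R * l) p q (fun y => a * nf k y) := ⟨hA1, hA2, hA3, hA4, hanpq⟩
  have hAd : Adm (R * l) p q (fun y => ε y - a * nf k y) := ⟨hA1, hA2, hA3, hA4, hdpq⟩
  -- pointwise bounds
  have hban : ∀ y, |a * nf k y| ≤ c / 2 := fun y => by
    rw [abs_mul]
    calc |a| * |nf k y| ≤ a₁ * N := mul_le_mul haa (hNb y) (abs_nonneg _) ha₁0.le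
      _ ≤ c / 2 := ha₁N
  have hbd : ∀ y, |ε y - a * nf k y| ≤ c / 2 := fun y => by
    have h1 := Cl_sup hp0 hA3 hdpq y
    have h2 : 0 ≤ ∫ z, (ε z - a * nf k z) ^ 2 := integral_nonneg fun z => sq_nonneg _
    have h3 : 0 ≤ ∫ z, (deriv (fun y => ε y - a * nf k y) z) ^ 2 :=
      integral_nonneg fun z => sq_nonneg _
    have h4 : (∫ z, (ε z - a * nf k z) ^ 2) *
        ∫ z, (deriv (fun y => ε y - a * nf k y) z) ^ 2 ≤ νs * νs :=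
      mul_le_mul hL2 hXd h3 hνs0.le
    have h5 : |ε y - a * nf k y| ^ 4 ≤ (c / 2) ^ 4 := by
      have h6 : νs * νs ≤ c ^ 2 / 8 * (c ^ 2 / 8) := mul_le_mul hν2 hν2 hνs0.le (by positivity)
      linarith only [h1, h4, h6]
    exact (pow_le_pow_iff_left₀ (abs_nonneg _) (by positivity) (by norm_num)).1 h5
  have hbε : ∀ y, |ε y| ≤ c := fun y => by
    have h1 : ε y = (ε y - a * nf k y) + a * nf k y := by ring
    rw [h1]
    exact (abs_add_le _ _).trans (by linarith [hbd y, hban y])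
  have hban' : ∀ y, |a * nf k y| ≤ c := fun y => (hban y).trans (by linarith)
  have hac : |a| ≤ c := by
    refine haa.trans ?_
    have e1 := mul_le_mul_of_nonneg_left hN1 ha₁0.le
    linarith only [e1, ha₁N, hG.hc]
  -- the Lyapunov functional
  have hIN' : |LL k η γ δ M B (R * l) (fun y => a * nf k y) + cn * a ^ 2| ≤ μ * l / 8 := by
    refine (hIN (R * l) hslow a hac).trans ?_
    have h1 : R * l * a ^ 2 ≤ R * l * a₁ ^ 2 := mul_le_mul_of_nonneg_left ha2 (by positivity)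
    have h2 : |a| ^ 3 ≤ a₁ ^ 3 := pow_le_pow_left₀ (abs_nonneg a) haa 3
    have h3 : C * (R * l * a ^ 2 + |a| ^ 3) ≤ C * (R * l + a₁) * a₁ ^ 2 := by
      have := mul_le_mul_of_nonneg_left (add_le_add h1 h2) hC0.le
      calc C * (R * l * a ^ 2 + |a| ^ 3) ≤ C * (R * l * a₁ ^ 2 + a₁ ^ 3) := this
        _ = C * (R * l + a₁) * a₁ ^ 2 := by ring
    have h4 : C * (R * l + a₁) * a₁ ^ 2 ≤ cn / 16 * a₁ ^ 2 :=
      mul_le_mul_of_nonneg_right hCs (sq_nonneg _)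
    have h5 : cn / 16 * a₁ ^ 2 = μ * l / 8 := by
      rw [ha₁2]
      field_simp
      ring
    linarith
  have hGan : Gn B (R * l) (fun y => a * nf k y) ≤ G0 := by
    rw [IniA_Gs, ← hG0e]
    have h1 : a ^ 2 ≤ 1 := by
      have : a₁ ^ 2 ≤ 1 := pow_le_one₀ ha₁0.le (hl2.trans ht1)
      linarith
    calc a ^ 2 * G0 ≤ 1 * G0 := mul_le_mul_of_nonneg_right h1 hG00
      _ = G0 := one_mul _
  have hGε : Gn B (R * l) ε ≤ 2 * G0 + 2 := by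
    have h1 := IniA_Gn hslow hAε hAn
    linarith
  have hLIP : |LL k η γ δ M B (R * l) ε - LL k η γ δ M B (R * l) (fun y => a * nf k y)| ≤
      μ * l / 8 := by
    refine (hG.LIP (R * l) hslow p q ε (fun y => a * nf k y) hAε hAn hbε hban').trans ?_
    have h1 : √(Gn B (R * l) (fun y => ε y - a * nf k y)) ≤ √νs := Real.sqrt_le_sqrt hGd
    have h2 : √(Gn B (R * l) ε) ≤ √(2 * G0 + 2) := Real.sqrt_le_sqrt hGε
    have h3 : √(Gn B (R * l) (fun y => a * nf k y)) ≤ √G0 := Real.sqrt_le_sqrt hGan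
    calc C * √(Gn B (R * l) (fun y => ε y - a * nf k y)) *
          (√(Gn B (R * l) ε) + √(Gn B (R * l) (fun y => a * nf k y)))
        ≤ C * √νs * (√(2 * G0 + 2) + √G0) := by
          refine mul_le_mul (mul_le_mul_of_nonneg_left h1 hC0.le) (add_le_add h2 h3)
            (by positivity) (by positivity)
      _ = C * (√(2 * G0 + 2) + √G0) * √νs := by ring
      _ ≤ μ * l / 8 := hνs2
  obtain ⟨hLa, hLb, hLc⟩ := IniA_LL hcn hμ hl ha₁2 ha2 hIN' hLIP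
  -- pairings
  have hx : ∀ ψ : ℝ → ℝ, (ψ = Qf k ∨ ψ = deriv (Qf k) ∨ ψ = ph0 k) →
      ip ε ψ = a * ip (nf k) ψ + ip (fun y => ε y - a * nf k y) ψ ∧
      (ip (fun y => ε y - a * nf k y) ψ) ^ 2 ≤ C₁ ^ 2 * νs := by
    intro ψ hψ
    obtain ⟨h1, ⟨D, h2⟩, h3⟩ := hpair ψ hψ
    refine ⟨IniA_ip hp0 hA3 hA5 hnpq h1 h2, ?_⟩
    have h4 := h3 B (R * l) p q _ hslow hAd
    have h5 : C₁ * √(Gn B (R * l) (fun y => ε y - a * nf k y)) ≤ C₁ * √νs :=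
      mul_le_mul_of_nonneg_left (Real.sqrt_le_sqrt hGd) hC₁
    have h6 := pow_le_pow_left₀ (abs_nonneg _) (h4.trans h5) 2
    rw [sq_abs, mul_pow, Real.sq_sqrt hνs0.le] at h6
    exact h6
  obtain ⟨p1, p2⟩ := hx (ph0 k) (Or.inr (Or.inr rfl))
  obtain ⟨q1, q2⟩ := hx (Qf k) (Or.inl rfl)
  obtain ⟨r1, r2⟩ := hx (deriv (Qf k)) (Or.inr (Or.inl rfl))
  rw [← hn0e] at p1
  rw [hnQ, mul_zero, zero_add] at q1
  rw [hnQ', mul_zero, zero_add] at r1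
  have hXε : Xn ε ≤ 2 * (a ^ 2 * n1) + 2 * νs := by
    have h1 := IniA_Xn hp0 hA3 hA5 hanpq
    rw [IniA_Xs, ← hn1e] at h1
    linarith
  refine ⟨⟨hLa, ?_, ?_, ?_, ?_, ?_⟩, fun hae => ⟨?_, ?_⟩⟩
  · have : 0 < μ * l := by positivity
    linarith
  · rw [p1]
    exact IniA_w2 hcn hμ hl ha₁2 ha2 hLb (p2.trans hν4) hK2 hK3
  · exact IniA_w3 hcn hμ hμ1 hl ha₁2 ha2 hn1 hLb hν3 hXε hK6 hK7
  · rw [q1]
    have : 0 < ν₁ ^ 2 := by positivity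
    linarith
  · rw [r1]
    have : 0 < ν₁ ^ 2 := by positivity
    linarith
  · refine hLc ?_
    rw [← hae, sq_abs]
  · rw [p1, ← hn0e]
    exact IniA_sg hae ha₁0 hn0 (p2.trans hν6)

end H72KB
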