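import Pool.Agent.H72.KB.StA

/-!
# Row StC: the barrier inequalities T2 and T3 (real arithmetic from `Good` and `St`)

Notation and proofs: see the header of StA.lean.  Repeated here:
`st_T2`: `DL`: `|ip ζ φ0| ≤ C(√n + l + √Ge)`, `LN`: `|φ| ≤ C√n`: `2|φ||ip ζ φ0| ≤ 2C²√n(√n+l+√Ge) ≤ 4C²n + C²l² + C²Ge`
 (`2√n l ≤ n + l²`, `2√n√Ge ≤ n + Ge`); `K2 W3 ≤ -5C²n + 4CK2 l²` (`K2 c = 5C²`; drop `TT, G`).  Sum `≤ -C²n + (2C²+4CK2) l²`
 (`Ge ≤ l²`).  If `Z = φ²+K2 L ≥ K3μl/2` then `φ² ≥ K3μl/2 - K2μl ≥ K3μl/4` (`L < μl`, `4K2 ≤ K3`) and `C²n ≥ φ²`, so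
 sum `≤ -K3μl/4 + (2C²+4CK2) l² < -2κK3μl² ≤ -K3μbl` by the numerical hypothesis.
`st_T3`: `DX`: `2 ip(ε',ζ') ≤ -2b(1-sc)X + 2C(TT+n) + 2Cl² + 2C Ge + (2C/l) Xe`; `K6 W3 ≤ -2C(TT+n) + 4CK6 l²` (`K6 c = 2C`);
 so the sum is `≤ -2b(1-sc)X + C₇ l²`, `C₇ = 2C+4CK6+1` (`2Cν + 2Cν/l ≤ l²`).  `2(1-sc) = 1+4/k ≤ 2`.  If
 `X + K6 L ≥ (k+3)/(k+4) K7 l` then `X ≥ (k+3)/(k+4) K7 l - K6μl`, `(1+4/k)(k+3)/(k+4) = 1+3/k`, so
 `2b(1-sc)X ≥ b l ((1+3/k)K7 - 2K6μ)` (`b ≥ 0`), and the sum is `≤ -K7bl - (3/k)K7 b l + 2K6μ b l + C₇l² < -K7bl` since `b ≥ κl/2`,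
 `b ≤ 2κl` and the numerical hypothesis.
-/

open MeasureTheory Filter Topology Set
open scoped ContDiff

namespace H72KB

open H98KB

theorem StC_key {s l g C φ z : ℝ} (hs : 0 ≤ s) (hC : 0 ≤ C) (hφ : |φ| ≤ C * s)
    (hz : |z| ≤ C * (s + l + g)) :
    2 * φ * z ≤ 4 * C ^ 2 * s ^ 2 + C ^ 2 * l ^ 2 + C ^ 2 * g ^ 2 := by
  have h1 : φ * z ≤ |φ| * |z| := by
    rw [← abs_mul]
    exact le_abs_self _
  have h2 : |φ| * |z| ≤ (C * s) * (C * (s + l + g)) :=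
    mul_le_mul hφ hz (abs_nonneg _) (mul_nonneg hC hs)
  have h3 : 0 ≤ C ^ 2 * ((s - l) ^ 2 + (s - g) ^ 2) := by positivity
  nlinarith

theorem st_T2 {k : ℕ} {γ η δ M B c C R μ K2 K3 K6 K7 ν₁ ν l b m p q : ℝ} {ε e : ℝ → ℝ}
    (hG : Good k γ η δ M B c C) (h : St k γ η δ M B c R μ K2 K3 K6 K7 ν₁ ν l b m p q ε e)
    (hm : W3 k η γ δ M B R l b m ε e ≤ -c * (Tn B (R * l) ε + ln γ B ε)
      - c * R * l * Gn B (R * l) ε + 4 * C * l ^ 2)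
    (hR : 0 < R) (hμ : 0 < μ) (hκ : 0 < kap k) (hK2 : K2 = 5 * C ^ 2 / c) (hK3 : 4 * K2 ≤ K3)
    (hν : ν ≤ l ^ 2)
    (hn : l * (2 * C ^ 2 + 4 * C * K2 + 2 * kap k * K3 * μ) < K3 * μ / 4)
    (hZ : K3 * μ * l / 2 ≤ (ip ε (ph0 k)) ^ 2 + K2 * LL k η γ δ M B (R * l) ε) :
    2 * ip ε (ph0 k) * ip (zeta k b m l ε e) (ph0 k) + K2 * W3 k η γ δ M B R l b m ε e <
      -(K3 * μ * b * l) := by
  have hC : 1 ≤ C := hG.hC
  have hC0 : 0 < C := by linarith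
  have hc := hG.hc
  have hB := hG.hB
  have hB0 : 0 < B := by linarith
  have hl := h.l0
  have hRl : 0 < R * l := mul_pos hR hl
  have hT := Tn_nonneg hB0 hRl.le ε
  have hn0 := ln_nonneg γ B ε
  have hG0 := Gn_nonneg hB0 (ρ := R * l) ε
  have hGe0 := Gn_nonneg hB0 (ρ := R * l) e
  have hge := h.ge
  have hb0 : 0 ≤ b := by
    have h1 := h.b1
    have h2 : 0 < kap k * l := mul_pos hκ hl
    linarith
  have hK2p : 0 < K2 := by
    rw [hK2]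
    positivity
  have hK3p : 0 < K3 := by linarith
  have hK2c : K2 * c = 5 * C ^ 2 := by
    rw [hK2]
    field_simp
  obtain ⟨-, hφ, -, -⟩ := hG.LN (R * l) h.slow p q ε h.a1
  have hz := hG.DL (R * l) h.slow l hl h.l1 p q ε e h.a1 h.a2 h.sup h.ln1 h.ge1 b m hb0 h.b2
    h.orth
  have hs0 : 0 ≤ √(ln γ B ε) := Real.sqrt_nonneg _
  have hs2 : √(ln γ B ε) ^ 2 = ln γ B ε := Real.sq_sqrt hn0
  have hg2 : √(Gn B (R * l) e) ^ 2 = Gn B (R * l) e := Real.sq_sqrt hGe0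
  have hkey := StC_key hs0 hC0.le hφ hz
  rw [hs2, hg2] at hkey
  have hφ2 : (ip ε (ph0 k)) ^ 2 ≤ C ^ 2 * ln γ B ε := by
    have h1 : (ip ε (ph0 k)) ^ 2 ≤ (C * √(ln γ B ε)) ^ 2 := by
      rw [← sq_abs (ip ε (ph0 k))]
      exact pow_le_pow_left₀ (abs_nonneg _) hφ 2
    rw [mul_pow, hs2] at h1
    exact h1
  have hW := mul_le_mul_of_nonneg_left hm hK2p.le
  have hW2 : K2 * (-c * (Tn B (R * l) ε + ln γ B ε)
      - c * R * l * Gn B (R * l) ε + 4 * C * l ^ 2) ≤ -(5 * C ^ 2) * ln γ B ε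
        + 4 * C * K2 * l ^ 2 := by
    have e1 : 0 ≤ K2 * c * Tn B (R * l) ε := by positivity
    have e2 : 0 ≤ K2 * c * (R * l) * Gn B (R * l) ε := by positivity
    have e3 : K2 * (-c * (Tn B (R * l) ε + ln γ B ε)
      - c * R * l * Gn B (R * l) ε + 4 * C * l ^ 2) = -(K2 * c * Tn B (R * l) ε)
        - K2 * c * ln γ B ε - K2 * c * (R * l) * Gn B (R * l) ε + 4 * C * K2 * l ^ 2 := by ring
    rw [e3]
    have e4 : K2 * c * ln γ B ε = 5 * C ^ 2 * ln γ B ε := by rw [hK2c]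
    linarith
  have hGe : C ^ 2 * Gn B (R * l) e ≤ C ^ 2 * l ^ 2 :=
    mul_le_mul_of_nonneg_left (hge.trans hν) (by positivity)
  have hφl : K3 * μ * l / 4 ≤ (ip ε (ph0 k)) ^ 2 := by
    have h1 := mul_le_mul_of_nonneg_left h.reg.w1.le hK2p.le
    have h2 : 4 * K2 * (μ * l) ≤ K3 * (μ * l) :=
      mul_le_mul_of_nonneg_right hK3 (by positivity)
    nlinarith
  have hnl := mul_lt_mul_of_pos_right hn hl
  have hbl : K3 * μ * b * l ≤ K3 * μ * (2 * kap k * l) * l := by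
    have h1 := mul_le_mul_of_nonneg_left h.b2 (mul_pos hK3p hμ).le
    exact mul_le_mul_of_nonneg_right h1 hl.le
  have hx : l * (2 * C ^ 2 + 4 * C * K2 + 2 * kap k * K3 * μ) * l =
      (2 * C ^ 2 + 4 * C * K2) * l ^ 2 + K3 * μ * (2 * kap k * l) * l := by ring
  have hy : K3 * μ / 4 * l = K3 * μ * l / 4 := by ring
  rw [hx, hy] at hnl
  linarith

theorem st_T3 {k : ℕ} {γ η δ M B c C R μ K2 K3 K6 K7 ν₁ ν l b m p q : ℝ} {ε e : ℝ → ℝ}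
    (hk : 5 ≤ k) (hG : Good k γ η δ M B c C)
    (h : St k γ η δ M B c R μ K2 K3 K6 K7 ν₁ ν l b m p q ε e)
    (hm : W3 k η γ δ M B R l b m ε e ≤ -c * (Tn B (R * l) ε + ln γ B ε)
      - c * R * l * Gn B (R * l) ε + 4 * C * l ^ 2)
    (hR : 0 < R) (hμ : 0 < μ) (hκ : 0 < kap k) (hK6 : K6 = 2 * C / c)
    (hν : 2 * C * ν + 2 * C * ν / l ≤ l ^ 2)
    (hn : 4 * kap k * K6 * μ + (2 * C + 4 * C * K6 + 1) < kap k * (3 / (2 * (k : ℝ))) * K7)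
    (hX : ((k : ℝ) + 3) / ((k : ℝ) + 4) * K7 * l ≤ Xn ε + K6 * LL k η γ δ M B (R * l) ε) :
    2 * ip (deriv ε) (deriv (zeta k b m l ε e)) + K6 * W3 k η γ δ M B R l b m ε e <
      -(K7 * b * l) := by
  have hC : 1 ≤ C := hG.hC
  have hC0 : 0 < C := by linarith
  have hc := hG.hc
  have hB := hG.hB
  have hB0 : 0 < B := by linarith
  have hl := h.l0
  have hk5 : (5 : ℝ) ≤ (k : ℝ) := by exact_mod_cast hk
  have hk0 : (0 : ℝ) < (k : ℝ) := by linarith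
  have hRl : 0 < R * l := mul_pos hR hl
  have hT := Tn_nonneg hB0 hRl.le ε
  have hn0 := ln_nonneg γ B ε
  have hG0 := Gn_nonneg hB0 (ρ := R * l) ε
  have hXe0 := Xn_nonneg e
  have hκl : 0 < kap k * l := mul_pos hκ hl
  have hb1 := h.b1
  have hb0 : 0 < b := by linarith
  have hK6p : 0 < K6 := by
    rw [hK6]
    positivity
  have hK6c : K6 * c = 2 * C := by
    rw [hK6]
    field_simp
  have hK7p : 0 < K7 := by
    have h1 : 0 < kap k * (3 / (2 * (k : ℝ))) * K7 := by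
      have : 0 < 4 * kap k * K6 * μ + (2 * C + 4 * C * K6 + 1) := by positivity
      linarith
    have h2 : 0 < kap k * (3 / (2 * (k : ℝ))) := by positivity
    exact (mul_pos_iff_of_pos_left h2).1 h1
  have hD := hG.DX (R * l) h.slow l hl h.l1 p q ε e h.a1 h.a2 h.sup h.ln1 h.ge1 h.dx b m hb0.le
    h.b2 h.orth
  have hW := mul_le_mul_of_nonneg_left hm hK6p.le
  have hW2 : K6 * (-c * (Tn B (R * l) ε + ln γ B ε)
      - c * R * l * Gn B (R * l) ε + 4 * C * l ^ 2) ≤ -(2 * C) * (Tn B (R * l) ε + ln γ B ε)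
        + 4 * C * K6 * l ^ 2 := by
    have e2 : 0 ≤ K6 * c * (R * l) * Gn B (R * l) ε := by positivity
    have e3 : K6 * (-c * (Tn B (R * l) ε + ln γ B ε)
      - c * R * l * Gn B (R * l) ε + 4 * C * l ^ 2) = -(K6 * c * (Tn B (R * l) ε + ln γ B ε))
        - K6 * c * (R * l) * Gn B (R * l) ε + 4 * C * K6 * l ^ 2 := by ring
    rw [e3]
    have e4 : K6 * c * (Tn B (R * l) ε + ln γ B ε) = 2 * C * (Tn B (R * l) ε + ln γ B ε) := by
      rw [hK6c]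
    linarith
  have hge : 2 * C * Gn B (R * l) e ≤ 2 * C * ν :=
    mul_le_mul_of_nonneg_left h.ge (by positivity)
  have hxe : 2 * (C / l * Xn e) ≤ 2 * C * ν / l := by
    have h1 := mul_le_mul_of_nonneg_left h.xe (div_pos hC0 hl).le
    have h2 : 2 * C * ν / l = 2 * (C / l * ν) := by ring
    rw [h2]
    linarith
  have hsc : 1 - sc k = 1 / 2 + 2 / (k : ℝ) := by
    unfold sc
    ring
  have hXl : ((k : ℝ) + 3) / ((k : ℝ) + 4) * K7 * l - K6 * (μ * l) ≤ Xn ε := by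
    have h1 := mul_le_mul_of_nonneg_left h.reg.w1.le hK6p.le
    linarith
  have hfac : 0 < b * (1 + 4 / (k : ℝ)) := by positivity
  have hmain := mul_le_mul_of_nonneg_left hXl hfac.le
  have hid : b * (1 + 4 / (k : ℝ)) * (((k : ℝ) + 3) / ((k : ℝ) + 4) * K7 * l - K6 * (μ * l)) =
      b * l * ((1 + 3 / (k : ℝ)) * K7) - b * l * ((1 + 4 / (k : ℝ)) * (K6 * μ)) := by
    field_simp
  have h4k : 4 / (k : ℝ) ≤ 1 := by
    rw [div_le_one hk0]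
    linarith
  have hbl : 0 < b * l := mul_pos hb0 hl
  have hle1 : b * l * ((1 + 4 / (k : ℝ)) * (K6 * μ)) ≤ 4 * kap k * K6 * μ * l ^ 2 := by
    have h1 : (1 + 4 / (k : ℝ)) * (K6 * μ) ≤ 2 * (K6 * μ) :=
      mul_le_mul_of_nonneg_right (by linarith) (by positivity)
    have h2 : b * l ≤ 2 * kap k * l * l := mul_le_mul_of_nonneg_right h.b2 hl.le
    calc b * l * ((1 + 4 / (k : ℝ)) * (K6 * μ)) ≤ b * l * (2 * (K6 * μ)) :=
          mul_le_mul_of_nonneg_left h1 hbl.le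
      _ ≤ 2 * kap k * l * l * (2 * (K6 * μ)) := mul_le_mul_of_nonneg_right h2 (by positivity)
      _ = 4 * kap k * K6 * μ * l ^ 2 := by ring
  have hle2 : kap k * (3 / (2 * (k : ℝ))) * K7 * l ^ 2 ≤ b * l * (3 / (k : ℝ) * K7) := by
    have h2 : kap k * l / 2 * l ≤ b * l := mul_le_mul_of_nonneg_right hb1 hl.le
    have h0 : 0 ≤ 3 / (k : ℝ) * K7 := by positivity
    have h3 := mul_le_mul_of_nonneg_right h2 h0
    calc kap k * (3 / (2 * (k : ℝ))) * K7 * l ^ 2 = kap k * l / 2 * l * (3 / (k : ℝ) * K7) := by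
          field_simp
      _ ≤ _ := h3
  have hnl := mul_lt_mul_of_pos_right hn (pow_pos hl 2)
  rw [hid] at hmain
  rw [hsc] at hD
  have hD2 : 2 * (-b * (1 / 2 + 2 / (k : ℝ)) * Xn ε) = -(b * (1 + 4 / (k : ℝ)) * Xn ε) := by ring
  have hsplit : b * l * ((1 + 3 / (k : ℝ)) * K7) = K7 * b * l + b * l * (3 / (k : ℝ) * K7) := by
    ring
  have hx : (4 * kap k * K6 * μ + (2 * C + 4 * C * K6 + 1)) * l ^ 2 =
      4 * kap k * K6 * μ * l ^ 2 + 2 * C * l ^ 2 + 4 * C * K6 * l ^ 2 + l ^ 2 := by ring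
  rw [hx] at hnl
  linarith

end H72KB
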