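import Pool.Agent.H72.KB.StB
import Pool.Agent.H72.KB.StC
import Pool.Agent.H72.KB.SupR

/-!
# Row StD: the static theorem (choice of all constants)

Order: `K2 = 5C²/c`, `K6 = 2C/c`, `K3 = max (A3+K2+2) (4K2)` (or the sum), `C₇ = 2C+4CK6+1`, `K7` with
 `A7+K6+2 ≤ K7`, `4κK6 + C₇ < κ (3/(2k)) K7`;  `μ = min 1 μs` (`μs` of `st_bounds` for `K2, K3`); `R ≥ max 1 C` with
 `4C + 2κμ < c R μ/(2C)`;  `l₁` from `Good.ML R`; `ls₁` from `st_bounds`, `ls₂` from `sup_small` with `K8 = K7+4K6`, and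
 `ls₃`: `2 ls₃ ≤ l₁`, `2 ls₃ (2C²+4CK2+2κK3μ) < K3μ/4`, `2 ls₃ (K7+4K6) ≤ (∫Q'²)/4`.  `ls` = the minimum (and `≤ 1/2`).
First conclusion: `st_X` and `μ ≤ 1`.
Second: given `lm`: `νs` = min of `st_bounds`' one and: `νs² ≤ lm²`, `νs ≤ lm³`, `νs ≤ lm²`, `νs² ≤ μ lm`,
 `2Cνs + 2Cνs/lm ≤ lm²`, `νs ≤ 1`.  For the state: `sup_small` (`Xn ε ≤ (K7+4K6) l`; exponents from `Adm`: `0 ≤ R l < p`) gives
 `|ε| ≤ c` and `dx`; `st_bounds` gives the rest of `St` (with `ν = νs`); then `st_main`, `st_T1`, `st_T2`, `st_T3`, `st_nz`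
 (all `νs` conditions transfer from `lm` to `l ≥ lm` by monotonicity).
-/

open MeasureTheory Filter Topology Set
open scoped ContDiff

namespace H72KB

open H98KB

theorem static {k : ℕ} (hk : 5 ≤ k) {γ η δ M B c C : ℝ} (hG : Good k γ η δ M B c C)
    (A3 A7 M₀ : ℝ) (hA3 : 0 ≤ A3) (hA7 : 0 ≤ A7) (hM : 0 < M₀) :
    ∃ K2 K3 K6 K7 μ R : ℝ, 0 < K2 ∧ 0 < K6 ∧ A3 + K2 + 2 ≤ K3 ∧ A7 + K6 + 2 ≤ K7 ∧ 0 < μ ∧
      μ ≤ 1 ∧ 1 ≤ R ∧ ∃ ls : ℝ, 0 < ls ∧ ls ≤ 1 / 2 ∧ ∀ l₀, 0 < l₀ → l₀ ≤ ls →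
      (∀ (l ν₁ : ℝ) (ε : ℝ → ℝ), 0 < l → l ≤ 2 * l₀ → Reg k γ η δ M B R μ K2 K3 K6 K7 ν₁ l ε →
        Xn ε ≤ (∫ y, (deriv (Qf k) y) ^ 2) / 4) ∧
      ∀ lm, 0 < lm → ∃ νs : ℝ, 0 < νs ∧ ∀ ν₁, 0 < ν₁ → ν₁ ≤ νs → ∀ l, lm ≤ l → l ≤ 2 * l₀ →
        ∀ (p q : ℝ) (ε e : ℝ → ℝ), Adm (R * l) p q ε → Adm (R * l) p q e →
        (∫ y, (Qf k y + ε y) ^ 2) ^ k * l ^ (k - 4) ≤ M₀ ^ k * l₀ ^ (k - 4) →
        Reg k γ η δ M B R μ K2 K3 K6 K7 ν₁ l ε → Gn B (R * l) e ≤ νs → Xn e ≤ νs →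
        Dyn k γ η δ M B R μ K2 K3 K6 K7 l (bfn k l (fun y => Qf k y + ε y) e)
          (mfn k l (fun y => Qf k y + ε y) e) ε e := by
  have hκ := kap_pos hk
  have hQ' : 0 < ∫ y, (deriv (Qf k) y) ^ 2 := Q'sq_pos (by omega)
  have hC : 1 ≤ C := hG.hC
  have hC0 : 0 < C := by linarith
  have hc := hG.hc
  have hk0 : (0 : ℝ) < (k : ℝ) := by
    have : 0 < k := by omega
    exact_mod_cast this
  obtain ⟨K2, hK2d⟩ : ∃ K2 : ℝ, K2 = 5 * C ^ 2 / c := ⟨_, rfl⟩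
  obtain ⟨K6, hK6d⟩ : ∃ K6 : ℝ, K6 = 2 * C / c := ⟨_, rfl⟩
  have hK2 : 0 < K2 := by rw [hK2d]; positivity
  have hK6 : 0 < K6 := by rw [hK6d]; positivity
  obtain ⟨K3, hK3d⟩ : ∃ K3 : ℝ, K3 = A3 + 5 * K2 + 2 := ⟨_, rfl⟩
  have hK3 : 0 < K3 := by rw [hK3d]; positivity
  obtain ⟨K7, hK7d⟩ : ∃ K7 : ℝ, K7 = A7 + K6 + 2 +
      2 * (k : ℝ) / (3 * kap k) * (4 * kap k * K6 + (2 * C + 4 * C * K6 + 1) + 1) := ⟨_, rfl⟩
  have hK7p : 0 < 2 * (k : ℝ) / (3 * kap k) * (4 * kap k * K6 + (2 * C + 4 * C * K6 + 1) + 1) := by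
    positivity
  have hK7 : 0 < K7 := by rw [hK7d]; positivity
  have hK7n : 4 * kap k * K6 + (2 * C + 4 * C * K6 + 1) < kap k * (3 / (2 * (k : ℝ))) * K7 := by
    have h1 : kap k * (3 / (2 * (k : ℝ))) * (2 * (k : ℝ) / (3 * kap k) *
        (4 * kap k * K6 + (2 * C + 4 * C * K6 + 1) + 1)) =
        4 * kap k * K6 + (2 * C + 4 * C * K6 + 1) + 1 := by
      field_simp
    have h2 : 0 ≤ kap k * (3 / (2 * (k : ℝ))) * (A7 + K6 + 2) := by positivity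
    rw [hK7d, mul_add, h1]
    linarith
  obtain ⟨μs, hμs, hstb⟩ := st_bounds hk hG K2 K3 hK2.le hK3.le
  obtain ⟨μ, hμd⟩ : ∃ μ : ℝ, μ = min 1 μs := ⟨_, rfl⟩
  have hμ : 0 < μ := by rw [hμd]; exact lt_min one_pos hμs
  have hμ1 : μ ≤ 1 := by rw [hμd]; exact min_le_left _ _
  have hμ2 : μ ≤ μs := by rw [hμd]; exact min_le_right _ _
  obtain ⟨R, hRd⟩ : ∃ R : ℝ, R = C + 2 * C / (c * μ) * (4 * C + 2 * kap k * μ + 1) := ⟨_, rfl⟩
  have hRp : 0 < 2 * C / (c * μ) * (4 * C + 2 * kap k * μ + 1) := by positivity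
  have hRC : C ≤ R := by rw [hRd]; linarith
  have hR1 : 1 ≤ R := hC.trans hRC
  have hR0 : 0 < R := by linarith
  have hRn : 4 * C + 2 * kap k * μ < c * R * μ / (2 * C) := by
    have h1 : c * (2 * C / (c * μ) * (4 * C + 2 * kap k * μ + 1)) * μ / (2 * C) =
        4 * C + 2 * kap k * μ + 1 := by
      field_simp
    have h2 : 0 < c * C * μ / (2 * C) := by positivity
    have h3 : c * R * μ / (2 * C) = c * C * μ / (2 * C) +
        c * (2 * C / (c * μ) * (4 * C + 2 * kap k * μ + 1)) * μ / (2 * C) := by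
      rw [hRd]
      ring
    rw [h3, h1]
    linarith
  obtain ⟨l₁, hl₁, hl₁1, hML⟩ := hG.ML R hRC
  obtain ⟨ls₁, hls₁, hls₁2, hb1⟩ := hstb μ hμ hμ2 R hRC hR1
  have hK8 : 0 < K7 + 4 * K6 := by positivity
  obtain ⟨ls₂, hls₂, hb2⟩ := sup_small hk (K7 + 4 * K6) M₀ c hK8 hM hc
  obtain ⟨D₁, hD₁d⟩ : ∃ D₁ : ℝ, D₁ = 2 * C ^ 2 + 4 * C * K2 + 2 * kap k * K3 * μ := ⟨_, rfl⟩
  have hD₁ : 0 < D₁ := by rw [hD₁d]; positivity
  obtain ⟨ls, hlsd⟩ : ∃ ls : ℝ, ls = min (min ls₁ ls₂) (min (l₁ / 2) (min (K3 * μ / (16 * D₁))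
    ((∫ y, (deriv (Qf k) y) ^ 2) / (8 * (K7 + 4 * K6))))) := ⟨_, rfl⟩
  have hls : 0 < ls := by
    rw [hlsd]
    refine lt_min (lt_min hls₁ hls₂) (lt_min (by positivity) (lt_min (by positivity)
      (by positivity)))
  have g1 : ls ≤ ls₁ := by rw [hlsd]; exact (min_le_left _ _).trans (min_le_left _ _)
  have g2 : ls ≤ ls₂ := by rw [hlsd]; exact (min_le_left _ _).trans (min_le_right _ _)
  have g3 : ls ≤ l₁ / 2 := by rw [hlsd]; exact (min_le_right _ _).trans (min_le_left _ _)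
  have g4 : ls ≤ K3 * μ / (16 * D₁) := by
    rw [hlsd]
    exact (min_le_right _ _).trans ((min_le_right _ _).trans (min_le_left _ _))
  have g5 : ls ≤ (∫ y, (deriv (Qf k) y) ^ 2) / (8 * (K7 + 4 * K6)) := by
    rw [hlsd]
    exact (min_le_right _ _).trans ((min_le_right _ _).trans (min_le_right _ _))
  refine ⟨K2, K3, K6, K7, μ, R, hK2, hK6, by rw [hK3d]; linarith, by rw [hK7d]; linarith, hμ, hμ1,
    hR1, ls, hls, g1.trans hls₁2, ?_⟩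
  intro l₀ hl₀ hl₀s
  have g4' : l₀ * (16 * D₁) ≤ K3 * μ := (le_div_iff₀ (by positivity)).1 (hl₀s.trans g4)
  have g5' : l₀ * (8 * (K7 + 4 * K6)) ≤ ∫ y, (deriv (Qf k) y) ^ 2 :=
    (le_div_iff₀ (by positivity)).1 (hl₀s.trans g5)
  have hXk : ∀ (l ν₁ : ℝ) (ε : ℝ → ℝ), 0 < l → Reg k γ η δ M B R μ K2 K3 K6 K7 ν₁ l ε →
      Xn ε ≤ (K7 + 4 * K6) * l := by
    intro l ν₁ ε hl hreg
    have h1 := st_X hK6.le hreg
    have h2 : (K7 + 4 * K6 * μ) * l ≤ (K7 + 4 * K6) * l := by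
      refine mul_le_mul_of_nonneg_right ?_ hl.le
      have := mul_le_mul_of_nonneg_left hμ1 hK6.le
      linarith
    exact h1.trans h2
  constructor
  · intro l ν₁ ε hl hll hreg
    have h1 := hXk l ν₁ ε hl hreg
    have h2 := mul_le_mul_of_nonneg_left hll hK8.le
    linarith
  intro lm hlm
  obtain ⟨ν', hν', hb1'⟩ := hb1 l₀ hl₀ (hl₀s.trans g1) lm hlm
  obtain ⟨νs, hνsd⟩ : ∃ νs : ℝ, νs = min (min (min 1 ν') (min lm (lm ^ 2)))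
    (min (lm ^ 3) (min (μ * lm / C) (lm ^ 2 / (2 * C + 2 * C / lm)))) := ⟨_, rfl⟩
  have hνs : 0 < νs := by
    rw [hνsd]
    refine lt_min (lt_min (lt_min one_pos hν') (lt_min hlm (by positivity)))
      (lt_min (by positivity) (lt_min (by positivity) (by positivity)))
  have n1 : νs ≤ 1 := by
    rw [hνsd]
    exact (min_le_left _ _).trans ((min_le_left _ _).trans (min_le_left _ _))
  have n2 : νs ≤ ν' := by
    rw [hνsd]
    exact (min_le_left _ _).trans ((min_le_left _ _).trans (min_le_right _ _))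
  have n3 : νs ≤ lm := by
    rw [hνsd]
    exact (min_le_left _ _).trans ((min_le_right _ _).trans (min_le_left _ _))
  have n4 : νs ≤ lm ^ 2 := by
    rw [hνsd]
    exact (min_le_left _ _).trans ((min_le_right _ _).trans (min_le_right _ _))
  have n5 : νs ≤ lm ^ 3 := by
    rw [hνsd]
    exact (min_le_right _ _).trans (min_le_left _ _)
  have n6 : νs ≤ μ * lm / C := by
    rw [hνsd]
    exact (min_le_right _ _).trans ((min_le_right _ _).trans (min_le_left _ _))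
  have n7 : νs ≤ lm ^ 2 / (2 * C + 2 * C / lm) := by
    rw [hνsd]
    exact (min_le_right _ _).trans ((min_le_right _ _).trans (min_le_right _ _))
  have n7' : νs * (2 * C + 2 * C / lm) ≤ lm ^ 2 := (le_div_iff₀ (by positivity)).1 n7
  refine ⟨νs, hνs, ?_⟩
  intro ν₁ hν₁ hν₁s l hlml hll p q ε e hA1 hA2 hmass hreg hGe hXe
  have hl : 0 < l := hlm.trans_le hlml
  have hl1 : l ≤ 1 := by
    have : l₀ ≤ 1 / 2 := hl₀s.trans (g1.trans hls₁2)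
    linarith
  have hRl : 0 < R * l := mul_pos hR0 hl
  have hp : 0 < p := hRl.trans hA1.1
  obtain ⟨hsup, hdx⟩ := hb2 l₀ hl₀ (hl₀s.trans g2) l hl hll p q ε hp hA1.2.2.1
    (by linarith [hA1.2.1]) (by linarith [hA1.2.2.2.1]) hA1.2.2.2.2 (hXk l ν₁ ε hl hreg) hmass
  obtain ⟨c1, c2, c3, c4, c5, c6, c7⟩ := hb1' ν₁ hν₁ (hν₁s.trans n2) l hlml hll K6 K7 p q ε e hA1
    hA2 hsup hreg (hGe.trans n2)
  have hSt : St k γ η δ M B c R μ K2 K3 K6 K7 ν₁ νs l (bfn k l (fun y => Qf k y + ε y) e)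
      (mfn k l (fun y => Qf k y + ε y) e) p q ε e :=
    ⟨hl, hl1, hA1, hA2, hsup, hreg, hGe, hXe, c1, c2, c3, c4, c5, c6, hdx⟩
  have hν1lm : ν₁ ^ 2 ≤ lm ^ 2 := pow_le_pow_left₀ hν₁.le (hν₁s.trans n3) 2
  have hν1l : ν₁ ^ 2 ≤ l ^ 2 := hν1lm.trans (pow_le_pow_left₀ hlm.le hlml 2)
  have hν3 : νs ≤ l ^ 3 := n5.trans (pow_le_pow_left₀ hlm.le hlml 3)
  have hν2 : νs ≤ l ^ 2 := n4.trans (pow_le_pow_left₀ hlm.le hlml 2)
  have hm := st_main hG hSt hRC l₁ hl₁ (by linarith) hML hκ hν1l hν3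
  have hν1μ : C * ν₁ ^ 2 ≤ μ * l := by
    have h1 : ν₁ ^ 2 ≤ νs := by
      have e1 : ν₁ * ν₁ ≤ νs * 1 :=
        mul_le_mul hν₁s (hν₁s.trans n1) hν₁.le hνs.le
      rw [pow_two]
      linarith only [e1]
    have h2 : μ * lm ≤ μ * l := mul_le_mul_of_nonneg_left hlml hμ.le
    have hC0 : 0 < C := by linarith [hG.hC]
    have h3 := (le_div_iff₀ hC0).1 (h1.trans n6)
    linarith
  have hνl : 2 * C * νs + 2 * C * νs / l ≤ l ^ 2 := by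
    have h1 : 2 * C * νs / l ≤ 2 * C * νs / lm :=
      div_le_div_of_nonneg_left (by positivity) hlm hlml
    have h2 : νs * (2 * C + 2 * C / lm) = 2 * C * νs + 2 * C * νs / lm := by ring
    have h3 : lm ^ 2 ≤ l ^ 2 := pow_le_pow_left₀ hlm.le hlml 2
    rw [h2] at n7'
    linarith
  have hnl : l * (2 * C ^ 2 + 4 * C * K2 + 2 * kap k * K3 * μ) < K3 * μ / 4 := by
    rw [← hD₁d]
    have h1 : l * D₁ ≤ 2 * l₀ * D₁ := mul_le_mul_of_nonneg_right hll hD₁.le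
    have h2 : 0 < K3 * μ := mul_pos hK3 hμ
    linarith only [h1, h2, g4']
  have hn7 : 4 * kap k * K6 * μ + (2 * C + 4 * C * K6 + 1) <
      kap k * (3 / (2 * (k : ℝ))) * K7 := by
    have h1 : 4 * kap k * K6 * μ ≤ 4 * kap k * K6 * 1 :=
      mul_le_mul_of_nonneg_left hμ1 (by positivity)
    linarith
  refine ⟨c4, c5, c6, c7, ?_, ?_, ?_, ?_⟩
  · intro hL
    exact st_T1 hG hSt hm hR0 hμ hRn hL
  · intro hZ
    exact st_T2 hG hSt hm hR0 hμ hκ hK2d (by rw [hK3d]; linarith) hν2 hnl hZ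
  · intro hX
    exact st_T3 hk hG hSt hm hR0 hμ hκ hK6d hνl hn7 hX
  · intro hL
    exact st_nz hG hSt hν1μ hL

end H72KB
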