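import Pool.Agent.H72.KB.Core
import Pool.Agent.H72.KB.StD
import Pool.Agent.H72.KB.IniA
import Pool.Agent.H72.KB.IniB
import Pool.Agent.H72.KB.Mass
import Pool.Agent.H72.KB.VFr

/-! # Final theorem of part 2: from Theorem A (approximation) and Theorem G (static inequalities) -/

open MeasureTheory Filter Topology Set
open scoped ContDiff

namespace H72KB

open H98KB

theorem blowup_of (hA : ThmA) (hGG : ThmG) (hN : ThmN) (k : ℕ) (hk : 5 ≤ k) :
    ∃ φ p₀ : ℝ → ℝ, IsH1 φ p₀ ∧ ¬ ∃ u p : ℝ → ℝ → ℝ, IsGlobalSol k φ u p := by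
  by_contra H
  have H' : ∀ φ p₀ : ℝ → ℝ, IsH1 φ p₀ → ∃ u p : ℝ → ℝ → ℝ, IsGlobalSol k φ u p := by
    intro φ p₀ h
    by_contra hc
    exact H ⟨φ, p₀, h, hc⟩
  obtain ⟨γ, η, δ, M, B, c, C, hG⟩ := hGG k hk
  have hκ : 0 < kap k := kap_pos hk
  have hB : 0 < B := by linarith [hG.hB]
  obtain ⟨A3, A7, hA3, hA7, hini⟩ := initial hk hG hN
  set q0 : ℝ := (∫ y, (Qf k y) ^ 2) + ∫ y, (nf k y) ^ 2 with hq0
  have hq0' : 0 ≤ q0 := add_nonneg (integral_nonneg fun _ => sq_nonneg _)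
    (integral_nonneg fun _ => sq_nonneg _)
  obtain ⟨K2, K3, K6, K7, μ, R, hK2, hK6, hK3, hK7, hμ, hμ1, hR, ls1, hls1, hls1', hst⟩ :=
    static hk hG A3 A7 (4 * q0 + 1) hA3 hA7 (by positivity)
  obtain ⟨ls2, hls2, hini⟩ := hini K2 K3 K6 K7 μ R hK2.le hK6.le hK3 hK7 hμ hμ1 hR
  -- choice of l₀
  set l₀ : ℝ := min (min ls1 ls2) (1 / (32 * R)) with hl₀
  have hR0 : 0 < R := by linarith
  have hl₀0 : 0 < l₀ := by
    rw [hl₀]
    exact lt_min (lt_min hls1 hls2) (by positivity)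
  have hl1 : l₀ ≤ ls1 := le_trans (min_le_left _ _) (min_le_left _ _)
  have hl2 : l₀ ≤ ls2 := le_trans (min_le_left _ _) (min_le_right _ _)
  have hRl : 32 * R * l₀ ≤ 1 := by
    have : l₀ ≤ 1 / (32 * R) := min_le_right _ _
    rw [le_div_iff₀ (by positivity)] at this
    linarith
  have hl₀1 : l₀ ≤ 1 / 32 := by
    have e1 := mul_le_mul_of_nonneg_right hR hl₀0.le
    linarith only [hRl, e1]
  obtain ⟨hst1, hst2⟩ := hst l₀ hl₀0 hl1
  obtain ⟨a₁, ha₁, ha₁', hini⟩ := hini l₀ hl₀0 hl2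
  set T : ℝ := l₀ ^ 2 / kap k with hT
  have hT0 : 0 < T := by positivity
  set α : ℝ := 4 * R with hα
  have hα0 : 0 < α := by positivity
  have hα1 : 1 ≤ α := by linarith
  have hαl : 8 * α * l₀ ≤ 1 := by rw [hα]; linarith
  -- the hypothetical solutions
  choose u hu using fun a : ℝ => H' (dat k l₀ a) _ (dat_H1 hk hN hl₀0 a)
  choose p hp using hu
  obtain ⟨K, hK0, hK⟩ := hA k hk l₀ T α a₁ hl₀0 (by linarith) hT0 hα1 hαl ha₁ ha₁' u p
    (fun a _ => hp a)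
  set q1 : ℝ := ∫ y, (deriv (Qf k) y) ^ 2 with hq1
  have hq1' : 0 < q1 := Q'sq_pos (by omega)
  set K' : ℝ := max K (q1 / (4 * l₀)) with hK'
  have hK'0 : 0 < K' := lt_of_lt_of_le hK0 (le_max_left _ _)
  set lm : ℝ := q1 / (4 * K') with hlm
  have hlm0 : 0 < lm := by positivity
  have hlml : lm ≤ l₀ := by
    have : q1 / (4 * l₀) ≤ K' := le_max_right _ _
    rw [div_le_iff₀ (by positivity)] at this
    rw [hlm, div_le_iff₀ (by positivity)]
    linarith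
  obtain ⟨νs1, hνs1, hst2⟩ := hst2 lm hlm0
  obtain ⟨νs2, hνs2, hini⟩ := hini νs1 hνs1
  set X₀ : ℝ := 2 + 2 / lm ^ 2 * T with hX₀
  have hX0 : 0 ≤ X₀ := by positivity
  -- choice of ν
  obtain ⟨ν, hν0, hν1, hν2, hν3⟩ : ∃ ν : ℝ, 0 < ν ∧ Real.exp (2 * R * X₀) * ν ≤ νs1 ∧
      l₀⁻¹ * ν ≤ νs2 ∧ (2 + T) * ν ≤ l₀ ^ (1 - 4 / (k : ℝ)) := by
    have hE := Real.exp_pos (2 * R * X₀)
    have hr := Real.rpow_pos_of_pos hl₀0 (1 - 4 / (k : ℝ))
    refine ⟨min (min (νs1 / Real.exp (2 * R * X₀)) (νs2 * l₀))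
      (l₀ ^ (1 - 4 / (k : ℝ)) / (2 + T)), ?_, ?_, ?_, ?_⟩
    · refine lt_min (lt_min ?_ ?_) ?_ <;> positivity
    · have h1 : min (min (νs1 / Real.exp (2 * R * X₀)) (νs2 * l₀))
        (l₀ ^ (1 - 4 / (k : ℝ)) / (2 + T)) ≤ νs1 / Real.exp (2 * R * X₀) :=
        le_trans (min_le_left _ _) (min_le_left _ _)
      rw [le_div_iff₀ hE] at h1
      linarith
    · have h1 : min (min (νs1 / Real.exp (2 * R * X₀)) (νs2 * l₀))
        (l₀ ^ (1 - 4 / (k : ℝ)) / (2 + T)) ≤ νs2 * l₀ :=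
        le_trans (min_le_left _ _) (min_le_right _ _)
      rw [inv_mul_le_iff₀ hl₀0]
      linarith
    · have h1 : min (min (νs1 / Real.exp (2 * R * X₀)) (νs2 * l₀))
        (l₀ ^ (1 - 4 / (k : ℝ)) / (2 + T)) ≤ l₀ ^ (1 - 4 / (k : ℝ)) / (2 + T) :=
        min_le_right _ _
      rw [le_div_iff₀ (by positivity)] at h1
      linarith
  obtain ⟨U, e, hUe, hLip⟩ := hK ν hν0
  have hU : UF k T α a₁ U e := ⟨fun a ha => (hUe a ha).1, hLip⟩
  obtain ⟨P, hP⟩ := traj_exists (X₀ := X₀) (lo := lm / 2) (hi := 2 * l₀) l₀ hk hT0 ha₁.le hα0.le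
    (by positivity) (by linarith) (by linarith) hX0 hU
  have hcl : ∀ a ∈ Icc (-a₁) a₁, ∀ t ∈ Icc 0 T, Cl (α / 2) (1 / 16) (U a t) ∧
      Cl (α / 2) (1 / 16) (e a t) := by
    intro a ha t ht
    refine ⟨⟨(hU.app a ha).smooth t ht, fun j => ?_⟩, ⟨(hU.app a ha).smooth' t ht, fun j => ?_⟩⟩
    · obtain ⟨C', hC'⟩ := (hU.app a ha).bound j
      exact ⟨C', hC' t ht⟩
    · obtain ⟨C', hC'⟩ := (hU.app a ha).bound' j
      exact ⟨C', hC' t ht⟩
  have hQ : Cl 1 1 (Qf k) := Q_cl (by omega)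
  -- admissibility
  have hadm : ∀ a ∈ Icc (-a₁) a₁, ∀ t ∈ Icc 0 T, ∀ l x : ℝ, 0 < l → l ≤ 2 * l₀ →
      Adm (R * l) (l * (α / 2)) (l * (1 / 16)) (epf k (U a t) l x) ∧
      Adm (R * l) (l * (α / 2)) (l * (1 / 16)) (ef k (e a t) l x) := by
    intro a ha t ht l x hl hl'
    have hRl' : R * l ≤ R * (2 * l₀) := mul_le_mul_of_nonneg_left hl' hR0.le
    have hpos : 0 < R * l := mul_pos hR0 hl
    have e1 : l * (α / 2) = 2 * (R * l) := by rw [hα]; ring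
    have h1 : R * l < l * (α / 2) := by rw [e1]; linarith
    have h2 : l * (α / 2) ≤ 1 / 2 := by rw [e1]; linarith
    have h3 : 0 < l * (1 / 16) := by positivity
    have h4 : l * (1 / 16) ≤ 1 / 2 := by linarith
    refine ⟨⟨h1, h2, h3, h4, ?_⟩, ⟨h1, h2, h3, h4, ?_⟩⟩
    · exact Cl_sub (Wf_cl hα0.le hl.le x (hcl a ha t ht).1)
        (Cl_mono (by linarith) (by linarith) hQ)
    · exact ef_cl hα0.le hl.le x (hcl a ha t ht).2
  have hmass : ∀ a ∈ Icc (-a₁) a₁, ∀ t ∈ Icc 0 T,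
      ∫ x, (U a t x) ^ 2 ≤ l₀ ^ (1 - 4 / (k : ℝ)) * (4 * q0 + 1) := by
    intro a ha t ht
    have h1 := mass (ν := ν) (by omega) hT0 hα0 (hU.app a ha) (fun t ht => ((hUe a ha).2.1 t ht).2)
      (fun t ht => (hU.app a ha).int' t ht) t ht
    have h0 : (0:ℝ) ∈ Icc 0 T := ⟨le_refl _, hT0.le⟩
    have h2 := mass_ini (ν := ν) (a := a) hk hN hl₀0 hα1 hαl
      (abs_le.mpr ⟨by linarith [ha.1], by linarith [ha.2]⟩)
      ((hU.app a ha).smooth 0 h0) ((hU.app a ha).int 0 h0) (hUe a ha).2.2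
    have h3 : l₀ ^ (1 - 4 / (k : ℝ)) * (4 * q0 + 1) = l₀ ^ (1 - 4 / (k : ℝ)) * (4 * q0) +
      l₀ ^ (1 - 4 / (k : ℝ)) := by ring
    rw [h3]
    linarith
  have hstart : ∀ a ∈ Icc (-a₁) a₁,
      Reg k γ η δ M B R μ K2 K3 K6 K7 νs1 l₀ (epa k (lm / 2) (2 * l₀) X₀ U P a 0) ∧
      (|a| = a₁ → LL k η γ δ M B (R * l₀) (epa k (lm / 2) (2 * l₀) X₀ U P a 0) < -(μ * l₀) ∧
        0 < ip (epa k (lm / 2) (2 * l₀) X₀ U P a 0) (ph0 k) * (a * ip (nf k) (ph0 k))) := by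
    intro a ha
    have h0 : (0:ℝ) ∈ Icc 0 T := ⟨le_refl _, hT0.le⟩
    have hlb : lb (lm / 2) (2 * l₀) P a 0 = l₀ := by
      unfold lb
      rw [hP.init a ha]
      exact core_clp (by linarith) (by linarith)
    have hxb : xb X₀ P a 0 = 0 := by
      unfold xb
      rw [hP.init a ha]
      exact core_clp (by linarith) hX0
    have e1 : epa k (lm / 2) (2 * l₀) X₀ U P a 0 = epf k (U a 0) l₀ 0 := by
      unfold epa
      rw [hlb, hxb]
    obtain ⟨g1, g2, g3⟩ := ini_diff (R := R) (B := B) (a := a) hk hN hl₀0 (by linarith) hR0.le hα1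
      (by rw [hα]; linarith) hαl hB ((hU.app a ha).smooth 0 h0) ((hU.app a ha).int 0 h0)
      (hUe a ha).2.2
    rw [e1]
    exact hini a (l₀ * (α / 2)) (l₀ * (1 / 16)) _ ha (hadm a ha 0 h0 l₀ 0 hl₀0 (by linarith)).1
      (le_trans g1 hν2) (le_trans g2 hν2) (le_trans g3 hν2)
  refine core hk hB hG.hδ hκ hμ (K2 := K2) (K3 := K3) (K6 := K6) (K7 := K7) (γ := γ) (η := η)
    (M := M) (ν₁ := νs1) (by linarith) (by linarith) hR hα hl₀0 hRl hT ha₁ hlm0 hlml hX₀ hU hP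
    ?_ ?_ ?_
  · -- dynamics in the region
    intro a ha t ht g1 g2 g3 hreg
    have hl0 : 0 < (P a t).1 := by linarith
    have hlb : lb (lm / 2) (2 * l₀) P a t = (P a t).1 := core_clp g1.le g2.le
    have hxb : xb X₀ P a t = (P a t).2 := core_clp (abs_lt.mp g3).1.le (abs_lt.mp g3).2.le
    have e1 : epa k (lm / 2) (2 * l₀) X₀ U P a t = epf k (U a t) (P a t).1 (P a t).2 := by
      unfold epa
      rw [hlb, hxb]
    have e2 : eaa k (lm / 2) (2 * l₀) X₀ e P a t = ef k (e a t) (P a t).1 (P a t).2 := by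
      unfold eaa
      rw [hlb, hxb]
    have e3 : (fun y => Qf k y + epa k (lm / 2) (2 * l₀) X₀ U P a t y) =
        Wf k (U a t) (P a t).1 (P a t).2 := by
      funext y
      rw [e1]
      unfold epf
      ring
    have e4 : ba k (lm / 2) (2 * l₀) X₀ U e P a t = bfn k (P a t).1
        (fun y => Qf k y + epa k (lm / 2) (2 * l₀) X₀ U P a t y)
        (eaa k (lm / 2) (2 * l₀) X₀ e P a t) := by
      rw [e3]
      unfold ba
      rw [hlb, hxb]
    have e5 : ma k (lm / 2) (2 * l₀) X₀ U e P a t = mfn k (P a t).1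
        (fun y => Qf k y + epa k (lm / 2) (2 * l₀) X₀ U P a t y)
        (eaa k (lm / 2) (2 * l₀) X₀ e P a t) := by
      rw [e3]
      unfold ma
      rw [hlb, hxb]
    have hl1' : (P a t).1 ≤ 1 := by linarith
    have hX := hst1 (P a t).1 νs1 _ hl0 g2.le hreg
    have hlow : lm ≤ (P a t).1 := by
      rw [e1] at hX
      exact lam_low hk hα0 hl0 hl1' hK'0 (hcl a ha t ht).1 ((hU.app a ha).int t ht)
        (le_trans ((hUe a ha).2.1 t ht).1 (le_max_left _ _)) hX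
    refine ⟨hlow, ?_⟩
    rw [e4, e5]
    have hGe := ef_Gn (k := k) (x := (P a t).2) (U := e a t) (α := α) (l := (P a t).1) (R := R)
      (B := B) (by omega) (by rw [hα]; linarith) hR0.le hB hl0 hl1' ((hU.app a ha).smooth' t ht)
      ((hU.app a ha).int' t ht)
    have hnw := ((hUe a ha).2.1 t ht).2
    have hnw0 : 0 ≤ nw α (e a t) := (sq_le_nw hα0.le ((hU.app a ha).smooth' t ht)
      ((hU.app a ha).int' t ht)).2.2
    have hexp : Real.exp (2 * R * |(P a t).2|) ≤ Real.exp (2 * R * X₀) := by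
      apply Real.exp_le_exp.mpr
      exact mul_le_mul_of_nonneg_left g3.le (by positivity)
    have hexp1 : 1 ≤ Real.exp (2 * R * X₀) := Real.one_le_exp (by positivity)
    refine hst2 νs1 hνs1 (le_refl _) (P a t).1 hlow g2.le ((P a t).1 * (α / 2))
      ((P a t).1 * (1 / 16)) _ _ ?_ ?_ ?_ hreg ?_ ?_
    · rw [e1]
      exact (hadm a ha t ht _ _ hl0 g2.le).1
    · rw [e2]
      exact (hadm a ha t ht _ _ hl0 g2.le).2
    · have e3' : ∀ y, Qf k y + epa k (lm / 2) (2 * l₀) X₀ U P a t y =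
          Wf k (U a t) (P a t).1 (P a t).2 y := fun y => congrFun e3 y
      simp only [e3']
      rw [Wf_sq (U a t) hl0 (P a t).2]
      refine mass_pow hk (mul_nonneg (Real.rpow_nonneg hl0.le _)
        (integral_nonneg fun _ => sq_nonneg _)) hl0 hl₀0 (by positivity) ?_
      exact mul_le_mul_of_nonneg_left (hmass a ha t ht) (Real.rpow_nonneg hl0.le _)
    · rw [e2]
      calc Gn B (R * (P a t).1) (ef k (e a t) (P a t).1 (P a t).2) ≤ _ := hGe.1
        _ ≤ Real.exp (2 * R * X₀) * ν := mul_le_mul hexp hnw hnw0 (Real.exp_pos _).le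
        _ ≤ νs1 := hν1
    · rw [e2]
      calc Xn (ef k (e a t) (P a t).1 (P a t).2) ≤ _ := hGe.2
        _ ≤ ν := hnw
        _ ≤ Real.exp (2 * R * X₀) * ν := le_mul_of_one_le_left (by positivity) hexp1
        _ ≤ νs1 := hν1
  · intro a ha
    exact (hstart a ha).1
  · intro a ha haa
    exact (hstart a ha).2 haa

end H72KB
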