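import Pool.Agent.H72.KB.PLip

/-!
# Row PCon: continuity of `bfn`, `mfn` along a pointwise continuous bounded family

Proof.  Each of `t ↦ I1 k l (W t) (E t) φ`, `IA k (W t) φ`, `IB (W t) φ` (`φ = Q, Q'`) is continuous on `J` by dominated
convergence (`continuousWithinAt_of_dominated`, bound `C bd (1/2) (1/2) y`; the weights are as in the header of
PLip).  Then `Det` is continuous, `max (Det) (d0) ≥ d0 > 0` (`d0_pos`), and quotients are continuous.
-/

open MeasureTheory Filter Topology Set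
open scoped ContDiff

namespace H72KB

open H98KB

theorem PCon_dom (J : Set ℝ) (K : ℝ → ℝ → ℝ) (g : ℝ → ℝ) (hg : Integrable g)
    (hK : ∀ t ∈ J, Continuous (K t)) (hb : ∀ t ∈ J, ∀ y, |K t y| ≤ g y)
    (hc : ∀ y, ContinuousOn (fun t => K t y) J) : ContinuousOn (fun t => ∫ y, K t y) J := by
  intro t₀ ht₀
  refine continuousWithinAt_of_dominated (bound := g) ?_ ?_ hg ?_
  · filter_upwards [self_mem_nhdsWithin] with t ht
    exact (hK t ht).aestronglyMeasurable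
  · filter_upwards [self_mem_nhdsWithin] with t ht
    refine Eventually.of_forall fun y => ?_
    rw [Real.norm_eq_abs]
    exact hb t ht y
  · exact Eventually.of_forall fun y => hc y t₀ ht₀

theorem PCon_fl (k : ℕ) : Continuous (fl k) := by
  unfold fl
  fun_prop

theorem PCon_flb (k : ℕ) (C₀ : ℝ) : ∃ M : ℝ, ∀ u : ℝ, |u| ≤ C₀ → |fl k u| ≤ M := by
  obtain ⟨M, hM⟩ := (isCompact_Icc (a := -C₀) (b := C₀)).exists_bound_of_continuousOn
    (f := fl k) (PCon_fl k).continuousOn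
  refine ⟨M, fun u hu => ?_⟩
  have := hM u ⟨(abs_le.1 hu).1, (abs_le.1 hu).2⟩
  rwa [Real.norm_eq_abs] at this

theorem PCon_lin (J : Set ℝ) (C₀ : ℝ) (W : ℝ → ℝ → ℝ) (A : ℝ → ℝ)
    (hW : ∀ t ∈ J, Continuous (W t)) (bW : ∀ t ∈ J, ∀ y, |W t y| ≤ C₀)
    (cW : ∀ y, ContinuousOn (fun t => W t y) J) (hA : Continuous A) (iA : Integrable A) :
    ContinuousOn (fun t => ∫ y, W t y * A y) J := by
  refine PCon_dom J (fun t y => W t y * A y) (fun y => C₀ * |A y|) (iA.abs.const_mul C₀)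
    (fun t ht => (hW t ht).mul hA) ?_ (fun y => (cW y).mul continuousOn_const)
  intro t ht y
  show |W t y * A y| ≤ _
  rw [abs_mul]
  exact mul_le_mul_of_nonneg_right (bW t ht y) (abs_nonneg _)

theorem PCon_I1 (k : ℕ) (J : Set ℝ) (l C₀ : ℝ) (W E : ℝ → ℝ → ℝ) (φ : ℝ → ℝ) (hφ : Cl 1 1 φ)
    (hW : ∀ t ∈ J, Continuous (W t)) (hE : ∀ t ∈ J, Continuous (E t))
    (bW : ∀ t ∈ J, ∀ y, |W t y| ≤ C₀) (bE : ∀ t ∈ J, ∀ y, |E t y| ≤ C₀)
    (cW : ∀ y, ContinuousOn (fun t => W t y) J) (cE : ∀ y, ContinuousOn (fun t => E t y) J) :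
    ContinuousOn (fun t => I1 k l (W t) (E t) φ) J := by
  obtain ⟨M, hM⟩ := PCon_flb k C₀
  have hd := Cl_deriv hφ
  have id : Integrable (deriv φ) := Cl_int one_pos one_pos hd
  have hA : Cl 1 1 (fun y => iteratedDeriv 3 φ y - deriv φ y + l * iteratedDeriv 2 φ y) :=
    Cl_add (Cl_sub (Cl_iter hφ 3) hd) (Cl_smul l (Cl_iter hφ 2))
  have iA := Cl_int one_pos one_pos hA
  unfold I1
  refine PCon_dom J (fun t y => W t y * (iteratedDeriv 3 φ y - deriv φ y + l * iteratedDeriv 2 φ y)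
    + fl k (W t y) * deriv φ y + E t y * deriv φ y)
    (fun y => C₀ * |iteratedDeriv 3 φ y - deriv φ y + l * iteratedDeriv 2 φ y|
      + M * |deriv φ y| + C₀ * |deriv φ y|)
    (((iA.abs.const_mul C₀).add (id.abs.const_mul M)).add (id.abs.const_mul C₀)) ?_ ?_ ?_
  · intro t ht
    exact (((hW t ht).mul hA.1.continuous).add
      (((PCon_fl k).comp (hW t ht)).mul hd.1.continuous)).add ((hE t ht).mul hd.1.continuous)
  · intro t ht y
    refine (abs_add_le _ _).trans (add_le_add ((abs_add_le _ _).trans (add_le_add ?_ ?_)) ?_)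
    · rw [abs_mul]
      exact mul_le_mul_of_nonneg_right (bW t ht y) (abs_nonneg _)
    · rw [abs_mul]
      exact mul_le_mul_of_nonneg_right (hM _ (bW t ht y)) (abs_nonneg _)
    · rw [abs_mul]
      exact mul_le_mul_of_nonneg_right (bE t ht y) (abs_nonneg _)
  · intro y
    exact (((cW y).mul continuousOn_const).add
      (((PCon_fl k).comp_continuousOn (cW y)).mul continuousOn_const)).add
        ((cE y).mul continuousOn_const)

theorem PCon_IA (k : ℕ) (J : Set ℝ) (C₀ : ℝ) (W : ℝ → ℝ → ℝ) (φ : ℝ → ℝ) (hφ : Cl 1 1 φ)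
    (hW : ∀ t ∈ J, Continuous (W t)) (bW : ∀ t ∈ J, ∀ y, |W t y| ≤ C₀)
    (cW : ∀ y, ContinuousOn (fun t => W t y) J) :
    ContinuousOn (fun t => IA k (W t) φ) J := by
  have hd := Cl_deriv hφ
  have h1 : Cl (1 / 2) (1 / 2) (fun y => (2 / (k : ℝ) - 1) * φ y) :=
    Cl_smul _ (Cl_mono (by norm_num) (by norm_num) hφ)
  have h2 : Cl (1 / 2) (1 / 2) (fun y => y * deriv φ y) := Cl_ymul (by norm_num) (by norm_num) hd
  have hA := Cl_sub h1 h2
  unfold IA
  exact PCon_lin J C₀ W _ hW bW cW hA.1.continuous (Cl_int (by norm_num) (by norm_num) hA)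

theorem PCon_IB (J : Set ℝ) (C₀ : ℝ) (W : ℝ → ℝ → ℝ) (φ : ℝ → ℝ) (hφ : Cl 1 1 φ)
    (hW : ∀ t ∈ J, Continuous (W t)) (bW : ∀ t ∈ J, ∀ y, |W t y| ≤ C₀)
    (cW : ∀ y, ContinuousOn (fun t => W t y) J) :
    ContinuousOn (fun t => IB (W t) φ) J := by
  have hd := Cl_deriv hφ
  unfold IB
  exact PCon_lin J C₀ W _ hW bW cW hd.1.continuous (Cl_int one_pos one_pos hd)

theorem bfn_cont {k : ℕ} (hk : 5 ≤ k) (J : Set ℝ) (l C₀ : ℝ) (W E : ℝ → ℝ → ℝ)
    (hW : ∀ t ∈ J, Continuous (W t)) (hE : ∀ t ∈ J, Continuous (E t))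
    (bW : ∀ t ∈ J, ∀ y, |W t y| ≤ C₀) (bE : ∀ t ∈ J, ∀ y, |E t y| ≤ C₀)
    (cW : ∀ y, ContinuousOn (fun t => W t y) J) (cE : ∀ y, ContinuousOn (fun t => E t y) J) :
    ContinuousOn (fun t => bfn k l (W t) (E t)) J ∧
      ContinuousOn (fun t => mfn k l (W t) (E t)) J := by
  have hQ : Cl 1 1 (Qf k) := Q_cl (by omega)
  have hQ' : Cl 1 1 (deriv (Qf k)) := Cl_deriv hQ
  have a1 := PCon_I1 k J l C₀ W E _ hQ hW hE bW bE cW cE
  have a2 := PCon_I1 k J l C₀ W E _ hQ' hW hE bW bE cW cE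
  have b1 := PCon_IA k J C₀ W _ hQ hW bW cW
  have b2 := PCon_IA k J C₀ W _ hQ' hW bW cW
  have c1 := PCon_IB J C₀ W _ hQ hW bW cW
  have c2 := PCon_IB J C₀ W _ hQ' hW bW cW
  have hD : ContinuousOn (fun t => Det k (W t)) J := by
    unfold Det
    exact (b1.mul c2).sub (b2.mul c1)
  have hM : ContinuousOn (fun t => max (Det k (W t)) (d0 k)) J := hD.sup continuousOn_const
  have hne : ∀ t ∈ J, max (Det k (W t)) (d0 k) ≠ 0 := fun t _ =>
    (lt_of_lt_of_le (d0_pos hk) (le_max_right _ _)).ne'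
  constructor
  · unfold bfn
    exact ((a1.mul c2).sub (a2.mul c1)).div hM hne
  · unfold mfn
    exact ((b1.mul a2).sub (b2.mul a1)).div hM hne

end H72KB
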