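import Pool.Agent.H72.KB.Base
import Pool.Agent.H72.KB.QBas
import Pool.Agent.H72.KB.ClC

/-!
# Row PLip: `bfn`, `mfn` are bounded and Lipschitz

Proof.  Let `φ ∈ {Q, Q'}`; `Q, Q'` and all derivatives are of class `Cl 1 1` (`Q_cl`, `Cl_deriv`), so every
weight occurring in `I1, IA, IB` (that is `φ''' - φ' + l φ''`, `φ'`, `(2/k-1)φ - yφ'`, `|l| ≤ 1`) is continuous and
bounded by `C bd (1/2) (1/2) y` (`bd_poly`), and `∫ (1+|y|) C bd (1/2) (1/2) < ∞` (`bd_poly`, `bd_int`).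
Moreover `|fl k u| ≤ C`, `|fl k u - fl k u'| ≤ C |u-u'|` for `|u|,|u'| ≤ C₀` (`fl` = polynomial; e.g.
`abs_pow_sub_pow`-type bound or `Convex.norm_image_sub_le...`).
Hence `|I1|, |IA|, |IB| ≤ C` and `|I1(l,W,E,φ) - I1(l',W',E',φ)| ≤ C d`, same for `IA`, `IB` (all integrands are
integrable: continuous times bounded by integrable; `abs_integral_le_integral_abs`, `integral_mono`).
Products and sums of bounded `Cd`-close quantities are `Cd`-close; `max (Det) (d0) ≥ d0 > 0` (`d0 k > 0` by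
`sc_pos`, `Qsq_pos`, `Q'sq_pos`), `|max x c - max x' c| ≤ |x-x'|`, and
`|N/D - N'/D'| ≤ |N-N'|/D + |N'||D-D'|/(D D')`.
-/

open MeasureTheory Filter Topology Set
open scoped ContDiff

namespace H72KB

open H98KB

private theorem plip_pw {f : ℝ → ℝ} (hf : Cl 1 1 f) : ∃ B : ℝ, 0 ≤ B ∧
    ∀ y, |f y| ≤ B * bd (1 / 2) (1 / 2) y ∧ (1 + |y|) * |f y| ≤ B * bd (1 / 2) (1 / 2) y ∧
      (1 + |y|) * (|y| * |f y|) ≤ B * bd (1 / 2) (1 / 2) y := by
  obtain ⟨C, hC0, hC⟩ := ClC_abs hf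
  obtain ⟨D, hD0, hD⟩ := bd_poly 2 (p := 1) (p' := 1 / 2) (q := 1) (q' := 1 / 2) (by norm_num)
    (by norm_num)
  refine ⟨C * D, by positivity, fun y => ?_⟩
  have h0 : 0 ≤ |y| := abs_nonneg y
  have hf0 : 0 ≤ |f y| := abs_nonneg _
  have h1 : (1 + |y|) ^ 2 * |f y| ≤ C * D * bd (1 / 2) (1 / 2) y := by
    calc (1 + |y|) ^ 2 * |f y| ≤ (1 + |y|) ^ 2 * (C * bd 1 1 y) :=
          mul_le_mul_of_nonneg_left (hC y) (by positivity)
      _ = C * ((1 + |y|) ^ 2 * bd 1 1 y) := by ring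
      _ ≤ C * (D * bd (1 / 2) (1 / 2) y) := mul_le_mul_of_nonneg_left (hD y) hC0
      _ = C * D * bd (1 / 2) (1 / 2) y := by ring
  have hy1 : 0 ≤ |y| * |f y| := by positivity
  have hy2 : 0 ≤ |y| * (|y| * |f y|) := by positivity
  refine ⟨?_, ?_, ?_⟩ <;> nlinarith

private theorem plip_int {F : ℝ → ℝ} (hc : Continuous F) {K : ℝ}
    (h : ∀ y, |F y| ≤ K * bd (1 / 2) (1 / 2) y) :
    Integrable F ∧ |∫ y, F y| ≤ K * ∫ y, bd (1 / 2) (1 / 2) y := by
  have hi : Integrable (fun y => K * bd (1 / 2) (1 / 2) y) :=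
    (bd_int (by norm_num) (by norm_num)).const_mul K
  have h1 : Integrable F := hi.mono' hc.aestronglyMeasurable (Eventually.of_forall fun y => by
    rw [Real.norm_eq_abs]
    exact h y)
  refine ⟨h1, ?_⟩
  rw [← integral_const_mul]
  exact (abs_integral_le_integral_abs).trans (integral_mono h1.abs hi h)

private theorem plip_fl (k : ℕ) {C₀ : ℝ} (h0 : 0 ≤ C₀) : ∃ F : ℝ, 0 ≤ F ∧
    ∀ u v : ℝ, |u| ≤ C₀ → |v| ≤ C₀ → |fl k u| ≤ F ∧ |fl k u - fl k v| ≤ F * |u - v| := by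
  have hk : (0 : ℝ) < (k : ℝ) + 1 := by positivity
  refine ⟨C₀ ^ (k + 1) / ((k : ℝ) + 1) + C₀ ^ k, by positivity, fun u v hu hv => ⟨?_, ?_⟩⟩
  · unfold fl
    rw [abs_div, abs_pow, abs_of_pos hk]
    have h1 : |u| ^ (k + 1) ≤ C₀ ^ (k + 1) := pow_le_pow_left₀ (abs_nonneg u) hu _
    have h2 := div_le_div_of_nonneg_right h1 hk.le
    have h3 : 0 ≤ C₀ ^ k := by positivity
    linarith
  · unfold fl
    rw [← sub_div, abs_div, abs_of_pos hk, div_le_iff₀ hk]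
    have h1 := abs_pow_sub_pow_le u v (k + 1)
    have h2 : max |u| |v| ^ (k + 1 - 1) ≤ C₀ ^ k := by
      rw [Nat.add_sub_cancel]
      exact pow_le_pow_left₀ (le_max_of_le_left (abs_nonneg u)) (max_le hu hv) _
    have h4 : 0 ≤ |u - v| := abs_nonneg _
    have h5 : 0 ≤ C₀ ^ (k + 1) := by positivity
    have h6 : |u - v| * ((k + 1 : ℕ) : ℝ) * max |u| |v| ^ (k + 1 - 1) ≤
        |u - v| * ((k + 1 : ℕ) : ℝ) * C₀ ^ k :=
      mul_le_mul_of_nonneg_left h2 (by positivity)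
    push_cast at h1 h6
    have e : (C₀ ^ (k + 1) / ((k : ℝ) + 1) + C₀ ^ k) * |u - v| * ((k : ℝ) + 1) =
        C₀ ^ (k + 1) * |u - v| + |u - v| * ((k : ℝ) + 1) * C₀ ^ k := by
      field_simp
    rw [e]
    have h7 : 0 ≤ C₀ ^ (k + 1) * |u - v| := by positivity
    linarith

/-- bounds for the three basic functionals -/
private theorem plip_fun {k : ℕ} (hk : 5 ≤ k) {C₀ : ℝ} (h0 : 0 ≤ C₀) {φ : ℝ → ℝ} (hφ : Cl 1 1 φ) :
    ∃ A : ℝ, 0 ≤ A ∧
    ∀ (l l' : ℝ) (W W' E E' : ℝ → ℝ) (d : ℝ), 0 ≤ l → l ≤ 1 → 0 ≤ l' → l' ≤ 1 → 0 ≤ d →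
      |l - l'| ≤ d → Continuous W → Continuous W' → Continuous E → Continuous E' →
      (∀ y, |W y| ≤ C₀) → (∀ y, |W' y| ≤ C₀) → (∀ y, |E y| ≤ C₀) → (∀ y, |E' y| ≤ C₀) →
      (∀ y, |W y - W' y| ≤ d * (1 + |y|)) → (∀ y, |E y - E' y| ≤ d * (1 + |y|)) →
      (|I1 k l W E φ| ≤ A ∧ |I1 k l W E φ - I1 k l' W' E' φ| ≤ A * d) ∧
      (|IA k W φ| ≤ A ∧ |IA k W φ - IA k W' φ| ≤ A * d) ∧
      (|IB W φ| ≤ A ∧ |IB W φ - IB W' φ| ≤ A * d) := by
  have h5 : (5 : ℝ) ≤ (k : ℝ) := by exact_mod_cast hk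
  have hk2 : |2 / (k : ℝ) - 1| ≤ 1 := by
    have h1 : 2 / (k : ℝ) ≤ 2 / 5 := div_le_div_of_nonneg_left (by norm_num) (by norm_num) h5
    have h2 : 0 < 2 / (k : ℝ) := by positivity
    rw [abs_le]
    constructor <;> linarith
  obtain ⟨F, hF0, hF⟩ := plip_fl k h0
  obtain ⟨B0, hB0, hb0⟩ := plip_pw hφ
  obtain ⟨B1, hB1, hb1⟩ := plip_pw (Cl_deriv hφ)
  obtain ⟨B2, hB2, hb2⟩ := plip_pw (Cl_iter hφ 2)
  obtain ⟨B3, hB3, hb3⟩ := plip_pw (Cl_iter hφ 3)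
  have c0 : Continuous φ := hφ.1.continuous
  have c1 : Continuous (deriv φ) := (Cl_deriv hφ).1.continuous
  have c2 : Continuous (iteratedDeriv 2 φ) := (Cl_iter hφ 2).1.continuous
  have c3 : Continuous (iteratedDeriv 3 φ) := (Cl_iter hφ 3).1.continuous
  have hJ : 0 ≤ ∫ y, bd (1 / 2) (1 / 2) y := integral_nonneg fun y => (bd_pos _ _ y).le
  set J := ∫ y, bd (1 / 2) (1 / 2) y with hJdef
  set B := B0 + B1 + B2 + B3 with hBdef
  have hB : 0 ≤ B := by positivity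
  -- pointwise bounds with the common constant
  have hw : ∀ y, 0 < bd (1 / 2) (1 / 2) y := fun y => bd_pos _ _ y
  have up : ∀ (X y : ℝ), X ≤ B → X * bd (1 / 2) (1 / 2) y ≤ B * bd (1 / 2) (1 / 2) y :=
    fun X y h => mul_le_mul_of_nonneg_right h (hw y).le
  have l0 : B0 ≤ B := by rw [hBdef]; linarith
  have l1 : B1 ≤ B := by rw [hBdef]; linarith
  have l2 : B2 ≤ B := by rw [hBdef]; linarith
  have l3 : B3 ≤ B := by rw [hBdef]; linarith
  set T := (10 + 10 * C₀ + 2 * F) * B with hTdef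
  have hT : 0 ≤ T := by positivity
  refine ⟨T * J, by positivity, ?_⟩
  intro l l' W W' E E' d hl hl1 hl' hl1' hd hld cW cW' cE cE' bW bW' bE bE' dW dE
  have cfl : Continuous (fl k) := by unfold fl; fun_prop
  -- products of a bounded and a decaying function
  have key : ∀ (a g X Y : ℝ), |a| ≤ X → |g| ≤ Y → |a * g| ≤ X * Y := by
    intro a g X Y h1 h2
    rw [abs_mul]
    exact mul_le_mul h1 h2 (abs_nonneg _) ((abs_nonneg _).trans h1)
  have key2 : ∀ (a g y Z : ℝ), |a| ≤ d * (1 + |y|) → (1 + |y|) * |g| ≤ Z → |a * g| ≤ d * Z := by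
    intro a g y Z h1 h2
    rw [abs_mul]
    calc |a| * |g| ≤ d * (1 + |y|) * |g| := mul_le_mul_of_nonneg_right h1 (abs_nonneg _)
      _ = d * ((1 + |y|) * |g|) := by ring
      _ ≤ d * Z := mul_le_mul_of_nonneg_left h2 hd
  -- bound of `I1`
  have hI : ∀ (l : ℝ) (W E : ℝ → ℝ), 0 ≤ l → l ≤ 1 → Continuous W → Continuous E →
      (∀ y, |W y| ≤ C₀) → (∀ y, |E y| ≤ C₀) →
      Integrable (fun y => W y * (iteratedDeriv 3 φ y - deriv φ y + l * iteratedDeriv 2 φ y)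
        + fl k (W y) * deriv φ y + E y * deriv φ y) ∧ |I1 k l W E φ| ≤ T * J := by
    intro l W E hl hl1 cW cE bW bE
    refine plip_int (by fun_prop) fun y => ?_
    have e0 := (hb0 y).1.trans (up B0 y l0)
    have e1 := (hb1 y).1.trans (up B1 y l1)
    have e2 := (hb2 y).1.trans (up B2 y l2)
    have e3 := (hb3 y).1.trans (up B3 y l3)
    have a1 := key _ _ _ _ (bW y) e3
    have a2 := key _ _ _ _ (bW y) e1
    have a3 := key _ _ _ _ (bW y) e2
    have a4 := key _ _ _ _ (hF _ _ (bW y) (bW y)).1 e1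
    have a5 := key _ _ _ _ (bE y) e1
    have a3' : |l * (W y * iteratedDeriv 2 φ y)| ≤ C₀ * (B * bd (1 / 2) (1 / 2) y) := by
      rw [abs_mul, abs_of_nonneg hl]
      calc l * |W y * iteratedDeriv 2 φ y| ≤ 1 * |W y * iteratedDeriv 2 φ y| :=
            mul_le_mul_of_nonneg_right hl1 (abs_nonneg _)
        _ = |W y * iteratedDeriv 2 φ y| := one_mul _
        _ ≤ _ := a3
    have e : W y * (iteratedDeriv 3 φ y - deriv φ y + l * iteratedDeriv 2 φ y)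
        + fl k (W y) * deriv φ y + E y * deriv φ y = W y * iteratedDeriv 3 φ y
        - W y * deriv φ y + l * (W y * iteratedDeriv 2 φ y) + fl k (W y) * deriv φ y
        + E y * deriv φ y := by ring
    rw [e]
    have hbb : 0 ≤ B * bd (1 / 2) (1 / 2) y := mul_nonneg hB (hw y).le
    have hcb : 0 ≤ C₀ * (B * bd (1 / 2) (1 / 2) y) := mul_nonneg h0 hbb
    have hfb : 0 ≤ F * (B * bd (1 / 2) (1 / 2) y) := mul_nonneg hF0 hbb
    have eT : T * bd (1 / 2) (1 / 2) y = 10 * (B * bd (1 / 2) (1 / 2) y) +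
        10 * (C₀ * (B * bd (1 / 2) (1 / 2) y)) + 2 * (F * (B * bd (1 / 2) (1 / 2) y)) := by
      rw [hTdef]; ring
    rw [eT]
    rw [abs_le] at a1 a2 a3' a4 a5 ⊢
    constructor <;> linarith [a1.1, a1.2, a2.1, a2.2, a3'.1, a3'.2, a4.1, a4.2, a5.1, a5.2]
  -- bound of `IA`
  have hA : ∀ (W : ℝ → ℝ), Continuous W → (∀ y, |W y| ≤ C₀) →
      Integrable (fun y => W y * ((2 / (k : ℝ) - 1) * φ y - y * deriv φ y)) ∧
        |IA k W φ| ≤ T * J := by
    intro W cW bW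
    refine plip_int (by fun_prop) fun y => ?_
    have e0 := (hb0 y).1.trans (up B0 y l0)
    have e1 := (hb1 y).2.1.trans (up B1 y l1)
    have a0 : |(2 / (k : ℝ) - 1) * φ y| ≤ 1 * (B * bd (1 / 2) (1 / 2) y) := key _ _ _ _ hk2 e0
    have a1 : |y * deriv φ y| ≤ B * bd (1 / 2) (1 / 2) y := by
      rw [abs_mul]
      have : 0 ≤ |deriv φ y| := abs_nonneg _
      linarith
    have a2 : |(2 / (k : ℝ) - 1) * φ y - y * deriv φ y| ≤ 2 * (B * bd (1 / 2) (1 / 2) y) := by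
      rw [abs_le] at a0 a1 ⊢
      constructor <;> linarith [a0.1, a0.2, a1.1, a1.2]
    have a3 := key _ _ _ _ (bW y) a2
    have hbb : 0 ≤ B * bd (1 / 2) (1 / 2) y := mul_nonneg hB (hw y).le
    have hcb : 0 ≤ C₀ * (B * bd (1 / 2) (1 / 2) y) := mul_nonneg h0 hbb
    have hfb : 0 ≤ F * (B * bd (1 / 2) (1 / 2) y) := mul_nonneg hF0 hbb
    have eT : T * bd (1 / 2) (1 / 2) y = 10 * (B * bd (1 / 2) (1 / 2) y) +
        10 * (C₀ * (B * bd (1 / 2) (1 / 2) y)) + 2 * (F * (B * bd (1 / 2) (1 / 2) y)) := by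
      rw [hTdef]; ring
    rw [eT]
    linarith
  have hBi : ∀ (W : ℝ → ℝ), Continuous W → (∀ y, |W y| ≤ C₀) →
      Integrable (fun y => W y * deriv φ y) ∧ |IB W φ| ≤ T * J := by
    intro W cW bW
    refine plip_int (by fun_prop) fun y => ?_
    have e1 := (hb1 y).1.trans (up B1 y l1)
    have a3 := key _ _ _ _ (bW y) e1
    have hbb : 0 ≤ B * bd (1 / 2) (1 / 2) y := mul_nonneg hB (hw y).le
    have hcb : 0 ≤ C₀ * (B * bd (1 / 2) (1 / 2) y) := mul_nonneg h0 hbb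
    have hfb : 0 ≤ F * (B * bd (1 / 2) (1 / 2) y) := mul_nonneg hF0 hbb
    have eT : T * bd (1 / 2) (1 / 2) y = 10 * (B * bd (1 / 2) (1 / 2) y) +
        10 * (C₀ * (B * bd (1 / 2) (1 / 2) y)) + 2 * (F * (B * bd (1 / 2) (1 / 2) y)) := by
      rw [hTdef]; ring
    rw [eT]
    linarith
  obtain ⟨i1, n1⟩ := hI l W E hl hl1 cW cE bW bE
  obtain ⟨i2, n2⟩ := hI l' W' E' hl' hl1' cW' cE' bW' bE'
  obtain ⟨i3, n3⟩ := hA W cW bW
  obtain ⟨i4, n4⟩ := hA W' cW' bW'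
  obtain ⟨i5, n5⟩ := hBi W cW bW
  obtain ⟨i6, n6⟩ := hBi W' cW' bW'
  have eT : ∀ y, T * d * bd (1 / 2) (1 / 2) y = 10 * (d * (B * bd (1 / 2) (1 / 2) y)) +
      10 * (C₀ * (d * (B * bd (1 / 2) (1 / 2) y))) +
      2 * (F * (d * (B * bd (1 / 2) (1 / 2) y))) := by
    intro y
    rw [hTdef]; ring
  have hdb : ∀ y, 0 ≤ d * (B * bd (1 / 2) (1 / 2) y) := fun y =>
    mul_nonneg hd (mul_nonneg hB (hw y).le)
  refine ⟨⟨n1, ?_⟩, ⟨n3, ?_⟩, ⟨n5, ?_⟩⟩
  · unfold I1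
    rw [← integral_sub i1 i2]
    have h := (plip_int (F := fun y => (W y * (iteratedDeriv 3 φ y - deriv φ y +
        l * iteratedDeriv 2 φ y) + fl k (W y) * deriv φ y + E y * deriv φ y) -
        (W' y * (iteratedDeriv 3 φ y - deriv φ y + l' * iteratedDeriv 2 φ y)
        + fl k (W' y) * deriv φ y + E' y * deriv φ y)) (by fun_prop) (K := T * d) ?_).2
    · calc _ ≤ T * d * J := h
        _ = T * J * d := by ring
    intro y
    have e1 := (hb1 y).2.1.trans (up B1 y l1)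
    have e2 := (hb2 y).2.1.trans (up B2 y l2)
    have e2' := (hb2 y).1.trans (up B2 y l2)
    have e3 := (hb3 y).2.1.trans (up B3 y l3)
    have a1 := key2 _ _ _ _ (dW y) e3
    have a2 := key2 _ _ _ _ (dW y) e1
    have a3 := key2 _ _ _ _ (dW y) e2
    have a4 := key2 _ _ _ _ (dE y) e1
    have a3' : |l * ((W y - W' y) * iteratedDeriv 2 φ y)| ≤ d * (B * bd (1 / 2) (1 / 2) y) := by
      rw [abs_mul, abs_of_nonneg hl]
      calc l * |(W y - W' y) * iteratedDeriv 2 φ y| ≤ 1 * |(W y - W' y) * iteratedDeriv 2 φ y| :=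
            mul_le_mul_of_nonneg_right hl1 (abs_nonneg _)
        _ = |(W y - W' y) * iteratedDeriv 2 φ y| := one_mul _
        _ ≤ _ := a3
    have a5 : |W' y * ((l - l') * iteratedDeriv 2 φ y)| ≤
        C₀ * (d * (B * bd (1 / 2) (1 / 2) y)) := key _ _ _ _ (bW' y) (key _ _ _ _ hld e2')
    have a6 : |(fl k (W y) - fl k (W' y)) * deriv φ y| ≤
        F * (d * (B * bd (1 / 2) (1 / 2) y)) := by
      rw [abs_mul]
      calc |fl k (W y) - fl k (W' y)| * |deriv φ y|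
          ≤ F * |W y - W' y| * |deriv φ y| :=
            mul_le_mul_of_nonneg_right (hF _ _ (bW y) (bW' y)).2 (abs_nonneg _)
        _ = F * |(W y - W' y) * deriv φ y| := by rw [abs_mul]; ring
        _ ≤ F * (d * (B * bd (1 / 2) (1 / 2) y)) := mul_le_mul_of_nonneg_left a2 hF0
    have e : (W y * (iteratedDeriv 3 φ y - deriv φ y + l * iteratedDeriv 2 φ y)
        + fl k (W y) * deriv φ y + E y * deriv φ y) -
        (W' y * (iteratedDeriv 3 φ y - deriv φ y + l' * iteratedDeriv 2 φ y)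
        + fl k (W' y) * deriv φ y + E' y * deriv φ y) =
        (W y - W' y) * iteratedDeriv 3 φ y - (W y - W' y) * deriv φ y +
        l * ((W y - W' y) * iteratedDeriv 2 φ y) + W' y * ((l - l') * iteratedDeriv 2 φ y) +
        (fl k (W y) - fl k (W' y)) * deriv φ y + (E y - E' y) * deriv φ y := by ring
    show |_| ≤ _
    rw [e, eT]
    have hdb' := hdb y
    have hcb : 0 ≤ C₀ * (d * (B * bd (1 / 2) (1 / 2) y)) := mul_nonneg h0 hdb'
    have hfb : 0 ≤ F * (d * (B * bd (1 / 2) (1 / 2) y)) := mul_nonneg hF0 hdb'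
    rw [abs_le] at a1 a2 a3' a4 a5 a6 ⊢
    constructor <;> linarith [a1.1, a1.2, a2.1, a2.2, a3'.1, a3'.2, a4.1, a4.2, a5.1, a5.2,
      a6.1, a6.2]
  · unfold IA
    rw [← integral_sub i3 i4]
    have h := (plip_int (F := fun y => W y * ((2 / (k : ℝ) - 1) * φ y - y * deriv φ y) -
        W' y * ((2 / (k : ℝ) - 1) * φ y - y * deriv φ y)) (by fun_prop) (K := T * d) ?_).2
    · calc _ ≤ T * d * J := h
        _ = T * J * d := by ring
    intro y
    have e0 := (hb0 y).2.1.trans (up B0 y l0)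
    have e1 := (hb1 y).2.2.trans (up B1 y l1)
    have a0 := key2 _ _ _ _ (dW y) e0
    have a1 : |(W y - W' y) * (y * deriv φ y)| ≤ d * (B * bd (1 / 2) (1 / 2) y) := by
      refine key2 _ _ y _ (dW y) ?_
      rw [abs_mul]
      exact e1
    have a2 : |(2 / (k : ℝ) - 1) * ((W y - W' y) * φ y)| ≤
        1 * (d * (B * bd (1 / 2) (1 / 2) y)) := key _ _ _ _ hk2 a0
    have e : W y * ((2 / (k : ℝ) - 1) * φ y - y * deriv φ y) -
        W' y * ((2 / (k : ℝ) - 1) * φ y - y * deriv φ y) =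
        (2 / (k : ℝ) - 1) * ((W y - W' y) * φ y) - (W y - W' y) * (y * deriv φ y) := by ring
    show |_| ≤ _
    rw [e, eT]
    have hdb' := hdb y
    have hcb : 0 ≤ C₀ * (d * (B * bd (1 / 2) (1 / 2) y)) := mul_nonneg h0 hdb'
    have hfb : 0 ≤ F * (d * (B * bd (1 / 2) (1 / 2) y)) := mul_nonneg hF0 hdb'
    rw [abs_le] at a1 a2 ⊢
    constructor <;> linarith [a1.1, a1.2, a2.1, a2.2]
  · unfold IB
    rw [← integral_sub i5 i6]
    have h := (plip_int (F := fun y => W y * deriv φ y - W' y * deriv φ y) (by fun_prop)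
      (K := T * d) ?_).2
    · calc _ ≤ T * d * J := h
        _ = T * J * d := by ring
    intro y
    have e1 := (hb1 y).2.1.trans (up B1 y l1)
    have a1 := key2 _ _ _ _ (dW y) e1
    have e : W y * deriv φ y - W' y * deriv φ y = (W y - W' y) * deriv φ y := by ring
    show |_| ≤ _
    rw [e, eT]
    have hdb' := hdb y
    have hcb : 0 ≤ C₀ * (d * (B * bd (1 / 2) (1 / 2) y)) := mul_nonneg h0 hdb'
    have hfb : 0 ≤ F * (d * (B * bd (1 / 2) (1 / 2) y)) := mul_nonneg hF0 hdb'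
    linarith

/-- a difference of products of bounded, `A d`-close quantities -/
private theorem plip_prod {A d p q r s p' q' r' s' : ℝ} (hA : 0 ≤ A) (hd : 0 ≤ d)
    (hp : |p| ≤ A) (hq : |q| ≤ A) (hr : |r| ≤ A) (hs : |s| ≤ A)
    (hp' : |p'| ≤ A) (hr' : |r'| ≤ A)
    (h1 : |p - p'| ≤ A * d) (h2 : |q - q'| ≤ A * d) (h3 : |r - r'| ≤ A * d)
    (h4 : |s - s'| ≤ A * d) :
    |p * q - r * s| ≤ 2 * A ^ 2 ∧ |(p * q - r * s) - (p' * q' - r' * s')| ≤ 4 * A ^ 2 * d := by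
  have key : ∀ a b X Y : ℝ, |a| ≤ X → |b| ≤ Y → |a * b| ≤ X * Y := by
    intro a b X Y ha hb
    rw [abs_mul]
    exact mul_le_mul ha hb (abs_nonneg _) ((abs_nonneg _).trans ha)
  constructor
  · have a1 := key _ _ _ _ hp hq
    have a2 := key _ _ _ _ hr hs
    rw [abs_le] at a1 a2 ⊢
    constructor <;> linarith only [a1.1, a1.2, a2.1, a2.2]
  · have a1 := key _ _ _ _ h1 hq
    have a2 := key _ _ _ _ hp' h2
    have a3 := key _ _ _ _ h3 hs
    have a4 := key _ _ _ _ hr' h4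
    have e : (p * q - r * s) - (p' * q' - r' * s') =
        (p - p') * q + p' * (q - q') - (r - r') * s - r' * (s - s') := by ring
    rw [e]
    have e1 : A * d * A = A ^ 2 * d := by ring
    have e2 : A * (A * d) = A ^ 2 * d := by ring
    rw [e1] at a1 a3
    rw [e2] at a2 a4
    rw [abs_le] at a1 a2 a3 a4 ⊢
    constructor <;> linarith [a1.1, a1.2, a2.1, a2.2, a3.1, a3.2, a4.1, a4.2]

private theorem plip_div {N N' D D' c M d : ℝ} (hc : 0 < c) (hM : 0 ≤ M) (hd : 0 ≤ d)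
    (hD : c ≤ D) (hD' : c ≤ D') (hN : |N| ≤ M) (hN' : |N'| ≤ M) (h1 : |N - N'| ≤ M * d)
    (h2 : |D - D'| ≤ M * d) :
    |N / D| ≤ M / c ∧ |N / D - N' / D'| ≤ (M / c + M ^ 2 / c ^ 2) * d := by
  have hD0 : 0 < D := hc.trans_le hD
  have hD0' : 0 < D' := hc.trans_le hD'
  constructor
  · rw [abs_div, abs_of_pos hD0]
    exact div_le_div₀ hM hN hc hD
  · have e : N / D - N' / D' = (N - N') / D + N' * (D' - D) / (D * D') := by
      field_simp
      ring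
    rw [e]
    have a1 : |(N - N') / D| ≤ M * d / c := by
      rw [abs_div, abs_of_pos hD0]
      exact div_le_div₀ (by positivity) h1 hc hD
    have a2 : |N' * (D' - D) / (D * D')| ≤ M * (M * d) / (c * c) := by
      rw [abs_div, abs_mul, abs_of_pos (mul_pos hD0 hD0'), abs_sub_comm D' D]
      refine div_le_div₀ (by positivity) ?_ (by positivity) ?_
      · exact mul_le_mul hN' h2 (abs_nonneg _) hM
      · exact mul_le_mul hD hD' hc.le hD0.le
    have e2 : (M / c + M ^ 2 / c ^ 2) * d = M * d / c + M * (M * d) / (c * c) := by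
      field_simp
    rw [e2]
    exact (abs_add_le _ _).trans (add_le_add a1 a2)

theorem d0_pos {k : ℕ} (hk : 5 ≤ k) : 0 < d0 k := by
  have h1 : 1 ≤ k := by omega
  unfold d0
  have a := (sc_pos hk).1
  have b := Qsq_pos h1
  have c := Q'sq_pos h1
  positivity

theorem bfn_lip {k : ℕ} (hk : 5 ≤ k) (C₀ : ℝ) : ∃ C₁ : ℝ, 0 ≤ C₁ ∧
    ∀ (l l' : ℝ) (W W' E E' : ℝ → ℝ) (d : ℝ), 0 ≤ l → l ≤ 1 → 0 ≤ l' → l' ≤ 1 → 0 ≤ d →
      |l - l'| ≤ d → Continuous W → Continuous W' → Continuous E → Continuous E' →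
      (∀ y, |W y| ≤ C₀) → (∀ y, |W' y| ≤ C₀) → (∀ y, |E y| ≤ C₀) → (∀ y, |E' y| ≤ C₀) →
      (∀ y, |W y - W' y| ≤ d * (1 + |y|)) → (∀ y, |E y - E' y| ≤ d * (1 + |y|)) →
      |bfn k l W E| ≤ C₁ ∧ |mfn k l W E| ≤ C₁ ∧ |bfn k l W E - bfn k l' W' E'| ≤ C₁ * d ∧
        |mfn k l W E - mfn k l' W' E'| ≤ C₁ * d := by
  by_cases h0 : 0 ≤ C₀
  swap
  · refine ⟨0, le_refl _, ?_⟩
    intro l l' W W' E E' d _ _ _ _ _ _ _ _ _ _ bW
    exact absurd ((abs_nonneg _).trans (bW 0)) h0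
  have hk1 : 1 ≤ k := by omega
  obtain ⟨A1, hA1, H1⟩ := plip_fun hk h0 (Q_cl hk1)
  obtain ⟨A2, hA2, H2⟩ := plip_fun hk h0 (Cl_deriv (Q_cl hk1))
  have hc := d0_pos hk
  set A := A1 + A2 with hAdef
  have hA : 0 ≤ A := by positivity
  have u1 : A1 ≤ A := by rw [hAdef]; linarith
  have u2 : A2 ≤ A := by rw [hAdef]; linarith
  set M := 4 * A ^ 2 with hMdef
  have hM : 0 ≤ M := by positivity
  refine ⟨M / d0 k + M ^ 2 / (d0 k) ^ 2, by positivity, ?_⟩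
  intro l l' W W' E E' d hl hl1 hl' hl1' hd hld cW cW' cE cE' bW bW' bE bE' dW dE
  have v1 : A1 * d ≤ A * d := mul_le_mul_of_nonneg_right u1 hd
  have v2 : A2 * d ≤ A * d := mul_le_mul_of_nonneg_right u2 hd
  obtain ⟨⟨a1, a2⟩, ⟨a3, a4⟩, ⟨a5, a6⟩⟩ := H1 l l' W W' E E' d hl hl1 hl' hl1' hd hld cW cW' cE cE'
    bW bW' bE bE' dW dE
  obtain ⟨⟨b1, b2⟩, ⟨b3, b4⟩, ⟨b5, b6⟩⟩ := H2 l l' W W' E E' d hl hl1 hl' hl1' hd hld cW cW' cE cE'
    bW bW' bE bE' dW dE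
  have zz : ∀ y : ℝ, |(0 : ℝ)| ≤ 0 * (1 + |y|) := fun y => by simp
  obtain ⟨⟨a1', _⟩, ⟨a3', _⟩, ⟨a5', _⟩⟩ := H1 l' l' W' W' E' E' 0 hl' hl1' hl' hl1' le_rfl
    (by simp) cW' cW' cE' cE' bW' bW' bE' bE' (fun y => by simp) (fun y => by simp)
  obtain ⟨⟨b1', _⟩, ⟨b3', _⟩, ⟨b5', _⟩⟩ := H2 l' l' W' W' E' E' 0 hl' hl1' hl' hl1' le_rfl
    (by simp) cW' cW' cE' cE' bW' bW' bE' bE' (fun y => by simp) (fun y => by simp)
  have hDet := plip_prod hA hd (a3.trans u1) (b5.trans u2) (b3.trans u2) (a5.trans u1)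
    (a3'.trans u1) (b3'.trans u2) (a4.trans v1) (b6.trans v2) (b4.trans v2) (a6.trans v1)
  have hNb := plip_prod hA hd (a1.trans u1) (b5.trans u2) (b1.trans u2) (a5.trans u1)
    (a1'.trans u1) (b1'.trans u2) (a2.trans v1) (b6.trans v2) (b2.trans v2) (a6.trans v1)
  have hNb' := (plip_prod hA (le_refl (0 : ℝ)) (a1'.trans u1) (b5'.trans u2) (b1'.trans u2)
    (a5'.trans u1) (a1'.trans u1) (b1'.trans u2) (p' := I1 k l' W' E' (Qf k))
    (q' := IB W' (deriv (Qf k))) (r' := I1 k l' W' E' (deriv (Qf k))) (s' := IB W' (Qf k))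
    (by simp) (by simp) (by simp) (by simp)).1
  have hNm := plip_prod hA hd (a3.trans u1) (b1.trans u2) (b3.trans u2) (a1.trans u1)
    (a3'.trans u1) (b3'.trans u2) (a4.trans v1) (b2.trans v2) (b4.trans v2) (a2.trans v1)
  have hNm' := (plip_prod hA (le_refl (0 : ℝ)) (a3'.trans u1) (b1'.trans u2) (b3'.trans u2)
    (a1'.trans u1) (a3'.trans u1) (b3'.trans u2) (p' := IA k W' (Qf k))
    (q' := I1 k l' W' E' (deriv (Qf k))) (r' := IA k W' (deriv (Qf k)))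
    (s' := I1 k l' W' E' (Qf k)) (by simp) (by simp) (by simp) (by simp)).1
  have m2 : 2 * A ^ 2 ≤ M := by
    rw [hMdef]
    linarith only [sq_nonneg A]
  have hDD : |max (Det k W) (d0 k) - max (Det k W') (d0 k)| ≤ M * d :=
    (abs_max_sub_max_le_abs _ _ _).trans hDet.2
  have r1 := plip_div hc hM hd (le_max_right (Det k W) (d0 k)) (le_max_right (Det k W') (d0 k))
    (hNb.1.trans m2) (hNb'.trans m2) hNb.2 hDD
  have r2 := plip_div hc hM hd (le_max_right (Det k W) (d0 k)) (le_max_right (Det k W') (d0 k))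
    (hNm.1.trans m2) (hNm'.trans m2) hNm.2 hDD
  have m3 : M / d0 k ≤ M / d0 k + M ^ 2 / (d0 k) ^ 2 := by
    have : 0 ≤ M ^ 2 / (d0 k) ^ 2 := by positivity
    linarith
  exact ⟨r1.1.trans m3, r2.1.trans m3, r1.2, r2.2⟩

end H72KB
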