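import Mathlib

/-!
# Row Shoot: abstract shooting lemma (pure real analysis)

Proof.  Write `I = [-a₁,a₁]`, `S = I × [0,T]`.  For a sign `σ = ±1` let `U_σ` be the set of `a ∈ I` for
which there is `t ∈ [0,T]` with
 (A) `h(a,t) < 0` and `σ l(a,t) > 0`;
 (B) for all `s ∈ [0,t]` and all `j`: `ω_j(a,s) > 0`, and `max (σ l(a,s)) (h(a,s)) > 0`.
(1) `U_+ ∩ U_- = ∅`: let `t₊, t₋` be witnesses, say `t₊ ≤ t₋`.  At `s = t₊` (B) for `σ = -1` gives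
 `-l > 0` or `h > 0`, but (A) for `σ = 1` says `h < 0` and `l > 0`.  Same for `t₋ ≤ t₊`.
(2) `U_σ` is relatively open in `I`: fix `a₀ ∈ U_σ` with witness `t`.  All functions are continuous on the
 compact `S`, hence uniformly continuous (`IsCompact.uniformContinuousOn_of_continuous`); the continuous
 functions `s ↦ ω_j(a₀,s)` and `s ↦ max (σ l) h` have positive minima on the compact `[0,t]`; so for `a ∈ I`
 near `a₀` the same `t` is a witness.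
(3) `I = U_+ ∪ U_-`.  Let `a ∈ I`.
 (3a) If `h(a,0) < 0`: by `nz` (at `t = 0`, `r0`, `h0`) `l(a,0) ≠ 0`; take `t = 0`, `σ` = sign of `l(a,0)`.
 (3b) If `h(a,0) ≥ 0`: let `G = {t ∈ [0,T] : ∀ s ∈ [0,t], (∀ j, ω_j(a,s) > 0) ∧ h(a,s) ≥ 0}`, `0 ∈ G`,
  `τ = sSup G`.  For `s < τ` the conditions hold at `s`.  CLAIM `τ ∈ G`.  `h(a,τ) ≥ 0` by continuity.  If some
  `ω_i(a,τ) ≤ 0` then `τ > 0`, `ω_i(a,τ) = 0` by continuity; take `ε` from `bar i`; on some `(τ-δ,τ)`,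
  `ω_i < ε`, all `ω_j > 0`, `h ≥ 0` hence `r > 0` (`rh`), so `ω_i` has a nonnegative derivative there and is
  monotone on `[τ-δ/2, τ]` (`monotoneOn_of_deriv_nonneg`), so `ω_i(a,τ) ≥ ω_i(a,τ-δ/2) > 0`, contradiction.
  By `nf`, `τ ≠ T`, so `τ < T`.  If `h(a,τ) > 0` all conditions persist (continuity in `t`, finitely many
  functions) on `[τ,τ+δ]`, contradicting `τ = sSup G`.  So `h(a,τ) = 0`, `r(a,τ) > 0` (`rh`), `l(a,τ) ≠ 0` (`nz`).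
  LOCAL FACT: if `s₀ ∈ [0,τ]` (so `s₀ < T`) and `h(a,s₀) = 0` then (all `ω_j > 0`, `r > 0` at `s₀`; take `ε` from
  `tr`) there is `δ > 0`, `s₀ + δ < T`, such that on `[0,T] ∩ [s₀-δ,s₀+δ]`: `ω_j > 0`, `r > 0`, `h < ε`; hence `h` has
  negative derivative on the interior and is strictly decreasing there (`strictAntiOn_of_deriv_neg`); in
  particular `h(a,s) < 0` for `s ∈ (s₀, s₀+δ]`.
  Hence `h(a,s) > 0` for all `s ∈ [0,τ)` (otherwise `h(a,s) = 0` and `h < 0` just after `s`, contradicting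
  `h ≥ 0` on `[0,τ]`).  Let `σ` = sign of `l(a,τ)`; shrinking `δ` for `s₀ = τ` we also have `σ l > 0` on
  `[τ,τ+δ]`.  Then `t = τ+δ` is a witness for `a ∈ U_σ`.
(4) `a₁ ∈ U_σ`, `-a₁ ∈ U_{-σ}` by `e1 e2 e3` and (3a) (the sign of `l(a₁,0)` and `l(-a₁,0)` are opposite).
(5) `I` is preconnected (`isPreconnected_Icc`), `U_±` relatively open, disjoint, both nonempty, cover `I`:
 contradiction (`isPreconnected_iff_subset_of_disjoint` or `IsPreconnected` applied to open sets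
 `V_± ⊆ ℝ` with `V_± ∩ I = U_±`).
-/

open Filter Topology Set

namespace H72KB


private lemma Shoot_ev {T c : ℝ} {Q : ℝ → Prop} (h : ∀ᶠ s in 𝓝[Icc 0 T] c, Q s) :
    ∃ δ > 0, ∀ s ∈ Icc (0:ℝ) T, |s - c| < δ → Q s := by
  rw [eventually_nhdsWithin_iff, Metric.eventually_nhds_iff] at h
  obtain ⟨δ, hδ, h⟩ := h
  exact ⟨δ, hδ, fun s hs hd => h (by rwa [Real.dist_eq]) hs⟩

private lemma Shoot_pos {T c : ℝ} {f : ℝ → ℝ} (hf : ContinuousOn f (Icc 0 T))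
    (hc : c ∈ Icc (0:ℝ) T) (h : 0 < f c) : ∀ᶠ s in 𝓝[Icc 0 T] c, 0 < f s :=
  (hf c hc).eventually (Ioi_mem_nhds h)

private lemma Shoot_lt {T c K : ℝ} {f : ℝ → ℝ} (hf : ContinuousOn f (Icc 0 T))
    (hc : c ∈ Icc (0:ℝ) T) (h : f c < K) : ∀ᶠ s in 𝓝[Icc 0 T] c, f s < K :=
  (hf c hc).eventually (Iio_mem_nhds h)

private lemma Shoot_loc {n : ℕ} {T : ℝ} {H R : ℝ → ℝ} {Ω : Fin n → ℝ → ℝ}
    (hH : ContinuousOn H (Icc 0 T)) (hR : ContinuousOn R (Icc 0 T))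
    (hΩ : ∀ i, ContinuousOn (Ω i) (Icc 0 T))
    (tr : ∃ ε > 0, ∀ t ∈ Ioo 0 T, (∀ j, 0 < Ω j t) → 0 < R t → H t < ε →
      ∃ d < 0, HasDerivAt H d t)
    {c : ℝ} (hc : c ∈ Icc (0:ℝ) T) (hcΩ : ∀ j, 0 < Ω j c) (hcR : 0 < R c) (hcH : H c = 0) :
    ∃ δ > 0, ∀ s ∈ Icc (0:ℝ) T, c < s → s < c + δ → H s < 0 ∧ ∀ j, 0 < Ω j s := by
  obtain ⟨ε, hε, htr⟩ := tr
  have h1 : ∀ᶠ s in 𝓝[Icc 0 T] c, (∀ j, 0 < Ω j s) ∧ 0 < R s ∧ H s < ε :=
    (eventually_all.2 fun j => Shoot_pos (hΩ j) hc (hcΩ j)).and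
      ((Shoot_pos hR hc hcR).and (Shoot_lt hH hc (by rw [hcH]; exact hε)))
  obtain ⟨δ, hδ, h2⟩ := Shoot_ev h1
  refine ⟨δ, hδ, ?_⟩
  intro s hs hcs hsd
  have hsI : |s - c| < δ := by rw [abs_of_pos (by linarith)]; linarith
  refine ⟨?_, (h2 s hs hsI).1⟩
  have h3 : StrictAntiOn H (Icc c s) := by
    apply strictAntiOn_of_deriv_neg (convex_Icc c s)
    · exact hH.mono (Icc_subset_Icc hc.1 hs.2)
    · intro x hx
      rw [interior_Icc] at hx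
      have hx0 : x ∈ Ioo (0:ℝ) T := ⟨lt_of_le_of_lt hc.1 hx.1, lt_of_lt_of_le hx.2 hs.2⟩
      have hxd : |x - c| < δ := by
        rw [abs_of_pos (by linarith [hx.1])]
        linarith [hx.2]
      obtain ⟨a1, a2, a3⟩ := h2 x ⟨hx0.1.le, hx0.2.le⟩ hxd
      obtain ⟨d, hd, hD⟩ := htr x hx0 a1 a2 a3
      rw [hD.deriv]
      exact hd
  have h4 := h3 (left_mem_Icc.2 hcs.le) (right_mem_Icc.2 hcs.le) hcs
  rw [hcH] at h4
  exact h4

private lemma Shoot_one {n : ℕ} {T : ℝ} (hT : 0 < T) {H L R : ℝ → ℝ} {Ω : Fin n → ℝ → ℝ}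
    (hH : ContinuousOn H (Icc 0 T)) (hL : ContinuousOn L (Icc 0 T))
    (hR : ContinuousOn R (Icc 0 T))
    (hΩ : ∀ i, ContinuousOn (Ω i) (Icc 0 T))
    (h0 : ∀ i, 0 < Ω i 0) (r0 : 0 < R 0)
    (rh : ∀ t ∈ Icc 0 T, (∀ i, 0 < Ω i t) → 0 ≤ H t → 0 < R t)
    (bar : ∀ i, ∃ ε > 0, ∀ t ∈ Ioo 0 T, (∀ j, 0 < Ω j t) → 0 < R t → Ω i t < ε →
      ∃ d, 0 ≤ d ∧ HasDerivAt (Ω i) d t)
    (tr : ∃ ε > 0, ∀ t ∈ Ioo 0 T, (∀ j, 0 < Ω j t) → 0 < R t → H t < ε →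
      ∃ d < 0, HasDerivAt H d t)
    (nz : ∀ t ∈ Icc 0 T, (∀ j, 0 < Ω j t) → 0 < R t → H t ≤ 0 → L t ≠ 0)
    (nf : ¬ ∀ t ∈ Icc 0 T, (∀ j, 0 < Ω j t) ∧ 0 ≤ H t) :
    ∃ σ : ℝ, (σ = 1 ∨ σ = -1) ∧ ∃ t ∈ Icc 0 T, H t < 0 ∧ 0 < σ * L t ∧
      ∀ s ∈ Icc 0 t, (∀ j, 0 < Ω j s) ∧ (0 < σ * L s ∨ 0 < H s) := by
  have hsgn : ∀ x : ℝ, x ≠ 0 → ∃ σ : ℝ, (σ = 1 ∨ σ = -1) ∧ 0 < σ * x := by
    intro x hx
    rcases lt_or_gt_of_ne hx with h | h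
    · exact ⟨-1, Or.inr rfl, by linarith⟩
    · exact ⟨1, Or.inl rfl, by linarith⟩
  have hI0 : (0:ℝ) ∈ Icc (0:ℝ) T := ⟨le_rfl, hT.le⟩
  by_cases hH0 : H 0 < 0
  · obtain ⟨σ, hσ, hσL⟩ := hsgn (L 0) (nz 0 hI0 h0 r0 hH0.le)
    refine ⟨σ, hσ, 0, hI0, hH0, hσL, ?_⟩
    intro s hs
    have hs0 : s = 0 := le_antisymm hs.2 hs.1
    subst hs0
    exact ⟨h0, Or.inl hσL⟩
  · have hH0' : 0 ≤ H 0 := not_lt.1 hH0
    let G : Set ℝ := {t | t ∈ Icc (0:ℝ) T ∧ ∀ s ∈ Icc 0 t, (∀ j, 0 < Ω j s) ∧ 0 ≤ H s}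
    have hG0 : (0:ℝ) ∈ G := by
      refine ⟨hI0, ?_⟩
      intro s hs
      have hs0 : s = 0 := le_antisymm hs.2 hs.1
      subst hs0
      exact ⟨h0, hH0'⟩
    have hGb : BddAbove G := ⟨T, fun t ht => ht.1.2⟩
    obtain ⟨τ, hτdef⟩ : ∃ τ, τ = sSup G := ⟨_, rfl⟩
    have hle : ∀ t ∈ G, t ≤ τ := fun t ht => by rw [hτdef]; exact le_csSup hGb ht
    have hτ0 : 0 ≤ τ := hle 0 hG0
    have hτT : τ ≤ T := by rw [hτdef]; exact csSup_le ⟨0, hG0⟩ fun t ht => ht.1.2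
    have hτI : τ ∈ Icc (0:ℝ) T := ⟨hτ0, hτT⟩
    have hlt : ∀ s, 0 ≤ s → s < τ → (∀ j, 0 < Ω j s) ∧ 0 ≤ H s := by
      intro s hs0 hs
      rw [hτdef] at hs
      obtain ⟨t, ht, hst⟩ := exists_lt_of_lt_csSup ⟨0, hG0⟩ hs
      exact ht.2 s ⟨hs0, hst.le⟩
    have hPτ : (∀ j, 0 < Ω j τ) ∧ 0 ≤ H τ := by
      rcases eq_or_lt_of_le hτ0 with h1 | hpos
      · rw [← h1]
        exact ⟨h0, hH0'⟩
      constructor
      · intro i
        by_contra hneg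
        rw [not_lt] at hneg
        obtain ⟨ε, hε, hbar⟩ := bar i
        obtain ⟨δ, hδ, h2⟩ := Shoot_ev (Shoot_lt (hΩ i) hτI (lt_of_le_of_lt hneg hε))
        obtain ⟨b, hb⟩ : ∃ b, b = max (τ - δ / 2) (τ / 2) := ⟨_, rfl⟩
        have hb1 : b < τ := by rw [hb]; exact max_lt (by linarith) (by linarith)
        have hb2 : τ - δ / 2 ≤ b := by rw [hb]; exact le_max_left _ _
        have hb3 : τ / 2 ≤ b := by rw [hb]; exact le_max_right _ _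
        have hb0 : 0 < b := by linarith
        have h3 : MonotoneOn (Ω i) (Icc b τ) := by
          have hder : ∀ x ∈ interior (Icc b τ), ∃ d, 0 ≤ d ∧ HasDerivAt (Ω i) d x := by
            intro x hx
            rw [interior_Icc] at hx
            have hx0 : 0 < x := lt_trans hb0 hx.1
            have hP := hlt x hx0.le hx.2
            have hxI : x ∈ Icc (0:ℝ) T := ⟨hx0.le, hx.2.le.trans hτT⟩
            refine hbar x ⟨hx0, lt_of_lt_of_le hx.2 hτT⟩ hP.1 (rh x hxI hP.1 hP.2)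
              (h2 x hxI ?_)
            rw [abs_of_neg (by linarith [hx.2])]
            linarith [hx.1]
          apply monotoneOn_of_deriv_nonneg (convex_Icc b τ)
          · exact (hΩ i).mono (Icc_subset_Icc hb0.le hτT)
          · intro x hx
            obtain ⟨d, _, hD⟩ := hder x hx
            exact hD.differentiableAt.differentiableWithinAt
          · intro x hx
            obtain ⟨d, hd, hD⟩ := hder x hx
            rw [hD.deriv]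
            exact hd
        have h4 := h3 (left_mem_Icc.2 hb1.le) (right_mem_Icc.2 hb1.le) hb1.le
        have h5 := (hlt b hb0.le hb1).1 i
        linarith
      · by_contra hneg
        rw [not_le] at hneg
        obtain ⟨δ, hδ, h2⟩ := Shoot_ev (Shoot_lt hH hτI hneg)
        obtain ⟨b, hb⟩ : ∃ b, b = max (τ - δ / 2) (τ / 2) := ⟨_, rfl⟩
        have hb1 : b < τ := by rw [hb]; exact max_lt (by linarith) (by linarith)
        have hb2 : τ - δ / 2 ≤ b := by rw [hb]; exact le_max_left _ _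
        have hb3 : τ / 2 ≤ b := by rw [hb]; exact le_max_right _ _
        have hb0 : 0 < b := by linarith
        have h3 := h2 b ⟨hb0.le, hb1.le.trans hτT⟩ (by
          rw [abs_of_neg (by linarith)]
          linarith)
        have h4 := (hlt b hb0.le hb1).2
        linarith
    have hτne : τ < T := by
      rcases lt_or_eq_of_le hτT with h | h
      · exact h
      · exfalso
        apply nf
        intro t ht
        rcases lt_or_eq_of_le ht.2 with h1 | h1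
        · exact hlt t ht.1 (by rw [h]; exact h1)
        · rw [h1, ← h]
          exact hPτ
    have hHτ : H τ = 0 := by
      by_contra hne
      have hpos : 0 < H τ := lt_of_le_of_ne hPτ.2 (Ne.symm hne)
      obtain ⟨δ, hδ, h2⟩ := Shoot_ev
        ((eventually_all.2 fun j => Shoot_pos (hΩ j) hτI (hPτ.1 j)).and (Shoot_pos hH hτI hpos))
      obtain ⟨b, hb⟩ : ∃ b, b = min (τ + δ / 2) T := ⟨_, rfl⟩
      have hb1 : τ < b := by rw [hb]; exact lt_min (by linarith) hτne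
      have hb2 : b ≤ τ + δ / 2 := by rw [hb]; exact min_le_left _ _
      have hb3 : b ≤ T := by rw [hb]; exact min_le_right _ _
      have hbG : b ∈ G := by
        refine ⟨⟨by linarith, hb3⟩, ?_⟩
        intro s hs
        rcases lt_or_ge s τ with h | h
        · exact hlt s hs.1 h
        · have h3 := h2 s ⟨hs.1, hs.2.trans hb3⟩ (by
            rw [abs_of_nonneg (by linarith)]
            linarith [hs.2])
          exact ⟨h3.1, h3.2.le⟩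
      have := hle b hbG
      linarith
    have hRτ : 0 < R τ := rh τ hτI hPτ.1 hPτ.2
    have hpos : ∀ s, 0 ≤ s → s < τ → 0 < H s := by
      intro s hs0 hs
      obtain ⟨hsΩ, hsH⟩ := hlt s hs0 hs
      rcases lt_or_eq_of_le hsH with h | h
      · exact h
      · exfalso
        have hsI : s ∈ Icc (0:ℝ) T := ⟨hs0, hs.le.trans hτT⟩
        obtain ⟨δ, hδ, h2⟩ := Shoot_loc hH hR hΩ tr hsI hsΩ (rh s hsI hsΩ hsH) h.symm
        obtain ⟨b, hb⟩ : ∃ b, b = min (s + δ / 2) ((s + τ) / 2) := ⟨_, rfl⟩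
        have hb1 : s < b := by rw [hb]; exact lt_min (by linarith) (by linarith)
        have hb2 : b ≤ s + δ / 2 := by rw [hb]; exact min_le_left _ _
        have hb3 : b ≤ (s + τ) / 2 := by rw [hb]; exact min_le_right _ _
        have h3 := (h2 b ⟨by linarith, by linarith⟩ hb1 (by linarith)).1
        have h4 := (hlt b (by linarith) (by linarith)).2
        linarith
    obtain ⟨σ, hσ, hσL⟩ := hsgn (L τ) (nz τ hτI hPτ.1 hRτ hHτ.le)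
    obtain ⟨δ₁, hδ₁, h1⟩ := Shoot_loc hH hR hΩ tr hτI hPτ.1 hRτ hHτ
    obtain ⟨δ₂, hδ₂, h2⟩ := Shoot_ev
      (Shoot_pos (f := fun s => σ * L s) (continuousOn_const.mul hL) hτI hσL)
    obtain ⟨b, hb⟩ : ∃ b, b = min (min (τ + δ₁ / 2) (τ + δ₂ / 2)) ((τ + T) / 2) := ⟨_, rfl⟩
    have hb1 : τ < b := by
      rw [hb]; exact lt_min (lt_min (by linarith) (by linarith)) (by linarith)
    have hb2 : b ≤ τ + δ₁ / 2 := by
      rw [hb]; exact (min_le_left _ _).trans (min_le_left _ _)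
    have hb3 : b ≤ τ + δ₂ / 2 := by
      rw [hb]; exact (min_le_left _ _).trans (min_le_right _ _)
    have hb4 : b ≤ (τ + T) / 2 := by rw [hb]; exact min_le_right _ _
    have hbI : b ∈ Icc (0:ℝ) T := ⟨by linarith, by linarith⟩
    have hLb : ∀ s ∈ Icc τ b, 0 < σ * L s := by
      intro s hs
      exact h2 s ⟨by linarith [hs.1], by linarith [hs.2]⟩ (by
        rw [abs_of_nonneg (by linarith [hs.1])]
        linarith [hs.2])
    refine ⟨σ, hσ, b, hbI, (h1 b hbI hb1 (by linarith)).1, hLb b ⟨hb1.le, le_rfl⟩, ?_⟩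
    intro s hs
    rcases lt_trichotomy s τ with h | h | h
    · exact ⟨(hlt s hs.1 h).1, Or.inr (hpos s hs.1 h)⟩
    · subst h
      exact ⟨hPτ.1, Or.inl hσL⟩
    · exact ⟨(h1 s ⟨hs.1, hs.2.trans hbI.2⟩ h (by linarith [hs.2])).2,
        Or.inl (hLb s ⟨h.le, hs.2⟩)⟩

/-- clamping to the rectangle -/
private noncomputable def Shoot_P (a₁ T : ℝ) (x : ℝ × ℝ) : ℝ × ℝ :=
  (max (-a₁) (min a₁ x.1), max 0 (min T x.2))

private lemma Shoot_Pc (a₁ T : ℝ) : Continuous (Shoot_P a₁ T) := by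
  unfold Shoot_P
  fun_prop

private lemma Shoot_Pm {a₁ T : ℝ} (ha : 0 < a₁) (hT : 0 < T) (x : ℝ × ℝ) :
    Shoot_P a₁ T x ∈ Icc (-a₁) a₁ ×ˢ Icc 0 T := by
  refine ⟨⟨le_max_left _ _, ?_⟩, ⟨le_max_left _ _, ?_⟩⟩
  · exact max_le (by linarith) (min_le_left _ _)
  · exact max_le hT.le (min_le_left _ _)

private lemma Shoot_Pe {a₁ T : ℝ} {a t : ℝ} (ha : a ∈ Icc (-a₁) a₁) (ht : t ∈ Icc 0 T) :
    Shoot_P a₁ T (a, t) = (a, t) := by
  unfold Shoot_P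
  rw [min_eq_right ha.2, max_eq_right ha.1, min_eq_right ht.2, max_eq_right ht.1]

private lemma Shoot_open {n : ℕ} {T : ℝ} (σ : ℝ) {h l : ℝ × ℝ → ℝ} {ω : Fin n → ℝ × ℝ → ℝ}
    (hh : Continuous h) (hl : Continuous l) (hω : ∀ i, Continuous (ω i)) :
    IsOpen {a : ℝ | ∃ t ∈ Icc 0 T, h (a, t) < 0 ∧ 0 < σ * l (a, t) ∧
      ∀ s ∈ Icc 0 t, (∀ j, 0 < ω j (a, s)) ∧ (0 < σ * l (a, s) ∨ 0 < h (a, s))} := by
  rw [isOpen_iff_mem_nhds]
  rintro a₀ ⟨t, ht, h1, h2, h3⟩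
  have e1 : ∀ᶠ a in 𝓝 a₀, h (a, t) < 0 := by
    have hc : Continuous fun a => h (a, t) := hh.comp (by fun_prop)
    exact hc.continuousAt.eventually (Iio_mem_nhds h1)
  have e2 : ∀ᶠ a in 𝓝 a₀, 0 < σ * l (a, t) := by
    have hc : Continuous fun a => σ * l (a, t) := continuous_const.mul (hl.comp (by fun_prop))
    exact hc.continuousAt.eventually (Ioi_mem_nhds h2)
  have e3 : ∀ᶠ a in 𝓝 a₀, ∀ s ∈ Icc 0 t,
      (∀ j, 0 < ω j (a, s)) ∧ (0 < σ * l (a, s) ∨ 0 < h (a, s)) := by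
    refine IsCompact.eventually_forall_of_forall_eventually isCompact_Icc ?_
    intro s hs
    obtain ⟨a1, a2⟩ := h3 s hs
    have b1 : ∀ᶠ z in 𝓝 (a₀, s), ∀ j, 0 < ω j z :=
      eventually_all.2 fun j => (hω j).continuousAt.eventually (Ioi_mem_nhds (a1 j))
    have b2 : ∀ᶠ z in 𝓝 (a₀, s), 0 < σ * l z ∨ 0 < h z := by
      rcases a2 with a2 | a2
      · have hc : Continuous fun z => σ * l z := continuous_const.mul hl
        exact (hc.continuousAt.eventually (Ioi_mem_nhds a2)).mono fun z hz => Or.inl hz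
      · exact (hh.continuousAt.eventually (Ioi_mem_nhds a2)).mono fun z hz => Or.inr hz
    exact b1.and b2
  filter_upwards [e1, e2, e3] with a f1 f2 f3
  exact ⟨t, ht, f1, f2, f3⟩

theorem shoot {n : ℕ} (a₁ T : ℝ) (ha : 0 < a₁) (hT : 0 < T)
    (h l r : ℝ × ℝ → ℝ) (ω : Fin n → ℝ × ℝ → ℝ)
    (hh : ContinuousOn h (Icc (-a₁) a₁ ×ˢ Icc 0 T))
    (hl : ContinuousOn l (Icc (-a₁) a₁ ×ˢ Icc 0 T))
    (hr : ContinuousOn r (Icc (-a₁) a₁ ×ˢ Icc 0 T))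
    (hω : ∀ i, ContinuousOn (ω i) (Icc (-a₁) a₁ ×ˢ Icc 0 T))
    (h0 : ∀ a ∈ Icc (-a₁) a₁, ∀ i, 0 < ω i (a, 0))
    (r0 : ∀ a ∈ Icc (-a₁) a₁, 0 < r (a, 0))
    (rh : ∀ a ∈ Icc (-a₁) a₁, ∀ t ∈ Icc 0 T, (∀ i, 0 < ω i (a, t)) → 0 ≤ h (a, t) → 0 < r (a, t))
    (bar : ∀ i, ∃ ε > 0, ∀ a ∈ Icc (-a₁) a₁, ∀ t ∈ Ioo 0 T, (∀ j, 0 < ω j (a, t)) →
      0 < r (a, t) → ω i (a, t) < ε → ∃ d, 0 ≤ d ∧ HasDerivAt (fun s => ω i (a, s)) d t)
    (tr : ∃ ε > 0, ∀ a ∈ Icc (-a₁) a₁, ∀ t ∈ Ioo 0 T, (∀ j, 0 < ω j (a, t)) →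
      0 < r (a, t) → h (a, t) < ε → ∃ d < 0, HasDerivAt (fun s => h (a, s)) d t)
    (nz : ∀ a ∈ Icc (-a₁) a₁, ∀ t ∈ Icc 0 T, (∀ j, 0 < ω j (a, t)) → 0 < r (a, t) →
      h (a, t) ≤ 0 → l (a, t) ≠ 0)
    (nf : ∀ a ∈ Icc (-a₁) a₁, ¬ ∀ t ∈ Icc 0 T, (∀ j, 0 < ω j (a, t)) ∧ 0 ≤ h (a, t))
    (e1 : h (a₁, 0) < 0) (e2 : h (-a₁, 0) < 0) (e3 : l (a₁, 0) * l (-a₁, 0) < 0) : False := by
  classical
  let h' : ℝ × ℝ → ℝ := fun x => h (Shoot_P a₁ T x)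
  let l' : ℝ × ℝ → ℝ := fun x => l (Shoot_P a₁ T x)
  let ω' : Fin n → ℝ × ℝ → ℝ := fun i x => ω i (Shoot_P a₁ T x)
  have hext : ∀ f : ℝ × ℝ → ℝ, ContinuousOn f (Icc (-a₁) a₁ ×ˢ Icc 0 T) →
      Continuous fun x => f (Shoot_P a₁ T x) := fun f hf =>
    hf.comp_continuous (Shoot_Pc a₁ T) (Shoot_Pm ha hT)
  let V : ℝ → Set ℝ := fun σ => {a : ℝ | ∃ t ∈ Icc 0 T, h' (a, t) < 0 ∧ 0 < σ * l' (a, t) ∧
      ∀ s ∈ Icc 0 t, (∀ j, 0 < ω' j (a, s)) ∧ (0 < σ * l' (a, s) ∨ 0 < h' (a, s))}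
  have hV : ∀ σ, IsOpen (V σ) := fun σ =>
    Shoot_open σ (hext h hh) (hext l hl) fun i => hext (ω i) (hω i)
  have hVm : ∀ σ a, a ∈ Icc (-a₁) a₁ → (∃ t ∈ Icc 0 T, h (a, t) < 0 ∧ 0 < σ * l (a, t) ∧
      ∀ s ∈ Icc 0 t, (∀ j, 0 < ω j (a, s)) ∧ (0 < σ * l (a, s) ∨ 0 < h (a, s))) → a ∈ V σ := by
    rintro σ a haI ⟨t, ht, f1, f2, f3⟩
    refine ⟨t, ht, ?_, ?_, ?_⟩
    · show h (Shoot_P a₁ T (a, t)) < 0
      rw [Shoot_Pe haI ht]
      exact f1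
    · show 0 < σ * l (Shoot_P a₁ T (a, t))
      rw [Shoot_Pe haI ht]
      exact f2
    · intro s hs
      have hs' : s ∈ Icc 0 T := ⟨hs.1, hs.2.trans ht.2⟩
      show (∀ j, 0 < ω j (Shoot_P a₁ T (a, s))) ∧
        (0 < σ * l (Shoot_P a₁ T (a, s)) ∨ 0 < h (Shoot_P a₁ T (a, s)))
      rw [Shoot_Pe haI hs']
      exact f3 s hs
  have hline : ∀ a ∈ Icc (-a₁) a₁, ∀ f : ℝ × ℝ → ℝ,
      ContinuousOn f (Icc (-a₁) a₁ ×ˢ Icc 0 T) → ContinuousOn (fun t => f (a, t)) (Icc 0 T) := by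
    intro a haI f hf
    exact hf.comp (by fun_prop) fun t ht => ⟨haI, ht⟩
  have hT0 : (0:ℝ) ∈ Icc (0:ℝ) T := ⟨le_rfl, hT.le⟩
  have hcov : Icc (-a₁) a₁ ⊆ V 1 ∪ V (-1) := by
    intro a haI
    obtain ⟨σ, hσ, t, ht, f⟩ := Shoot_one (Ω := fun i t => ω i (a, t)) hT
      (hline a haI h hh) (hline a haI l hl) (hline a haI r hr)
      (fun i => hline a haI (ω i) (hω i)) (h0 a haI) (r0 a haI) (rh a haI)
      (fun i => by
        obtain ⟨ε, hε, hb⟩ := bar i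
        exact ⟨ε, hε, fun t ht => hb a haI t ht⟩)
      (by
        obtain ⟨ε, hε, hb⟩ := tr
        exact ⟨ε, hε, fun t ht => hb a haI t ht⟩)
      (nz a haI) (nf a haI)
    rcases hσ with rfl | rfl
    · exact Or.inl (hVm 1 a haI ⟨t, ht, f⟩)
    · exact Or.inr (hVm (-1) a haI ⟨t, ht, f⟩)
  have hstart : ∀ σ a, a ∈ Icc (-a₁) a₁ → h (a, 0) < 0 → 0 < σ * l (a, 0) → a ∈ V σ := by
    intro σ a haI f1 f2
    refine hVm σ a haI ⟨0, hT0, f1, f2, ?_⟩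
    intro s hs
    have hs0 : s = 0 := le_antisymm hs.2 hs.1
    subst hs0
    exact ⟨h0 a haI, Or.inl f2⟩
  have hp : a₁ ∈ Icc (-a₁) a₁ := ⟨by linarith, le_rfl⟩
  have hm : -a₁ ∈ Icc (-a₁) a₁ := ⟨le_rfl, by linarith⟩
  have hne : (Icc (-a₁) a₁ ∩ V 1).Nonempty ∧ (Icc (-a₁) a₁ ∩ V (-1)).Nonempty := by
    rcases mul_neg_iff.1 e3 with ⟨g1, g2⟩ | ⟨g1, g2⟩
    · exact ⟨⟨a₁, hp, hstart 1 a₁ hp e1 (by linarith)⟩,
        ⟨-a₁, hm, hstart (-1) (-a₁) hm e2 (by linarith)⟩⟩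
    · exact ⟨⟨-a₁, hm, hstart 1 (-a₁) hm e2 (by linarith)⟩,
        ⟨a₁, hp, hstart (-1) a₁ hp e1 (by linarith)⟩⟩
  obtain ⟨a, _, ⟨t, _, f1, f2, f3⟩, ⟨t', _, f1', f2', f3'⟩⟩ :=
    isPreconnected_Icc (V 1) (V (-1)) (hV 1) (hV (-1)) hcov hne.1 hne.2
  rcases le_total t t' with htt | htt
  · rcases le_or_gt 0 t with ht0 | ht0
    · rcases (f3' t ⟨ht0, htt⟩).2 with g | g <;> linarith
    · rename_i q1 q2
      linarith [q1.1]
  · rcases le_or_gt 0 t' with ht0 | ht0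
    · rcases (f3 t' ⟨ht0, htt⟩).2 with g | g <;> linarith
    · rename_i q1 q2
      linarith [q2.1]

end H72KB
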