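import Pool.Agent.H72.KB.Stat
import Pool.Agent.H72.KB.DetR
import Pool.Agent.H72.KB.PairR
import Pool.Agent.H72.KB.StA
import Pool.Agent.H72.KB.PLip

/-!
# Row StB: bounds valid in the trapped region

Notation as in StA; `κ = kap k > 0` (`kap_pos`), `C₄ = C (2 + K3 + 4 K2)`, `g` from `Det_low`.
`μs`: `C * C * C₄ * μs ≤ κ/8`, `μs ≤ 1`.
`ls` (depends on `μ, R`): `ls ≤ 1/2`, `8 R ls B ≤ 1` (so `Slow B (R l)` for `l ≤ 2 ls`: `16 ≤ B`, `0 < R l`, `4 R l B ≤ 1`),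
 `C C₄ μ 2 ls ≤ c`, `C₄ μ 2 ls ≤ g`, `C √(2 C C₄ μ ls) ≤ κ/8`, `C √(2 C C₄ μ ls) ≤ 1/2`.
`νs` (depends on `lm`): `νs ≤ 1`, `νs² ≤ μ lm`, `C νs ≤ κ lm/8`, `C √νs ≤ κ lm/8`, `νs ≤ c`, `C √νs ≤ 1/2`.
Proof.  (1) `CO`: `G ≤ C (L + φ² + q²)`; `L < μl`, `φ² < K3μl - K2 L ≤ K3μl + 4K2μl` (`L > -4μl`, `K2 ≥ 0`), `q² < ν₁² ≤ νs² ≤ μ lm ≤ μl`;
 so `G ≤ C₄ μ l`.  (2) `LN`: `n ≤ C G ≤ C C₄ μ l ≤ c`.  (3) `G ≤ g`: `Det > d0`, `orth_of_det` (`Adm` gives `0 < p, q ≤ 1/2`).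
(4) `BM`: `|b - κl| ≤ C (l √n + n + |q| + √Ge)`: `l √n ≤ l √(C C₄ μ 2 l₀)`, so `C l √n ≤ κl/8`; `C n ≤ C C C₄ μ l ≤ κl/8`;
 `C|q| ≤ C ν₁ ≤ κ lm/8 ≤ κl/8`; `C√Ge ≤ κl/8`.  Sum `≤ κl/2`.  `|m| ≤ C(√n+√Ge) ≤ 1`.
`st_X`: `X < K7 l - K6 L ≤ (K7 + 4 K6 μ) l`.
-/

open MeasureTheory Filter Topology Set
open scoped ContDiff

namespace H72KB

open H98KB

theorem st_X {k : ℕ} {γ η δ M B R μ K2 K3 K6 K7 ν₁ l : ℝ} {ε : ℝ → ℝ} (hK6 : 0 ≤ K6)
    (h : Reg k γ η δ M B R μ K2 K3 K6 K7 ν₁ l ε) : Xn ε ≤ (K7 + 4 * K6 * μ) * l := by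
  have h1 := h.w3
  have h2 := mul_le_mul_of_nonneg_left h.w0.le hK6
  nlinarith

theorem st_bounds {k : ℕ} (hk : 5 ≤ k) {γ η δ M B c C : ℝ} (hG : Good k γ η δ M B c C)
    (K2 K3 : ℝ) (hK2 : 0 ≤ K2) (hK3 : 0 ≤ K3) :
    ∃ μs : ℝ, 0 < μs ∧ ∀ μ, 0 < μ → μ ≤ μs → ∀ R, C ≤ R → 1 ≤ R →
    ∃ ls : ℝ, 0 < ls ∧ ls ≤ 1 / 2 ∧ ∀ l₀, 0 < l₀ → l₀ ≤ ls → ∀ lm, 0 < lm →
    ∃ νs : ℝ, 0 < νs ∧ ∀ ν₁, 0 < ν₁ → ν₁ ≤ νs → ∀ l, lm ≤ l → l ≤ 2 * l₀ →
    ∀ (K6 K7 p q : ℝ) (ε e : ℝ → ℝ), Adm (R * l) p q ε → Adm (R * l) p q e →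
    (∀ y, |ε y| ≤ c) → Reg k γ η δ M B R μ K2 K3 K6 K7 ν₁ l ε → Gn B (R * l) e ≤ νs →
    ln γ B ε ≤ c ∧ Gn B (R * l) e ≤ c ∧ Slow B (R * l) ∧
      Orth k (bfn k l (fun y => Qf k y + ε y) e) (mfn k l (fun y => Qf k y + ε y) e) l ε e ∧
      kap k * l / 2 ≤ bfn k l (fun y => Qf k y + ε y) e ∧
      bfn k l (fun y => Qf k y + ε y) e ≤ 2 * kap k * l ∧
      |mfn k l (fun y => Qf k y + ε y) e| ≤ 1 := by
  obtain ⟨g, hg, hDet⟩ := Det_low hk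
  have hκ := kap_pos hk
  have hC : 1 ≤ C := hG.hC
  have hC0 : 0 < C := by linarith
  have hB := hG.hB
  have hB0 : 0 < B := by linarith
  have hc := hG.hc
  set κ := kap k with hκdef
  set C₄ := C * (C * (2 + K3 + 4 * K2)) with hC4
  have hC4p : 0 < C₄ := by
    rw [hC4]
    positivity
  have hμs : 0 < κ / (8 * C * C * C₄) := by positivity
  refine ⟨κ / (8 * C * C * C₄), hμs, ?_⟩
  intro μ hμ hμμ R hRC hR1
  have hR0 : 0 < R := by linarith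
  set T := C * C₄ * μ with hT
  have hTp : 0 < T := by
    rw [hT]
    positivity
  have hCT : C * T ≤ κ / 8 := by
    have h1 : μ * (8 * C * C * C₄) ≤ κ := (le_div_iff₀ (by positivity)).1 hμμ
    rw [hT]
    linarith only [h1]
  have hC4T : C₄ * μ ≤ T := by
    rw [hT]
    have e1 := mul_le_mul_of_nonneg_right hC (mul_pos hC4p hμ).le
    linarith only [e1]
  set s₁ := κ / (8 * C) with hs1
  set s₂ := 1 / (2 * C) with hs2
  have hs1p : 0 < s₁ := by rw [hs1]; positivity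
  have hs2p : 0 < s₂ := by rw [hs2]; positivity
  have hs1C : C * s₁ = κ / 8 := by
    rw [hs1]
    field_simp
  have hs2C : C * s₂ = 1 / 2 := by
    rw [hs2]
    field_simp
  set t₀ := min (min c g) (min (s₁ ^ 2) (s₂ ^ 2)) with ht0
  have ht0p : 0 < t₀ := by
    rw [ht0]
    exact lt_min (lt_min hc hg) (lt_min (by positivity) (by positivity))
  have t1 : t₀ ≤ c := (min_le_left _ _).trans (min_le_left _ _)
  have t2 : t₀ ≤ g := (min_le_left _ _).trans (min_le_right _ _)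
  have t3 : t₀ ≤ s₁ ^ 2 := (min_le_right _ _).trans (min_le_left _ _)
  have t4 : t₀ ≤ s₂ ^ 2 := (min_le_right _ _).trans (min_le_right _ _)
  refine ⟨min (1 / 2) (min (1 / (8 * R * B)) (t₀ / (2 * T))), ?_, min_le_left _ _, ?_⟩
  · exact lt_min (by norm_num) (lt_min (by positivity) (by positivity))
  intro l₀ hl₀ hl₀s lm hlm
  have q1 : l₀ ≤ 1 / 2 := hl₀s.trans (min_le_left _ _)
  have q2 : l₀ ≤ 1 / (8 * R * B) := hl₀s.trans ((min_le_right _ _).trans (min_le_left _ _))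
  have q3 : l₀ ≤ t₀ / (2 * T) := hl₀s.trans ((min_le_right _ _).trans (min_le_right _ _))
  have q2' : l₀ * (8 * R * B) ≤ 1 := (le_div_iff₀ (by positivity)).1 q2
  have q3' : l₀ * (2 * T) ≤ t₀ := (le_div_iff₀ (by positivity)).1 q3
  set νs := min (min (min 1 c) (min (μ * lm) (s₁ * lm))) (min ((s₁ * lm) ^ 2) (s₂ ^ 2)) with hνs
  have hνsp : 0 < νs := by
    rw [hνs]
    refine lt_min (lt_min (lt_min one_pos hc) (lt_min (by positivity) (by positivity)))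
      (lt_min (by positivity) (by positivity))
  have n1 : νs ≤ 1 := (min_le_left _ _).trans ((min_le_left _ _).trans (min_le_left _ _))
  have n2 : νs ≤ c := (min_le_left _ _).trans ((min_le_left _ _).trans (min_le_right _ _))
  have n3 : νs ≤ μ * lm := (min_le_left _ _).trans ((min_le_right _ _).trans (min_le_left _ _))
  have n4 : νs ≤ s₁ * lm := (min_le_left _ _).trans ((min_le_right _ _).trans (min_le_right _ _))
  have n5 : νs ≤ (s₁ * lm) ^ 2 := (min_le_right _ _).trans (min_le_left _ _)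
  have n6 : νs ≤ s₂ ^ 2 := (min_le_right _ _).trans (min_le_right _ _)
  refine ⟨νs, hνsp, ?_⟩
  intro ν₁ hν₁ hν₁s l hlml hll K6 K7 p q ε e hA1 hA2 hsup hreg hGe
  have hl : 0 < l := hlm.trans_le hlml
  have hl1 : l ≤ 1 := by linarith
  have hRl : 0 < R * l := mul_pos hR0 hl
  have hslow : Slow B (R * l) := by
    refine ⟨hB, hRl, ?_⟩
    have h1 : R * l * B ≤ R * (2 * l₀) * B := by
      have := mul_le_mul_of_nonneg_left hll hR0.le
      exact mul_le_mul_of_nonneg_right this hB0.le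
    linarith only [h1, q2']
  obtain ⟨hco, -⟩ := hG.CO (R * l) hslow p q ε hA1 hsup
  obtain ⟨hln, -, -, -⟩ := hG.LN (R * l) hslow p q ε hA1
  have hGe1 : Gn B (R * l) e ≤ c := hGe.trans n2
  -- the bound of `G`
  have hν2 : ν₁ ^ 2 ≤ μ * l := by
    have h1 : ν₁ ^ 2 ≤ νs := by
      have e1 : ν₁ * ν₁ ≤ νs * 1 := mul_le_mul hν₁s (hν₁s.trans n1) hν₁.le hνsp.le
      rw [pow_two]
      linarith only [e1]
    have h2 : μ * lm ≤ μ * l := mul_le_mul_of_nonneg_left hlml hμ.le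
    linarith
  have hGn : Gn B (R * l) ε ≤ C₄ * μ * l := by
    have h1 := hreg.w1
    have h2 := hreg.w2
    have h3 := hreg.wq
    have h4 := mul_le_mul_of_nonneg_left hreg.w0.le hK2
    have h50 : (ip ε (ph0 k)) ^ 2 + (ip ε (deriv (Qf k))) ^ 2 ≤
        (1 + K3 + 4 * K2) * (μ * l) := by linarith only [h2, h3, h4, hν2]
    have h51 := mul_le_mul_of_nonneg_left h50 hC0.le
    have h52 : μ * l ≤ C * (μ * l) := le_mul_of_one_le_left (mul_pos hμ hl).le hC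
    have h5 : LL k η γ δ M B (R * l) ε + C * ((ip ε (ph0 k)) ^ 2 + (ip ε (deriv (Qf k))) ^ 2) ≤
        C * (2 + K3 + 4 * K2) * (μ * l) := by linarith only [h1, h51, h52]
    have h6 := mul_le_mul_of_nonneg_left h5 hC0.le
    calc Gn B (R * l) ε ≤ _ := hco
      _ ≤ C * (C * (2 + K3 + 4 * K2) * (μ * l)) := h6
      _ = C₄ * μ * l := by rw [hC4]; ring
  have hnT : ln γ B ε ≤ T * l := by
    have h6 := mul_le_mul_of_nonneg_left hGn hC0.le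
    calc ln γ B ε ≤ C * Gn B (R * l) ε := hln
      _ ≤ C * (C₄ * μ * l) := h6
      _ = T * l := by rw [hT]; ring
  have hTl : T * l ≤ t₀ := by
    have := mul_le_mul_of_nonneg_left hll hTp.le
    linarith
  have hnt : ln γ B ε ≤ t₀ := hnT.trans hTl
  have hn1 : ln γ B ε ≤ c := hnt.trans t1
  have hGg : Gn B (R * l) ε ≤ g := by
    have h1 : C₄ * μ * l ≤ T * l := mul_le_mul_of_nonneg_right hC4T hl.le
    linarith
  have hD := hDet B (R * l) p q ε hslow hA1 hGg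
  obtain ⟨a1, a2, a3, a4, a5⟩ := hA1
  obtain ⟨b1, b2, b3, b4, b5⟩ := hA2
  have horth := orth_of_det hk (hRl.trans a1) a3 (by linarith) (by linarith) a5 b5 l hD (d0_pos hk)
  obtain ⟨hb, hm⟩ := hG.BM (R * l) hslow l hl hl1 p q ε e ⟨a1, a2, a3, a4, a5⟩
    ⟨b1, b2, b3, b4, b5⟩ hsup hn1 hGe1 _ _ horth
  -- the square roots
  have r1 : √(ln γ B ε) ≤ s₁ := by
    rw [← Real.sqrt_sq hs1p.le]
    exact Real.sqrt_le_sqrt (hnt.trans t3)
  have r2 : √(ln γ B ε) ≤ s₂ := by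
    rw [← Real.sqrt_sq hs2p.le]
    exact Real.sqrt_le_sqrt (hnt.trans t4)
  have r3 : √(Gn B (R * l) e) ≤ s₁ * lm := by
    rw [← Real.sqrt_sq (mul_pos hs1p hlm).le]
    exact Real.sqrt_le_sqrt (hGe.trans n5)
  have r4 : √(Gn B (R * l) e) ≤ s₂ := by
    rw [← Real.sqrt_sq hs2p.le]
    exact Real.sqrt_le_sqrt (hGe.trans n6)
  have r5 : |ip ε (deriv (Qf k))| ≤ s₁ * lm := by
    have := abs_lt_of_sq_lt_sq hreg.wq hν₁.le
    linarith
  have hs1l : s₁ * lm ≤ s₁ * l := mul_le_mul_of_nonneg_left hlml hs1p.le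
  have e1 : C * (l * √(ln γ B ε)) ≤ κ / 8 * l := by
    calc C * (l * √(ln γ B ε)) ≤ C * (l * s₁) :=
          mul_le_mul_of_nonneg_left (mul_le_mul_of_nonneg_left r1 hl.le) hC0.le
      _ = C * s₁ * l := by ring
      _ = κ / 8 * l := by rw [hs1C]
  have e2 : C * ln γ B ε ≤ κ / 8 * l := by
    calc C * ln γ B ε ≤ C * (T * l) := mul_le_mul_of_nonneg_left hnT hC0.le
      _ = C * T * l := by ring
      _ ≤ κ / 8 * l := mul_le_mul_of_nonneg_right hCT hl.le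
  have e3 : C * |ip ε (deriv (Qf k))| ≤ κ / 8 * l := by
    calc C * |ip ε (deriv (Qf k))| ≤ C * (s₁ * l) :=
          mul_le_mul_of_nonneg_left (r5.trans hs1l) hC0.le
      _ = C * s₁ * l := by ring
      _ = κ / 8 * l := by rw [hs1C]
  have e4 : C * √(Gn B (R * l) e) ≤ κ / 8 * l := by
    calc C * √(Gn B (R * l) e) ≤ C * (s₁ * l) :=
          mul_le_mul_of_nonneg_left (r3.trans hs1l) hC0.le
      _ = C * s₁ * l := by ring
      _ = κ / 8 * l := by rw [hs1C]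
  have e5 : C * √(ln γ B ε) ≤ 1 / 2 := by
    rw [← hs2C]
    exact mul_le_mul_of_nonneg_left r2 hC0.le
  have e6 : C * √(Gn B (R * l) e) ≤ 1 / 2 := by
    rw [← hs2C]
    exact mul_le_mul_of_nonneg_left r4 hC0.le
  have hb' : |bfn k l (fun y => Qf k y + ε y) e - κ * l| ≤ κ * l / 2 := by
    refine hb.trans ?_
    have : C * (l * √(ln γ B ε) + ln γ B ε + |ip ε (deriv (Qf k))| + √(Gn B (R * l) e)) =
        C * (l * √(ln γ B ε)) + C * ln γ B ε + C * |ip ε (deriv (Qf k))| +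
          C * √(Gn B (R * l) e) := by ring
    rw [this]
    linarith
  have hm' : |mfn k l (fun y => Qf k y + ε y) e| ≤ 1 := by
    refine hm.trans ?_
    have : C * (√(ln γ B ε) + √(Gn B (R * l) e)) =
        C * √(ln γ B ε) + C * √(Gn B (R * l) e) := by ring
    rw [this]
    linarith
  have hκl : 0 < κ * l := mul_pos hκ hl
  rw [abs_le] at hb'
  refine ⟨hn1, hGe1, hslow, horth, ?_, ?_, hm'⟩
  · linarith [hb'.1]
  · linarith [hb'.2]

end H72KB
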