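import Pool.Agent.H72.KB.Base

/-! # Definitions for the static part of the bootstrap -/

open MeasureTheory Filter Topology Set
open scoped ContDiff

noncomputable section

namespace H72KB

open H98KB

/-- the trapped region at a given time (`l = λ`) -/
structure Reg (k : ℕ) (γ η δ M B R μ K2 K3 K6 K7 ν₁ l : ℝ) (ε : ℝ → ℝ) : Prop where
  w0 : -(4 * μ * l) < LL k η γ δ M B (R * l) ε
  w1 : LL k η γ δ M B (R * l) ε < μ * l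
  w2 : (ip ε (ph0 k)) ^ 2 + K2 * LL k η γ δ M B (R * l) ε < K3 * μ * l
  w3 : Xn ε + K6 * LL k η γ δ M B (R * l) ε < K7 * l
  wp : (ip ε (Qf k)) ^ 2 < ν₁ ^ 2
  wq : (ip ε (deriv (Qf k))) ^ 2 < ν₁ ^ 2

/-- `λ³ d/dt LL` -/
def W3 (k : ℕ) (η γ δ M B R l b m : ℝ) (ε e : ℝ → ℝ) : ℝ :=
  M * DE k B (R * l) b ε (zeta k b m l ε e) + DV k η γ B δ ε (zeta k b m l ε e)

/-- all facts on the state used by the differential inequalities -/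
structure St (k : ℕ) (γ η δ M B c R μ K2 K3 K6 K7 ν₁ ν l b m p q : ℝ) (ε e : ℝ → ℝ) :
    Prop where
  l0 : 0 < l
  l1 : l ≤ 1
  a1 : Adm (R * l) p q ε
  a2 : Adm (R * l) p q e
  sup : ∀ y, |ε y| ≤ c
  reg : Reg k γ η δ M B R μ K2 K3 K6 K7 ν₁ l ε
  ge : Gn B (R * l) e ≤ ν
  xe : Xn e ≤ ν
  ln1 : ln γ B ε ≤ c
  ge1 : Gn B (R * l) e ≤ c
  slow : Slow B (R * l)
  orth : Orth k b m l ε e
  b1 : kap k * l / 2 ≤ b
  b2 : b ≤ 2 * kap k * l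
  dx : ∀ y, |ε y| ^ (4 * (k - 1)) * (Xn ε) ^ 5 ≤ l ^ 7

/-- conclusions used by the shooting argument -/
structure Dyn (k : ℕ) (γ η δ M B R μ K2 K3 K6 K7 l b m : ℝ) (ε e : ℝ → ℝ) : Prop where
  orth : Orth k b m l ε e
  b1 : kap k * l / 2 ≤ b
  b2 : b ≤ 2 * kap k * l
  m1 : |m| ≤ 1
  t1 : μ * l / 2 ≤ |LL k η γ δ M B (R * l) ε| → W3 k η γ δ M B R l b m ε e < -(μ * b * l)
  t2 : K3 * μ * l / 2 ≤ (ip ε (ph0 k)) ^ 2 + K2 * LL k η γ δ M B (R * l) ε →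
    2 * ip ε (ph0 k) * ip (zeta k b m l ε e) (ph0 k) + K2 * W3 k η γ δ M B R l b m ε e <
      -(K3 * μ * b * l)
  t3 : ((k : ℝ) + 3) / ((k : ℝ) + 4) * K7 * l ≤ Xn ε + K6 * LL k η γ δ M B (R * l) ε →
    2 * ip (deriv ε) (deriv (zeta k b m l ε e)) + K6 * W3 k η γ δ M B R l b m ε e <
      -(K7 * b * l)
  nz : LL k η γ δ M B (R * l) ε ≤ -(μ * l) → ip ε (ph0 k) ≠ 0

end H72KB

end
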