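import Pool.Agent.H72.KB.Base
import Pool.Agent.H72.KB.QBas

/-!
# Row ZB: bounds for `zeta` along a `Flow`

Proof.  `zeta = deriv (gf k ε) + Nf k b m l ε - deriv e`, `gf k ε = -ε'' + ε - Df k ε`,
`Df k ε = fl k (Q+ε) - fl k Q = ∑_{i=1}^{k+1} binom(k+1,i)/(k+1) Q^{k+1-i} ε^i`: a sum of products containing at least one
factor `ε`.  UNIFORM version of the algebra of `Cl` needed here: for a family `f_t`, `t ∈ J`, say `UC w f` if every
`f_t` is smooth and `∀ j ∃ C ∀ t ∈ J ∀ y, |iteratedDeriv j (f_t) y| ≤ C w_t(y)` with weights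
`w_t = bd (R lam t + s) s`.  Closed under sums, bounded scalar multiples `c_t f_t`, derivatives, products with a
family bounded with all derivatives (`UC 1`; in particular `Q` and powers, and `f ∈ UC` itself since `bd ≤ 1`),
and multiplication by `y` if `s = θ` is replaced by `s = θ/2` (`bd_poly` with constants independent of `t`: the
difference of the exponents is `θ/2`, so use `(1+|y|) e^{-θ|y|/2} ≤ C`).
Terms: `-b Lam Q`, `m Q'`, `l Q''`: `|iteratedDeriv j| ≤ C bd (3/4)(3/4)`-type bounds (`Q ∈ Cl 1 1`, `y Q' ∈ Cl (3/4) (3/4)`),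
and `3/4 ≥ R lam + θ/2`, `≥ θ/2` because `R lam t + θ ≤ 1/2`.  `b, m` bounded by `F.bm`, `l = lam t ≤ 1`.
-/

open MeasureTheory Filter Topology Set
open scoped ContDiff

namespace H72KB

open H98KB

/-- uniform class of a family indexed by `t ∈ J` -/
def ZB_UC (J : Set ℝ) (w f : ℝ → ℝ → ℝ) : Prop :=
  (∀ t ∈ J, ContDiff ℝ ∞ (f t)) ∧ ∀ j : ℕ, ∃ C : ℝ, 0 ≤ C ∧ ∀ t ∈ J, ∀ y,
    |iteratedDeriv j (f t) y| ≤ C * w t y

theorem ZB_cd_deriv {f : ℝ → ℝ} (h : ContDiff ℝ ∞ f) : ContDiff ℝ ∞ (deriv f) :=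
  (contDiff_infty_iff_deriv.1 h).2

section
variable {J : Set ℝ} {w w' f g : ℝ → ℝ → ℝ}

theorem ZB_mk (h1 : ∀ t ∈ J, ContDiff ℝ ∞ (f t)) (hw : ∀ t y, 0 ≤ w t y)
    (h2 : ∀ j : ℕ, ∃ C : ℝ, ∀ t ∈ J, ∀ y, |iteratedDeriv j (f t) y| ≤ C * w t y) :
    ZB_UC J w f := by
  refine ⟨h1, fun j => ?_⟩
  obtain ⟨C, hC⟩ := h2 j
  exact ⟨|C|, abs_nonneg C, fun t ht y =>
    (hC t ht y).trans (mul_le_mul_of_nonneg_right (le_abs_self C) (hw t y))⟩

theorem ZB_mono (h : ZB_UC J w f) {K : ℝ} (hK : 0 ≤ K)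
    (hw : ∀ t ∈ J, ∀ y, w t y ≤ K * w' t y) : ZB_UC J w' f := by
  refine ⟨h.1, fun j => ?_⟩
  obtain ⟨C, hC0, hC⟩ := h.2 j
  refine ⟨C * K, mul_nonneg hC0 hK, fun t ht y => (hC t ht y).trans ?_⟩
  rw [mul_assoc]
  exact mul_le_mul_of_nonneg_left (hw t ht y) hC0

theorem ZB_add (hf : ZB_UC J w f) (hg : ZB_UC J w g) :
    ZB_UC J w (fun t y => f t y + g t y) := by
  refine ⟨fun t ht => (hf.1 t ht).add (hg.1 t ht), fun j => ?_⟩
  obtain ⟨A, hA0, hA⟩ := hf.2 j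
  obtain ⟨B, hB0, hB⟩ := hg.2 j
  refine ⟨A + B, add_nonneg hA0 hB0, fun t ht y => ?_⟩
  rw [iteratedDeriv_fun_add (ClB_at (hf.1 t ht) j y) (ClB_at (hg.1 t ht) j y), add_mul]
  exact (abs_add_le _ _).trans (add_le_add (hA t ht y) (hB t ht y))

theorem ZB_smul (hw : ∀ t y, 0 ≤ w t y) (hf : ZB_UC J w f) {c : ℝ → ℝ} {K : ℝ}
    (hc : ∀ t ∈ J, |c t| ≤ K) (hK : 0 ≤ K) : ZB_UC J w (fun t y => c t * f t y) := by
  refine ⟨fun t ht => contDiff_const.mul (hf.1 t ht), fun j => ?_⟩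
  obtain ⟨A, hA0, hA⟩ := hf.2 j
  refine ⟨K * A, mul_nonneg hK hA0, fun t ht y => ?_⟩
  rw [iteratedDeriv_const_mul_field, abs_mul, mul_assoc]
  exact mul_le_mul (hc t ht) (hA t ht y) (abs_nonneg _) hK

theorem ZB_neg (hw : ∀ t y, 0 ≤ w t y) (hf : ZB_UC J w f) :
    ZB_UC J w (fun t y => -f t y) := by
  have h := ZB_smul hw hf (c := fun _ => -1) (K := 1) (fun t _ => by simp) zero_le_one
  have e : (fun t y => -f t y) = fun t y => -1 * f t y := by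
    funext t y
    ring
  rw [e]
  exact h

theorem ZB_sub (hw : ∀ t y, 0 ≤ w t y) (hf : ZB_UC J w f) (hg : ZB_UC J w g) :
    ZB_UC J w (fun t y => f t y - g t y) := by
  have h := ZB_add hf (ZB_neg hw hg)
  have e : (fun t y => f t y - g t y) = fun t y => f t y + -g t y := by
    funext t y
    ring
  rw [e]
  exact h

theorem ZB_deriv (hf : ZB_UC J w f) : ZB_UC J w (fun t => deriv (f t)) := by
  refine ⟨fun t ht => ZB_cd_deriv (hf.1 t ht), fun j => ?_⟩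
  obtain ⟨C, hC0, hC⟩ := hf.2 (j + 1)
  refine ⟨C, hC0, fun t ht y => ?_⟩
  show |iteratedDeriv j (deriv (f t)) y| ≤ C * w t y
  rw [← iteratedDeriv_succ']
  exact hC t ht y

theorem ZB_mul (hw : ∀ t y, 0 ≤ w t y) (hw' : ∀ t y, 0 ≤ w' t y) (hf : ZB_UC J w f)
    (hg : ZB_UC J w' g) : ZB_UC J (fun t y => w t y * w' t y) (fun t y => f t y * g t y) := by
  refine ⟨fun t ht => (hf.1 t ht).mul (hg.1 t ht), fun j => ?_⟩
  choose A hA0 hA using hf.2
  choose B hB0 hB using hg.2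
  refine ⟨∑ i ∈ Finset.range (j + 1), (j.choose i : ℝ) * A i * B (j - i),
    Finset.sum_nonneg fun i _ => mul_nonneg (mul_nonneg (Nat.cast_nonneg _) (hA0 _)) (hB0 _),
    fun t ht y => ?_⟩
  rw [iteratedDeriv_fun_mul (ClB_at (hf.1 t ht) j y) (ClB_at (hg.1 t ht) j y), Finset.sum_mul]
  refine (Finset.abs_sum_le_sum_abs _ _).trans (Finset.sum_le_sum fun i _ => ?_)
  rw [abs_mul, abs_mul, Nat.abs_cast, mul_assoc]
  have h1 : |iteratedDeriv i (f t) y| * |iteratedDeriv (j - i) (g t) y|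
      ≤ (A i * w t y) * (B (j - i) * w' t y) :=
    mul_le_mul (hA i t ht y) (hB (j - i) t ht y) (abs_nonneg _)
      (mul_nonneg (hA0 i) (hw t y))
  calc (j.choose i : ℝ) * (|iteratedDeriv i (f t) y| * |iteratedDeriv (j - i) (g t) y|)
      ≤ (j.choose i : ℝ) * ((A i * w t y) * (B (j - i) * w' t y)) :=
        mul_le_mul_of_nonneg_left h1 (Nat.cast_nonneg _)
    _ = (j.choose i : ℝ) * A i * B (j - i) * (w t y * w' t y) := by ring

theorem ZB_mul_one (hw : ∀ t y, 0 ≤ w t y) (hf : ZB_UC J w f)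
    (hg : ZB_UC J (fun _ _ => 1) g) : ZB_UC J w (fun t y => f t y * g t y) := by
  refine ZB_mono (ZB_mul hw (fun _ _ => zero_le_one) hf hg) zero_le_one ?_
  intro t _ y
  simp

theorem ZB_pow (hf : ZB_UC J (fun _ _ => 1) f) (n : ℕ) :
    ZB_UC J (fun _ _ => 1) (fun t y => f t y ^ n) := by
  induction n with
  | zero =>
    have e : (fun t y => f t y ^ 0) = fun (_ : ℝ) (_ : ℝ) => (1 : ℝ) := by
      funext t y
      rw [pow_zero]
    rw [e]
    refine ⟨fun t _ => contDiff_const, fun j => ⟨1, zero_le_one, fun t _ y => ?_⟩⟩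
    rw [iteratedDeriv_const]
    split_ifs <;> simp
  | succ n ih =>
    have e : (fun t y => f t y ^ (n + 1)) = fun t y => f t y ^ n * f t y := by
      funext t y
      rw [pow_succ]
    rw [e]
    exact ZB_mul_one (fun _ _ => zero_le_one) ih hf

theorem ZB_ymul (hw : ∀ t y, 0 ≤ w t y) {K : ℝ} (hK : 0 ≤ K)
    (hww : ∀ t ∈ J, ∀ y, (1 + |y|) * w t y ≤ K * w' t y) (hf : ZB_UC J w f) :
    ZB_UC J w' (fun t y => y * f t y) := by
  have hid : ZB_UC J (fun _ y => 1 + |y|) (fun _ y => y) := by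
    refine ⟨fun t _ => contDiff_fun_id, fun j => ⟨1, zero_le_one, fun t _ y => ?_⟩⟩
    show |iteratedDeriv j (fun y : ℝ => y) y| ≤ 1 * (1 + |y|)
    rw [iteratedDeriv_fun_id]
    have := abs_nonneg y
    split_ifs
    · linarith
    · rw [abs_one]
      linarith
    · rw [abs_zero]
      linarith
  exact ZB_mono (ZB_mul (fun t y => by positivity) hw hid hf) hK hww

/-- difference of powers -/
theorem ZB_dpow (hw : ∀ t y, 0 ≤ w t y) {q : ℝ → ℝ → ℝ} (hq : ZB_UC J (fun _ _ => 1) q)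
    (h1 : ZB_UC J (fun _ _ => 1) f) (hf : ZB_UC J w f) (n : ℕ) :
    ZB_UC J w (fun t y => (q t y + f t y) ^ n - q t y ^ n) := by
  induction n with
  | zero =>
    have e : (fun t y => (q t y + f t y) ^ 0 - q t y ^ 0) = fun (_ : ℝ) (_ : ℝ) => (0 : ℝ) := by
      funext t y
      rw [pow_zero, pow_zero, sub_self]
    rw [e]
    refine ⟨fun t _ => contDiff_const, fun j => ⟨0, le_rfl, fun t _ y => ?_⟩⟩
    rw [iteratedDeriv_const]
    split_ifs <;> simp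
  | succ n ih =>
    have e : (fun t y => (q t y + f t y) ^ (n + 1) - q t y ^ (n + 1)) = fun t y =>
        ((q t y + f t y) ^ n - q t y ^ n) * (q t y + f t y) + f t y * q t y ^ n := by
      funext t y
      rw [pow_succ, pow_succ]
      ring
    rw [e]
    exact ZB_add (ZB_mul_one hw ih (ZB_add hq h1)) (ZB_mul_one hw hf (ZB_pow hq n))

theorem ZB_const {p q : ℝ} {h : ℝ → ℝ} (hh : Cl p q h) (hw : ∀ t y, 0 ≤ w t y)
    (hp : ∀ t ∈ J, ∀ y, bd p q y ≤ w t y) : ZB_UC J w (fun _ => h) := by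
  refine ⟨fun t _ => hh.1, fun j => ?_⟩
  obtain ⟨C, hC0, hC⟩ := ClB_pos hh j
  exact ⟨C, hC0, fun t ht y => (hC y).trans (mul_le_mul_of_nonneg_left (hp t ht y) hC0)⟩

end

theorem zeta_smooth {k : ℕ} (hk : 1 ≤ k) (b m l : ℝ) {ε e : ℝ → ℝ} (hε : ContDiff ℝ ∞ ε)
    (he : ContDiff ℝ ∞ e) : ContDiff ℝ ∞ (zeta k b m l ε e) := by
  have hQ : ContDiff ℝ ∞ (Qf k) := (Q_cl hk).1
  have hid : ContDiff ℝ ∞ (fun y : ℝ => y) := contDiff_fun_id
  have hfl : ∀ f : ℝ → ℝ, ContDiff ℝ ∞ f → ContDiff ℝ ∞ (fun y => fl k (f y)) := by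
    intro f hf
    exact (hf.pow (k + 1)).div_const _
  have hLam : ∀ f : ℝ → ℝ, ContDiff ℝ ∞ f → ContDiff ℝ ∞ (fun y => Lam k f y) := by
    intro f hf
    exact (contDiff_const.mul hf).add (hid.mul (ZB_cd_deriv hf))
  have hD : ContDiff ℝ ∞ (fun y => Df k ε y) :=
    (hfl _ (hQ.add hε)).sub (hfl _ hQ)
  have hg : ContDiff ℝ ∞ (gf k ε) :=
    ((ZB_cd_deriv (ZB_cd_deriv hε)).neg.add hε).sub hD
  have hN : ContDiff ℝ ∞ (fun y => Nf k b m l ε y) :=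
    (((((contDiff_const.mul (hLam _ hQ)).add (contDiff_const.mul (ZB_cd_deriv hQ))).add
      (contDiff_const.mul (ZB_cd_deriv (ZB_cd_deriv hQ)))).sub
      (contDiff_const.mul (hLam _ hε))).add (contDiff_const.mul (ZB_cd_deriv hε))).add
      (contDiff_const.mul (ZB_cd_deriv (ZB_cd_deriv hε)))
  exact ((ZB_cd_deriv hg).add hN).sub (ZB_cd_deriv he)

theorem zeta_bound {k : ℕ} {R θ : ℝ} {J : Set ℝ} {lam b m : ℝ → ℝ} {ε e : ℝ → ℝ → ℝ}
    (hk : 1 ≤ k) (F : Flow k R θ J lam b m ε e) (j : ℕ) : ∃ C : ℝ, 0 ≤ C ∧ ∀ t ∈ J, ∀ y,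
      |iteratedDeriv j (zeta k (b t) (m t) (lam t) (ε t) (e t)) y| ≤
        C * bd (R * lam t + θ / 2) (θ / 2) y := by
  set wa : ℝ → ℝ → ℝ := fun t y => bd (R * lam t + θ) θ y with hwa
  set wb : ℝ → ℝ → ℝ := fun t y => bd (R * lam t + θ / 2) (θ / 2) y with hwb
  have ha0 : ∀ t y, 0 ≤ wa t y := fun t y => (bd_pos _ _ _).le
  have hb0 : ∀ t y, 0 ≤ wb t y := fun t y => (bd_pos _ _ _).le
  have hθ := F.θ0
  have hRl : ∀ t ∈ J, 0 ≤ R * lam t := fun t ht =>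
    mul_nonneg F.R0 (hθ.le.trans (F.lo t ht))
  have hab : ∀ t ∈ J, ∀ y, wa t y ≤ 1 * wb t y := by
    intro t _ y
    rw [one_mul]
    exact bd_anti (by linarith) (by linarith) y
  have ha1 : ∀ t ∈ J, ∀ y, wa t y ≤ 1 * (fun (_ : ℝ) (_ : ℝ) => (1 : ℝ)) t y := by
    intro t ht y
    simp only [mul_one]
    exact bd_le_one (by linarith [hRl t ht]) hθ.le y
  have hε : ZB_UC J wa ε := ZB_mk F.sm ha0 F.bd
  have he : ZB_UC J wa e := ZB_mk F.se ha0 F.be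
  have hε1 : ZB_UC J (fun _ _ => 1) ε := ZB_mono hε zero_le_one ha1
  have hεb : ZB_UC J wb ε := ZB_mono hε zero_le_one hab
  have heb : ZB_UC J wb e := ZB_mono he zero_le_one hab
  have hQ1 : ZB_UC J (fun _ _ => 1) (fun _ => Qf k) :=
    ZB_const (Q_cl hk) (fun _ _ => zero_le_one)
      fun t _ y => bd_le_one zero_le_one zero_le_one y
  have hw34 : ∀ t ∈ J, ∀ y, bd (3 / 4) (3 / 4) y ≤ wb t y := by
    intro t ht y
    have h1 := F.hr t ht
    have h2 := hRl t ht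
    exact bd_anti (by linarith) (by linarith) y
  have hQ34 : Cl (3 / 4) (3 / 4) (Qf k) := Cl_mono (by norm_num) (by norm_num) (Q_cl hk)
  have hQb : ZB_UC J wb (fun _ => Qf k) := ZB_const hQ34 hb0 hw34
  have hyQ : ZB_UC J wb (fun _ y => y * deriv (Qf k) y) :=
    ZB_const (Cl_ymul (by norm_num) (by norm_num) (Cl_deriv (Q_cl hk))) hb0 hw34
  -- the multiplication by `y`
  obtain ⟨K, hK0, hK⟩ := bd_poly 1 (p := θ / 2) (p' := 0) (q := θ / 2) (q' := 0)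
    (by linarith) (by linarith)
  have hyw : ∀ t ∈ J, ∀ y, (1 + |y|) * wa t y ≤ K * wb t y := by
    intro t _ y
    have h1 := hK y
    rw [pow_one] at h1
    have h2 : wa t y = bd (θ / 2) (θ / 2) y * wb t y := by
      simp only [hwa, hwb]
      rw [bd_mul]
      congr 1 <;> ring
    have h3 : bd 0 0 y = 1 := by
      unfold bd
      simp
    rw [h3, mul_one] at h1
    rw [h2, ← mul_assoc]
    exact mul_le_mul_of_nonneg_right h1 (hb0 t y)
  have hyε : ZB_UC J wb (fun t y => y * deriv (ε t) y) :=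
    ZB_ymul ha0 hK0.le hyw (ZB_deriv hε)
  -- the difference `Df`
  have hD : ZB_UC J wb (fun t y => Df k (ε t) y) := by
    have h1 := ZB_dpow hb0 hQ1 hε1 hεb (k + 1)
    have h2 := ZB_smul hb0 h1 (c := fun _ => ((k : ℝ) + 1)⁻¹) (K := |((k : ℝ) + 1)⁻¹|)
      (fun t _ => le_rfl) (abs_nonneg _)
    have e : (fun t y => Df k (ε t) y) = fun t y =>
        ((k : ℝ) + 1)⁻¹ * ((Qf k y + ε t y) ^ (k + 1) - Qf k y ^ (k + 1)) := by
      funext t y
      unfold Df fl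
      ring
    rw [e]
    exact h2
  have hg : ZB_UC J wb (fun t => gf k (ε t)) :=
    ZB_sub hb0 (ZB_add (ZB_neg hb0 (ZB_deriv (ZB_deriv hεb))) hεb) hD
  obtain ⟨B, hB⟩ := F.bm
  have hbB : ∀ t ∈ J, |b t| ≤ |B| := fun t ht => ((hB t ht).1).trans (le_abs_self B)
  have hnB : ∀ t ∈ J, |(-b t)| ≤ |B| := fun t ht => by
    rw [abs_neg]
    exact hbB t ht
  have hmB : ∀ t ∈ J, |m t| ≤ |B| := fun t ht => ((hB t ht).2).trans (le_abs_self B)
  have hlB : ∀ t ∈ J, |lam t| ≤ 1 := fun t ht => by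
    rw [abs_of_nonneg (hθ.le.trans (F.lo t ht))]
    exact F.hi t ht
  have hLam : ∀ f : ℝ → ℝ → ℝ, ZB_UC J wb f → ZB_UC J wb (fun t y => y * deriv (f t) y) →
      ZB_UC J wb (fun t y => Lam k (f t) y) := by
    intro f h1 h2
    exact ZB_add (ZB_smul hb0 h1 (c := fun _ => 2 / (k : ℝ)) (K := |2 / (k : ℝ)|)
      (fun t _ => le_rfl) (abs_nonneg _)) h2
  have hN : ZB_UC J wb (fun t y => Nf k (b t) (m t) (lam t) (ε t) y) := by
    have t1 := ZB_smul hb0 (hLam _ hQb hyQ) hnB (abs_nonneg B)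
    have t2 := ZB_smul hb0 (ZB_deriv hQb) hmB (abs_nonneg B)
    have t3 := ZB_smul hb0 (ZB_deriv (ZB_deriv hQb)) hlB zero_le_one
    have t4 := ZB_smul hb0 (hLam _ hεb hyε) hbB (abs_nonneg B)
    have t5 := ZB_smul hb0 (ZB_deriv hεb) hmB (abs_nonneg B)
    have t6 := ZB_smul hb0 (ZB_deriv (ZB_deriv hεb)) hlB zero_le_one
    exact ZB_add (ZB_add (ZB_sub hb0 (ZB_add (ZB_add t1 t2) t3) t4) t5) t6
  have hz : ZB_UC J wb (fun t => zeta k (b t) (m t) (lam t) (ε t) (e t)) :=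
    ZB_sub hb0 (ZB_add (ZB_deriv hg) hN) (ZB_deriv heb)
  exact hz.2 j

end H72KB
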